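import Mathlib
import Pool.Agent.H499R2.CO.S2

set_option autoImplicit false

/-!
# Merging classes in spread sets on the negative side

A quantitative variant of `Pool.Agent.H499R2.CO.sufficient_side` for `s = -1`: every invariant set of
integers with a negative element has positive lower density in every set which is not too sparse in
most short intervals. Only the exponents `θ < 1` are used (for `θ ≥ 1` the intervals reach the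
positive integers).
-/

namespace Pool.Agent.X213.SuffNeg

open Finset Filter Topology Pool.Agent.H499R2.ND Pool.Agent.H499R2.CO

theorem not_coal {n j : ℕ} (hn : 1 ≤ n) (hj : n ≤ j) (t : ℕ) :
    (Tz 1)^[t] (-1 * (n : ℤ)) ≠ (Tz 1)^[t] (-1 * (n : ℤ) + (j : ℤ)) := by
  intro h
  have h1 : 0 < (-1 : ℤ) * (-1 * (n : ℤ)) := by omega
  have h2 : ¬ 0 < (-1 : ℤ) * (-1 * (n : ℤ) + (j : ℤ)) := by omega
  rw [sign_pos_iter (Or.inr rfl) t] at h1 h2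
  rw [h] at h1
  exact h2 h1

open Classical in
theorem solid_neg {ε κ : ℝ} (hε : 0 < ε) (hκ : 0 < κ) :
    ∃ θ : ℝ, 0 < θ ∧ θ < 1 ∧ ∃ N0 : ℕ, ∀ N ≥ N0,
    (#{n ∈ Icc 1 N | κ * ⌊(N : ℝ) ^ θ⌋₊ <
      (#{j ∈ Icc 1 ⌊(N : ℝ) ^ θ⌋₊ | ¬ ∃ t, 2 ^ t ≤ N ∧
        (Tz 1)^[t] (-1 * ((n : ℕ) : ℤ)) = (Tz 1)^[t] (-1 * ((n : ℕ) : ℤ) + ((j : ℕ) : ℤ))} : ℝ)} : ℝ) ≤
        ε * N := by
  obtain ⟨θ, hθ, N0, hN0⟩ := solid_side (s := -1) (Or.inr rfl) (ε := min ε (1 / 8))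
    (κ := min κ (1 / 8)) (by positivity) (by positivity)
  refine ⟨θ, hθ, ?_, N0, fun N hN => ?_⟩
  · by_contra hcon
    rw [not_lt] at hcon
    obtain ⟨N, hN1, hN2⟩ : ∃ N : ℕ, N0 ≤ 2 * N ∧ 4 ≤ N := ⟨N0 + 4, by omega, by omega⟩
    have h := hN0 (2 * N) hN1
    set H := ⌊((2 * N : ℕ) : ℝ) ^ θ⌋₊ with hH
    have hNr : (4 : ℝ) ≤ N := by exact_mod_cast hN2
    have hHN : 2 * N ≤ H := by
      apply Nat.le_floor
      have h1 : (1 : ℝ) ≤ ((2 * N : ℕ) : ℝ) := by push_cast; linarith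
      calc ((2 * N : ℕ) : ℝ) = ((2 * N : ℕ) : ℝ) ^ (1 : ℝ) := (Real.rpow_one _).symm
        _ ≤ ((2 * N : ℕ) : ℝ) ^ θ := Real.rpow_le_rpow_of_exponent_le h1 hcon
    have hsub : Icc 1 N ⊆ {n ∈ Icc 1 (2 * N) | min κ (1 / 8) * (H : ℝ) <
      (#{j ∈ Icc 1 H | ¬ ∃ t, 2 ^ t ≤ 2 * N ∧
        (Tz 1)^[t] (-1 * ((n : ℕ) : ℤ)) = (Tz 1)^[t] (-1 * ((n : ℕ) : ℤ) + ((j : ℕ) : ℤ))} : ℝ)} := by
      intro n hn
      rw [mem_Icc] at hn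
      rw [mem_filter, mem_Icc]
      refine ⟨⟨hn.1, by omega⟩, ?_⟩
      have hsub2 : Icc n H ⊆ {j ∈ Icc 1 H | ¬ ∃ t, 2 ^ t ≤ 2 * N ∧
        (Tz 1)^[t] (-1 * ((n : ℕ) : ℤ)) = (Tz 1)^[t] (-1 * ((n : ℕ) : ℤ) + ((j : ℕ) : ℤ))} := by
        intro j hj
        rw [mem_Icc] at hj
        rw [mem_filter, mem_Icc]
        refine ⟨⟨by omega, hj.2⟩, ?_⟩
        rintro ⟨t, _, ht⟩
        exact not_coal hn.1 hj.1 t ht
      have h3 := card_le_card hsub2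
      rw [Nat.card_Icc] at h3
      have h4 : ((H + 1 - n : ℕ) : ℝ) ≤ (#{j ∈ Icc 1 H | ¬ ∃ t, 2 ^ t ≤ 2 * N ∧
        (Tz 1)^[t] (-1 * ((n : ℕ) : ℤ)) = (Tz 1)^[t] (-1 * ((n : ℕ) : ℤ) + ((j : ℕ) : ℤ))} : ℝ) := by
        exact_mod_cast h3
      refine lt_of_lt_of_le ?_ h4
      have h5 : ((H + 1 - n : ℕ) : ℝ) = H + 1 - n := by
        rw [Nat.cast_sub (by omega)]; push_cast; ring
      rw [h5]
      have h6 : (n : ℝ) ≤ N := by exact_mod_cast hn.2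
      have h7 : (2 * N : ℝ) ≤ H := by exact_mod_cast hHN
      have h8 : min κ (1 / 8) * (H : ℝ) ≤ 1 / 8 * H :=
        mul_le_mul_of_nonneg_right (min_le_right _ _) (by positivity)
      linarith
    have h9 : (#(Icc 1 N) : ℝ) ≤ min ε (1 / 8) * ((2 * N : ℕ) : ℝ) :=
      le_trans (by exact_mod_cast card_le_card hsub) h
    rw [Nat.card_Icc] at h9
    have h10 : min ε (1 / 8) * ((2 * N : ℕ) : ℝ) ≤ 1 / 8 * ((2 * N : ℕ) : ℝ) :=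
      mul_le_mul_of_nonneg_right (min_le_right _ _) (by positivity)
    push_cast at h9 h10
    linarith
  · have h := hN0 N hN
    have h2 : min ε (1 / 8) * (N : ℝ) ≤ ε * N :=
      mul_le_mul_of_nonneg_right (min_le_left _ _) (by positivity)
    refine le_trans ?_ (h.trans h2)
    have h3 : {n ∈ Icc 1 N | κ * (⌊(N : ℝ) ^ θ⌋₊ : ℝ) <
      (#{j ∈ Icc 1 ⌊(N : ℝ) ^ θ⌋₊ | ¬ ∃ t, 2 ^ t ≤ N ∧
        (Tz 1)^[t] (-1 * ((n : ℕ) : ℤ)) = (Tz 1)^[t] (-1 * ((n : ℕ) : ℤ) + ((j : ℕ) : ℤ))} : ℝ)} ⊆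
      {n ∈ Icc 1 N | min κ (1 / 8) * (⌊(N : ℝ) ^ θ⌋₊ : ℝ) <
      (#{j ∈ Icc 1 ⌊(N : ℝ) ^ θ⌋₊ | ¬ ∃ t, 2 ^ t ≤ N ∧
        (Tz 1)^[t] (-1 * ((n : ℕ) : ℤ)) = (Tz 1)^[t] (-1 * ((n : ℕ) : ℤ) + ((j : ℕ) : ℤ))} : ℝ)} := by
      intro n hn
      rw [mem_filter] at hn ⊢
      exact ⟨hn.1, lt_of_le_of_lt (mul_le_mul_of_nonneg_right (min_le_left _ _) (by positivity))
        hn.2⟩
    exact_mod_cast card_le_card h3

open Classical in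
/-- Invariant sets have positive lower density in spread sets. -/
theorem spread_density {R : Set ℤ} (hR : ∀ x, x ∈ R ↔ Tz 1 x ∈ R) {b : ℤ} (hb : b < 0) (hbR : b ∈ R)
    (S : Set ℤ)
    (hS : ∀ ε : ℝ, 0 < ε → ∃ c : ℝ, 0 < c ∧ ∀ θ : ℝ, 0 < θ → θ < 1 → ∀ᶠ N : ℕ in atTop,
      (#{n ∈ Icc 1 N | (#{j ∈ Icc 1 ⌊(N : ℝ) ^ θ⌋₊ | -1 * ((n : ℕ) : ℤ) + ((j : ℕ) : ℤ) ∈ S} : ℝ) <
        c * ⌊(N : ℝ) ^ θ⌋₊} : ℝ) ≤ ε * N) :
    ∃ δ : ℝ, 0 < δ ∧ ∀ᶠ N : ℕ in atTop, δ * N ≤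
      (#{n ∈ Icc 1 N | -1 * ((n : ℕ) : ℤ) ∈ S ∧ -1 * ((n : ℕ) : ℤ) ∈ R} : ℝ) := by
  have hs : (-1 : ℤ) = 1 ∨ (-1 : ℤ) = -1 := Or.inr rfl
  obtain ⟨δ, hδ, hclass⟩ := class_many_side (b := b) hs (by omega)
  obtain ⟨c, hc, hcθ⟩ := hS (δ / 4) (by positivity)
  obtain ⟨θ, hθ, hθ1, N0, hN0⟩ := solid_neg (ε := δ / 4) (κ := c / 2) (by positivity) (by positivity)
  have hev : ∀ᶠ N : ℕ in atTop, 1 ≤ ⌊(N : ℝ) ^ θ⌋₊ := by
    filter_upwards [eventually_ge_atTop 1] with N hN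
    rw [Nat.one_le_floor_iff]
    exact Real.one_le_rpow (by exact_mod_cast hN) hθ.le
  refine ⟨δ * c / 4, by positivity, ?_⟩
  filter_upwards [hcθ θ hθ hθ1, hclass, eventually_ge_atTop N0, hev, eventually_gt_atTop 0]
    with N hN1 hN2 hN3 hN4 hN5
  have hNr : (0 : ℝ) < N := by exact_mod_cast hN5
  set Hh := ⌊(N : ℝ) ^ θ⌋₊ with hHh
  have h2 := hN0 N hN3
  set K := ({n ∈ Icc 1 N | -1 * ((n : ℕ) : ℤ) ∈ Kc b} : Finset ℕ) with hK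
  set E1 := ({n ∈ Icc 1 N | (#{j ∈ Icc 1 Hh | -1 * ((n : ℕ) : ℤ) + ((j : ℕ) : ℤ) ∈ S} : ℝ) <
    c * Hh} : Finset ℕ) with hE1
  set E2 := ({n ∈ Icc 1 N | c / 2 * Hh <
      (#{j ∈ Icc 1 Hh | ¬ ∃ t, 2 ^ t ≤ N ∧
        (Tz 1)^[t] (-1 * ((n : ℕ) : ℤ)) = (Tz 1)^[t] (-1 * ((n : ℕ) : ℤ) + ((j : ℕ) : ℤ))} : ℝ)} :
          Finset ℕ) with hE2
  set G := K \ (E1 ∪ E2) with hG
  have hGcard : δ / 2 * N ≤ #G := by
    have h3 : (#K : ℝ) ≤ #G + #(E1 ∪ E2) := by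
      have : K ⊆ G ∪ (E1 ∪ E2) := by
        intro n hn
        rw [mem_union, hG, Finset.mem_sdiff]
        tauto
      exact_mod_cast (card_le_card this).trans (card_union_le _ _)
    have h4 : (#(E1 ∪ E2) : ℝ) ≤ #E1 + #E2 := by exact_mod_cast card_union_le _ _
    have h5 : (#E1 : ℝ) ≤ δ / 4 * N := hN1
    have h6 : (#E2 : ℝ) ≤ δ / 4 * N := h2
    linarith
  set M := ({n ∈ Icc 1 N | -1 * ((n : ℕ) : ℤ) ∈ S ∧ -1 * ((n : ℕ) : ℤ) ∈ R} : Finset ℕ) with hM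
  set F : ℕ → Finset ℕ := fun n => {j ∈ Icc 1 Hh | j < n ∧ -1 * ((n : ℕ) : ℤ) + ((j : ℕ) : ℤ) ∈ S ∧
    -1 * ((n : ℕ) : ℤ) + ((j : ℕ) : ℤ) ∈ R} with hF
  have hHr : (1 : ℝ) ≤ Hh := by exact_mod_cast hN4
  have hFcard : ∀ n ∈ G, c / 2 * Hh ≤ (#(F n) : ℝ) := by
    intro n hn
    rw [hG, Finset.mem_sdiff, mem_union, not_or, hK, mem_filter, mem_Icc] at hn
    obtain ⟨⟨hnI, hnK⟩, hn1, hn2⟩ := hn
    have hnI' : n ∈ Icc 1 N := mem_Icc.2 hnI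
    have a1 : c * Hh ≤ (#{j ∈ Icc 1 Hh | -1 * ((n : ℕ) : ℤ) + ((j : ℕ) : ℤ) ∈ S} : ℝ) := by
      by_contra h
      rw [not_le] at h
      exact hn1 (by rw [hE1, mem_filter]; exact ⟨hnI', h⟩)
    have a2 : (#{j ∈ Icc 1 Hh | ¬ ∃ t, 2 ^ t ≤ N ∧
        (Tz 1)^[t] (-1 * ((n : ℕ) : ℤ)) = (Tz 1)^[t] (-1 * ((n : ℕ) : ℤ) + ((j : ℕ) : ℤ))} : ℝ) ≤
          c / 2 * Hh := by
      by_contra h
      rw [not_le] at h
      exact hn2 (by rw [hE2, mem_filter]; exact ⟨hnI', h⟩)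
    have hsub : ({j ∈ Icc 1 Hh | -1 * ((n : ℕ) : ℤ) + ((j : ℕ) : ℤ) ∈ S} : Finset ℕ) ⊆ F n ∪
        ({j ∈ Icc 1 Hh | ¬ ∃ t, 2 ^ t ≤ N ∧
        (Tz 1)^[t] (-1 * ((n : ℕ) : ℤ)) = (Tz 1)^[t] (-1 * ((n : ℕ) : ℤ) + ((j : ℕ) : ℤ))} :
          Finset ℕ) := by
      intro j hj
      rw [mem_union]
      by_cases hco : ∃ t, 2 ^ t ≤ N ∧
        (Tz 1)^[t] (-1 * ((n : ℕ) : ℤ)) = (Tz 1)^[t] (-1 * ((n : ℕ) : ℤ) + ((j : ℕ) : ℤ))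
      · left
        rw [mem_filter] at hj
        obtain ⟨t, _, ht⟩ := hco
        rw [hF]
        beta_reduce
        rw [mem_filter]
        refine ⟨hj.1, ?_, hj.2, ?_⟩
        · by_contra hlt
          exact not_coal hnI.1 (by omega) t ht
        · have b3 : -1 * ((n : ℕ) : ℤ) ∈ R := (inv_Kc hR hnK).2 hbR
          exact (inv_Kc hR (merge_of_coalT ht)).1 b3
      · right
        rw [mem_filter] at hj ⊢
        exact ⟨hj.1, hco⟩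
    have h3 : (#{j ∈ Icc 1 Hh | -1 * ((n : ℕ) : ℤ) + ((j : ℕ) : ℤ) ∈ S} : ℝ) ≤ #(F n) +
        #({j ∈ Icc 1 Hh | ¬ ∃ t, 2 ^ t ≤ N ∧
        (Tz 1)^[t] (-1 * ((n : ℕ) : ℤ)) = (Tz 1)^[t] (-1 * ((n : ℕ) : ℤ) + ((j : ℕ) : ℤ))} :
          Finset ℕ) := by
      exact_mod_cast (card_le_card hsub).trans (card_union_le _ _)
    linarith
  have hdc : ∑ n ∈ G, #(F n) ≤ Hh * #M := by
    rw [← card_sigma]
    have h3 : Hh * #M = #(Icc 1 Hh ×ˢ M) := by rw [card_product, Nat.card_Icc]; simp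
    rw [h3]
    apply card_le_card_of_injOn (fun p : (_ : ℕ) × ℕ => (p.2, p.1 - p.2))
    · rintro ⟨n, j⟩ hp
      rw [mem_coe, mem_sigma] at hp
      obtain ⟨hn, hj⟩ := hp
      simp only at hn hj
      rw [hF] at hj
      beta_reduce at hj
      rw [mem_filter, mem_Icc] at hj
      obtain ⟨⟨j1, j2⟩, j3, j4, j5⟩ := hj
      rw [hG, Finset.mem_sdiff, hK, mem_filter, mem_Icc] at hn
      have e : -1 * ((n - j : ℕ) : ℤ) = -1 * ((n : ℕ) : ℤ) + ((j : ℕ) : ℤ) := by omega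
      rw [mem_coe, mem_product]
      refine ⟨mem_Icc.2 ⟨j1, j2⟩, ?_⟩
      show n - j ∈ M
      rw [hM, mem_filter, mem_Icc, e]
      exact ⟨⟨by omega, by omega⟩, j4, j5⟩
    · rintro ⟨n, j⟩ hp ⟨n', j'⟩ hp' heq
      rw [mem_coe, mem_sigma] at hp hp'
      have hj := hp.2
      have hj' := hp'.2
      simp only at hj hj'
      rw [hF] at hj hj'
      beta_reduce at hj hj'
      rw [mem_filter] at hj hj'
      simp only [Prod.mk.injEq] at heq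
      obtain ⟨e1, e2⟩ := heq
      subst e1
      have : n = n' := by
        have := hj.2.1
        have := hj'.2.1
        omega
      rw [this]
  have h4 : (#G : ℝ) * (c / 2 * Hh) ≤ Hh * #M := by
    have h5 : (#G : ℝ) * (c / 2 * Hh) ≤ ∑ n ∈ G, (#(F n) : ℝ) := by
      rw [← nsmul_eq_mul]
      exact card_nsmul_le_sum G _ _ hFcard
    refine h5.trans ?_
    exact_mod_cast hdc
  have h6 : δ / 2 * N * (c / 2 * Hh) ≤ Hh * #M :=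
    (mul_le_mul_of_nonneg_right hGcard (by positivity)).trans h4
  have h7 : (Hh : ℝ) * (δ * c / 4 * N) ≤ Hh * #M := by
    refine le_trans (le_of_eq ?_) h6
    ring
  exact le_of_mul_le_mul_left h7 (by linarith)

end Pool.Agent.X213.SuffNeg
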