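import Pool.Agent.X213.SphereDefs

open Matrix

namespace Pool.Agent.X213.Sphere

/-- three points of the sphere with distinct mutual inner products -/
noncomputable def p1 : S2 := ⟨![1, 0, 0], by simp [dotProduct, Fin.sum_univ_three]⟩
noncomputable def p2 : S2 := ⟨![3 / 5, 4 / 5, 0], by
  simp [dotProduct, Fin.sum_univ_three]; norm_num⟩
noncomputable def p3 : S2 := ⟨![5 / 13, 0, 12 / 13], by
  simp [dotProduct, Fin.sum_univ_three]; norm_num⟩

theorem d12 : p1.1 ⬝ᵥ p2.1 = 3 / 5 := by simp [p1, p2, dotProduct, Fin.sum_univ_three]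
theorem d13 : p1.1 ⬝ᵥ p3.1 = 5 / 13 := by simp [p1, p3, dotProduct, Fin.sum_univ_three]
theorem d23 : p2.1 ⬝ᵥ p3.1 = 3 / 13 := by
  simp [p2, p3, dotProduct, Fin.sum_univ_three]; norm_num

theorem three_fix {A : M3} (h1 : A *ᵥ p1.1 = p1.1) (h2 : A *ᵥ p2.1 = p2.1)
    (h3 : A *ᵥ p3.1 = p3.1) : A = 1 := by
  ext i j
  have e1 := congrFun h1 i
  have e2 := congrFun h2 i
  have e3 := congrFun h3 i
  simp only [Matrix.mulVec, dotProduct, Fin.sum_univ_three, p1, p2, p3, Matrix.cons_val_zero,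
    Matrix.cons_val_one, Matrix.cons_val] at e1 e2 e3
  fin_cases i <;> fin_cases j <;> simp at e1 e2 e3 ⊢ <;> linarith

theorem exists_two : ∃ c : S2 → Fin 2, Distinguishing O3 c := by
  classical
  refine ⟨fun x => if x = p1 ∨ x = p2 ∨ x = p3 then 1 else 0, ?_⟩
  intro A hA hinv
  have key : ∀ p : S2, (p = p1 ∨ p = p2 ∨ p = p3) →
      (act A hA p = p1 ∨ act A hA p = p2 ∨ act A hA p = p3) := by
    intro p hp
    have := hinv p (act A hA p) rfl
    by_contra hno
    dsimp only at this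
    rw [if_pos hp, if_neg hno] at this
    exact absurd this (by decide)
  have g12 : (act A hA p1).1 ⬝ᵥ (act A hA p2).1 = 3 / 5 := (O3_dot hA _ _).trans d12
  have g13 : (act A hA p1).1 ⬝ᵥ (act A hA p3).1 = 5 / 13 := (O3_dot hA _ _).trans d13
  have g23 : (act A hA p2).1 ⬝ᵥ (act A hA p3).1 = 3 / 13 := (O3_dot hA _ _).trans d23
  have d21 : p2.1 ⬝ᵥ p1.1 = 3 / 5 := by rw [dotProduct_comm]; exact d12
  have d31 : p3.1 ⬝ᵥ p1.1 = 5 / 13 := by rw [dotProduct_comm]; exact d13
  have d32 : p3.1 ⬝ᵥ p2.1 = 3 / 13 := by rw [dotProduct_comm]; exact d23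
  have d12' := d12
  have d13' := d13
  have d23' := d23
  have d11 := p1.2
  have d22 := p2.2
  have d33 := p3.2
  rcases key p1 (Or.inl rfl) with h1 | h1 | h1 <;>
  rcases key p2 (Or.inr (Or.inl rfl)) with h2 | h2 | h2 <;>
  rcases key p3 (Or.inr (Or.inr rfl)) with h3 | h3 | h3 <;>
  rw [h1, h2] at g12 <;> rw [h1, h3] at g13 <;> rw [h2, h3] at g23 <;>
  first
  | exact three_fix (congrArg Subtype.val h1) (congrArg Subtype.val h2) (congrArg Subtype.val h3)
  | (exfalso; linarith)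

/-- a nontrivial rotation -/
def rot : M3 := Matrix.of ![![-1, 0, 0], ![0, -1, 0], ![0, 0, 1]]

theorem rot_mem : rot ∈ SO3 := by
  constructor
  · ext i j
    fin_cases i <;> fin_cases j <;> simp [rot, Matrix.mul_apply, Fin.sum_univ_three]
  · simp [rot, Matrix.det_fin_three]

theorem rot_ne : rot ≠ 1 := by
  intro h
  have := congrFun (congrFun h 0) 0
  simp [rot] at this
  norm_num at this

theorem distNum_eq {G : Set M3} (h1 : SO3 ⊆ G) (h2 : G ⊆ O3) : distNum G = 2 := by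
  have hmem : 2 ∈ {k | ∃ c : S2 → Fin k, Distinguishing G c} := by
    obtain ⟨c, hc⟩ := exists_two
    exact ⟨c, fun A hA => hc A (h2 hA)⟩
  apply le_antisymm
  · exact Nat.sInf_le hmem
  · by_contra hlt
    rw [not_le] at hlt
    obtain ⟨c, hc⟩ := Nat.sInf_mem ⟨2, hmem⟩
    have hlt' : sInf {k | ∃ c : S2 → Fin k, Distinguishing G c} < 2 := hlt
    apply rot_ne
    apply hc rot (h1 rot_mem)
    intro x y _
    have := (c x).isLt
    have := (c y).isLt
    apply Fin.ext
    omega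

end Pool.Agent.X213.Sphere
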