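import Mathlib
import Pool.Agent.Y536.SH.Full
import Pool.Agent.Y536.SH.Tame
import Pool.Agent.H248R5.Gen

set_option autoImplicit false

/-!
# Special systems outside of a list of classes: the general statements

`Q` is any set of classes which have the expected dimension at generic points when they are standard.
-/

namespace Pool.Agent.X213.Forms

open MvPolynomial Pool.Agent.TH167.SHDefs
open Pool.Agent.Y536.SH (Standard hh_full)

/-- `h⁰ (D)` for the class `D = d H - ∑ w i E i`. -/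
noncomputable def hZero {n : ℕ} (P : Fin n → Fin 2 → ℂ) (d : ℕ) (w : Fin n → ℕ) : ℤ :=
  (Module.finrank ℂ ↥(sys P d w) : ℤ)

/-- The Euler characteristic `(d + 2).choose 2 - ∑ (w i + 1).choose 2`. -/
def chi {n : ℕ} (d : ℕ) (w : Fin n → ℕ) : ℤ :=
  ((d + 2).choose 2 : ℤ) - ∑ i, ((w i + 1).choose 2 : ℤ)

/-- The property holds for all `n`-tuples of points outside some hypersurface. -/
def ForGeneral {n : ℕ} (p : (Fin n → Fin 2 → ℂ) → Prop) : Prop :=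
  ∃ F : MvPolynomial (Fin n × Fin 2) ℂ, F ≠ 0 ∧ ∀ P : Fin n → Fin 2 → ℂ,
    eval (fun ij : Fin n × Fin 2 => P ij.1 ij.2) F ≠ 0 → p P

/-- The reflection of the class `a = (d; w)`, `d H - ∑ w l E l`, in the class
`H - E (i 0) - E (i 1) - E (i 2)`: with `δ = d - w (i 0) - w (i 1) - w (i 2)`, the numbers
`d`, `w (i 0)`, `w (i 1)`, `w (i 2)` are increased by `δ`. -/
def reflect {n : ℕ} (i : Fin 3 → Fin n) (a : ℤ × (Fin n → ℤ)) : ℤ × (Fin n → ℤ) :=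
  (a.1 + (a.1 - a.2 (i 0) - a.2 (i 1) - a.2 (i 2)),
    fun l => a.2 l + if l = i 0 ∨ l = i 1 ∨ l = i 2 then a.1 - a.2 (i 0) - a.2 (i 1) - a.2 (i 2)
      else 0)

/-- Finitely many reflections carry `(d; w)` to `(d'; w')`. -/
def Carries {n : ℕ} (d : ℕ) (w : Fin n → ℕ) (d' : ℕ) (w' : Fin n → ℕ) : Prop :=
  Relation.ReflTransGen
    (fun a b : ℤ × (Fin n → ℤ) => ∃ i : Fin 3 → Fin n, Function.Injective i ∧ b = reflect i a)
    ((d : ℤ), fun l => (w l : ℤ)) ((d' : ℤ), fun l => (w' l : ℤ))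

/-- Standard classes in `Q` have the expected dimension at generic points. -/
def Eng {r : ℕ} (Q : ℕ → (Fin (r + 4) → ℕ) → Prop) : Prop :=
  ∀ (K : Type) [Field K] [CharZero K] (P : Fin (r + 4) → Fin 2 → K),
    AlgebraicIndependent ℚ (fun ij : Fin (r + 4) × Fin 2 => P ij.1 ij.2) →
      ∀ (d1 : ℕ) (w1 : Fin (r + 4) → ℕ), Standard d1 w1 → Q d1 w1 →
        Pool.Agent.H932R3.ExpDim K w1 P d1

theorem nonspecial_of {n : ℕ} {P : Fin n → Fin 2 → ℂ} {d : ℕ} {w : Fin n → ℕ}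
    (h : Pool.Agent.H932R3.ExpDim ℂ w P d) : ¬ Special P d w := by
  have h1 : Module.finrank ℂ ↥(sys P d w) =
      Nat.choose (d + 2) 2 - ∑ i, Nat.choose (w i + 1) 2 := h
  have h2 : ∑ i, ((w i + 1).choose 2 : ℤ) = ((∑ i, Nat.choose (w i + 1) 2 : ℕ) : ℤ) := by
    push_cast
    rfl
  unfold Special dimL virtdim
  rw [h1, h2]
  push Not
  omega

/-- The Weyl group orbits of the standard classes in `Q`. -/
theorem orbit {r : ℕ} {Q : ℕ → (Fin (r + 4) → ℕ) → Prop} (hQ : Eng Q) {d : ℕ}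
    {w : Fin (r + 4) → ℕ} {d' : ℕ} {w' : Fin (r + 4) → ℕ}
    (hc : Pool.Agent.TH442.NF.Ch (Pool.Agent.TH442.NF.cls d w) (Pool.Agent.TH442.NF.cls d' w'))
    (hs : Standard d' w') (hG : Q d' w') :
    ∃ F : MvPolynomial (Fin (r + 4) × Fin 2) ℂ, F ≠ 0 ∧ ∀ P : Fin (r + 4) → Fin 2 → ℂ,
      eval (fun ij : Fin (r + 4) × Fin 2 => P ij.1 ij.2) F ≠ 0 →
        Pool.Agent.H932R3.ExpDim ℂ w P d := by
  obtain ⟨F, hF, hF'⟩ := Pool.Agent.TH442.NF.to_open (d := d) (w := w)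
    fun {K _ _ P} hP => Pool.Agent.TH442.NF.up_enef hP hc
      (Pool.Agent.TH442.NF.enef_of_std (by omega) P hs) (hQ K P hP d' w' hs hG)
  refine ⟨F.map (algebraMap ℚ ℂ), Pool.Agent.H932R3.map_ne_zero_of hF, fun P hP => ?_⟩
  rw [MvPolynomial.eval_map] at hP
  exact hF' (L := ℂ) P hP

/-- The trichotomy for special classes. -/
theorem special {r : ℕ} {Q : ℕ → (Fin (r + 4) → ℕ) → Prop} (hQ : Eng Q) (d : ℕ)
    (w : Fin (r + 4) → ℕ) :
    ∃ F : MvPolynomial (Fin (r + 4) × Fin 2) ℂ, F ≠ 0 ∧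
      ∀ P : Fin (r + 4) → Fin 2 → ℂ, eval (fun ij : Fin (r + 4) × Fin 2 => P ij.1 ij.2) F ≠ 0 →
        Special P d w →
          (∃ (G : MvPolynomial (Fin 3) ℂ) (e : ℕ) (u : Fin (r + 4) → ℕ),
            MinusOne P G e u ∧ inter d w e u ≤ -2 ∧ ∀ f ∈ sys P d w, G ^ 2 ∣ f) ∨
          ∃ (d'' : ℕ) (w'' : Fin (r + 4) → ℕ) (k : ℕ) (G : Fin k → MvPolynomial (Fin 3) ℂ)
            (e : Fin k → ℕ) (u : Fin k → Fin (r + 4) → ℕ) (d' : ℕ) (w' : Fin (r + 4) → ℕ),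
            Decomp P d w d'' w'' G e u (fun _ => 1) ∧
            Relation.ReflTransGen Quadratic (d'', w'') (d', w') ∧ Standard d' w' ∧
            dimL P d' w' = dimL P d w ∧ Special P d' w' ∧ ¬ Q d' w' := by
  obtain ⟨F, hF, hF'⟩ := hh_full (Q := Q) (fun {K _ _ P} hP d1 w1 hs hG => hQ K P hP d1 w1 hs hG) d w
  refine ⟨F.map (algebraMap ℚ ℂ) * Pool.Agent.H248R5.disc ℂ (r + 4),
    mul_ne_zero (Pool.Agent.TH167.SH.map_ne hF)
      (Pool.Agent.H248R5.disc_ne ℂ (r + 4)), fun P hP hs => ?_⟩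
  rw [map_mul] at hP
  have hP2 := left_ne_zero_of_mul hP
  have hinj := Pool.Agent.H248R5.inj_of_disc (right_ne_zero_of_mul hP)
  rw [Pool.Agent.TH167.SH.evP_eval] at hP2
  rw [Pool.Agent.TH167.SH.special_conv] at hs
  have hcur : ∀ {G : MvPolynomial (Fin 3) ℂ} {e : ℕ} {u : Fin (r + 4) → ℕ}, MinusOne P G e u →
      inter d w e u ≤ -2 → ∃ (G : MvPolynomial (Fin 3) ℂ) (e : ℕ) (u : Fin (r + 4) → ℕ),
        MinusOne P G e u ∧ inter d w e u ≤ -2 ∧ ∀ f ∈ sys P d w, G ^ 2 ∣ f :=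
    fun {G e u} h1 h2 => ⟨G, e, u, h1, h2, fun f hf =>
      Pool.Agent.TH167.SH.curve_sq_dvd hinj h1 h2 hf⟩
  rcases hF' ℂ P hP2 hs with h | ⟨d', w', k, C, e, u, N, d1, w1, h1, h2, h3, h4, h5, h6⟩
  · left
    obtain ⟨G, e, u, c1, c2⟩ :=
      Pool.Agent.TH167.SH.mspecial_curve ((Pool.Agent.TH167.SH.mspecial_conv P d w).2 h)
    exact hcur c1 c2
  · by_cases hN : ∃ a, 2 ≤ N a
    · left
      obtain ⟨a, ha⟩ := hN
      refine hcur (Pool.Agent.TH167.SH.minusOne_iff.2 (h1.exc a)) ?_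
      rw [Pool.Agent.TH167.SH.inter_eq, h1.neg a]
      omega
    · right
      push Not at hN
      have hN1 : N = fun _ => 1 := by
        funext a
        have := h1.pos a
        have := hN a
        omega
      subst hN1
      refine ⟨d', w', k, C, e, u, d1, w1, Pool.Agent.TH167.SH.decomp_iff.2 h1,
        Pool.Agent.TH167.SH.chain_conv h2, h3, ?_,
        (Pool.Agent.TH167.SH.special_conv P d1 w1).2 h4, h6⟩
      rw [Pool.Agent.TH167.SH.dimL_eq, Pool.Agent.TH167.SH.dimL_eq, h5]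

theorem hZero_of {n : ℕ} {P : Fin n → Fin 2 → ℂ} {d : ℕ} {w : Fin n → ℕ}
    (h : Pool.Agent.H932R3.ExpDim ℂ w P d) : hZero P d w = max 0 (chi d w) := by
  have h1 : Module.finrank ℂ ↥(sys P d w) =
      Nat.choose (d + 2) 2 - ∑ i, Nat.choose (w i + 1) 2 := h
  have h2 : ∑ i, ((w i + 1).choose 2 : ℤ) = ((∑ i, Nat.choose (w i + 1) 2 : ℕ) : ℤ) := by
    push_cast
    rfl
  unfold hZero chi
  rw [h1, h2]
  omega

theorem special_iff' {n : ℕ} {P : Fin n → Fin 2 → ℂ} {d : ℕ} {w : Fin n → ℕ} :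
    Special P d w ↔ hZero P d w ≠ max 0 (chi d w) := by
  unfold Special dimL virtdim hZero chi
  omega

theorem dimL_iff {n : ℕ} {P : Fin n → Fin 2 → ℂ} {d : ℕ} {w : Fin n → ℕ} {d' : ℕ}
    {w' : Fin n → ℕ} : dimL P d' w' = dimL P d w ↔ hZero P d' w' = hZero P d w := by
  unfold dimL hZero
  omega

/-- The general statement for orbits, for all `n ≥ 4`. -/
theorem orbit_hZero {r : ℕ} {Q : ℕ → (Fin (r + 4) → ℕ) → Prop} (hQ : Eng Q) (d : ℕ)
    (w : Fin (r + 4) → ℕ) : ForGeneral fun P : Fin (r + 4) → Fin 2 → ℂ =>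
      (∃ (d' : ℕ) (w' : Fin (r + 4) → ℕ), Carries d w d' w' ∧ Standard d' w' ∧ Q d' w') →
        Pool.Agent.H932R3.ExpDim ℂ w P d := by
  by_cases h : ∃ (d' : ℕ) (w' : Fin (r + 4) → ℕ), Carries d w d' w' ∧ Standard d' w' ∧ Q d' w'
  · obtain ⟨d', w', hc, hs, hG⟩ := h
    obtain ⟨F, hF, hF'⟩ := orbit hQ hc hs hG
    exact ⟨F, hF, fun P hP _ => hF' P hP⟩
  · exact ⟨1, one_ne_zero, fun P _ h' => absurd h' h⟩

/-- The SHGH statement. -/
theorem shgh {r : ℕ} {Q : ℕ → (Fin (r + 4) → ℕ) → Prop} (hQ : Eng Q) (d : ℕ)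
    (w : Fin (r + 4) → ℕ) : ForGeneral fun P : Fin (r + 4) → Fin 2 → ℂ =>
    ((∃ (d' : ℕ) (w' : Fin (r + 4) → ℕ), Carries d w d' w' ∧ Standard d' w' ∧ Q d' w') →
      hZero P d w = max 0 (chi d w)) ∧
    (hZero P d w = max 0 (chi d w) ∨
      (∃ (G : MvPolynomial (Fin 3) ℂ) (e : ℕ) (u : Fin (r + 4) → ℕ), MinusOne P G e u ∧
        inter d w e u ≤ -2) ∨
      ∃ (d'' : ℕ) (w'' : Fin (r + 4) → ℕ) (k : ℕ) (G : Fin k → MvPolynomial (Fin 3) ℂ)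
        (e : Fin k → ℕ) (u : Fin k → Fin (r + 4) → ℕ) (d' : ℕ) (w' : Fin (r + 4) → ℕ),
        Decomp P d w d'' w'' G e u (fun _ => 1) ∧
        Relation.ReflTransGen Quadratic (d'', w'') (d', w') ∧ Standard d' w' ∧
        hZero P d' w' = hZero P d w ∧ hZero P d' w' ≠ max 0 (chi d' w') ∧ ¬ Q d' w') := by
  obtain ⟨F1, hF1, hF1'⟩ := orbit_hZero hQ d w
  obtain ⟨F2, hF2, hF2'⟩ := special hQ d w
  refine ⟨F1 * F2, mul_ne_zero hF1 hF2, fun P hP => ?_⟩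
  rw [map_mul] at hP
  refine ⟨fun h => hZero_of (hF1' P (left_ne_zero_of_mul hP) h), ?_⟩
  by_cases hs : hZero P d w = max 0 (chi d w)
  · exact Or.inl hs
  · right
    rcases hF2' P (right_ne_zero_of_mul hP) (special_iff'.2 hs) with
      ⟨G, e, u, h1, h2, -⟩ | ⟨d'', w'', k, G, e, u, d', w', h1, h2, h3, h4, h5, h6⟩
    · exact Or.inl ⟨G, e, u, h1, h2⟩
    · exact Or.inr ⟨d'', w'', k, G, e, u, d', w', h1, h2, h3, dimL_iff.1 h4,
        special_iff'.1 h5, h6⟩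

/-- Segre's statement. -/
theorem segre {r : ℕ} {Q : ℕ → (Fin (r + 4) → ℕ) → Prop} (hQ : Eng Q) (d : ℕ)
    (w : Fin (r + 4) → ℕ) : ForGeneral fun P : Fin (r + 4) → Fin 2 → ℂ =>
    ((∃ (d' : ℕ) (w' : Fin (r + 4) → ℕ), Carries d w d' w' ∧ Standard d' w' ∧ Q d' w') →
      ¬ Special P d w) ∧
    (Special P d w →
      (∃ (G : MvPolynomial (Fin 3) ℂ) (e : ℕ) (u : Fin (r + 4) → ℕ), MinusOne P G e u ∧
        inter d w e u ≤ -2 ∧ ∀ f ∈ sys P d w, G ^ 2 ∣ f) ∨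
      ∃ (d'' : ℕ) (w'' : Fin (r + 4) → ℕ) (k : ℕ) (G : Fin k → MvPolynomial (Fin 3) ℂ)
        (e : Fin k → ℕ) (u : Fin k → Fin (r + 4) → ℕ) (d' : ℕ) (w' : Fin (r + 4) → ℕ),
        Decomp P d w d'' w'' G e u (fun _ => 1) ∧
        Relation.ReflTransGen Quadratic (d'', w'') (d', w') ∧ Standard d' w' ∧
        dimL P d' w' = dimL P d w ∧ Special P d' w' ∧ ¬ Q d' w') := by
  obtain ⟨F1, hF1, hF1'⟩ := orbit_hZero hQ d w
  obtain ⟨F2, hF2, hF2'⟩ := special hQ d w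
  refine ⟨F1 * F2, mul_ne_zero hF1 hF2, fun P hP => ?_⟩
  rw [map_mul] at hP
  exact ⟨fun h => nonspecial_of (hF1' P (left_ne_zero_of_mul hP) h),
    hF2' P (right_ne_zero_of_mul hP)⟩

/-- The Harbourne-Hirschowitz statement. -/
theorem harbourne {r : ℕ} {Q : ℕ → (Fin (r + 4) → ℕ) → Prop} (hQ : Eng Q) (d : ℕ)
    (w : Fin (r + 4) → ℕ) : ForGeneral fun P : Fin (r + 4) → Fin 2 → ℂ =>
    ((∃ (d' : ℕ) (w' : Fin (r + 4) → ℕ), Carries d w d' w' ∧ Standard d' w' ∧ Q d' w') →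
      ¬ Special P d w) ∧
    (MinusOneSpecial P d w → Special P d w) ∧
    (Special P d w → MinusOneSpecial P d w ∨
      ∃ (d'' : ℕ) (w'' : Fin (r + 4) → ℕ) (k : ℕ) (G : Fin k → MvPolynomial (Fin 3) ℂ)
        (e : Fin k → ℕ) (u : Fin k → Fin (r + 4) → ℕ) (N : Fin k → ℕ) (d' : ℕ)
        (w' : Fin (r + 4) → ℕ),
        Decomp P d w d'' w'' G e u N ∧
        Relation.ReflTransGen Quadratic (d'', w'') (d', w') ∧ Standard d' w' ∧
        Special P d' w' ∧ ¬ Q d' w') := by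
  obtain ⟨F1, hF1, hF1'⟩ := orbit_hZero hQ d w
  obtain ⟨F2, hF2, hF2'⟩ := Pool.Agent.TH442.NF.hh_open (n := r + 4) (by omega) (Q := Q)
    (fun {K _ _ P} hP d1 w1 hs hG => hQ K P hP d1 w1 hs hG) d w
  refine ⟨F1 * F2, mul_ne_zero hF1 hF2, fun P hP => ?_⟩
  rw [map_mul] at hP
  exact ⟨fun h => nonspecial_of (hF1' P (left_ne_zero_of_mul hP) h),
    hF2' P (right_ne_zero_of_mul hP)⟩

/-- Prime divisors. -/
theorem prime {r : ℕ} {Q : ℕ → (Fin (r + 4) → ℕ) → Prop} (hQ : Eng Q) {k : Type} [Field k]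
    [CharZero k] {P : Fin (r + 4) → Fin 2 → k}
    (hP : AlgebraicIndependent ℚ (fun ij : Fin (r + 4) × Fin 2 => P ij.1 ij.2))
    {d : ℕ} {w : Fin (r + 4) → ℕ} {C : MvPolynomial (Fin 3) k} (hC : Curve P C d w) :
    dimL P d w - virtdim d w = 0 ∨ ∃ (d1 : ℕ) (w1 : Fin (r + 4) → ℕ),
      Relation.ReflTransGen Quadratic (d, w) (d1, w1) ∧ Standard d1 w1 ∧
      Special P d1 w1 ∧ dimL P d1 w1 = dimL P d w ∧ ¬ Q d1 w1 := by
  by_cases h : dimL P d w = virtdim d w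
  · left
    omega
  · right
    exact Pool.Agent.Y536.SH.prime_full (Q := Q)
      (fun {K _ _ P} hP d1 w1 hs hG => hQ K P hP d1 w1 hs hG) hP hC h

end Pool.Agent.X213.Forms
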