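import Mathlib
import Pool.Agent.H932R7.Final2

set_option autoImplicit false

/-!
# Bounded multiplicities: conditions of order `m ^ 3`
-/

namespace Pool.Agent.X213.EngB

open Finset Pool.Agent.H932R3

/-- All `w i` are at most `m`, and for every `i` with `w i > k` the points of smaller multiplicity
`≥ min 2 k` satisfy `2 w i (w i + 1) (w i + 2) ≤ ∑ w j (w j + 1)`. -/
def Frequent {n : ℕ} (m k : ℕ) (w : Fin n → ℕ) : Prop :=
  (∀ i, w i ≤ m) ∧ ∀ i, k < w i → 2 * (w i * (w i + 1) * (w i + 2)) ≤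
    ∑ j ∈ univ.filter (fun j => min 2 k ≤ w j ∧ w j < w i), w j * (w j + 1)

/-- With `A = ∑ (w i + 1).choose 2`, and `A'` the part of it with `w i ≠ 1`: for some `1 ≤ k ≤ m`,
`Frequent m k w`, `m (m + 1) (m + 6 √m + 10) ≤ max ((d + 1) (d + 2)) A`, and
`(d + 2).choose 2 + 2 (k + 1).choose 3 ≤ A`, or `A' + 2 (k + 1).choose 3 ≤ (d + 2).choose 2`, or no
`w i` lies strictly between `1` and `k`. -/
def Cubic {n : ℕ} (d : ℕ) (w : Fin n → ℕ) : Prop :=
  ∃ m k : ℕ, 0 < k ∧ k ≤ m ∧ Frequent m k w ∧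
    (m : ℝ) * (m + 1) * (m + 6 * Real.sqrt m + 10) ≤
      ((max ((d + 1) * (d + 2)) (∑ i, (w i + 1).choose 2) : ℕ) : ℝ) ∧
    ((d + 2).choose 2 + 2 * (k + 1).choose 3 ≤ ∑ i, (w i + 1).choose 2 ∨
      (∑ i ∈ univ.filter (fun i => w i ≠ 1), (w i + 1).choose 2) + 2 * (k + 1).choose 3 ≤
        (d + 2).choose 2 ∨ ∀ i, w i ≤ 1 ∨ k ≤ w i)

/-- Such classes have the expected dimension at generic points. -/
theorem cubic_exp {n d : ℕ} {w : Fin n → ℕ} (h : Cubic d w) {K : Type} [Field K] [CharZero K]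
    {P : Fin n → Fin 2 → K}
    (hP : AlgebraicIndependent ℚ (fun ij : Fin n × Fin 2 => P ij.1 ij.2)) : ExpDim K w P d := by
  obtain ⟨m, k, hk, hkm, hw, h1, h2⟩ := h
  obtain ⟨F, hF, hF'⟩ := H932R7.bounded2 K hk hkm hw.1 hw.2
  have hFP : MvPolynomial.aeval (fun ij : Fin n × Fin 2 => P ij.1 ij.2) F ≠ 0 := by
    intro h0
    rw [algebraicIndependent_iff] at hP
    exact hF (hP F h0)
  exact hF' P hFP d ⟨h1, h2⟩

end Pool.Agent.X213.EngB
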