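import Mathlib
import Pool.Agent.W609.T.Five
import Pool.Agent.TH885.CO.Plus
import Pool.Agent.Y536.SH.Tame

set_option autoImplicit false

/-!
# Classes with a large tail against the fourth multiplicity
-/

namespace Pool.Agent.X213.Eng4

open MvPolynomial Pool.Agent.H932R3

/-- With `v 0 ≥ v 1 ≥ ⋯`: `2 ^ 17 B ^ 4 + ∑_{i < 3} v i (v i + 1) ≤ (d + 1) (d + 2)`, or
`2 ^ 17 B ^ 4 ≤ ∑_{i ≥ 3} (v i + 1).choose 2`. -/
def Big {r : ℕ} (B d : ℕ) (v : Fin (r + 4) → ℕ) : Prop :=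
  131072 * B ^ 4 + (v 0 * (v 0 + 1) + v 1 * (v 1 + 1) + v 2 * (v 2 + 1)) ≤ (d + 1) * (d + 2) ∨
    131072 * B ^ 4 ≤ ∑ i : Fin (r + 4), if 3 ≤ (i : ℕ) then (v i + 1).choose 2 else 0

/-- The class `(d; v)` with `v 0 ≥ v 1 ≥ ⋯` satisfies one of: `v 3 = 0`; `2 v 3 ^ 2 + 3 v 3 + 2 ≤ v 2`;
`Big (v 3 + 1)`; or, for some `m ≥ 1` with `v i ≤ m` for all `i ≥ 5`,
`4 m ^ 2 + 8 m + 5 ≤ v 2` or `Big (4 m ^ 2 + 8 m + 5)`. -/
def Apart {r : ℕ} (d : ℕ) (v : Fin (r + 4) → ℕ) : Prop :=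
  v 3 = 0 ∨ 2 * v 3 ^ 2 + 3 * v 3 + 2 ≤ v 2 ∨ Big (v 3 + 1) d v ∨
    ∃ m : ℕ, 0 < m ∧ (∀ i : Fin (r + 4), 5 ≤ (i : ℕ) → v i ≤ m) ∧
      (4 * m ^ 2 + 8 * m + 5 ≤ v 2 ∨ Big (4 * m ^ 2 + 8 * m + 5) d v)

/-- The class `(d; w)`, with the multiplicities in decreasing order, is `Apart`. -/
def Far {r : ℕ} (d : ℕ) (w : Fin (r + 4) → ℕ) : Prop :=
  ∃ σ : Equiv.Perm (Fin (r + 4)), Antitone (fun i => w (σ i)) ∧ Apart d fun i => w (σ i)

theorem large_third (L : Type) [Field L] [CharZero L] {r m : ℕ} (hm : 0 < m)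
    {v : Fin (r + 4) → ℕ} (hv : Antitone v)
    (h : (v 3 ≤ m ∧ 2 * m ^ 2 + 3 * m + 2 ≤ v 2) ∨
      ((∀ i : Fin (r + 4), 5 ≤ (i : ℕ) → v i ≤ m) ∧ 4 * m ^ 2 + 8 * m + 5 ≤ v 2)) :
    ∃ F : MvPolynomial (Fin (r + 4) × Fin 2) ℚ, F ≠ 0 ∧ ∀ P : Fin (r + 4) → Fin 2 → L,
      MvPolynomial.aeval (fun ij : Fin (r + 4) × Fin 2 => P ij.1 ij.2) F ≠ 0 →
        ∀ d : ℕ, v 0 + v 1 + v 2 ≤ d → ExpDim L v P d := by
  classical
  have n0 : ((0 : Fin (r + 4)) : ℕ) = 0 := rfl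
  have n1 : ((1 : Fin (r + 4)) : ℕ) = 1 := Nat.mod_eq_of_lt (show 1 < r + 4 by omega)
  have n2 : ((2 : Fin (r + 4)) : ℕ) = 2 := Nat.mod_eq_of_lt (show 2 < r + 4 by omega)
  have n3 : ((3 : Fin (r + 4)) : ℕ) = 3 := Nat.mod_eq_of_lt (show 3 < r + 4 by omega)
  obtain ⟨w, hw⟩ : ∃ w : ℕ → ℕ, w = fun i => if h : i < r + 4 then v ⟨i, h⟩ else 0 := ⟨_, rfl⟩
  have hwv : ∀ i : Fin (r + 4), w i = v i := by
    intro i
    rw [hw]
    simp only
    rw [dif_pos i.2]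
  have hw0 : w 0 = v 0 := by rw [← hwv 0, n0]
  have hw1 : w 1 = v 1 := by rw [← hwv 1, n1]
  have hw2 : w 2 = v 2 := by rw [← hwv 2, n2]
  have hw3 : w 3 = v 3 := by rw [← hwv 3, n3]
  have hwa : Antitone w := by
    intro a b hab
    rw [hw]
    simp only
    by_cases hb : b < r + 4
    · rw [dif_pos hb, dif_pos (lt_of_le_of_lt hab hb)]
      exact hv hab
    · rw [dif_neg hb]
      exact Nat.zero_le _
  have h01 := hwa (show 0 ≤ 1 by omega)
  have h12 := hwa (show 1 ≤ 2 by omega)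
  have h03 := hwa (show 0 ≤ 3 by omega)
  have h14 := hwa (show 1 ≤ 4 by omega)
  have hm2 : 2 * m ^ 2 ≤ 4 * m ^ 2 := Nat.mul_le_mul_right _ (by omega)
  have hf2 : 2 * m ^ 2 + 3 * m + 2 ≤ w 2 := by
    rw [hw2]
    omega
  have e : W611.ff m = 2 * m ^ 2 + 3 * m + 2 := by
    unfold W611.ff
    ring
  have hvw : v = fun i : Fin (r + 4) => w i := funext fun i => (hwv i).symm
  have hC : W611.Cnd m (w 0 + w 1 + w 2) (fun i : Fin (r + 4) => w i) := by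
    refine ⟨by omega, fun i hi => ?_, fun i j hij hi hj => ?_, ?_⟩
    · have := hwa (show 0 ≤ (i : ℕ) by omega)
      rw [e]
      omega
    · have hne : (i : ℕ) ≠ (j : ℕ) := fun h => hij (Fin.ext h)
      rw [e]
      rcases Nat.lt_or_ge (i : ℕ) (j : ℕ) with hlt | hge
      · have g1 := hwa (show 0 ≤ (i : ℕ) by omega)
        have g2 := hwa (show 1 ≤ (j : ℕ) by omega)
        omega
      · have g1 := hwa (show 0 ≤ (j : ℕ) by omega)
        have g2 := hwa (show 1 ≤ (i : ℕ) by omega)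
        omega
    · have hsum : ∀ (g : ℕ → ℕ) (k : ℕ), (∀ i, k ≤ i → g i = 0) →
          ∑ i : Fin (r + 4), g (i : ℕ) ≤ ∑ i ∈ Finset.range k, g i := by
        intro g k hg
        rw [Fin.sum_univ_eq_sum_range g (r + 4)]
        rcases Nat.lt_or_ge (r + 4) k with h | h
        · exact Finset.sum_le_sum_of_subset (Finset.range_mono h.le)
        · rw [← Finset.sum_range_add_sum_Ico g h, Finset.sum_eq_zero (s := Finset.Ico k (r + 4))
            (fun i hi => hg i (Finset.mem_Ico.1 hi).1)]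
          exact le_rfl
      rcases h with ⟨h5, h6⟩ | ⟨h5, h6⟩
      · left
        rw [← hw3] at h5
        unfold W611.Nlg
        refine le_trans (hsum (fun i => if w i ≤ m then 0 else 1) 3 fun i hi => ?_) ?_
        · rw [if_pos (le_trans (hwa hi) h5)]
        · refine le_trans (Finset.sum_le_card_nsmul _ _ 1 fun i _ => ?_) (by simp)
          split_ifs <;> omega
      · right
        have h5' : ∀ i, 5 ≤ i → w i ≤ m := by
          intro i hi
          by_cases hir : i < r + 4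
          · have := h5 ⟨i, hir⟩ hi
            rwa [← hwv] at this
          · rw [hw]
            simp only
            rw [dif_neg hir]
            exact Nat.zero_le _
        have h7 : W611.Slg m (fun i : Fin (r + 4) => w (i : ℕ)) ≤
            ∑ i ∈ Finset.range 5, if w i ≤ m then 0 else w i := by
          unfold W611.Slg
          refine hsum (fun i => if w i ≤ m then 0 else w i) 5 fun i hi => ?_
          rw [if_pos (h5' i hi)]
        have h8 : (∑ i ∈ Finset.range 5, if w i ≤ m then 0 else w i) ≤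
            ∑ i ∈ Finset.range 5, w i := by
          refine Finset.sum_le_sum fun i _ => ?_
          split_ifs <;> omega
        simp only [Finset.sum_range_succ, Finset.sum_range_zero] at h8
        rw [e]
        simp only [Finset.sum_range_succ, Finset.sum_range_zero] at h7
        omega
  obtain ⟨F, hF, hF'⟩ := W611.expH L m hm (fun i : Fin (r + 4) => w i) _ hC
  rw [← hvw] at hF'
  exact ⟨F, hF, fun P hP d hd => hF' P hP d (Or.inl (by omega))⟩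

theorem std_sorted {r d : ℕ} {w : Fin (r + 4) → ℕ} (hs : Pool.Agent.Y536.SH.Standard d w)
    (σ : Equiv.Perm (Fin (r + 4))) : w (σ 0) + w (σ 1) + w (σ 2) ≤ d := by
  have n0 : ((0 : Fin (r + 4)) : ℕ) = 0 := rfl
  have n1 : ((1 : Fin (r + 4)) : ℕ) = 1 := Nat.mod_eq_of_lt (show 1 < r + 4 by omega)
  have n2 : ((2 : Fin (r + 4)) : ℕ) = 2 := Nat.mod_eq_of_lt (show 2 < r + 4 by omega)
  refine hs _ _ _ (fun h => ?_) (fun h => ?_) (fun h => ?_)
  · have := congrArg Fin.val (σ.injective h)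
    omega
  · have := congrArg Fin.val (σ.injective h)
    omega
  · have := congrArg Fin.val (σ.injective h)
    omega

/-- An order of the points. -/
theorem exp_perm {n d : ℕ} {w : Fin n → ℕ} (σ : Equiv.Perm (Fin n)) {K : Type} [Field K]
    [CharZero K] {P : Fin n → Fin 2 → K}
    (hP : AlgebraicIndependent ℚ (fun ij : Fin n × Fin 2 => P ij.1 ij.2))
    (h : ∃ F : MvPolynomial (Fin n × Fin 2) ℚ, F ≠ 0 ∧ ∀ Q : Fin n → Fin 2 → K,
      MvPolynomial.aeval (fun ij : Fin n × Fin 2 => Q ij.1 ij.2) F ≠ 0 →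
        ExpDim K (fun i => w (σ i)) Q d) : ExpDim K w P d := by
  have h3 := Pool.Agent.TH885.CO.exp_plus (K := K) σ.toEmbedding (w := w) (d := d)
    (fun i hi => absurd (Finset.mem_map.2 ⟨σ.symm i, Finset.mem_univ _, by simp⟩) hi) h hP
  have h4 : Module.finrank K ↥(Pool.Agent.TH167.SHDefs.sys P d w) =
      (d + 2).choose 2 - ∑ j, (w j + 1).choose 2 := by
    rw [Pool.Agent.TH885.CO.sys_eq]
    exact h3
  exact h4

/-- Standard classes which are `Far` have the expected dimension at generic points. -/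
theorem far_exp {r d : ℕ} {w : Fin (r + 4) → ℕ} (hs : Pool.Agent.Y536.SH.Standard d w)
    (h : Far d w) {K : Type} [Field K] [CharZero K] {P : Fin (r + 4) → Fin 2 → K}
    (hP : AlgebraicIndependent ℚ (fun ij : Fin (r + 4) × Fin 2 => P ij.1 ij.2)) :
    ExpDim K w P d := by
  obtain ⟨σ, hσ, hA⟩ := h
  have hd := std_sorted hs σ
  refine exp_perm σ hP ?_
  have h3 : (w (σ 3) = 0 ∨ 2 * w (σ 3) ^ 2 + 3 * w (σ 3) + 2 ≤ w (σ 2) ∨
      Big (w (σ 3) + 1) d (fun i => w (σ i)) ∨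
      ∃ m : ℕ, 0 < m ∧ (∀ i : Fin (r + 4), 5 ≤ (i : ℕ) → w (σ i) ≤ m) ∧
      (4 * m ^ 2 + 8 * m + 5 ≤ w (σ 2) ∨ Big (4 * m ^ 2 + 8 * m + 5) d fun i => w (σ i))) := hA
  rcases Nat.eq_zero_or_pos (w (σ 3)) with h0 | h0
  · obtain ⟨F, hF, hF'⟩ := W609.T.big_three K hσ h0
    exact ⟨F, hF, fun Q hQ => hF' Q hQ d hd⟩
  rcases h3 with h3 | h3 | h3 | ⟨m, hm, h5, h3 | h3⟩
  · omega
  · obtain ⟨F, hF, hF'⟩ := large_third K h0 hσ (Or.inl ⟨le_rfl, h3⟩)
    exact ⟨F, hF, fun Q hQ => hF' Q hQ d hd⟩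
  · obtain ⟨F, hF, hF'⟩ := W609.T.big3' K hσ h0
    exact ⟨F, hF, fun Q hQ => hF' Q hQ d hd h3⟩
  · obtain ⟨F, hF, hF'⟩ := large_third K hm hσ (Or.inr ⟨h5, h3⟩)
    exact ⟨F, hF, fun Q hQ => hF' Q hQ d hd⟩
  · obtain ⟨F, hF, hF'⟩ := W609.T.big5 K hm hσ h5
    exact ⟨F, hF, fun Q hQ => hF' Q hQ d hd h3⟩

end Pool.Agent.X213.Eng4
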