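import Mathlib
import Pool.Agent.Helper850.TC.Katetov

open Filter Topology Set

namespace Pool.Agent.X213

universe u

/-- The three-set lemma for self maps of an arbitrary set. -/
theorem exists_three_coloring {S : Type u} (f : S → S) :
    ∃ c : S → ZMod 3, ∀ s, f s ≠ s → c s ≠ c (f s) := by
  classical
  let inst : TopologicalSpace (ZMod 3) := ⊥
  have hd : DiscreteTopology (ZMod 3) := ⟨rfl⟩
  let C : Finset S → Set (S → ZMod 3) := fun N =>
    {c | ∀ s ∈ N, f s ∈ N → f s ≠ s → c s ≠ c (f s)}
  have hC : ∀ N, IsClosed (C N) := by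
    intro N
    have : C N = ⋂ s ∈ N, {c : S → ZMod 3 | f s ∈ N → f s ≠ s → c s ≠ c (f s)} := by
      ext c; simp [C]
    rw [this]
    refine isClosed_biInter fun s _ => ?_
    by_cases h1 : f s ∈ N
    · by_cases h2 : f s ≠ s
      · have h3 : {c : S → ZMod 3 | f s ∈ N → f s ≠ s → c s ≠ c (f s)} =
            (fun c : S → ZMod 3 => (c s, c (f s))) ⁻¹' {p : ZMod 3 × ZMod 3 | p.1 ≠ p.2} := by
          ext c; simp [h1, h2]
        rw [h3]
        exact (isClosed_discrete _).preimage
          ((continuous_apply s).prodMk (continuous_apply (f s)))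
      · convert isClosed_univ
        ext c; simp [h2]
    · convert isClosed_univ
      ext c; simp [h1]
  have hdir : Directed (· ⊇ ·) C := by
    intro N M
    refine ⟨N ∪ M, ?_, ?_⟩
    · intro c hc s hs hfs
      exact hc s (Finset.mem_union_left _ hs) (Finset.mem_union_left _ hfs)
    · intro c hc s hs hfs
      exact hc s (Finset.mem_union_right _ hs) (Finset.mem_union_right _ hfs)
  have hne : ∀ N, (C N).Nonempty := by
    intro N
    obtain ⟨c, hc⟩ := Pool.Agent.Helper850.TC.katetov N f
    exact ⟨c, hc⟩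
  obtain ⟨c, hc⟩ := IsCompact.nonempty_iInter_of_directed_nonempty_isCompact_isClosed C hdir hne
    (fun N => (hC N).isCompact) hC
  refine ⟨c, fun s hs => ?_⟩
  have h1 := Set.mem_iInter.mp hc {s, f s}
  exact h1 s (by simp) (by simp) hs

/-- If `g` maps an ultrafilter to itself, then `g` is the identity almost everywhere. -/
theorem eventually_fix {S : Type u} (U : Ultrafilter S) (g : S → S) (h : U.map g = U) :
    ∀ᶠ s in (U : Filter S), g s = s := by
  by_contra hno
  rw [← Ultrafilter.eventually_not] at hno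
  obtain ⟨c, hc⟩ := exists_three_coloring g
  obtain ⟨i, hi⟩ : ∃ i : ZMod 3, ∀ᶠ s in (U : Filter S), c s = i := by
    have h1 : (⋃ i ∈ (Finset.univ : Finset (ZMod 3)), {s | c s = i}) ∈ U := by
      have : (⋃ i ∈ (Finset.univ : Finset (ZMod 3)), {s | c s = i}) = Set.univ := by
        ext s; simp
      rw [this]; exact univ_mem
    have h2 := (Ultrafilter.finite_biUnion_mem_iff
      (Finset.finite_toSet (Finset.univ : Finset (ZMod 3)))).mp (by simpa using h1)
    obtain ⟨i, -, hi⟩ := h2
    exact ⟨i, hi⟩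
  have h3 : ∀ᶠ s in (U : Filter S), c (g s) = i := by
    have h4 : {s | c s = i} ∈ U.map g := by rw [h]; exact hi
    exact h4
  obtain ⟨s, hs1, hs2, hs3⟩ := (hno.and (hi.and h3)).exists
  exact hc s hs1 (hs2.trans hs3.symm)

end Pool.Agent.X213
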