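import Mathlib
import Pool.Agent.X213.UltraFix

set_option autoImplicit false

open Filter Set

namespace Pool.Agent.X213.Bal

universe u v

/-- `φ` varies no more than `f` does, uniformly in the second variable. -/
def Dom {X : Type u} {Y : Type v} (f : X → Y → ℝ) (φ : X → ℝ) : Prop :=
  ∀ (x x' : X) (c : ℝ), 0 ≤ c → (∀ y, |f x y - f x' y| ≤ c) → |φ x - φ x'| ≤ c

/-- The hypotheses of the abstract product theorem. -/
structure Setup {X : Type u} {Y : Type v} (f : X → Y → ℝ) (BX : Set (Set X)) (BY : Set (Set Y)) :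
    Prop where
  subX : ∀ A ∈ BX, ∀ A' ⊆ A, A' ∈ BX
  unionX : ∀ A ∈ BX, ∀ A' ∈ BX, A ∪ A' ∈ BX
  subY : ∀ A ∈ BY, ∀ A' ⊆ A, A' ∈ BY
  unionY : ∀ A ∈ BY, ∀ A' ∈ BY, A ∪ A' ∈ BY
  domX : ∀ φ : X → ℝ, Dom f φ → ∃ B ∈ BX, ∃ M : ℝ, ∀ x ∉ B, |φ x| ≤ M
  domY : ∀ φ : Y → ℝ, Dom (fun y x => f x y) φ → ∃ B ∈ BY, ∃ M : ℝ, ∀ y ∉ B, |φ y| ≤ M
  boxX : ∀ B ∈ BX, ∃ B' ∈ BY, ∃ M : ℝ, ∀ x ∈ B, ∀ y ∉ B', |f x y| ≤ M
  boxY : ∀ B' ∈ BY, ∃ B ∈ BX, ∃ M : ℝ, ∀ x ∉ B, ∀ y ∈ B', |f x y| ≤ M

theorem Setup.symm {X : Type u} {Y : Type v} {f : X → Y → ℝ} {BX : Set (Set X)}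
    {BY : Set (Set Y)} (h : Setup f BX BY) : Setup (fun y x => f x y) BY BX where
  subX := h.subY
  unionX := h.unionY
  subY := h.subX
  unionY := h.unionX
  domX := h.domY
  domY := h.domX
  boxX := by
    intro B hB
    obtain ⟨B', hB', M, hM⟩ := h.boxY B hB
    exact ⟨B', hB', M, fun y hy x hx => hM x hx y hy⟩
  boxY := by
    intro B hB
    obtain ⟨B', hB', M, hM⟩ := h.boxX B hB
    exact ⟨B', hB', M, fun y hy x hx => hM x hx y hy⟩

section

variable {X : Type u} {Y : Type v} (f : X → Y → ℝ)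

/-- Points at finite distance. -/
def comp : Setoid X where
  r x x' := ∃ c : ℝ, ∀ y, |f x y - f x' y| ≤ c
  iseqv := by
    refine ⟨fun x => ⟨0, fun y => by simp⟩, ?_, ?_⟩
    · rintro x x' ⟨c, hc⟩
      exact ⟨c, fun y => by rw [abs_sub_comm]; exact hc y⟩
    · rintro x x' x'' ⟨c, hc⟩ ⟨c', hc'⟩
      exact ⟨c + c', fun y => (abs_sub_le _ (f x' y) _).trans (add_le_add (hc y) (hc' y))⟩

/-- The type of components. -/
abbrev Cp : Type u := Quotient (comp f)

/-- The component of a point. -/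
abbrev cl (x : X) : Cp f := Quotient.mk (comp f) x

theorem cl_eq {x x' : X} : cl f x = cl f x' ↔ ∃ c : ℝ, ∀ y, |f x y - f x' y| ≤ c := by
  constructor
  · intro h; exact Quotient.exact h
  · intro h; exact Quotient.sound (s := comp f) h

/-- The chosen point of a component. -/
noncomputable def rep (K : Cp f) : X := K.out

theorem cl_rep (K : Cp f) : cl f (rep f K) = K := Quotient.out_eq K

/-- A point and the chosen point of its component are at finite distance. -/
theorem fin_rep (x : X) : ∃ c : ℝ, ∀ y, |f x y - f (rep f (cl f x)) y| ≤ c :=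
  (cl_eq f).mp (cl_rep f (cl f x)).symm

variable {f} {BX : Set (Set X)} {BY : Set (Set Y)}

/-- Functions of the component are bounded off bounded sets. -/
theorem Setup.bdd (h : Setup f BX BY) (ψ : Cp f → ℕ) :
    ∃ n : ℕ, {x | n < ψ (cl f x)} ∈ BX := by
  obtain ⟨B, hB, M, hM⟩ := h.domX (fun x => (ψ (cl f x) : ℝ)) (by
    intro x x' c hc hxx
    have : cl f x = cl f x' := (cl_eq f).mpr ⟨c, hxx⟩
    show |(ψ (cl f x) : ℝ) - ψ (cl f x')| ≤ c
    rw [this, sub_self, abs_zero]
    exact hc)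
  obtain ⟨n, hn⟩ := exists_nat_ge M
  refine ⟨n, h.subX B hB _ ?_⟩
  intro x hx
  by_contra hxB
  have h1 := hM x hxB
  rw [Nat.abs_cast] at h1
  have h2 : (ψ (cl f x) : ℝ) ≤ n := h1.trans hn
  have h3 : ψ (cl f x) ≤ n := by exact_mod_cast h2
  exact absurd hx (not_lt.mpr h3)

/-- The ideal of sets of components with bounded union is `σ`-complete. -/
theorem Setup.sigma (h : Setup f BX BY) (S : ℕ → Set (Cp f))
    (hS : ∀ n, {x | cl f x ∈ S n} ∈ BX) : {x | ∃ n, cl f x ∈ S n} ∈ BX := by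
  classical
  obtain ⟨n, hn⟩ := h.bdd (fun K => if hK : ∃ n, K ∈ S n then Nat.find hK else 0)
  have h1 : ∀ m : ℕ, {x | ∃ k ≤ m, cl f x ∈ S k} ∈ BX := by
    intro m
    induction m with
    | zero =>
      refine h.subX _ (hS 0) _ ?_
      rintro x ⟨k, hk, hx⟩
      have : k = 0 := by omega
      rw [this] at hx
      exact hx
    | succ m ih =>
      refine h.subX _ (h.unionX _ ih _ (hS (m + 1))) _ ?_
      rintro x ⟨k, hk, hx⟩
      rcases Nat.lt_or_ge k (m + 1) with h2 | h2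
      · exact Or.inl ⟨k, by omega, hx⟩
      · have : k = m + 1 := by omega
        rw [this] at hx
        exact Or.inr hx
  refine h.subX _ (h.unionX _ hn _ (h1 n)) _ ?_
  intro x hx
  have hx' : ∃ n, cl f x ∈ S n := hx
  by_cases h2 : Nat.find hx' ≤ n
  · exact Or.inr ⟨_, h2, Nat.find_spec hx'⟩
  · left
    show n < _
    rw [dif_pos hx']
    omega

/-- Off a bounded set the distance to the chosen point is bounded. -/
theorem Setup.rho (h : Setup f BX BY) :
    ∃ B ∈ BX, ∃ R : ℝ, 0 ≤ R ∧ ∀ x ∉ B, ∀ y, |f x y - f (rep f (cl f x)) y| ≤ R := by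
  classical
  by_cases hY : Nonempty Y
  · let ρ : X → ℝ := fun x => ⨆ y, |f x y - f (rep f (cl f x)) y|
    have hbdd : ∀ x, BddAbove (range fun y => |f x y - f (rep f (cl f x)) y|) := by
      intro x
      obtain ⟨c, hc⟩ := fin_rep f x
      exact ⟨c, by rintro _ ⟨y, rfl⟩; exact hc y⟩
    obtain ⟨B, hB, M, hM⟩ := h.domX ρ (by
      intro x x' c hc hxx
      have h1 : cl f x = cl f x' := (cl_eq f).mpr ⟨c, hxx⟩
      have h2 : ρ x ≤ ρ x' + c := by
        refine ciSup_le fun y => ?_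
        have h3 : |f x' y - f (rep f (cl f x')) y| ≤ ρ x' := le_ciSup (hbdd x') y
        rw [h1]
        have h4 := abs_sub_le (f x y) (f x' y) (f (rep f (cl f x')) y)
        linarith [hxx y]
      have h2' : ρ x' ≤ ρ x + c := by
        refine ciSup_le fun y => ?_
        have h3 : |f x y - f (rep f (cl f x)) y| ≤ ρ x := le_ciSup (hbdd x) y
        rw [← h1]
        have h4 := abs_sub_le (f x' y) (f x y) (f (rep f (cl f x)) y)
        have h5 := hxx y
        rw [abs_sub_comm] at h5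
        linarith
      rw [abs_le]
      constructor <;> linarith)
    refine ⟨B, hB, max M 0, le_max_right _ _, fun x hx y => ?_⟩
    exact (le_ciSup (hbdd x) y).trans ((le_abs_self _).trans ((hM x hx).trans (le_max_left _ _)))
  · obtain ⟨B, hB, -⟩ := h.domX (fun _ => 0) (by intro x x' c hc _; simpa using hc)
    exact ⟨B, hB, 0, le_refl _, fun x _ y => absurd ⟨y⟩ hY⟩

/-- An ultrafilter of components which contains no set with bounded union contains a set on which
small sets have bounded union. -/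
theorem Setup.atom (h : Setup f BX BY) (U : Ultrafilter (Cp f)) :
    ∃ T ∈ U, ∀ S ⊆ T, S ∉ U → {x | cl f x ∈ S} ∈ BX := by
  classical
  by_contra hno
  push Not at hno
  choose! S hST hSU hSB using hno
  let T : ℕ → Set (Cp f) := fun n => Nat.rec Set.univ (fun _ T => T \ S T) n
  have hT0 : T 0 = Set.univ := rfl
  have hTs : ∀ n, T (n + 1) = T n \ S (T n) := fun n => rfl
  have hTU : ∀ n, T n ∈ U := by
    intro n
    induction n with
    | zero => rw [hT0]; exact univ_mem
    | succ n ih =>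
      rw [hTs]
      exact inter_mem ih (Ultrafilter.compl_mem_iff_notMem.mpr (hSU (T n) ih))
  have hanti : Antitone T := antitone_nat_of_succ_le fun n => by
    rw [hTs]; exact Set.sdiff_subset
  have huniq : ∀ n m K, K ∈ S (T n) → K ∈ S (T m) → n = m := by
    have aux : ∀ n m K, n < m → K ∈ S (T n) → K ∈ S (T m) → False := by
      intro n m K hnm h1 h2
      have h3 : K ∈ T (n + 1) := hanti hnm (hST (T m) (hTU m) h2)
      rw [hTs] at h3
      exact h3.2 h1
    intro n m K h1 h2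
    by_contra hne
    rcases lt_or_gt_of_ne hne with h3 | h3
    · exact aux n m K h3 h1 h2
    · exact aux m n K h3 h2 h1
  obtain ⟨n, hn⟩ := h.bdd (fun K => if hK : ∃ n, K ∈ S (T n) then hK.choose + 1 else 0)
  apply hSB (T n) (hTU n)
  refine h.subX _ hn _ ?_
  intro x hx
  have hx' : ∃ m, cl f x ∈ S (T m) := ⟨n, hx⟩
  show n < _
  rw [dif_pos hx', huniq _ _ _ hx'.choose_spec hx]
  exact Nat.lt_succ_self n

/-- If `ψ` is a function of components, it is bounded on a set of any ultrafilter whose members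
do not have bounded union. -/
theorem Setup.evBdd (h : Setup f BX BY) (U : Ultrafilter (Cp f))
    (hU : ∀ S ∈ U, {x | cl f x ∈ S} ∉ BX) (ψ : Cp f → ℕ) :
    ∃ n : ℕ, ∀ᶠ K in (U : Filter (Cp f)), ψ K ≤ n := by
  obtain ⟨n, hn⟩ := h.bdd ψ
  refine ⟨n, ?_⟩
  by_contra hno
  rw [← Ultrafilter.eventually_not] at hno
  refine hU _ hno (h.subX _ hn _ ?_)
  intro x hx
  exact not_le.mp hx

/-- Such an ultrafilter is countably complete. -/
theorem Setup.countable (h : Setup f BX BY) (U : Ultrafilter (Cp f))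
    (hU : ∀ S ∈ U, {x | cl f x ∈ S} ∉ BX) (P : ℕ → Cp f → Prop)
    (hP : ∀ n, ∀ᶠ K in (U : Filter (Cp f)), P n K) : ∀ᶠ K in (U : Filter (Cp f)), ∀ n, P n K := by
  classical
  obtain ⟨n, hn⟩ := h.evBdd U hU (fun K => if hK : ∃ n, ¬ P n K then Nat.find hK else 0)
  have h1 : ∀ᶠ K in (U : Filter (Cp f)), ∀ m ≤ n, P m K := by
    have h2 := (eventually_all_finite (Set.finite_Iic n)).mpr fun m _ => hP m
    exact h2
  filter_upwards [hn, h1] with K hK1 hK2
  by_contra hno
  push Not at hno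
  rw [dif_pos hno] at hK1
  exact Nat.find_spec hno (hK2 _ hK1)

/-- The reduced function of pairs of components. -/
noncomputable def red (f : X → Y → ℝ) (K : Cp f) (L : Cp fun y x => f x y) : ℝ :=
  f (rep f K) (rep (fun y x => f x y) L)

/-- The data obtained from a function which is unbounded at infinity. -/
structure Bad (f : X → Y → ℝ) (BX : Set (Set X)) (BY : Set (Set Y)) (U : Ultrafilter (Cp f))
    (V : Ultrafilter (Cp fun y x => f x y)) : Prop where
  setup : Setup f BX BY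
  /-- bounded sets meet only few components -/
  missX : ∀ B ∈ BX, ∀ᶠ K in (U : Filter _), ∀ x, cl f x = K → x ∉ B
  missY : ∀ B ∈ BY, ∀ᶠ L in (V : Filter _), ∀ y, cl (fun y x => f x y) y = L → y ∉ B
  bigX : ∀ (n : ℕ), ∀ T ∈ V, ∀ᶠ K in (U : Filter _), ∃ L ∈ T, (n : ℝ) ≤ |red f K L|
  bigY : ∀ (n : ℕ), ∀ T ∈ U, ∀ᶠ L in (V : Filter _), ∃ K ∈ T, (n : ℝ) ≤ |red f K L|

theorem Bad.symm {U : Ultrafilter (Cp f)} {V : Ultrafilter (Cp fun y x => f x y)}
    (h : Bad f BX BY U V) : Bad (fun y x => f x y) BY BX V U where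
  setup := h.setup.symm
  missX := h.missY
  missY := h.missX
  bigX := h.bigY
  bigY := h.bigX

theorem Bad.posX {U : Ultrafilter (Cp f)} {V : Ultrafilter (Cp fun y x => f x y)}
    (h : Bad f BX BY U V) : ∀ S ∈ U, {x | cl f x ∈ S} ∉ BX := by
  intro S hS hB
  obtain ⟨K, hK1, hK2⟩ := ((h.missX _ hB).and hS).exists
  exact hK1 (rep f K) (cl_rep f K) (by show cl f (rep f K) ∈ S; rw [cl_rep]; exact hK2)

/-- The choice functions `y n` push `U` to `V` for large `n`. -/
theorem Bad.choice {U : Ultrafilter (Cp f)} {V : Ultrafilter (Cp fun y x => f x y)}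
    (h : Bad f BX BY U V) :
    ∃ (y : ℕ → Cp f → Cp fun y x => f x y) (N : ℕ),
      (∀ n : ℕ, ∀ᶠ K in (U : Filter _), (n : ℝ) ≤ |red f K (y n K)|) ∧
      ∀ n, N ≤ n → U.map (y n) = V := by
  classical
  obtain ⟨T, hTV, hT⟩ := h.setup.symm.atom V
  have hne : Nonempty (Cp fun y x => f x y) := by
    obtain ⟨L, -⟩ := Ultrafilter.nonempty_of_mem hTV
    exact ⟨L⟩
  choose! y hy using fun (n : ℕ) (K : Cp f) (hK : ∃ L ∈ T, (n : ℝ) ≤ |red f K L|) => hK
  have hyT : ∀ n, ∀ᶠ K in (U : Filter _), y n K ∈ T ∧ (n : ℝ) ≤ |red f K (y n K)| := by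
    intro n
    filter_upwards [h.bigX n T hTV] with K hK
    exact hy n K hK
  have key : ∃ N : ℕ, ∀ n, N ≤ n → U.map (y n) = V := by
    by_contra hno
    push Not at hno
    -- separating sets for the bad indices
    have h1 : ∀ n, ∃ P : Set (Cp fun y x => f x y), P ⊆ T ∧ P ∉ V ∧
        (U.map (y n) ≠ V → ∀ᶠ K in (U : Filter _), y n K ∈ P) := by
      intro n
      by_cases hn : U.map (y n) = V
      · exact ⟨∅, Set.empty_subset _, Ultrafilter.empty_notMem, fun h => absurd hn h⟩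
      · have h2 : ∃ P, P ∈ U.map (y n) ∧ P ∉ V := by
          by_contra hc
          push Not at hc
          exact hn (Ultrafilter.coe_le_coe.mp (fun s hs => by
            by_contra hs'
            exact (hc _ (Ultrafilter.compl_mem_iff_notMem.mpr hs')) |>
              Ultrafilter.compl_notMem_iff.mpr hs))
        obtain ⟨P, hP1, hP2⟩ := h2
        refine ⟨P ∩ T, Set.inter_subset_right, fun hc => hP2 (mem_of_superset hc
          Set.inter_subset_left), fun _ => ?_⟩
        filter_upwards [hP1, hyT n] with K hK1 hK2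
        exact ⟨hK1, hK2.1⟩
    choose P hPT hPV hPn using h1
    have hPB : ∀ n, {x | cl (fun y x => f x y) x ∈ P n} ∈ BY := fun n => hT _ (hPT n) (hPV n)
    have hB := h.setup.symm.sigma P hPB
    obtain ⟨B, hBX, M, hM⟩ := h.setup.boxY _ hB
    obtain ⟨N, hN⟩ := exists_nat_gt M
    obtain ⟨n, hn, hbad⟩ := hno N
    obtain ⟨K, hK1, hK2, hK3⟩ := ((h.missX B hBX).and ((hPn n hbad).and (hyT n))).exists
    have h3 := hM (rep f K) (hK1 _ (cl_rep f K)) (rep (fun y x => f x y) (y n K))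
      ⟨n, by rw [cl_rep]; exact hK2⟩
    have h4 : (n : ℝ) ≤ M := hK3.2.trans h3
    have h5 : (N : ℝ) ≤ n := by exact_mod_cast hn
    linarith
  obtain ⟨N, hN⟩ := key
  exact ⟨y, N, fun n => (hyT n).mono fun K hK => hK.2, hN⟩

theorem Bad.false {U : Ultrafilter (Cp f)} {V : Ultrafilter (Cp fun y x => f x y)}
    (h : Bad f BX BY U V) : False := by
  obtain ⟨y, N, hy, hyV⟩ := h.choice
  obtain ⟨x, M, hx, hxU⟩ := h.symm.choice
  have h1 : ∀ n, N ≤ n → ∀ᶠ K in (U : Filter _), x M (y n K) = K := by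
    intro n hn
    apply Pool.Agent.X213.eventually_fix U (fun K => x M (y n K))
    have : U.map (fun K => x M (y n K)) = (U.map (y n)).map (x M) := rfl
    rw [this, hyV n hn, hxU M le_rfl]
  have h2 : ∀ᶠ L in (V : Filter _), y N (x M L) = L := by
    apply Pool.Agent.X213.eventually_fix V (fun L => y N (x M L))
    have : V.map (fun L => y N (x M L)) = (V.map (x M)).map (y N) := rfl
    rw [this, hxU M le_rfl, hyV N le_rfl]
  have h3 : ∀ n : ℕ, ∀ᶠ K in (U : Filter _), N ≤ n → (n : ℝ) ≤ |red f K (y N K)| := by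
    intro n
    by_cases hn : N ≤ n
    · have h4 : ∀ᶠ K in (U : Filter _), y N (x M (y n K)) = y n K := by
        have h5 : ∀ᶠ L in (U.map (y n) : Filter _), y N (x M L) = L := by
          rw [hyV n hn]; exact h2
        exact h5
      filter_upwards [h4, h1 n hn, hy n] with K k1 k2 k3 _
      rw [k2] at k1
      rw [k1]; exact k3
    · exact Eventually.of_forall fun K h => absurd h hn
  obtain ⟨K, hK⟩ := (h.setup.countable U h.posX _ h3).exists
  obtain ⟨n, hn⟩ := exists_nat_gt |red f K (y N K)|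
  have h6 := hK (max n N) (le_max_right _ _)
  have h7 : (n : ℝ) ≤ (max n N : ℕ) := by exact_mod_cast le_max_left _ _
  linarith

end

end Pool.Agent.X213.Bal
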