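import Mathlib
import Pool.Agent.X213.BalleanCore

set_option autoImplicit false

open Filter Set

namespace Pool.Agent.X213.Bal

universe u v

/-- A witnessing ultrafilter of pairs. -/
structure Wit {X : Type u} {Y : Type v} (f : X → Y → ℝ) (BX : Set (Set X)) (BY : Set (Set Y))
    (W : Ultrafilter (X × Y)) (B0 : Set X) (B0' : Set Y) (R : ℝ) : Prop where
  setup : Setup f BX BY
  notX : ∀ᶠ p in (W : Filter (X × Y)), p.1 ∉ B0
  notY : ∀ᶠ p in (W : Filter (X × Y)), p.2 ∉ B0'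
  far : ∀ B ∈ BX, ∀ B' ∈ BY, ∀ᶠ p in (W : Filter (X × Y)), ¬ (p.1 ∈ B ∧ p.2 ∈ B')
  big : ∀ n : ℕ, ∀ᶠ p in (W : Filter (X × Y)),
    (n : ℝ) ≤ |red f (cl f p.1) (cl (fun y x => f x y) p.2)|
  rX : ∀ x ∉ B0, ∀ y, |f x y - f (rep f (cl f x)) y| ≤ R
  rY : ∀ y ∉ B0', ∀ x, |f x y - f x (rep (fun y x => f x y) (cl (fun y x => f x y) y))| ≤ R

variable {X : Type u} {Y : Type v} {f : X → Y → ℝ} {BX : Set (Set X)} {BY : Set (Set Y)}
  {W : Ultrafilter (X × Y)} {B0 : Set X} {B0' : Set Y} {R : ℝ}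

theorem Wit.symm (h : Wit f BX BY W B0 B0' R) :
    Wit (fun y x => f x y) BY BX (W.map Prod.swap) B0' B0 R where
  setup := h.setup.symm
  notX := h.notY
  notY := h.notX
  far := by
    intro B hB B' hB'
    have h1 := h.far B' hB' B hB
    have h2 : ∀ᶠ p in (W : Filter (X × Y)), ¬ ((Prod.swap p).1 ∈ B ∧ (Prod.swap p).2 ∈ B') := by
      filter_upwards [h1] with p hp
      exact fun hc => hp ⟨hc.2, hc.1⟩
    exact h2
  big := h.big
  rX := h.rY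
  rY := h.rX

/-- The reduced function is close to the function. -/
theorem Wit.close (h : Wit f BX BY W B0 B0' R) {x : X} {y : Y} (hx : x ∉ B0) (hy : y ∉ B0') :
    |f x y - red f (cl f x) (cl (fun y x => f x y) y)| ≤ R + R :=
  (abs_sub_le _ (f (rep f (cl f x)) y) _).trans (add_le_add (h.rX x hx y) (h.rY y hy _))

theorem Wit.farX (h : Wit f BX BY W B0 B0' R) (B : Set X) (hB : B ∈ BX) :
    ∀ᶠ p in (W : Filter (X × Y)), p.1 ∉ B := by
  obtain ⟨B', hB', M, hM⟩ := h.setup.boxX B hB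
  obtain ⟨n, hn⟩ := exists_nat_gt (M + (R + R))
  filter_upwards [h.notX, h.notY, h.far B hB B' hB', h.big n] with p p1 p2 p3 p4 p5
  have h1 : p.2 ∉ B' := fun hc => p3 ⟨p5, hc⟩
  have h2 := hM p.1 p5 p.2 h1
  have h3 := h.close p1 p2
  have h4 := abs_sub_abs_le_abs_sub (red f (cl f p.1) (cl (fun y x => f x y) p.2)) (f p.1 p.2)
  rw [abs_sub_comm] at h3
  linarith

theorem Wit.pos (h : Wit f BX BY W B0 B0' R) :
    ∀ S ∈ W.map (fun p => cl f p.1), {x | cl f x ∈ S} ∉ BX := by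
  intro S hS hB
  obtain ⟨p, hp1, hp2⟩ := ((h.farX _ hB).and (show ∀ᶠ p in (W : Filter (X × Y)), cl f p.1 ∈ S from
    hS)).exists
  exact hp1 hp2

theorem Wit.missX (h : Wit f BX BY W B0 B0' R) (B : Set X) (hB : B ∈ BX) :
    ∀ᶠ K in (W.map (fun p => cl f p.1) : Filter (Cp f)), ∀ x, cl f x = K → x ∉ B := by
  classical
  by_contra hno
  rw [← Ultrafilter.eventually_not] at hno
  -- choose points of `B` in the components, and bounds for the distance to the chosen points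
  have h1 : ∀ K : Cp f, ∃ (x : X) (n : ℕ), (∃ x', cl f x' = K ∧ x' ∈ B) →
      x ∈ B ∧ ∀ y, |f x y - f (rep f K) y| ≤ n := by
    intro K
    by_cases hK : ∃ x', cl f x' = K ∧ x' ∈ B
    · obtain ⟨x, rfl, hx⟩ := hK
      obtain ⟨c, hc⟩ := fin_rep f x
      obtain ⟨n, hn⟩ := exists_nat_ge c
      exact ⟨x, n, fun _ => ⟨hx, fun y => (hc y).trans hn⟩⟩
    · exact ⟨rep f K, 0, fun hc => absurd hc hK⟩
  choose x ψ hx using h1
  obtain ⟨n, hn⟩ := h.setup.evBdd _ h.pos ψ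
  obtain ⟨B', hB', M, hM⟩ := h.setup.boxX B hB
  obtain ⟨m, hm⟩ := exists_nat_gt (M + n + R)
  have e1 : ∀ᶠ p in (W : Filter (X × Y)), p.2 ∉ B' := by
    have := h.symm.farX B' hB'
    exact this
  have e2 : ∀ᶠ p in (W : Filter (X × Y)), ¬ ∀ x, cl f x = cl f p.1 → x ∉ B := hno
  have e3 : ∀ᶠ p in (W : Filter (X × Y)), ψ (cl f p.1) ≤ n := hn
  obtain ⟨p, p1, p2, p3, p4, p5⟩ := (e1.and (e2.and (e3.and (h.notY.and (h.big m))))).exists
  push Not at p2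
  obtain ⟨k1, k2⟩ := hx (cl f p.1) p2
  have h2 := hM _ k1 p.2 p1
  have h3 := k2 p.2
  have h4 := h.rY p.2 p4 (rep f (cl f p.1))
  have h5 : (ψ (cl f p.1) : ℝ) ≤ n := by exact_mod_cast p3
  have h6 := abs_sub_abs_le_abs_sub (f (rep f (cl f p.1)) p.2) (f (x (cl f p.1)) p.2)
  have h7 := abs_sub_abs_le_abs_sub (red f (cl f p.1) (cl (fun y x => f x y) p.2))
    (f (rep f (cl f p.1)) p.2)
  rw [abs_sub_comm] at h3 h4
  have h8 : |red f (cl f p.1) (cl (fun y x => f x y) p.2) - f (rep f (cl f p.1)) p.2| ≤ R := h4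
  linarith

theorem Wit.bigX (h : Wit f BX BY W B0 B0' R) (n : ℕ) (T : Set (Cp fun y x => f x y))
    (hT : T ∈ W.map (fun p => cl (fun y x => f x y) p.2)) :
    ∀ᶠ K in (W.map (fun p => cl f p.1) : Filter (Cp f)), ∃ L ∈ T, (n : ℝ) ≤ |red f K L| := by
  have h1 : ∀ᶠ p in (W : Filter (X × Y)), ∃ L ∈ T, (n : ℝ) ≤ |red f (cl f p.1) L| := by
    filter_upwards [h.big n, (show ∀ᶠ p in (W : Filter (X × Y)), cl (fun y x => f x y) p.2 ∈ T from hT)]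
      with p hp1 hp2
    exact ⟨_, hp2, hp1⟩
  exact h1

theorem Wit.false (h : Wit f BX BY W B0 B0' R) : False := by
  apply Bad.false (f := f) (BX := BX) (BY := BY) (U := W.map (fun p => cl f p.1))
    (V := W.map (fun p => cl (fun y x => f x y) p.2))
  exact ⟨h.setup, h.missX, h.symm.missX, h.bigX, h.symm.bigX⟩

/-- The abstract product theorem. -/
theorem Setup.main (h : Setup f BX BY) :
    ∃ B ∈ BX, ∃ B' ∈ BY, ∃ M : ℝ, ∀ x y, ¬ (x ∈ B ∧ y ∈ B') → |f x y| ≤ M := by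
  classical
  by_contra hno
  push Not at hno
  obtain ⟨B0, hB0, R1, hR1, hr1⟩ := h.rho
  obtain ⟨B0', hB0', R2, hR2, hr2⟩ := h.symm.rho
  set R := max R1 R2 with hR
  have hrX : ∀ x ∉ B0, ∀ y, |f x y - f (rep f (cl f x)) y| ≤ R :=
    fun x hx y => (hr1 x hx y).trans (le_max_left _ _)
  have hrY : ∀ y ∉ B0', ∀ x,
      |f x y - f x (rep (fun y x => f x y) (cl (fun y x => f x y) y))| ≤ R :=
    fun y hy x => (hr2 y hy x).trans (le_max_right _ _)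
  have hclose : ∀ x y, x ∉ B0 → y ∉ B0' →
      |f x y - red f (cl f x) (cl (fun y x => f x y) y)| ≤ R + R := fun x y hx hy =>
    (abs_sub_le _ (f (rep f (cl f x)) y) _).trans (add_le_add (hrX x hx y) (hrY y hy _))
  obtain ⟨C', hC', M1, hM1⟩ := h.boxX B0 hB0
  obtain ⟨C, hC, M2, hM2⟩ := h.boxY B0' hB0'
  let I := {B // B ∈ BX} × {B' // B' ∈ BY} × ℕ
  let A : I → Set (X × Y) := fun i => {p | p.1 ∉ B0 ∧ p.2 ∉ B0' ∧
    ¬ (p.1 ∈ i.1.1 ∧ p.2 ∈ i.2.1.1) ∧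
    (i.2.2 : ℝ) ≤ |red f (cl f p.1) (cl (fun y x => f x y) p.2)|}
  have hA : ∀ i, (A i).Nonempty := by
    rintro ⟨⟨B, hB⟩, ⟨B', hB'⟩, n⟩
    obtain ⟨x, y, h1, h2⟩ := hno (B ∪ (B0 ∪ C)) (h.unionX _ hB _ (h.unionX _ hB0 _ hC))
      (B' ∪ (B0' ∪ C')) (h.unionY _ hB' _ (h.unionY _ hB0' _ hC')) (max (max M1 M2) (n + (R + R)))
    have h3 : M1 < |f x y| := lt_of_le_of_lt ((le_max_left _ _).trans (le_max_left _ _)) h2
    have h4 : M2 < |f x y| := lt_of_le_of_lt ((le_max_right _ _).trans (le_max_left _ _)) h2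
    have h5 : n + (R + R) < |f x y| := lt_of_le_of_lt (le_max_right _ _) h2
    have hx : x ∉ B0 := by
      intro hx
      have hy : y ∉ C' := fun hc => h1 (Or.inr (Or.inl hx)) (Or.inr (Or.inr hc))
      exact absurd (hM1 x hx y hy) (not_le.mpr h3)
    have hy : y ∉ B0' := by
      intro hy
      have hx : x ∉ C := fun hc => h1 (Or.inr (Or.inr hc)) (Or.inr (Or.inl hy))
      exact absurd (hM2 x hx y hy) (not_le.mpr h4)
    refine ⟨(x, y), hx, hy, fun hc => h1 (Or.inl hc.1) (Or.inl hc.2), ?_⟩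
    have h6 := hclose x y hx hy
    have h7 := abs_sub_abs_le_abs_sub (f x y) (red f (cl f x) (cl (fun y x => f x y) y))
    show (n : ℝ) ≤ |red f (cl f x) (cl (fun y x => f x y) y)|
    linarith
  have hdir : Directed (· ≥ ·) (fun i => 𝓟 (A i)) := by
    rintro ⟨⟨B, hB⟩, ⟨B', hB'⟩, n⟩ ⟨⟨D, hD⟩, ⟨D', hD'⟩, m⟩
    refine ⟨⟨⟨B ∪ D, h.unionX _ hB _ hD⟩, ⟨B' ∪ D', h.unionY _ hB' _ hD'⟩, max n m⟩, ?_, ?_⟩
    · refine principal_mono.mpr ?_
      rintro p ⟨p1, p2, p3, p4⟩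
      refine ⟨p1, p2, fun hc => p3 ⟨Or.inl hc.1, Or.inl hc.2⟩, le_trans ?_ p4⟩
      show (n : ℝ) ≤ ((max n m : ℕ) : ℝ)
      exact_mod_cast le_max_left _ _
    · refine principal_mono.mpr ?_
      rintro p ⟨p1, p2, p3, p4⟩
      refine ⟨p1, p2, fun hc => p3 ⟨Or.inr hc.1, Or.inr hc.2⟩, le_trans ?_ p4⟩
      show (m : ℝ) ≤ ((max n m : ℕ) : ℝ)
      exact_mod_cast le_max_right _ _
  have hne : Nonempty I := ⟨⟨⟨B0, hB0⟩, ⟨B0', hB0'⟩, 0⟩⟩
  have hbot : NeBot (⨅ i, 𝓟 (A i)) :=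
    iInf_neBot_of_directed' hdir fun i => principal_neBot_iff.mpr (hA i)
  have hW : ∀ i, A i ∈ Ultrafilter.of (⨅ i, 𝓟 (A i)) := fun i =>
    Ultrafilter.of_le _ (mem_iInf_of_mem i (mem_principal_self _))
  have i0 : I := ⟨⟨B0, hB0⟩, ⟨B0', hB0'⟩, 0⟩
  apply Wit.false (f := f) (BX := BX) (BY := BY) (W := Ultrafilter.of (⨅ i, 𝓟 (A i)))
    (B0 := B0) (B0' := B0') (R := R)
  refine ⟨h, ?_, ?_, ?_, ?_, hrX, hrY⟩
  · filter_upwards [hW i0] with p hp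
    exact hp.1
  · filter_upwards [hW i0] with p hp
    exact hp.2.1
  · intro B hB B' hB'
    filter_upwards [hW ⟨⟨B, hB⟩, ⟨B', hB'⟩, 0⟩] with p hp
    exact hp.2.2.1
  · intro n
    filter_upwards [hW ⟨⟨B0, hB0⟩, ⟨B0', hB0'⟩, n⟩] with p hp
    exact hp.2.2.2

end Pool.Agent.X213.Bal
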