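import Mathlib
import Pool.Agent.X213.BalleanMain

set_option autoImplicit false

open Filter Set

namespace Pool.Agent.X213.Bal

universe u v

/-- The ball `E[x]`. -/
def rball {X : Type u} (E : Set (X × X)) (x : X) : Set X := {y | (x, y) ∈ E}

/-- Bounded sets with respect to a family of entourages. -/
def RBdd {X : Type u} (𝓔 : Set (Set (X × X))) (B : Set X) : Prop := ∃ E ∈ 𝓔, ∃ x, B ⊆ rball E x

/-- A base of a coarse structure. -/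
structure IsBase {X : Type u} (𝓔 : Set (Set (X × X))) : Prop where
  diag : ∀ E ∈ 𝓔, ∀ x, (x, x) ∈ E
  comp_inv : ∀ E ∈ 𝓔, ∀ F ∈ 𝓔, ∃ D ∈ 𝓔, ∀ x y z, (x, y) ∈ E → (z, y) ∈ F → (x, z) ∈ D
  cover : ∀ x y, ∃ E ∈ 𝓔, (x, y) ∈ E

variable {X : Type u} {Y : Type v} {𝓔 : Set (Set (X × X))}

theorem IsBase.inv (h : IsBase 𝓔) {E : Set (X × X)} (hE : E ∈ 𝓔) :
    ∃ D ∈ 𝓔, ∀ x y, (x, y) ∈ E → (y, x) ∈ D := by
  obtain ⟨D, hD, hD'⟩ := h.comp_inv E hE E hE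
  exact ⟨D, hD, fun x y hxy => hD' y y x (h.diag E hE y) hxy⟩

theorem IsBase.comp (h : IsBase 𝓔) {E F : Set (X × X)} (hE : E ∈ 𝓔) (hF : F ∈ 𝓔) :
    ∃ D ∈ 𝓔, ∀ x y z, (x, y) ∈ E → (y, z) ∈ F → (x, z) ∈ D := by
  obtain ⟨G, hG, hG'⟩ := h.inv hF
  obtain ⟨D, hD, hD'⟩ := h.comp_inv E hE G hG
  exact ⟨D, hD, fun x y z hxy hyz => hD' x y z hxy (hG' _ _ hyz)⟩

theorem IsBase.union (h : IsBase 𝓔) {A B : Set X} (hA : RBdd 𝓔 A) (hB : RBdd 𝓔 B) :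
    RBdd 𝓔 (A ∪ B) := by
  obtain ⟨E, hE, x, hx⟩ := hA
  obtain ⟨F, hF, y, hy⟩ := hB
  obtain ⟨G, hG, hxy⟩ := h.cover x y
  obtain ⟨H, hH, hH'⟩ := h.comp hG hF
  obtain ⟨D, hD, hD'⟩ := h.comp hE hH
  refine ⟨D, hD, x, ?_⟩
  rintro z (hz | hz)
  · exact hD' x z z (hx hz) (h.diag H hH z)
  · exact hD' x x z (h.diag E hE x) (hH' x y z hxy (hy hz))

theorem RBdd.mono {A B : Set X} (h : RBdd 𝓔 A) (hBA : B ⊆ A) : RBdd 𝓔 B := by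
  obtain ⟨E, hE, x, hx⟩ := h
  exact ⟨E, hE, x, hBA.trans hx⟩

/-- The product theorem for bases. -/
theorem raw_main {𝓕 : Set (Set (Y × Y))} (hX : IsBase 𝓔) (hY : IsBase 𝓕) (x₁ : X) (y₁ : Y)
    (f : X → Y → ℝ)
    (hPP : ∀ E ∈ 𝓔, ∀ F ∈ 𝓕, ∃ C, RBdd 𝓔 C ∧ ∃ C', RBdd 𝓕 C' ∧ ∃ c : ℝ, ∀ x y,
      ¬ (x ∈ C ∧ y ∈ C') → ∀ a ∈ rball E x, ∀ a' ∈ rball E x, ∀ b ∈ rball F y,
      ∀ b' ∈ rball F y, |f a b - f a' b'| ≤ c)
    (H1 : ∀ φ : X → ℝ, Dom f φ → ∃ B, RBdd 𝓔 B ∧ ∃ M : ℝ, ∀ x ∉ B, |φ x| ≤ M)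
    (H2 : ∀ φ : Y → ℝ, Dom (fun y x => f x y) φ → ∃ B, RBdd 𝓕 B ∧ ∃ M : ℝ, ∀ y ∉ B, |φ y| ≤ M) :
    ∃ B, RBdd 𝓔 B ∧ ∃ B', RBdd 𝓕 B' ∧ ∃ M : ℝ, ∀ x y, ¬ (x ∈ B ∧ y ∈ B') → |f x y| ≤ M := by
  have hs : Setup f {B | RBdd 𝓔 B} {B | RBdd 𝓕 B} := by
    refine ⟨fun A hA A' h => RBdd.mono hA h, fun A hA A' hA' => hX.union hA hA',
      fun A hA A' h => RBdd.mono hA h, fun A hA A' hA' => hY.union hA hA', ?_, ?_, ?_, ?_⟩
    · intro φ hφ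
      obtain ⟨B, hB, M, hM⟩ := H1 φ hφ
      exact ⟨B, hB, M, hM⟩
    · intro φ hφ
      obtain ⟨B, hB, M, hM⟩ := H2 φ hφ
      exact ⟨B, hB, M, hM⟩
    · rintro B ⟨E, hE, x0, hx0⟩
      obtain ⟨F, hF, -⟩ := hY.cover y₁ y₁
      obtain ⟨C, -, C', hC', c, hc⟩ := hPP E hE F hF
      obtain ⟨B'', hB'', M, hM⟩ := H2 (fun y => f x0 y) (by
        intro y y' d _ hd
        exact hd x0)
      refine ⟨C' ∪ B'', hY.union hC' hB'', M + c, ?_⟩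
      intro x hx y hy
      have h1 : y ∉ C' := fun h => hy (Or.inl h)
      have h2 : y ∉ B'' := fun h => hy (Or.inr h)
      have h3 := hc x0 y (fun h => h1 h.2) x (hx0 hx) x0 (hX.diag E hE x0) y (hY.diag F hF y) y
        (hY.diag F hF y)
      have h4 := hM y h2
      have h5 := abs_sub_abs_le_abs_sub (f x y) (f x0 y)
      linarith
    · rintro B ⟨F, hF, y0, hy0⟩
      obtain ⟨E, hE, -⟩ := hX.cover x₁ x₁
      obtain ⟨C, hC, C', -, c, hc⟩ := hPP E hE F hF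
      obtain ⟨B'', hB'', M, hM⟩ := H1 (fun x => f x y0) (by
        intro x x' d _ hd
        exact hd y0)
      refine ⟨C ∪ B'', hX.union hC hB'', M + c, ?_⟩
      intro x hx y hy
      have h1 : x ∉ C := fun h => hx (Or.inl h)
      have h2 : x ∉ B'' := fun h => hx (Or.inr h)
      have h3 := hc x y0 (fun h => h1 h.1) x (hX.diag E hE x) x (hX.diag E hE x) y (hy0 hy) y0
        (hY.diag F hF y0)
      have h4 := hM x h2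
      have h5 := abs_sub_abs_le_abs_sub (f x y) (f x y0)
      linarith
  obtain ⟨B, hB, B', hB', M, hM⟩ := hs.main
  exact ⟨B, hB, B', hB', M, hM⟩

theorem abs_le_of_ediam {S : Set ℝ} {c : ℝ} (hc : 0 ≤ c)
    (h : Metric.ediam S ≤ ENNReal.ofReal c) {a b : ℝ} (ha : a ∈ S) (hb : b ∈ S) :
    |a - b| ≤ c := by
  have h1 := (Metric.edist_le_ediam_of_mem ha hb).trans h
  rw [edist_dist, ENNReal.ofReal_le_ofReal_iff hc, Real.dist_eq] at h1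
  exact h1

theorem ediam_le_of {S : Set ℝ} {c : ℝ} (h : ∀ a ∈ S, ∀ b ∈ S, |a - b| ≤ c) :
    Metric.ediam S ≤ ENNReal.ofReal c := by
  refine Metric.ediam_le fun a ha b hb => ?_
  rw [edist_dist, Real.dist_eq]
  exact ENNReal.ofReal_le_ofReal (h a ha b hb)

end Pool.Agent.X213.Bal
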