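import Mathlib

open Topology Filter

namespace Pool.Agent.X213

universe u

/-- Selectively highly divergent: one can always choose points in a given sequence of nonempty
open sets such that no subsequence of the chosen sequence converges to any point. -/
def SHD (X : Type u) [TopologicalSpace X] : Prop :=
  ∀ U : ℕ → Set X, (∀ n, IsOpen (U n) ∧ (U n).Nonempty) →
    ∃ x : ℕ → X, (∀ n, x n ∈ U n) ∧
      ∀ φ : ℕ → ℕ, StrictMono φ → ∀ p : X, ¬ Tendsto (fun k => x (φ k)) atTop (𝓝 p)

/-- The underlying set of the Pixley-Roy hyperspace: nonempty finite subsets. -/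
def PR (X : Type u) : Type u := {A : Set X // A.Finite ∧ A.Nonempty}

/-- The set `[F, V]`. -/
def PR.box {X : Type u} (F : PR X) (V : Set X) : Set (PR X) :=
  {H : PR X | F.1 ⊆ H.1 ∧ H.1 ⊆ V}

/-- The Pixley-Roy topology: a set is open when it contains with every member `F` some `[F, V]`
with `V` open and `F ⊆ V`. -/
instance PR.topology (X : Type u) [TopologicalSpace X] : TopologicalSpace (PR X) where
  IsOpen U := ∀ F ∈ U, ∃ V : Set X, IsOpen V ∧ F.1 ⊆ V ∧ PR.box F V ⊆ U
  isOpen_univ := fun F _ => ⟨Set.univ, isOpen_univ, Set.subset_univ _, Set.subset_univ _⟩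
  isOpen_inter := by
    intro s t hs ht F hF
    obtain ⟨V, h1, h2, h3⟩ := hs F hF.1
    obtain ⟨W, k1, k2, k3⟩ := ht F hF.2
    refine ⟨V ∩ W, h1.inter k1, Set.subset_inter h2 k2, fun H hH => ⟨?_, ?_⟩⟩
    · exact h3 ⟨hH.1, hH.2.trans Set.inter_subset_left⟩
    · exact k3 ⟨hH.1, hH.2.trans Set.inter_subset_right⟩
  isOpen_sUnion := by
    intro S hS F hF
    obtain ⟨t, ht, hFt⟩ := hF
    obtain ⟨V, h1, h2, h3⟩ := hS t ht F hFt
    exact ⟨V, h1, h2, h3.trans (Set.subset_sUnion_of_mem ht)⟩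

theorem PR.isOpen_iff {X : Type u} [TopologicalSpace X] (U : Set (PR X)) :
    IsOpen U ↔ ∀ F ∈ U, ∃ V : Set X, IsOpen V ∧ F.1 ⊆ V ∧ PR.box F V ⊆ U := Iff.rfl

theorem PR.isOpen_box {X : Type u} [TopologicalSpace X] (F : PR X) {V : Set X} (hV : IsOpen V) :
    IsOpen (PR.box F V) := by
  rw [PR.isOpen_iff]
  intro H hH
  exact ⟨V, hV, hH.2, fun K hK => ⟨hH.1.trans hK.1, hK.2⟩⟩

/-- The sets `[F, V]` form a local base at `F`. -/
theorem PR.nhds_basis {X : Type u} [TopologicalSpace X] (F : PR X) :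
    (𝓝 F).HasBasis (fun V : Set X => IsOpen V ∧ F.1 ⊆ V) (fun V => PR.box F V) := by
  constructor
  intro t
  constructor
  · intro ht
    obtain ⟨U, hUt, hU, hF⟩ := mem_nhds_iff.mp ht
    obtain ⟨V, h1, h2, h3⟩ := (PR.isOpen_iff U).mp hU F hF
    exact ⟨V, ⟨h1, h2⟩, h3.trans hUt⟩
  · rintro ⟨V, ⟨h1, h2⟩, h3⟩
    exact mem_nhds_iff.mpr ⟨PR.box F V, h3, PR.isOpen_box F h1, ⟨subset_rfl, h2⟩⟩

/-- A sequence which is eventually in every open set containing a finite set `F` has a
subsequence converging to a point of `F`. -/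
theorem exists_subseq_of_eventually {X : Type u} [TopologicalSpace X] {F : Set X}
    (hF : F.Finite) : ∀ z : ℕ → X,
    (∀ V : Set X, IsOpen V → F ⊆ V → ∀ᶠ k in atTop, z k ∈ V) →
    ∃ p ∈ F, ∃ φ : ℕ → ℕ, StrictMono φ ∧ Tendsto (fun k => z (φ k)) atTop (𝓝 p) := by
  induction F, hF using Set.Finite.induction_on with
  | empty =>
    intro z hz
    obtain ⟨k, hk⟩ := (hz ∅ isOpen_empty subset_rfl).exists
    exact absurd hk (Set.notMem_empty _)
  | @insert p F' _ _ ih =>
    intro z hz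
    by_cases hp : Tendsto z atTop (𝓝 p)
    · exact ⟨p, Set.mem_insert _ _, id, strictMono_id, hp⟩
    · rw [tendsto_nhds] at hp
      push Not at hp
      obtain ⟨W, hW, hpW, hnot⟩ := hp
      have hfreq : ∃ᶠ k in atTop, z k ∉ W := by
        intro hc
        apply hnot
        filter_upwards [hc] with k hk
        exact not_not.mp hk
      obtain ⟨φ, hφ, hφW⟩ := extraction_of_frequently_atTop hfreq
      obtain ⟨q, hq, ψ, hψ, hlim⟩ := ih (fun k => z (φ k)) (by
        intro V hV hFV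
        have h1 := hz (V ∪ W) (hV.union hW) (Set.insert_subset (Or.inr hpW)
          (hFV.trans Set.subset_union_left))
        have h2 := hφ.tendsto_atTop.eventually h1
        filter_upwards [h2] with k hk
        exact hk.resolve_right (hφW k))
      exact ⟨q, Set.mem_insert_of_mem _ hq, fun k => φ (ψ k), hφ.comp hψ, hlim⟩

end Pool.Agent.X213
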