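import Mathlib
import Pool.Agent.W425.PZ.Pole

set_option autoImplicit false

/-! # Poles of the Poincare series, with orders (from `Pool.Agent.TH216.MF.H4`) -/

namespace Pool.Agent.X213.PoinOrd

open MeasureTheory Filter Topology Pool.Agent.W425.PZ Pool.Agent.W206.CU
open Pool.Agent.W427.SMC (igusaZeta)

/-- the order of a linear factor -/
theorem ord_lin (p : ℕ) (hp : 2 ≤ p) (s₀ β : ℂ) :
    meromorphicOrderAt (fun s : ℂ => (p : ℂ) ^ (-s) - β) s₀ =
      if (p : ℂ) ^ (-s₀) = β then 1 else 0 := by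
  have hp0 : (p : ℂ) ≠ 0 := by exact_mod_cast (by omega : p ≠ 0)
  have hlog : Real.log p ≠ 0 := (Real.log_pos (by exact_mod_cast (by omega : 1 < p))).ne'
  have hdt : Differentiable ℂ fun s : ℂ => (p : ℂ) ^ (-s) := fun s =>
    ((hasDerivAt_neg s).const_cpow (Or.inl hp0)).differentiableAt
  have ha0 : AnalyticAt ℂ (fun s : ℂ => (p : ℂ) ^ (-s)) s₀ := hdt.analyticAt s₀
  have ha : AnalyticAt ℂ (fun s : ℂ => (p : ℂ) ^ (-s) - β) s₀ :=
    (hdt.sub (differentiable_const β)).analyticAt s₀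
  rw [ha.meromorphicOrderAt_eq]
  split_ifs with h
  · have hder : deriv (fun s : ℂ => (p : ℂ) ^ (-s)) s₀ ≠ 0 := by
      have h1 : HasDerivAt (fun s : ℂ => (p : ℂ) ^ (-s)) ((p : ℂ) ^ (-s₀) * Complex.log p * -1)
          s₀ := (hasDerivAt_neg s₀).const_cpow (Or.inl hp0)
      rw [h1.deriv]
      refine mul_ne_zero (mul_ne_zero ?_ ?_) (by norm_num)
      · rw [Ne, Complex.cpow_eq_zero_iff]
        tauto
      · intro h
        have h2 : Complex.log (p : ℂ) = ((Real.log p : ℝ) : ℂ) := (Complex.natCast_log).symm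
        rw [h2] at h
        exact hlog (by exact_mod_cast h)
    have h1 := ha0.analyticOrderAt_sub_eq_one_of_deriv_ne_zero hder
    rw [← h, h1]
    rfl
  · rw [ha.analyticOrderAt_eq_zero.2 (sub_ne_zero.2 h)]
    rfl

/-- **Poles of the Poincare series, orders.** -/
theorem pole_of_poincare_ord (p : ℕ) [hp : Fact p.Prime] {V : Type} [Fintype V]
    (F : MvPolynomial V ℤ)
    (hnull : Tendsto (fun M => ((dens p F M : ℚ) : ℝ)) atTop (𝓝 0)) {T₀ : ℂ} {r : ℕ} (hr : 0 < r)
    (h : IsPoleOfOrder (poincare p F) T₀ r) :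
    ∃ (Z : ℂ → ℂ) (s₀ : ℂ), MeromorphicOn Z Set.univ ∧
      (∀ s : ℂ, 0 < s.re → Z s = igusaZeta p F s) ∧
      meromorphicOrderAt Z s₀ ≤ ((-(r : ℤ) : ℤ) : WithTop ℤ) ∧
      s₀.re = -Real.log ‖T₀‖ / Real.log p := by
  classical
  have hT1 := pole_ne_one p F hnull hr h
  have hT0 := pole_ne_zero hr h
  obtain ⟨A, B, hA, hB, hP⟩ := h
  set D : Polynomial ℂ := (Polynomial.X - Polynomial.C T₀) ^ r * B with hDdef
  have hB0 : B ≠ 0 := by
    rintro rfl
    rw [Polynomial.eval_zero] at hB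
    exact hB rfl
  have hD0 : D ≠ 0 := mul_ne_zero (pow_ne_zero _ (Polynomial.X_sub_C_ne_zero _)) hB0
  have hDT : D.eval T₀ = 0 := by
    rw [hDdef, Polynomial.eval_mul, Polynomial.eval_pow, Polynomial.eval_sub, Polynomial.eval_X,
      Polynomial.eval_C, sub_self, zero_pow hr.ne', zero_mul]
  set φ : ℂ → ℂ := fun s => (p : ℂ) ^ (-s) with hφ
  have hφa : ∀ s, AnalyticAt ℂ φ s := fun s => analyticAt_T p s
  have hpol : ∀ (E : Polynomial ℂ) s, AnalyticAt ℂ (fun s => E.eval (φ s)) s := by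
    intro E s
    have h1 := (AnalyticOnNhd.eval_polynomial E (φ s) (Set.mem_univ _)).comp (hφa s)
    exact h1
  set Nu : ℂ → ℂ := fun s => D.eval (φ s) - (1 - φ s) * A.eval (φ s) with hNu
  set De : ℂ → ℂ := fun s => φ s * D.eval (φ s) with hDe
  have hNa : ∀ s, AnalyticAt ℂ Nu s := fun s =>
    (hpol D s).sub ((analyticAt_const.sub (hφa s)).mul (hpol A s))
  have hDa : ∀ s, AnalyticAt ℂ De s := fun s => (hφa s).mul (hpol D s)
  set G : ℂ → ℂ := Nu * De⁻¹ with hG
  have hGm : ∀ s, MeromorphicAt G s := fun s => (hNa s).meromorphicAt.mul (hDa s).meromorphicAt.inv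
  set Z : ℂ → ℂ := fun s => if 0 < s.re then igusaZeta p F s else G s with hZ
  have hev : ∀ s₁, G =ᶠ[𝓝[≠] s₁] Z := by
    intro s₁
    filter_upwards [ev_ne p hD0 s₁] with s hs
    simp only [hZ]
    split_ifs with h1
    · have hT := norm_T_lt p h1
      have e1 := gen_igusa p F h1 hT
      have e2 := gen_eval p F hP hT
      have hne : De s ≠ 0 := mul_ne_zero (T_ne_zero p s) hs
      show Nu s * (De s)⁻¹ = _
      rw [mul_inv_eq_iff_eq_mul₀ hne]
      simp only [hNu, hDe, hφ]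
      linear_combination (1 - (p : ℂ) ^ (-s)) * e2 - D.eval ((p : ℂ) ^ (-s)) * e1
    · rfl
  set s₀ : ℂ := -(Complex.log T₀ / (Real.log p : ℝ)) with hs₀
  have hlp := logp_pos p
  have hφs : φ s₀ = T₀ := by
    have hlpC : ((Real.log p : ℝ) : ℂ) ≠ 0 := by exact_mod_cast hlp.ne'
    simp only [hφ, hs₀]
    rw [neg_neg, Complex.cpow_def_of_ne_zero (by exact_mod_cast hp.out.ne_zero),
      ← Complex.natCast_log, mul_div_cancel₀ _ hlpC, Complex.exp_log hT0]
  refine ⟨Z, s₀, fun s _ => (hGm s).congr (hev s), fun s hs => if_pos hs, ?_, ?_⟩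
  · rw [← meromorphicOrderAt_congr (hev s₀)]
    have hN0 : Nu s₀ ≠ 0 := by
      simp only [hNu, hφs, hDT, zero_sub]
      exact neg_ne_zero.2 (mul_ne_zero (sub_ne_zero.2 (Ne.symm hT1)) hA)
    have h1 : meromorphicOrderAt Nu s₀ = 0 := by
      rw [(hNa s₀).meromorphicOrderAt_eq, (hNa s₀).analyticOrderAt_eq_zero.2 hN0]
      rfl
    set W : ℂ → ℂ := fun s => φ s - T₀ with hW
    have hWa : AnalyticAt ℂ W s₀ := (hφa s₀).sub analyticAt_const
    set U : ℂ → ℂ := fun s => φ s * B.eval (φ s) with hU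
    have hUa : AnalyticAt ℂ U s₀ := (hφa s₀).mul (hpol B s₀)
    have hU0 : U s₀ ≠ 0 := by
      simp only [hU, hφs]
      exact mul_ne_zero hT0 hB
    have hDeq : De = W ^ r * U := by
      funext s
      simp only [hDe, hW, hU, Pi.mul_apply, Pi.pow_apply, hDdef, Polynomial.eval_mul,
        Polynomial.eval_pow, Polynomial.eval_sub, Polynomial.eval_X, Polynomial.eval_C]
      ring
    have hUo : meromorphicOrderAt U s₀ = 0 := by
      rw [hUa.meromorphicOrderAt_eq, hUa.analyticOrderAt_eq_zero.2 hU0]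
      rfl
    have hWo : meromorphicOrderAt W s₀ = ((1 : ℤ) : WithTop ℤ) := by
      have h7 := ord_lin p hp.out.two_le s₀ T₀
      rw [if_pos hφs] at h7
      exact h7
    have hDo : meromorphicOrderAt De s₀ = ((r : ℤ) : WithTop ℤ) := by
      rw [hDeq, meromorphicOrderAt_mul (hWa.meromorphicAt.pow r) hUa.meromorphicAt, hUo,
        meromorphicOrderAt_pow hWa.meromorphicAt, hWo, add_zero]
      have h8 : ((r : WithTop ℤ) * ((1 : ℤ) : WithTop ℤ)) = ((r : ℤ) : WithTop ℤ) := by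
        rw [WithTop.coe_one, mul_one]
        rfl
      exact h8
    rw [hG, meromorphicOrderAt_mul (hNa s₀).meromorphicAt (hDa s₀).meromorphicAt.inv, h1,
      meromorphicOrderAt_inv, hDo, zero_add]
    exact le_refl _
  · rw [hs₀, Complex.neg_re, Complex.div_ofReal_re, Complex.log_re, neg_div]

end Pool.Agent.X213.PoinOrd
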