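import Mathlib
import Pool.Agent.W964.LieExp.InvDim

/-!
# Dimensions of subsets with the triple product property in locally Euclidean groups
-/

set_option autoImplicit false

open Set Filter Topology Module

namespace Pool.Agent.X213.TppDim

/-- `Q(X)`, the set of the quotients `x x'⁻¹` of elements of `X`. -/
def quotients {G : Type*} [Group G] (X : Set G) : Set G := {g | ∃ x ∈ X, ∃ x' ∈ X, g = x * x'⁻¹}

/-- The triple product property of three subsets of a group. -/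
def TripleProductProperty {G : Type*} [Group G] (S T U : Set G) : Prop :=
  ∀ s ∈ quotients S, ∀ t ∈ quotients T, ∀ u ∈ quotients U, s * t * u = 1 → s = 1 ∧ t = 1 ∧ u = 1

/-- `M` contains an injective continuous image of a nonempty open subset of an `m`-dimensional
real vector space. -/
def ContainsCell {G : Type*} [TopologicalSpace G] (m : ℕ) (M : Set G) : Prop :=
  ∃ (φ : EuclideanSpace ℝ (Fin m) → G) (O : Set (EuclideanSpace ℝ (Fin m))),
    IsOpen O ∧ O.Nonempty ∧ ContinuousOn φ O ∧ InjOn φ O ∧ MapsTo φ O M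

theorem TripleProductProperty.rotate {G : Type*} [Group G] {S T U : Set G}
    (h : TripleProductProperty S T U) : TripleProductProperty T U S := by
  intro t ht u hu s hs hmul
  have h1 : s * t * u = 1 := by
    have : s * t * u = s * (t * u * s) * s⁻¹ := by group
    rw [this, hmul]
    group
  obtain ⟨h2, h3, h4⟩ := h s hs t ht u hu h1
  exact ⟨h3, h4, h2⟩

/-- Invariance of domain between real vector spaces of the same finite dimension. -/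
theorem image_mem_nhds_of_injOn {V W : Type*} [NormedAddCommGroup V] [NormedSpace ℝ V]
    [FiniteDimensional ℝ V] [NormedAddCommGroup W] [NormedSpace ℝ W] [FiniteDimensional ℝ W]
    (hdim : finrank ℝ V = finrank ℝ W)
    (U : Set V) (hU : IsOpen U) (x0 : V) (hx0 : x0 ∈ U) (f : V → W) (hc : ContinuousOn f U)
    (hi : InjOn f U) : f '' U ∈ 𝓝 (f x0) := by
  set n := finrank ℝ V with hn
  let E := EuclideanSpace ℝ (Fin n)
  have hE : finrank ℝ E = n := by simp [E]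
  let L : V ≃L[ℝ] E := ContinuousLinearEquiv.ofFinrankEq (by rw [hE])
  let M : W ≃L[ℝ] E := ContinuousLinearEquiv.ofFinrankEq (by rw [hE]; exact hdim.symm)
  have hopen : IsOpen (L.symm ⁻¹' U) := hU.preimage L.symm.continuous
  have hmem : L x0 ∈ L.symm ⁻¹' U := by simpa using hx0
  obtain ⟨r, hr, hball⟩ := Metric.nhds_basis_closedBall.mem_iff.1 (hopen.mem_nhds hmem)
  have hg := Helper514.IoD.image_mem_nhds (E := E) (fun y => M (f (L.symm y))) (L x0) r hr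
    (by
      apply M.continuous.comp_continuousOn
      apply hc.comp L.symm.continuous.continuousOn
      intro y hy
      exact hball hy)
    (by
      intro a ha b hb hab
      exact L.symm.injective (hi (hball ha) (hball hb) (M.injective hab)))
  have h0 : M (f (L.symm (L x0))) = M (f x0) := by simp
  simp only [h0] at hg
  have h1 := M.continuous.continuousAt.preimage_mem_nhds hg
  refine Filter.mem_of_superset h1 ?_
  rintro w ⟨y, hy, hyw⟩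
  exact ⟨L.symm y, hball hy, M.injective hyw⟩

variable {G : Type*} [Group G] [TopologicalSpace G] [IsTopologicalGroup G]

/-- The set up: `c` is a continuous injection of a neighbourhood `N` of `1` into `ℝ ^ d`. -/
structure Chart (G : Type*) [Group G] [TopologicalSpace G] (d : ℕ) where
  /-- the neighbourhood -/
  N : Set G
  /-- the map -/
  c : G → EuclideanSpace ℝ (Fin d)
  one_mem : (1 : G) ∈ N
  isOpen : IsOpen N
  cont : ContinuousOn c N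
  inj : InjOn c N

/-- The map `(v, w) ↦ g⁻¹ φ(v)⁻¹ ψ(w)` near a point, in the chart. -/
theorem exists_local {d m₁ m₂ : ℕ} (ch : Chart G d) {S T U : Set G}
    (h : TripleProductProperty S T U) (hU : U.Nonempty)
    {φ : EuclideanSpace ℝ (Fin m₁) → G} {O₁ : Set (EuclideanSpace ℝ (Fin m₁))} (hO₁ : IsOpen O₁)
    (hφc : ContinuousOn φ O₁) (hφi : InjOn φ O₁) (hφm : MapsTo φ O₁ S)
    {ψ : EuclideanSpace ℝ (Fin m₂) → G} {O₂ : Set (EuclideanSpace ℝ (Fin m₂))} (hO₂ : IsOpen O₂)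
    (hψc : ContinuousOn ψ O₂) (hψi : InjOn ψ O₂) (hψm : MapsTo ψ O₂ T)
    {v₀ : EuclideanSpace ℝ (Fin m₁)} (hv₀ : v₀ ∈ O₁)
    {w₀ : EuclideanSpace ℝ (Fin m₂)} (hw₀ : w₀ ∈ O₂) :
    m₁ + m₂ ≤ d ∧ (m₁ + m₂ = d →
      {g | ∃ v ∈ O₁, ∃ w ∈ O₂, g = (φ v)⁻¹ * ψ w} ∈ 𝓝 ((φ v₀)⁻¹ * ψ w₀)) := by
  set g₀ := (φ v₀)⁻¹ * ψ w₀ with hg₀
  let F : EuclideanSpace ℝ (Fin m₁) × EuclideanSpace ℝ (Fin m₂) → G :=
    fun p => g₀⁻¹ * ((φ p.1)⁻¹ * ψ p.2)
  have hF : ContinuousOn F (O₁ ×ˢ O₂) := by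
    apply ContinuousOn.mul continuousOn_const
    apply ContinuousOn.mul
    · apply ContinuousOn.inv
      exact hφc.comp continuous_fst.continuousOn (fun p hp => hp.1)
    · exact hψc.comp continuous_snd.continuousOn (fun p hp => hp.2)
  have hFi : InjOn F (O₁ ×ˢ O₂) := by
    rintro ⟨v, w⟩ ⟨hv, hw⟩ ⟨v', w'⟩ ⟨hv', hw'⟩ hp
    obtain ⟨u, hu⟩ := hU
    simp only [F, mul_right_inj] at hp
    have hp' : (φ v)⁻¹ * ψ w = (φ v')⁻¹ * ψ w' := hp
    have h1 : (φ v' * (φ v)⁻¹) * (ψ w * (ψ w')⁻¹) * (u * u⁻¹) = 1 := by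
      have : (φ v' * (φ v)⁻¹) * (ψ w * (ψ w')⁻¹) = φ v' * ((φ v)⁻¹ * ψ w) * (ψ w')⁻¹ := by group
      rw [this, hp']
      group
    obtain ⟨h2, h3, -⟩ := h _ ⟨_, hφm hv', _, hφm hv, rfl⟩ _ ⟨_, hψm hw, _, hψm hw', rfl⟩ _
      ⟨u, hu, u, hu, rfl⟩ h1
    have h4 : v' = v := hφi hv' hv (mul_inv_eq_one.1 h2)
    have h5 : w = w' := hψi hw hw' (mul_inv_eq_one.1 h3)
    rw [h4, h5]
  have hopen : IsOpen (O₁ ×ˢ O₂) := hO₁.prod hO₂
  let O : Set (EuclideanSpace ℝ (Fin m₁) × EuclideanSpace ℝ (Fin m₂)) :=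
    (O₁ ×ˢ O₂) ∩ F ⁻¹' ch.N
  have hO : IsOpen O := hF.isOpen_inter_preimage hopen ch.isOpen
  have hF0 : F (v₀, w₀) = 1 := by simp [F, hg₀]
  have h0 : (v₀, w₀) ∈ O := by
    refine ⟨⟨hv₀, hw₀⟩, ?_⟩
    change F (v₀, w₀) ∈ ch.N
    rw [hF0]
    exact ch.one_mem
  have hc : ContinuousOn (fun p => ch.c (F p)) O :=
    ch.cont.comp (hF.mono inter_subset_left) (fun p hp => hp.2)
  have hi : InjOn (fun p => ch.c (F p)) O := by
    intro p hp q hq hpq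
    exact hFi hp.1 hq.1 (ch.inj hp.2 hq.2 hpq)
  have hdimV : finrank ℝ (EuclideanSpace ℝ (Fin m₁) × EuclideanSpace ℝ (Fin m₂)) = m₁ + m₂ := by
    rw [finrank_prod]
    simp
  have hdimW : finrank ℝ (EuclideanSpace ℝ (Fin d)) = d := by simp
  constructor
  · have := Pool.Agent.W964.LieExp.finrank_le_of_injOn O hO (v₀, w₀) h0 _ hc hi
    rwa [hdimV, hdimW] at this
  · intro heq
    have himg := image_mem_nhds_of_injOn (by rw [hdimV, hdimW, heq]) O hO (v₀, w₀) h0 _ hc hi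
    have h1 : ch.c ⁻¹' ((fun p => ch.c (F p)) '' O) ∩ ch.N ∈ 𝓝 (1 : G) := by
      apply Filter.inter_mem _ (ch.isOpen.mem_nhds ch.one_mem)
      apply (ch.cont.continuousAt (ch.isOpen.mem_nhds ch.one_mem)).preimage_mem_nhds
      have h2 : ch.c (F (v₀, w₀)) = ch.c 1 := by rw [hF0]
      simpa only [h2] using himg
    have h2 : (fun g => g₀⁻¹ * g) ⁻¹' (ch.c ⁻¹' ((fun p => ch.c (F p)) '' O) ∩ ch.N) ∈ 𝓝 g₀ := by
      apply (continuous_const_mul g₀⁻¹).continuousAt.preimage_mem_nhds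
      simpa using h1
    refine Filter.mem_of_superset h2 ?_
    rintro g ⟨⟨p, hp, hpg⟩, hgN⟩
    have h3 : F p = g₀⁻¹ * g := ch.inj hp.2 hgN hpg
    refine ⟨p.1, hp.1.1, p.2, hp.1.2, ?_⟩
    have h4 : g₀⁻¹ * ((φ p.1)⁻¹ * ψ p.2) = g₀⁻¹ * g := h3
    exact (mul_left_cancel h4).symm

theorem dim_add_le {d m₁ m₂ : ℕ} (ch : Chart G d) {S T U : Set G}
    (h : TripleProductProperty S T U) (hU : U.Nonempty)
    (hS : ContainsCell m₁ S) (hT : ContainsCell m₂ T) : m₁ + m₂ ≤ d := by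
  obtain ⟨φ, O₁, hO₁, ⟨v₀, hv₀⟩, hφc, hφi, hφm⟩ := hS
  obtain ⟨ψ, O₂, hO₂, ⟨w₀, hw₀⟩, hψc, hψi, hψm⟩ := hT
  exact (exists_local ch h hU hO₁ hφc hφi hφm hO₂ hψc hψi hψm hv₀ hw₀).1

theorem dim_add_lt {d m₁ m₂ m₃ : ℕ} (ch : Chart G d) {S T U : Set G}
    (h : TripleProductProperty S T U)
    (hS : ContainsCell m₁ S) (hT : ContainsCell m₂ T) (hU : ContainsCell m₃ U) (hm₃ : 1 ≤ m₃) :
    m₁ + m₂ + 1 ≤ d := by
  obtain ⟨φ, O₁, hO₁, ⟨v₀, hv₀⟩, hφc, hφi, hφm⟩ := hS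
  obtain ⟨ψ, O₂, hO₂, ⟨w₀, hw₀⟩, hψc, hψi, hψm⟩ := hT
  obtain ⟨χ, O₃, hO₃, ⟨z₀, hz₀⟩, hχc, hχi, hχm⟩ := hU
  obtain ⟨h1, h2⟩ := exists_local ch h ⟨_, hχm hz₀⟩ hO₁ hφc hφi hφm hO₂ hψc hψi hψm hv₀ hw₀
  by_contra hlt
  have heq : m₁ + m₂ = d := by omega
  have h3 := h2 heq
  -- the curve of the elements `s₀⁻¹ u' u₀⁻¹ t₀`
  let K : EuclideanSpace ℝ (Fin m₃) → G := fun z => (φ v₀)⁻¹ * (χ z * (χ z₀)⁻¹) * ψ w₀
  have hK : ContinuousAt K z₀ := by
    have : ContinuousAt χ z₀ := hχc.continuousAt (hO₃.mem_nhds hz₀)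
    exact (continuousAt_const.mul (this.mul continuousAt_const)).mul continuousAt_const
  have hK0 : K z₀ = (φ v₀)⁻¹ * ψ w₀ := by simp [K]
  have h4 : ∀ᶠ z in 𝓝 z₀, K z ∈ {g | ∃ v ∈ O₁, ∃ w ∈ O₂, g = (φ v)⁻¹ * ψ w} := by
    apply hK
    rw [hK0]
    exact h3
  have h5 : ∀ᶠ z in 𝓝 z₀, z = z₀ := by
    filter_upwards [h4, hO₃.mem_nhds hz₀] with z hz hzO
    obtain ⟨v, hv, w, hw, hvw⟩ := hz
    have hvw' : (φ v₀)⁻¹ * (χ z * (χ z₀)⁻¹) * ψ w₀ = (φ v)⁻¹ * ψ w := hvw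
    have h6 : (φ v₀ * (φ v)⁻¹) * (ψ w * (ψ w₀)⁻¹) * (χ z₀ * (χ z)⁻¹) = 1 := by
      have : (φ v₀ * (φ v)⁻¹) * (ψ w * (ψ w₀)⁻¹) = φ v₀ * ((φ v)⁻¹ * ψ w) * (ψ w₀)⁻¹ := by group
      rw [this, ← hvw']
      group
    obtain ⟨-, -, h7⟩ := h _ ⟨_, hφm hv₀, _, hφm hv, rfl⟩ _ ⟨_, hψm hw, _, hψm hw₀, rfl⟩ _
      ⟨_, hχm hz₀, _, hχm hzO, rfl⟩ h6
    exact (hχi hz₀ hzO (mul_inv_eq_one.1 h7)).symm
  have hne : Nontrivial (EuclideanSpace ℝ (Fin m₃)) := by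
    have : Nonempty (Fin m₃) := ⟨⟨0, by omega⟩⟩
    infer_instance
  have h6 : (𝓝[≠] z₀).NeBot := inferInstance
  have h7 : ∀ᶠ z in 𝓝[≠] z₀, False := by
    filter_upwards [h5.filter_mono nhdsWithin_le_nhds, self_mem_nhdsWithin] with z hz hz'
    exact hz' hz
  exact h7.exists.elim fun _ h => h

/-- Total dimension of a triple with the triple product property. -/
theorem total_dim {d m₁ m₂ m₃ : ℕ} (ch : Chart G d) {S T U : Set G}
    (h : TripleProductProperty S T U)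
    (hS : ContainsCell m₁ S) (hT : ContainsCell m₂ T) (hU : ContainsCell m₃ U) :
    m₁ + m₂ + m₃ ≤ d ∨ 2 * (m₁ + m₂ + m₃) + 3 ≤ 3 * d := by
  have hSne : S.Nonempty := by
    obtain ⟨φ, O, -, ⟨v, hv⟩, -, -, hm⟩ := hS
    exact ⟨_, hm hv⟩
  have hTne : T.Nonempty := by
    obtain ⟨φ, O, -, ⟨v, hv⟩, -, -, hm⟩ := hT
    exact ⟨_, hm hv⟩
  have hUne : U.Nonempty := by
    obtain ⟨φ, O, -, ⟨v, hv⟩, -, -, hm⟩ := hU
    exact ⟨_, hm hv⟩
  rcases Nat.eq_zero_or_pos m₃ with h3 | h3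
  · left
    have := dim_add_le ch h hUne hS hT
    omega
  rcases Nat.eq_zero_or_pos m₁ with h1 | h1
  · left
    have := dim_add_le ch h.rotate hSne hT hU
    omega
  rcases Nat.eq_zero_or_pos m₂ with h2 | h2
  · left
    have := dim_add_le ch h.rotate.rotate hTne hU hS
    omega
  right
  have h4 := dim_add_lt ch h hS hT hU h3
  have h5 := dim_add_lt ch h.rotate hT hU hS h1
  have h6 := dim_add_lt ch h.rotate.rotate hU hS hT h2
  omega

end Pool.Agent.X213.TppDim
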