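import Mathlib
import Pool.Agent.X213.TppDim

/-!
# Triangular and orthogonal matrices with the triple product property
-/

set_option autoImplicit false

open Set Filter Topology Module Matrix

namespace Pool.Agent.X213.TppAlg

/-- `(det D)² ≤ exp(‖D‖² - k)` for a real `k × k` matrix. -/
theorem det_sq_le {κ : Type*} [Fintype κ] [DecidableEq κ] (D : Matrix κ κ ℝ) :
    D.det ^ 2 ≤ Real.exp ((∑ i, ∑ j, D i j ^ 2) - Fintype.card κ) := by
  have hP : (D * Dᴴ).PosSemidef := posSemidef_self_mul_conjTranspose D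
  have hdet : (D * Dᴴ).det = D.det ^ 2 := by
    rw [det_mul, conjTranspose_eq_transpose_of_trivial, det_transpose, sq]
  have htr : (D * Dᴴ).trace = ∑ i, ∑ j, D i j ^ 2 := by
    rw [conjTranspose_eq_transpose_of_trivial]
    simp only [trace, diag_apply, mul_apply, transpose_apply]
    exact Finset.sum_congr rfl fun i _ => Finset.sum_congr rfl fun j _ => (sq _).symm
  have h1 := hP.isHermitian.det_eq_prod_eigenvalues
  have h2 := hP.isHermitian.trace_eq_sum_eigenvalues
  rw [hdet] at h1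
  rw [htr] at h2
  rw [h1, h2]
  simp only [RCLike.ofReal_real_eq_id, id]
  calc ∏ i, hP.isHermitian.eigenvalues i
      ≤ ∏ i, Real.exp (hP.isHermitian.eigenvalues i - 1) := by
        apply Finset.prod_le_prod
        · intro i _
          exact hP.eigenvalues_nonneg i
        · intro i _
          have := Real.add_one_le_exp (hP.isHermitian.eigenvalues i - 1)
          linarith
    _ = Real.exp (∑ i, (hP.isHermitian.eigenvalues i - 1)) := (Real.exp_sum _ _).symm
    _ = _ := by
        congr 1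
        rw [Finset.sum_sub_distrib]
        simp

/-- An orthogonal upper triangular matrix with positive diagonal is the identity. -/
theorem eq_one_of_upper {n : ℕ} {t : Matrix (Fin n) (Fin n) ℝ} (ht : tᵀ * t = 1)
    (hu : ∀ i j, j < i → t i j = 0) (hd : ∀ i, 0 < t i i) : t = 1 := by
  have hinv : t⁻¹ = tᵀ := inv_eq_left_inv ht
  have hB : t.BlockTriangular id := fun i j h => hu i j h
  have hinvt : Invertible t := invertibleOfLeftInverse t tᵀ ht
  have hB' : t⁻¹.BlockTriangular id := blockTriangular_inv_of_blockTriangular hB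
  have hoff : ∀ i j, i < j → t i j = 0 := by
    intro i j hij
    have h1 : t⁻¹ j i = 0 := hB' hij
    rwa [hinv, transpose_apply] at h1
  have hdiag : ∀ i j, i ≠ j → t i j = 0 := by
    intro i j hij
    rcases lt_or_gt_of_ne hij with h | h
    · exact hoff i j h
    · exact hu i j h
  ext i j
  by_cases hij : i = j
  · subst hij
    rw [one_apply_eq]
    have h1 : (tᵀ * t) i i = 1 := by rw [ht, one_apply_eq]
    rw [mul_apply, Finset.sum_eq_single i] at h1
    · rw [transpose_apply] at h1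
      have h2 := hd i
      nlinarith
    · intro k _ hk
      rw [hdiag k i hk, mul_zero]
    · simp
  · rw [one_apply_ne hij, hdiag i j hij]

/-- The main lemma. -/
theorem main {n : ℕ} {t b l : Matrix (Fin n) (Fin n) ℝ} (ht : tᵀ * t = 1) (h : t = b * l)
    (hb : ∀ i j, j < i → b i j = 0) (hbd : ∀ i, 0 < b i i) (hb1 : ∏ i, b i i = 1)
    (hb2 : ∏ i, b i i ^ (i : ℕ) = 1)
    (hl : ∀ i j, i < j → l i j = 0) (hld : ∀ i, l i i = 1) : t = 1 ∧ b = 1 ∧ l = 1 := by
  classical
  have ht' : t * tᵀ = 1 := mul_eq_one_comm.1 ht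
  -- the blocks
  have hblock : ∀ j : Fin n, (t.submatrix (Subtype.val : {i : Fin n // j ≤ i} → Fin n)
      (Subtype.val : {i : Fin n // j ≤ i} → Fin n)).det = ∏ i : {i : Fin n // j ≤ i}, b i i := by
    intro j
    have h1 : t.submatrix (Subtype.val : {i : Fin n // j ≤ i} → Fin n)
        (Subtype.val : {i : Fin n // j ≤ i} → Fin n) =
        b.submatrix (Subtype.val : {i : Fin n // j ≤ i} → Fin n)
          (Subtype.val : {i : Fin n // j ≤ i} → Fin n) *
        l.submatrix (Subtype.val : {i : Fin n // j ≤ i} → Fin n)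
          (Subtype.val : {i : Fin n // j ≤ i} → Fin n) := by
      ext x y
      simp only [submatrix_apply, mul_apply, h]
      rw [← Fintype.sum_subtype_add_sum_subtype (fun i => j ≤ i)]
      simp only [add_eq_left]
      apply Finset.sum_eq_zero
      intro m _
      rw [hb _ _ (lt_of_lt_of_le (not_le.1 m.2) x.2), zero_mul]
    rw [h1, det_mul]
    have h2 : (b.submatrix (Subtype.val : {i : Fin n // j ≤ i} → Fin n)
          (Subtype.val : {i : Fin n // j ≤ i} → Fin n)).det =
          ∏ i : {i : Fin n // j ≤ i}, b i i := by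
      rw [det_of_isUpperTriangular]
      · rfl
      · intro x y hxy
        exact hb _ _ hxy
    have h3 : (l.submatrix (Subtype.val : {i : Fin n // j ≤ i} → Fin n)
          (Subtype.val : {i : Fin n // j ≤ i} → Fin n)).det = 1 := by
      rw [det_of_isLowerTriangular]
      · simp [hld]
      · intro x y hxy
        exact hl _ _ hxy
    rw [h2, h3, mul_one]
  -- the products
  have hprod : ∏ j : Fin n, ∏ i : {i : Fin n // j ≤ i}, b i i = 1 := by
    have h1 : ∀ j : Fin n, ∏ i : {i : Fin n // j ≤ i}, b i i =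
        ∏ i : Fin n, if j ≤ i then b i i else 1 := by
      intro j
      rw [← Finset.prod_filter]
      exact (Finset.prod_subtype _ (by simp) (fun i => b i i)).symm
    simp only [h1]
    rw [Finset.prod_comm]
    have h2 : ∀ i : Fin n, (∏ j : Fin n, if j ≤ i then b i i else 1) = b i i ^ (i : ℕ) * b i i := by
      intro i
      rw [← Finset.prod_filter, Finset.prod_const]
      have : (Finset.univ.filter (fun j : Fin n => j ≤ i)).card = (i : ℕ) + 1 := by
        have : Finset.univ.filter (fun j : Fin n => j ≤ i) = Finset.Iic i := by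
          ext; simp
        rw [this, Fin.card_Iic]
      rw [this, pow_succ]
    simp only [h2]
    rw [Finset.prod_mul_distrib, hb1, hb2, one_mul]
  -- the defects
  have hrow : ∀ i, ∑ k, t i k ^ 2 = 1 := by
    intro i
    have h1 : (t * tᵀ) i i = 1 := by rw [ht', one_apply_eq]
    rw [mul_apply] at h1
    rw [← h1]
    exact Finset.sum_congr rfl fun k _ => by rw [transpose_apply, sq]
  have hdef : ∀ j : Fin n, (∑ i : {i : Fin n // j ≤ i}, ∑ k : {i : Fin n // j ≤ i}, t i k ^ 2) -
      (Fintype.card {i : Fin n // j ≤ i} : ℝ) =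
      - ∑ i : {i : Fin n // j ≤ i}, ∑ k : {k : Fin n // ¬ j ≤ k}, t i k ^ 2 := by
    intro j
    have h1 : ∀ i : {i : Fin n // j ≤ i}, ∑ k : {i : Fin n // j ≤ i}, t i k ^ 2 =
        1 - ∑ k : {k : Fin n // ¬ j ≤ k}, t i k ^ 2 := by
      intro i
      have := Fintype.sum_subtype_add_sum_subtype (fun k : Fin n => j ≤ k) (fun k => t i k ^ 2)
      rw [hrow] at this
      linarith
    simp only [h1]
    rw [Finset.sum_sub_distrib]
    simp
  have hle : ∀ j : Fin n, (∏ i : {i : Fin n // j ≤ i}, b i i) ^ 2 ≤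
      Real.exp (- ∑ i : {i : Fin n // j ≤ i}, ∑ k : {k : Fin n // ¬ j ≤ k}, t i k ^ 2) := by
    intro j
    have h1 := det_sq_le (t.submatrix (Subtype.val : {i : Fin n // j ≤ i} → Fin n)
      (Subtype.val : {i : Fin n // j ≤ i} → Fin n))
    rw [hblock j] at h1
    simp only [submatrix_apply] at h1
    rwa [hdef j] at h1
  have hsum : 0 ≤ - ∑ j : Fin n, ∑ i : {i : Fin n // j ≤ i}, ∑ k : {k : Fin n // ¬ j ≤ k},
      t i k ^ 2 := by
    have h1 : ∏ j : Fin n, (∏ i : {i : Fin n // j ≤ i}, b i i) ^ 2 ≤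
        ∏ j : Fin n, Real.exp
          (- ∑ i : {i : Fin n // j ≤ i}, ∑ k : {k : Fin n // ¬ j ≤ k}, t i k ^ 2) :=
      Finset.prod_le_prod (fun j _ => sq_nonneg _) (fun j _ => hle j)
    rw [Finset.prod_pow, hprod, one_pow, ← Real.exp_sum, Finset.sum_neg_distrib] at h1
    exact Real.one_le_exp_iff.1 h1
  have hnn : ∀ j : Fin n, 0 ≤ ∑ i : {i : Fin n // j ≤ i}, ∑ k : {k : Fin n // ¬ j ≤ k},
      t i k ^ 2 := fun j => Finset.sum_nonneg fun i _ => Finset.sum_nonneg fun k _ => sq_nonneg _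
  have hzero : ∀ j : Fin n, ∑ i : {i : Fin n // j ≤ i}, ∑ k : {k : Fin n // ¬ j ≤ k},
      t i k ^ 2 = 0 := by
    have h1 : ∑ j : Fin n, ∑ i : {i : Fin n // j ≤ i}, ∑ k : {k : Fin n // ¬ j ≤ k},
      t i k ^ 2 = 0 := le_antisymm (by linarith) (Finset.sum_nonneg fun j _ => hnn j)
    intro j
    exact (Finset.sum_eq_zero_iff_of_nonneg (fun j _ => hnn j)).1 h1 j (Finset.mem_univ j)
  have htu : ∀ i j, j < i → t i j = 0 := by
    intro i j hij
    have h1 := (Finset.sum_eq_zero_iff_of_nonneg (fun i _ => Finset.sum_nonneg fun k _ =>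
      sq_nonneg _)).1 (hzero i) ⟨i, le_rfl⟩ (Finset.mem_univ _)
    have h2 := (Finset.sum_eq_zero_iff_of_nonneg (fun k _ => sq_nonneg _)).1 h1
      ⟨j, not_le.2 hij⟩ (Finset.mem_univ _)
    exact pow_eq_zero_iff (two_ne_zero) |>.1 h2
  -- the conclusion
  have hdetb : b.det = 1 := by
    have hbU : b.IsUpperTriangular := fun i j hij => hb _ _ hij
    rw [det_of_isUpperTriangular hbU, hb1]
  have hbinv : Invertible b := invertibleOfIsUnitDet b (by rw [hdetb]; exact isUnit_one)
  have hbB : b.BlockTriangular id := fun i j hij => hb _ _ hij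
  have hbB' : b⁻¹.BlockTriangular id := blockTriangular_inv_of_blockTriangular hbB
  have htB : t.BlockTriangular id := fun i j hij => htu _ _ hij
  have hl2 : l = b⁻¹ * t := by
    rw [h, ← mul_assoc, inv_mul_of_invertible, one_mul]
  have hlB : l.BlockTriangular id := by
    rw [hl2]
    exact hbB'.mul htB
  have hl1 : l = 1 := by
    ext i j
    rcases lt_trichotomy i j with hij | hij | hij
    · rw [hl i j hij, one_apply_ne hij.ne]
    · subst hij
      rw [hld, one_apply_eq]
    · rw [hlB hij, one_apply_ne hij.ne']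
  have htb : t = b := by rw [h, hl1, mul_one]
  have ht1 : t = 1 := eq_one_of_upper ht htu (fun i => by rw [htb]; exact hbd i)
  exact ⟨ht1, by rw [← htb, ht1], hl1⟩

/-! ### The three sets -/

/-- The special linear group. -/
abbrev SL (n : ℕ) := Matrix.SpecialLinearGroup (Fin n) ℝ

/-- Upper triangular matrices with positive diagonal `a` and `∏ a_i ^ i = 1`. -/
def Bp (n : ℕ) : Subgroup (SL n) where
  carrier := {g | (∀ i j, j < i → g.1 i j = 0) ∧ (∀ i, 0 < g.1 i i) ∧ ∏ i, g.1 i i ^ (i : ℕ) = 1}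
  one_mem' := by
    refine ⟨fun i j h => ?_, fun i => ?_, ?_⟩
    · simp [h.ne']
    · simp
    · simp
  mul_mem' := by
    rintro g h ⟨hg1, hg2, hg3⟩ ⟨hh1, hh2, hh3⟩
    have hd : ∀ i, (g * h).1 i i = g.1 i i * h.1 i i := by
      intro i
      change (g.1 * h.1) i i = _
      rw [mul_apply, Finset.sum_eq_single i]
      · intro k _ hk
        rcases lt_or_gt_of_ne hk with h | h
        · rw [hg1 i k h, zero_mul]
        · rw [hh1 k i h, mul_zero]
      · simp
    refine ⟨fun i j hij => ?_, fun i => ?_, ?_⟩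
    · change (g.1 * h.1) i j = 0
      rw [mul_apply]
      apply Finset.sum_eq_zero
      intro k _
      rcases lt_or_ge k i with h' | h'
      · rw [hg1 i k h', zero_mul]
      · rw [hh1 k j (lt_of_lt_of_le hij h'), mul_zero]
    · rw [hd]
      exact mul_pos (hg2 i) (hh2 i)
    · simp only [hd, mul_pow]
      rw [Finset.prod_mul_distrib, hg3, hh3, one_mul]
  inv_mem' := by
    rintro g ⟨hg1, hg2, hg3⟩
    have hB : g.1.BlockTriangular id := fun i j h => hg1 i j h
    have hinv : Invertible g.1 := invertibleOfIsUnitDet g.1 (by rw [g.2]; exact isUnit_one)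
    have hB' : g.1⁻¹.BlockTriangular id := blockTriangular_inv_of_blockTriangular hB
    have hgi : (g⁻¹).1 = g.1⁻¹ := by
      symm
      apply inv_eq_right_inv
      have : (g * g⁻¹).1 = 1 := by rw [mul_inv_cancel]; rfl
      exact this
    have hd : ∀ i, g.1 i i * (g⁻¹).1 i i = 1 := by
      intro i
      have h1 : (g * g⁻¹).1 i i = 1 := by rw [mul_inv_cancel]; simp
      change (g.1 * (g⁻¹).1) i i = 1 at h1
      rw [mul_apply, Finset.sum_eq_single i] at h1
      · exact h1
      · intro k _ hk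
        rcases lt_or_gt_of_ne hk with h | h
        · rw [hg1 i k h, zero_mul]
        · rw [hgi, hB' h, mul_zero]
      · simp
    refine ⟨fun i j hij => ?_, fun i => ?_, ?_⟩
    · rw [hgi]
      exact hB' hij
    · have h1 := hd i
      have h2 := hg2 i
      by_contra h3
      push Not at h3
      nlinarith
    · have h1 : (∏ i, g.1 i i ^ (i : ℕ)) * ∏ i, (g⁻¹).1 i i ^ (i : ℕ) = 1 := by
        rw [← Finset.prod_mul_distrib]
        apply Finset.prod_eq_one
        intro i _
        rw [← mul_pow, hd, one_pow]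
      rwa [hg3, one_mul] at h1

/-- Lower unipotent matrices. -/
def Nm (n : ℕ) : Subgroup (SL n) where
  carrier := {g | (∀ i j, i < j → g.1 i j = 0) ∧ (∀ i, g.1 i i = 1)}
  one_mem' := by
    refine ⟨fun i j h => ?_, fun i => ?_⟩
    · simp [h.ne]
    · simp
  mul_mem' := by
    rintro g h ⟨hg1, hg2⟩ ⟨hh1, hh2⟩
    refine ⟨fun i j hij => ?_, fun i => ?_⟩
    · change (g.1 * h.1) i j = 0
      rw [mul_apply]
      apply Finset.sum_eq_zero
      intro k _
      rcases lt_or_ge i k with h' | h'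
      · rw [hg1 i k h', zero_mul]
      · rw [hh1 k j (lt_of_le_of_lt h' hij), mul_zero]
    · change (g.1 * h.1) i i = _
      rw [mul_apply, Finset.sum_eq_single i]
      · rw [hg2, hh2, one_mul]
      · intro k _ hk
        rcases lt_or_gt_of_ne hk with h | h
        · rw [hh1 k i h, mul_zero]
        · rw [hg1 i k h, zero_mul]
      · simp
  inv_mem' := by
    rintro g ⟨hg1, hg2⟩
    have hB : g.1.BlockTriangular OrderDual.toDual := fun i j h => hg1 i j h
    have hinv : Invertible g.1 := invertibleOfIsUnitDet g.1 (by rw [g.2]; exact isUnit_one)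
    have hB' : g.1⁻¹.BlockTriangular OrderDual.toDual := blockTriangular_inv_of_blockTriangular hB
    have hgi : (g⁻¹).1 = g.1⁻¹ := by
      symm
      apply inv_eq_right_inv
      have : (g * g⁻¹).1 = 1 := by rw [mul_inv_cancel]; rfl
      exact this
    have hoff : ∀ i j, i < j → (g⁻¹).1 i j = 0 := by
      intro i j hij
      rw [hgi]
      exact hB' hij
    refine ⟨hoff, fun i => ?_⟩
    have h1 : (g * g⁻¹).1 i i = 1 := by rw [mul_inv_cancel]; simp
    change (g.1 * (g⁻¹).1) i i = 1 at h1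
    rw [mul_apply, Finset.sum_eq_single i] at h1
    · rwa [hg2, one_mul] at h1
    · intro k _ hk
      rcases lt_or_gt_of_ne hk with h | h
      · rw [hoff k i h, mul_zero]
      · rw [hg1 i k h, zero_mul]
    · simp

/-- Orthogonal matrices without the eigenvalue `-1`. -/
def Op (n : ℕ) : Set (SL n) := {g | g.1ᵀ * g.1 = 1 ∧ (1 + g.1).det ≠ 0}

open Pool.Agent.X213.TppDim

theorem tpp (n : ℕ) :
    TripleProductProperty (Bp n : Set (SL n)) (Op n) (Nm n : Set (SL n)) := by
  rintro _ ⟨x, hx, x', hx', rfl⟩ _ ⟨y, hy, y', hy', rfl⟩ _ ⟨z, hz, z', hz', rfl⟩ hmul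
  have hb : (x * x'⁻¹)⁻¹ ∈ Bp n := (Bp n).inv_mem ((Bp n).mul_mem hx ((Bp n).inv_mem hx'))
  have hl : (z * z'⁻¹)⁻¹ ∈ Nm n := (Nm n).inv_mem ((Nm n).mul_mem hz ((Nm n).inv_mem hz'))
  have ht : y * y'⁻¹ = (x * x'⁻¹)⁻¹ * (z * z'⁻¹)⁻¹ := by
    have : y * y'⁻¹ = (x * x'⁻¹)⁻¹ * ((x * x'⁻¹) * (y * y'⁻¹) * (z * z'⁻¹)) * (z * z'⁻¹)⁻¹ := by
      group
    rw [this, hmul, mul_one]
  have hy'2 : (y'⁻¹).1 = y'.1ᵀ := by
    have h1 : y'.1⁻¹ = y'.1ᵀ := inv_eq_left_inv hy'.1
    rw [← h1]
    symm
    apply inv_eq_right_inv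
    have : (y' * y'⁻¹).1 = 1 := by rw [mul_inv_cancel]; rfl
    exact this
  have horth : (y * y'⁻¹).1ᵀ * (y * y'⁻¹).1 = 1 := by
    change (y.1 * (y'⁻¹).1)ᵀ * (y.1 * (y'⁻¹).1) = 1
    rw [hy'2, transpose_mul, transpose_transpose]
    calc y'.1 * y.1ᵀ * (y.1 * y'.1ᵀ) = y'.1 * (y.1ᵀ * y.1) * y'.1ᵀ := by
          simp only [mul_assoc]
      _ = y'.1 * y'.1ᵀ := by rw [hy.1, mul_one]
      _ = 1 := mul_eq_one_comm.1 hy'.1
  obtain ⟨h1, h2, h3⟩ := main horth (b := ((x * x'⁻¹)⁻¹).1) (l := ((z * z'⁻¹)⁻¹).1)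
    (by rw [ht]; rfl) hb.1 hb.2.1
    (by
      have := ((x * x'⁻¹)⁻¹).2
      have hbU : ((x * x'⁻¹)⁻¹).1.IsUpperTriangular := fun i j hij => hb.1 _ _ hij
      rwa [det_of_isUpperTriangular hbU] at this)
    hb.2.2 hl.1 hl.2
  refine ⟨?_, Subtype.ext h1, ?_⟩
  · exact inv_eq_one.1 (Subtype.ext h2)
  · exact inv_eq_one.1 (Subtype.ext h3)

end Pool.Agent.X213.TppAlg
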