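import Mathlib
import Pool.Agent.X213.BalleanRaw

set_option autoImplicit false

open Filter Set

namespace Pool.Agent.X213

universe u v

/-- A ballean: a set with a connected coarse structure, given by its family of entourages. -/
structure Ballean (X : Type u) where
  /-- the family of entourages -/
  ent : Set (Set (X × X))
  diag_mem : {p : X × X | p.1 = p.2} ∈ ent
  subset_mem : ∀ E ∈ ent, ∀ F ⊆ E, F ∈ ent
  union_mem : ∀ E ∈ ent, ∀ F ∈ ent, E ∪ F ∈ ent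
  inv_mem : ∀ E ∈ ent, {p : X × X | (p.2, p.1) ∈ E} ∈ ent
  comp_mem : ∀ E ∈ ent, ∀ F ∈ ent, {p : X × X | ∃ y, (p.1, y) ∈ E ∧ (y, p.2) ∈ F} ∈ ent
  connected : ∀ x y : X, ∃ E ∈ ent, (x, y) ∈ E

namespace Ballean

/-- The ball `E[x]`. -/
def ball {X : Type u} (E : Set (X × X)) (x : X) : Set X := {y | (x, y) ∈ E}

/-- Bounded sets. -/
def Bounded {X : Type u} (b : Ballean X) (B : Set X) : Prop := ∃ E ∈ b.ent, ∃ x, B ⊆ ball E x

/-- The product of two entourages. -/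
def box {X : Type u} {Y : Type v} (E : Set (X × X)) (F : Set (Y × Y)) :
    Set ((X × Y) × (X × Y)) := {q | (q.1.1, q.2.1) ∈ E ∧ (q.1.2, q.2.2) ∈ F}

/-- The product ballean: the entourages are the subsets of products of entourages. -/
def prod {X : Type u} {Y : Type v} (b : Ballean X) (c : Ballean Y) : Ballean (X × Y) where
  ent := {G | ∃ E ∈ b.ent, ∃ F ∈ c.ent, G ⊆ box E F}
  diag_mem := by
    refine ⟨_, b.diag_mem, _, c.diag_mem, ?_⟩
    rintro ⟨p, q⟩ h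
    have h' : p = q := h
    subst h'
    exact ⟨rfl, rfl⟩
  subset_mem := by
    rintro G ⟨E, hE, F, hF, hG⟩ G' hG'
    exact ⟨E, hE, F, hF, hG'.trans hG⟩
  union_mem := by
    rintro G ⟨E, hE, F, hF, hG⟩ G' ⟨E', hE', F', hF', hG'⟩
    refine ⟨_, b.union_mem E hE E' hE', _, c.union_mem F hF F' hF', ?_⟩
    rintro q (hq | hq)
    · exact ⟨Or.inl (hG hq).1, Or.inl (hG hq).2⟩
    · exact ⟨Or.inr (hG' hq).1, Or.inr (hG' hq).2⟩
  inv_mem := by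
    rintro G ⟨E, hE, F, hF, hG⟩
    exact ⟨_, b.inv_mem E hE, _, c.inv_mem F hF, fun q hq => ⟨(hG hq).1, (hG hq).2⟩⟩
  comp_mem := by
    rintro G ⟨E, hE, F, hF, hG⟩ G' ⟨E', hE', F', hF', hG'⟩
    refine ⟨_, b.comp_mem E hE E' hE', _, c.comp_mem F hF F' hF', ?_⟩
    rintro q ⟨y, h1, h2⟩
    exact ⟨⟨y.1, (hG h1).1, (hG' h2).1⟩, ⟨y.2, (hG h1).2, (hG' h2).2⟩⟩
  connected := by
    rintro ⟨x, y⟩ ⟨x', y'⟩
    obtain ⟨E, hE, h1⟩ := b.connected x x'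
    obtain ⟨F, hF, h2⟩ := c.connected y y'
    exact ⟨box E F, ⟨E, hE, F, hF, subset_rfl⟩, h1, h2⟩

/-- The product ballean is the least ballean structure containing all products of entourages. -/
theorem prod_least {X : Type u} {Y : Type v} (b : Ballean X) (c : Ballean Y)
    (d : Ballean (X × Y)) (hd : ∀ E ∈ b.ent, ∀ F ∈ c.ent, box E F ∈ d.ent) :
    (prod b c).ent ⊆ d.ent := by
  rintro G ⟨E, hE, F, hF, hG⟩
  exact d.subset_mem _ (hd E hE F hF) _ hG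

variable {X : Type u} {Y : Type v}

/-- The entourages containing the diagonal. -/
def base (b : Ballean X) : Set (Set (X × X)) := {E | E ∈ b.ent ∧ ∀ x, (x, x) ∈ E}

/-- Add the diagonal to an entourage. -/
def fill (E : Set (X × X)) : Set (X × X) := E ∪ {p | p.1 = p.2}

theorem fill_mem (b : Ballean X) {E : Set (X × X)} (hE : E ∈ b.ent) : fill E ∈ b.base :=
  ⟨b.union_mem _ hE _ b.diag_mem, fun _ => Or.inr rfl⟩

theorem isBase (b : Ballean X) : Bal.IsBase b.base where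
  diag := fun E hE => hE.2
  comp_inv := by
    intro E hE F hF
    refine ⟨_, b.fill_mem (b.comp_mem E hE.1 _ (b.inv_mem F hF.1)), ?_⟩
    intro x y z h1 h2
    exact Or.inl ⟨y, h1, h2⟩
  cover := by
    intro x y
    obtain ⟨E, hE, h⟩ := b.connected x y
    exact ⟨_, b.fill_mem hE, Or.inl h⟩

theorem bounded_iff (b : Ballean X) (B : Set X) : b.Bounded B ↔ Bal.RBdd b.base B := by
  constructor
  · rintro ⟨E, hE, x, hx⟩
    exact ⟨_, b.fill_mem hE, x, fun y hy => Or.inl (hx hy)⟩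
  · rintro ⟨E, hE, x, hx⟩
    exact ⟨E, hE.1, x, hx⟩

/-- A bounded set of the product lies in a product of bounded sets. -/
theorem bounded_prod {b : Ballean X} {c : Ballean Y} {B : Set (X × Y)}
    (hB : (prod b c).Bounded B) : ∃ C, b.Bounded C ∧ ∃ C', c.Bounded C' ∧
      ∀ p ∈ B, p.1 ∈ C ∧ p.2 ∈ C' := by
  obtain ⟨G, ⟨E, hE, F, hF, hG⟩, x, hx⟩ := hB
  exact ⟨ball E x.1, ⟨E, hE, x.1, subset_rfl⟩, ball F x.2, ⟨F, hF, x.2, subset_rfl⟩,
    fun p hp => hG (hx hp)⟩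

theorem prod_bounded {b : Ballean X} {c : Ballean Y} {C : Set X} {C' : Set Y}
    (hC : b.Bounded C) (hC' : c.Bounded C') :
    (prod b c).Bounded {p | p.1 ∈ C ∧ p.2 ∈ C'} := by
  obtain ⟨E, hE, x, hx⟩ := hC
  obtain ⟨F, hF, y, hy⟩ := hC'
  exact ⟨box E F, ⟨E, hE, F, hF, subset_rfl⟩, (x, y), fun p hp => ⟨hx hp.1, hy hp.2⟩⟩

/-- The product theorem in a form common to all classes of functions. -/
theorem prod_main {b : Ballean X} {c : Ballean Y} (f : X × Y → ℝ) (p₁ : X × Y)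
    (hPP : ∀ G ∈ (prod b c).ent, ∃ B, (prod b c).Bounded B ∧ ∃ r : ℝ, ∀ p ∉ B,
      ∀ q ∈ ball G p, ∀ q' ∈ ball G p, |f q - f q'| ≤ r)
    (H1 : ∀ φ : X → ℝ, Bal.Dom (fun x y => f (x, y)) φ →
      ∃ B, b.Bounded B ∧ ∃ M : ℝ, ∀ x ∉ B, |φ x| ≤ M)
    (H2 : ∀ φ : Y → ℝ, Bal.Dom (fun y x => f (x, y)) φ →
      ∃ B, c.Bounded B ∧ ∃ M : ℝ, ∀ y ∉ B, |φ y| ≤ M) :
    ∃ B, (prod b c).Bounded B ∧ ∃ M : ℝ, ∀ p ∉ B, |f p| ≤ M := by
  obtain ⟨B, hB, B', hB', M, hM⟩ := Bal.raw_main b.isBase c.isBase p₁.1 p₁.2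
    (fun x y => f (x, y)) (by
      intro E hE F hF
      obtain ⟨B, hB, r, hr⟩ := hPP (box E F) ⟨E, hE.1, F, hF.1, subset_rfl⟩
      obtain ⟨C, hC, C', hC', hBC⟩ := bounded_prod hB
      refine ⟨C, (b.bounded_iff C).mp hC, C', (c.bounded_iff C').mp hC', r, ?_⟩
      intro x y hxy a ha a' ha' d hd d' hd'
      exact hr (x, y) (fun h => hxy (hBC _ h)) (a, d) ⟨ha, hd⟩ (a', d') ⟨ha', hd'⟩)
    (by
      intro φ hφ
      obtain ⟨B, hB, M, hM⟩ := H1 φ hφ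
      exact ⟨B, (b.bounded_iff B).mp hB, M, hM⟩)
    (by
      intro φ hφ
      obtain ⟨B, hB, M, hM⟩ := H2 φ hφ
      exact ⟨B, (c.bounded_iff B).mp hB, M, hM⟩)
  exact ⟨_, prod_bounded ((b.bounded_iff B).mpr hB) ((c.bounded_iff B').mpr hB'), M,
    fun p hp => hM p.1 p.2 hp⟩

/-- From the product to the first factor: a function dominated by `f` varies little. -/
theorem vary_left {b : Ballean X} {c : Ballean Y} {f : X × Y → ℝ} {φ : X → ℝ}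
    (hφ : Bal.Dom (fun x y => f (x, y)) φ) {E : Set (X × X)} {r : ℝ} (hr : 0 ≤ r)
    {B : Set (X × Y)} (hB : (prod b c).Bounded B)
    (h : ∀ p ∉ B, ∀ q ∈ ball (box E {p : Y × Y | p.1 = p.2}) p,
      ∀ q' ∈ ball (box E {p : Y × Y | p.1 = p.2}) p, |f q - f q'| ≤ r) :
    ∃ C, b.Bounded C ∧ ∀ x ∉ C, ∀ a ∈ ball E x, ∀ a' ∈ ball E x, |φ a - φ a'| ≤ r := by
  obtain ⟨C, hC, C', hC', hBC⟩ := bounded_prod hB
  refine ⟨C, hC, fun x hx a ha a' ha' => hφ a a' r hr fun y => ?_⟩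
  exact h (x, y) (fun hp => hx (hBC _ hp).1) (a, y) ⟨ha, rfl⟩ (a', y) ⟨ha', rfl⟩

theorem vary_right {b : Ballean X} {c : Ballean Y} {f : X × Y → ℝ} {φ : Y → ℝ}
    (hφ : Bal.Dom (fun y x => f (x, y)) φ) {F : Set (Y × Y)} {r : ℝ} (hr : 0 ≤ r)
    {B : Set (X × Y)} (hB : (prod b c).Bounded B)
    (h : ∀ p ∉ B, ∀ q ∈ ball (box {p : X × X | p.1 = p.2} F) p,
      ∀ q' ∈ ball (box {p : X × X | p.1 = p.2} F) p, |f q - f q'| ≤ r) :
    ∃ C, c.Bounded C ∧ ∀ x ∉ C, ∀ a ∈ ball F x, ∀ a' ∈ ball F x, |φ a - φ a'| ≤ r := by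
  obtain ⟨C, hC, C', hC', hBC⟩ := bounded_prod hB
  refine ⟨C', hC', fun x hx a ha a' ha' => hφ a a' r hr fun y => ?_⟩
  exact h (y, x) (fun hp => hx (hBC _ hp).2) (y, a) ⟨rfl, ha⟩ (y, a') ⟨rfl, ha'⟩

end Ballean

end Pool.Agent.X213
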