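import Mathlib
import Pool.Agent.Y939.NC.Reg
import Pool.Agent.Y939.NC.Std
import Pool.Agent.TH167.SH.Fam
import Pool.Agent.TH167.SH.Conv

set_option autoImplicit false

/-!
# Negative curves: the standard form has no expected dimension
-/

namespace Pool.Agent.X213.NegStd

open MvPolynomial Pool.Agent.TH167 Pool.Agent.TH167.SHDefs
open Pool.Agent.Y536.SH (Standard)

/-- The standard form of a negative curve which is not a `(-1)`-curve. -/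
structure StdForm {r : ℕ} (P : Fin (r + 4) → Fin 2 → ℂ) (d : ℕ) (w : Fin (r + 4) → ℕ)
    (P1 : Fin (r + 4) → Fin 2 → ℂ) (d1 : ℕ) (w1 : Fin (r + 4) → ℕ)
    (C1 : MvPolynomial (Fin 3) ℂ) : Prop where
  alg : AlgebraicIndependent ℚ (fun ij : Fin (r + 4) × Fin 2 => P1 ij.1 ij.2)
  curve : Curve P1 C1 d1 w1
  chain : Relation.ReflTransGen Quadratic (d, w) (d1, w1)
  std : Standard d1 w1
  deg : d1 ≤ d
  mult : ∀ i, w1 i ≤ w i
  self : inter d1 w1 d1 w1 = inter d w d w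
  can : interK d1 w1 = interK d w
  neg : inter d1 w1 d1 w1 < 0
  canPos : 0 < interK d1 w1
  chi : interK d1 w1 - inter d1 w1 d1 w1 = 2 - 2 * SH.chi d1 w1
  chi0 : SH.chi d1 w1 ≤ 0
  spec : ¬ Pool.Agent.H932R3.ExpDim ℂ w1 P1 d1
  spec0 : ¬ Pool.Agent.H932R3.ExpDim ℂ w P d

theorem not_exp {s : ℕ} {P : Fin s → Fin 2 → ℂ} {d : ℕ} {w : Fin s → ℕ}
    {C : MvPolynomial (Fin 3) ℂ} (hC : Curve P C d w) (hx : SH.chi d w ≤ 0) :
    ¬ Pool.Agent.H932R3.ExpDim ℂ w P d := by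
  intro h6
  obtain ⟨h1, h2, h3⟩ := SH.curve_iff.1 hC
  rw [Pool.Agent.TH442.NF.expDim_iff] at h6
  have hmem : C ∈ W609.CR.VS (fun j => W609.CR.aff (P j)) w d :=
    (SH.mem_VS _ _ _ _).2 ⟨h2, fun j => (h3 j).1⟩
  have hfin := W609.CR.vs_fin (fun j => W609.CR.aff (P j)) w d
  have hpos : 0 < Module.finrank ℂ ↥(W609.CR.VS (fun j => W609.CR.aff (P j)) w d) :=
    Module.finrank_pos_iff.2 ⟨⟨C, hmem⟩, 0, fun h7 => h1.ne_zero (congrArg Subtype.val h7)⟩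
  have hx' : Pool.Agent.TH167.SH.chi d w ≤ 0 := hx
  rw [max_eq_left hx'] at h6
  omega

theorem neg_std {r : ℕ} {P : Fin (r + 4) → Fin 2 → ℂ}
    (hP : AlgebraicIndependent ℚ (fun ij : Fin (r + 4) × Fin 2 => P ij.1 ij.2))
    {d : ℕ} {w : Fin (r + 4) → ℕ} {C : MvPolynomial (Fin 3) ℂ} (hC : Curve P C d w)
    (hneg : inter d w d w < 0) (hne : ¬ MinusOne P C d w) :
    ∃ (P1 : Fin (r + 4) → Fin 2 → ℂ) (d1 : ℕ) (w1 : Fin (r + 4) → ℕ)
      (C1 : MvPolynomial (Fin 3) ℂ), StdForm P d w P1 d1 w1 C1 := by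
  obtain ⟨h1, h2, h3⟩ := SH.curve_iff.1 hC
  have hne' : ¬ (SH.ip d w d w = -1 ∧ SH.kk d w = 1) := fun h0 =>
    hne ⟨hC, by rw [SH.inter_eq, h0.1], by rw [SH.interK_eq, h0.2]⟩
  obtain ⟨M, hM⟩ : ∃ M, ∀ j, w j ≤ M := ⟨∑ j, w j, fun j =>
    Finset.single_le_sum (fun _ _ => Nat.zero_le _) (Finset.mem_univ j)⟩
  have hw : SH.Few M d w := by
    left
    rw [Finset.filter_false_of_mem fun j _ => not_lt.2 (hM j)]
    simp
  obtain ⟨P1, d1, w1, C1, a1, a2, a3, a4, a5, a6, a7, a8⟩ :=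
    Pool.Agent.Y939.NC.std_irr d P hP w hw C h1 h2 h3 hne'
  obtain ⟨c1, c2, c3⟩ := SH.quad_inv a5
  simp only at c1 c2 c3
  rw [SH.inter_eq] at hneg
  have hwd : ∀ j, w1 j ≤ d1 := fun j => SH.van_le a2.ne_zero a3 (a4 j).1
  have hK : SH.kk d1 w1 < 0 := by
    by_contra hcon
    push Not at hcon
    have h4 : 0 ≤ SH.kk d1 w1 := hcon
    rw [SH.kk_cast] at h4
    have h5 := SH.red_ip a6 hwd (by omega)
    omega
  have h7 := SH.two_chi d1 w1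
  have hx : SH.chi d1 w1 ≤ 0 := by omega
  refine ⟨P1, d1, w1, C1, ⟨a1, SH.curve_iff.2 ⟨a2, a3, a4⟩, SH.chain_conv a5, a6, a7, a8,
    by rw [SH.inter_eq, SH.inter_eq, c3], by rw [SH.interK_eq, SH.interK_eq, c2],
    by rw [SH.inter_eq]; omega, by rw [SH.interK_eq]; omega,
    by rw [SH.inter_eq, SH.interK_eq]; omega, hx, not_exp (SH.curve_iff.2 ⟨a2, a3, a4⟩) hx,
    not_exp hC (by omega)⟩⟩

end Pool.Agent.X213.NegStd
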