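import Pool.Agent.Y169.CP.Main

/-!
The Campana-Peternell inequality: the Iitaka dimension of a part of a multiple of the canonical
divisor with a pseudo-effective complement is at most the numerical dimension. (The argument of
`Pool.Agent.Y169.CP.Main`, with the bound as conclusion.)
-/

set_option autoImplicit false
set_option linter.overlappingInstances false
set_option linter.unusedSectionVars false
set_option maxHeartbeats 400000

open FF MvPolynomial Pool.Agent.W602.GT

namespace Pool.Agent.X213.CPq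

open Pool.Agent.Y169.CH Pool.Agent.Y169.CP

variable {N : ℕ} {K : Type} [Field K] [Algebra ℂ K]

/-- the Campana-Peternell inequality, with the numerical dimension -/
theorem cp_le {h0 : ℕ} (hnum : ANum N K h0) {r : ℕ} (hr : 1 ≤ r)
    {a : Place ℂ K → ℤ} {h : ℕ} (hps : Rest N K r a) (hA : DivGe N K a h) : h ≤ h0 := by
  classical
  rcases le_or_gt h h0 with hle | hlt
  · exact hle
  exfalso
  obtain ⟨S, hS⟩ := hps
  obtain ⟨C, hC⟩ := hnum S
  obtain ⟨m, hm, f, hf0, hf, hind⟩ := hA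
  obtain ⟨t, ht⟩ : ∃ t : Fin (h0 + 1) → K, t = fun b => f (Fin.castLE hlt b).succ / f 0 := ⟨_, rfl⟩
  have htind : AlgebraicIndependent ℂ t := by
    rw [ht]
    exact hind.comp (fun b : Fin (h0 + 1) => Fin.castLE hlt b) (Fin.castLE_injective _)
  have key : ∀ j : ℕ, 1 ≤ j → (j + 1) ^ (h0 + 1) ≤ C * ((h0 + 1) * j * m * r) ^ h0 := by
    intro j hj
    have hJ : 1 ≤ (h0 + 1) * j * m := Nat.mul_pos (Nat.mul_pos (by omega) hj) hm
    obtain ⟨ω, hω0, hω, hP⟩ := hS ((h0 + 1) * j * m) hJ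
    obtain ⟨D0, hD0⟩ : ∃ D, ω D ≠ 0 := by
      by_contra hcon
      push Not at hcon
      exact hω0 (funext hcon)
    obtain ⟨g, hg⟩ : ∃ g : (Fin (h0 + 1) → Fin (j + 1)) → K,
      g = fun e => f 0 ^ ((h0 + 1) * j) * ∏ b, t b ^ (e b : ℕ) := ⟨_, rfl⟩
    have hgval : ∀ e, g e = f 0 ^ ((h0 + 1) * j - ∑ b, (e b : ℕ)) *
        ∏ b, f (Fin.castLE hlt b).succ ^ (e b : ℕ) := by
      intro e
      have hle : ∑ b, (e b : ℕ) ≤ (h0 + 1) * j := by
        calc ∑ b, (e b : ℕ) ≤ ∑ _b : Fin (h0 + 1), j :=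
              Finset.sum_le_sum fun b _ => Nat.le_of_lt_succ (e b).2
          _ = (h0 + 1) * j := by
              rw [Finset.sum_const, Finset.card_univ, Fintype.card_fin, smul_eq_mul]
      rw [hg, ht]
      dsimp only
      have h1 : ∀ b, (f (Fin.castLE hlt b).succ / f 0) ^ (e b : ℕ) * f 0 ^ (e b : ℕ) =
          f (Fin.castLE hlt b).succ ^ (e b : ℕ) := fun b => by
        rw [← mul_pow, div_mul_cancel₀ _ hf0]
      have h2 : f 0 ^ ((h0 + 1) * j) = f 0 ^ ((h0 + 1) * j - ∑ b, (e b : ℕ)) *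
          ∏ b, f 0 ^ (e b : ℕ) := by
        rw [Finset.prod_pow_eq_pow_sum, ← pow_add, Nat.sub_add_cancel hle]
      rw [h2, mul_assoc, ← Finset.prod_mul_distrib]
      congr 1
      refine Finset.prod_congr rfl fun b _ => ?_
      rw [mul_comm]
      exact h1 b
    have hsec : ∀ e, ASec N S ((h0 + 1) * j * m * r) 1 fun D => g e * ω D := by
      intro e
      have hω' : IsPluri ((h0 + 1) * j * m * r) ω := hω
      refine mul_sec (j := (h0 + 1) * j) hω' hP fun P hPd => ?_
      by_cases hge : g e = 0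
      · exact Or.inl hge
      right
      have hfac : ∀ b, (e b : ℕ) ≠ 0 → f (Fin.castLE hlt b).succ ≠ 0 := by
        intro b hb h3
        apply hge
        rw [hgval, Finset.prod_eq_zero (Finset.mem_univ b), mul_zero]
        rw [h3, zero_pow hb]
      have hne : ∀ b, f (Fin.castLE hlt b).succ ^ (e b : ℕ) ≠ 0 := by
        intro b
        by_cases hb : (e b : ℕ) = 0
        · rw [hb, pow_zero]
          exact one_ne_zero
        · exact pow_ne_zero _ (hfac b hb)
      rw [hgval, P.ord_mul (pow_ne_zero _ hf0) (Finset.prod_ne_zero_iff.2 fun b _ => hne b),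
        P.ord_pow, ord_prod' P Finset.univ _ fun b _ => hne b]
      have h2 := (hf 0 P hPd).resolve_left hf0
      have h3 : ∀ b, - (((e b : ℕ) : ℤ) * (m * a P)) ≤
          P.ord (f (Fin.castLE hlt b).succ ^ (e b : ℕ)) := by
        intro b
        rw [P.ord_pow]
        by_cases hb : (e b : ℕ) = 0
        · rw [hb]
          simp
        · have h4 := (hf (Fin.castLE hlt b).succ P hPd).resolve_left (hfac b hb)
          have h5 := mul_le_mul_of_nonneg_left h4 (show (0 : ℤ) ≤ ((e b : ℕ) : ℤ) by positivity)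
          linarith
      have hle : ∑ b, (e b : ℕ) ≤ (h0 + 1) * j := by
        calc ∑ b, (e b : ℕ) ≤ ∑ _b : Fin (h0 + 1), j :=
              Finset.sum_le_sum fun b _ => Nat.le_of_lt_succ (e b).2
          _ = (h0 + 1) * j := by
              rw [Finset.sum_const, Finset.card_univ, Fintype.card_fin, smul_eq_mul]
      have h4 : - (∑ b, ((e b : ℕ) : ℤ)) * (m * a P) ≤
          ∑ b, P.ord (f (Fin.castLE hlt b).succ ^ (e b : ℕ)) := by
        calc - (∑ b, ((e b : ℕ) : ℤ)) * (m * a P) = ∑ b, - (((e b : ℕ) : ℤ) * (m * a P)) := by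
              rw [Finset.sum_neg_distrib, ← Finset.sum_mul]
              ring
          _ ≤ _ := Finset.sum_le_sum fun b _ => h3 b
      have h5 : ((((h0 + 1) * j - ∑ b, (e b : ℕ) : ℕ) : ℤ)) =
          ((h0 + 1) * j : ℕ) - ∑ b, ((e b : ℕ) : ℤ) := by
        rw [Nat.cast_sub hle]
        push_cast
        ring
      have h6 := mul_le_mul_of_nonneg_left h2
        (show (0 : ℤ) ≤ (((h0 + 1) * j - ∑ b, (e b : ℕ) : ℕ) : ℤ) by positivity)
      rw [h5] at h6 ⊢
      push_cast at h6 ⊢
      linarith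
    have hlin : LinearIndependent ℂ fun (e : Fin (h0 + 1) → Fin (j + 1))
        (D : Fin N → Derivation ℂ K K) => g e * ω D := by
      refine LinearIndependent.of_comp
        (LinearMap.proj D0 : ((Fin N → Derivation ℂ K K) → K) →ₗ[ℂ] K) ?_
      have h3 := (mono_lin htind j).map'
        (LinearMap.mulRight ℂ (f 0 ^ ((h0 + 1) * j) * ω D0))
        (LinearMap.ker_eq_bot.2 (mul_left_injective₀ (mul_ne_zero (pow_ne_zero _ hf0) hD0)))
      have h4 : (⇑(LinearMap.proj D0 : ((Fin N → Derivation ℂ K K) → K) →ₗ[ℂ] K) ∘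
          fun (e : Fin (h0 + 1) → Fin (j + 1)) (D : Fin N → Derivation ℂ K K) => g e * ω D) =
          ⇑(LinearMap.mulRight ℂ (f 0 ^ ((h0 + 1) * j) * ω D0)) ∘
            fun e : Fin (h0 + 1) → Fin (j + 1) => ∏ b, t b ^ (e b : ℕ) := by
        funext e
        rw [hg]
        simp only [Function.comp_apply, LinearMap.mulRight_apply, LinearMap.coe_proj,
          Function.eval]
        ring
      rw [h4]
      exact h3
    have hcard : Fintype.card (Fin (h0 + 1) → Fin (j + 1)) = (j + 1) ^ (h0 + 1) := by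
      rw [Fintype.card_fun, Fintype.card_fin, Fintype.card_fin]
    let eq : Fin ((j + 1) ^ (h0 + 1)) ≃ (Fin (h0 + 1) → Fin (j + 1)) :=
      (Fintype.equivFinOfCardEq hcard).symm
    refine hC _ _ ?_ ⟨fun l => fun D => g (eq l) * ω D, hlin.comp _ eq.injective, fun l =>
      hsec (eq l)⟩
    exact Nat.mul_pos hJ hr
  obtain ⟨M, hM⟩ : ∃ M, M = C * ((h0 + 1) * m * r) ^ h0 := ⟨_, rfl⟩
  have h1 := key (M + 1) (by omega)
  have h2 : C * ((h0 + 1) * (M + 1) * m * r) ^ h0 = M * (M + 1) ^ h0 := by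
    rw [hM, show (h0 + 1) * (C * ((h0 + 1) * m * r) ^ h0 + 1) * m * r =
      ((h0 + 1) * m * r) * (C * ((h0 + 1) * m * r) ^ h0 + 1) by ring, mul_pow]
    ring
  rw [h2] at h1
  have h3 : M * (M + 1) ^ h0 < (M + 1 + 1) ^ (h0 + 1) := by
    calc M * (M + 1) ^ h0 ≤ (M + 1) * (M + 1) ^ h0 := Nat.mul_le_mul_right _ (by omega)
      _ = (M + 1) ^ (h0 + 1) := by rw [pow_succ]; ring
      _ < (M + 1 + 1) ^ (h0 + 1) := Nat.pow_lt_pow_left (by omega) (by omega)
  omega

end Pool.Agent.X213.CPq
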