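import Mathlib
import Pool.Agent.W609.Fin
import Pool.Agent.X213.Eng4
import Pool.Agent.X213.EngB

set_option autoImplicit false

/-!
# One arbitrary multiplicity: conditions of order `m ^ 3`
-/

namespace Pool.Agent.X213.EngO

open Finset Pool.Agent.H932R3 Pool.Agent.X213.EngB

/-- The multiplicities of the class `(d; w)` are, in a suitable order, an arbitrary number `M` and a
vector `v` such that for some `1 ≤ k ≤ m`: `Frequent m k v`; `M + 2 m < d`; with `A = ∑ (v i + 1).choose 2`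
and `A'` the part of it with `v i ≠ 1`, `27 (m + 4) ^ 3 + M (M + 1) ≤ (d + 1) (d + 2)` or
`27 (m + 4) ^ 3 ≤ A`; and `(d + 2).choose 2 + 2 (k + 1).choose 3 ≤ (M + 1).choose 2 + A`, or
`(M + 1).choose 2 + A' + 2 (k + 1).choose 3 ≤ (d + 2).choose 2`, or no `v i` lies strictly between `1`
and `k`. -/
def OneLarge {r : ℕ} (d : ℕ) (w : Fin (r + 1) → ℕ) : Prop :=
  ∃ (σ : Equiv.Perm (Fin (r + 1))) (M : ℕ) (v : Fin r → ℕ) (m k : ℕ),
    (∀ i, w (σ i) = (Fin.cons M v : Fin (r + 1) → ℕ) i) ∧ 0 < k ∧ k ≤ m ∧ Frequent m k v ∧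
    M + 2 * m < d ∧
    (27 * (m + 4) ^ 3 + M * (M + 1) ≤ (d + 1) * (d + 2) ∨
      27 * (m + 4) ^ 3 ≤ ∑ i, (v i + 1).choose 2) ∧
    ((d + 2).choose 2 + 2 * (k + 1).choose 3 ≤ (M + 1).choose 2 + ∑ i, (v i + 1).choose 2 ∨
      (M + 1).choose 2 + ∑ i ∈ univ.filter (fun i => v i ≠ 1), (v i + 1).choose 2 +
        2 * (k + 1).choose 3 ≤ (d + 2).choose 2 ∨ ∀ i, v i ≤ 1 ∨ k ≤ v i)

theorem aw_w2 {n : ℕ} (w : Fin n → ℕ) : H932R7.Aw (H932R7.w2 w) =
    ∑ i ∈ univ.filter (fun i => w i ≠ 1), (w i + 1).choose 2 := by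
  unfold H932R7.Aw H932R7.w2
  rw [Finset.sum_filter]
  refine Finset.sum_congr rfl fun i _ => ?_
  by_cases h : w i = 1
  · simp [h]
  · simp [h]

/-- Such classes have the expected dimension at generic points. -/
theorem one_exp {r d : ℕ} {w : Fin (r + 1) → ℕ} (h : OneLarge d w) {K : Type} [Field K]
    [CharZero K] {P : Fin (r + 1) → Fin 2 → K}
    (hP : AlgebraicIndependent ℚ (fun ij : Fin (r + 1) × Fin 2 => P ij.1 ij.2)) :
    ExpDim K w P d := by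
  obtain ⟨σ, M, v, m, k, hσ, hk, hkm, hv, h1, h2, h3⟩ := h
  refine Pool.Agent.X213.Eng4.exp_perm σ hP ?_
  have e1 : (fun i => w (σ i)) = (Fin.cons M v : Fin (r + 1) → ℕ) := funext hσ
  rw [e1]
  obtain ⟨F, hF, hF'⟩ := W609.one_big K (M := M) hk hkm hv.1 hv.2
  refine ⟨F, hF, fun Q hQ => hF' Q hQ d h1 h2 ?_⟩
  rcases h3 with h3 | h3 | h3
  · exact Or.inl h3
  · refine Or.inr (Or.inl ?_)
    rw [aw_w2]
    exact h3
  · exact Or.inr (Or.inr h3)

end Pool.Agent.X213.EngO
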