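import Mathlib
import Pool.Agent.TH648.ED.Win

set_option autoImplicit false

/-!
# The windows for arbitrary multiplicities
-/

namespace Pool.Agent.X213.EngW

open Finset Pool.Agent.H932R3

/-- One of five conditions:
* all `w i ≤ u + 1` and `12 ∑ |w i - u| + 6 #{i | w i < u} + 22 ≤ 7 √n` for some `u ≥ n / 2`, `n ≥ 37`;
* for a set `S` of at most eight points and a real `K ≥ 9 - |S|`, for all `k : ℕ` with
  `K k ≤ 3 d - ∑_S w i`: `K (3 d - ∑_S w i - K k) < (9 - |S|) ∑_{i ∉ S} max (w i - k) 0`;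
* for a set `T` of `N ≥ 10` points, `N (N / 2 + 2) ≤ ∑_T w i` and
  `√N (d + 11 / 6) + 9 / 8 < ∑_T w i + N / 2`;
* for a real `r ≥ 3` and all `k < max w i`: `∑ max (w i - k) 0 + r ^ 2 (k + 1) < r (d + 3)`;
* for an integer `N ≥ 10` and some `M` with `w i ≤ M` for all `i`,
  `∑ w i + N / 2 + √N / 3 + 1 / 8 < √N (d + 3 / 2)` and
  `#{i | w i = M} + N (M - 1 / 2) + √N / 3 + 1 / 8 < √N (d + 3 / 2)`. -/
def Window {n : ℕ} (d : ℕ) (w : Fin n → ℕ) : Prop :=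
  (∃ u : ℕ, 37 ≤ n ∧ n ≤ 2 * u ∧ (∀ i, w i ≤ u + 1) ∧
    12 * ∑ i, |(w i : ℝ) - u| + 6 * ((univ.filter fun i => w i < u).card : ℝ) + 22 ≤ 7 * √(n : ℝ)) ∨
  (∃ S : Finset (Fin n), S.card ≤ 8 ∧ ∃ K : ℝ, 9 - (S.card : ℝ) ≤ K ∧
    ∀ k : ℕ, K * k ≤ 3 * d - ((∑ i ∈ S, w i : ℕ) : ℝ) →
      K * (3 * d - ((∑ i ∈ S, w i : ℕ) : ℝ) - K * k) <
        (9 - (S.card : ℝ)) * ((∑ i ∈ univ \ S, (w i - k) : ℕ) : ℝ)) ∨
  (∃ T : Finset (Fin n), 10 ≤ T.card ∧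
    (T.card : ℝ) * ((T.card : ℝ) / 2 + 2) ≤ ∑ i ∈ T, (w i : ℝ) ∧
    √(T.card : ℝ) * (d + 11 / 6) + 9 / 8 < ∑ i ∈ T, (w i : ℝ) + (T.card : ℝ) / 2) ∨
  (∃ r : ℝ, 3 ≤ r ∧ ∀ k : ℕ, (∃ i, k < w i) →
    ((∑ i, (w i - k) : ℕ) : ℝ) + r ^ 2 * (k + 1) < r * (d + 3)) ∨
  ∃ N M : ℕ, 10 ≤ N ∧ (∀ i, w i ≤ M) ∧
    ∑ i, (w i : ℝ) + N / 2 + √(N : ℝ) / 3 + 1 / 8 < √(N : ℝ) * (d + 3 / 2) ∧
    ((univ.filter fun i => w i = M).card : ℝ) + N * ((M : ℝ) - 1 / 2) + √(N : ℝ) / 3 + 1 / 8 <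
      √(N : ℝ) * (d + 3 / 2)

/-- Such classes have the expected dimension at generic points. -/
theorem window_exp {n d : ℕ} {w : Fin n → ℕ} (h : Window d w) {K : Type} [Field K] [CharZero K]
    {P : Fin n → Fin 2 → K}
    (hP : AlgebraicIndependent ℚ (fun ij : Fin n × Fin 2 => P ij.1 ij.2)) : ExpDim K w P d := by
  obtain ⟨F, hF, hF'⟩ := Pool.Agent.TH648.ED.expDim_full w K
  have hFP : MvPolynomial.aeval (fun ij : Fin n × Fin 2 => P ij.1 ij.2) F ≠ 0 := by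
    intro h0
    rw [algebraicIndependent_iff] at hP
    exact hF (hP F h0)
  refine hF' P hFP d ?_
  rcases h with h | h | h | h | h
  · exact Or.inl h
  · exact Or.inr (Or.inl (Or.inl h))
  · exact Or.inr (Or.inl (Or.inr h))
  · exact Or.inr (Or.inr (Or.inl h))
  · exact Or.inr (Or.inr (Or.inr h))

end Pool.Agent.X213.EngW
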