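import Pool.Agent.TH144.MB.Tan

/-!
# Multihomogeneous semi-invariant forms on twisted products

A finite group `G` acts diagonally on the affine spaces `ℂ^(N i)`, `i ∈ ι`; `b ∈ ι` is the base. Base
forms separating orbits and tangent vectors in the base, together with positive degrees in the other
groups of variables, give multihomogeneous forms separating everything.
-/

set_option autoImplicit false

namespace Pool.Agent.X213.FujFib

open MvPolynomial Pool.Agent.TH144.MB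

variable {G : Type} [Group G] {ι : Type} [DecidableEq ι] {N : ι → ℕ}

/-- the inclusion of the base variables -/
def inb {ι : Type} (N : ι → ℕ) (b : ι) (j : Fin (N b)) : Σ i, Fin (N i) := ⟨b, j⟩

theorem inb_injective {ι : Type} (N : ι → ℕ) (b : ι) : Function.Injective (inb N b) := by
  intro j j' h
  simpa [inb] using h

/-- multihomogeneous of multidegree `e`, semi-invariant with character `χ` -/
def MS (α : ∀ i, Fin (N i) → G →* ℂˣ) (e : ι → ℕ) (χ : G →* ℂˣ)
    (F : MvPolynomial (Σ i, Fin (N i)) ℂ) : Prop :=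
  (∀ i, IsWeightedHomogeneous (fun s : Σ i, Fin (N i) => if s.1 = i then (1 : ℕ) else 0) F (e i)) ∧
    ∀ (g : G) (x : ∀ i, Fin (N i) → ℂ),
      eval (fun s => (α s.1 s.2 g : ℂ) * x s.1 s.2) F = χ g * eval (fun s => x s.1 s.2) F

variable {α : ∀ i, Fin (N i) → G →* ℂˣ}

theorem MS.mul {e e' : ι → ℕ} {χ χ' : G →* ℂˣ} {F F' : MvPolynomial (Σ i, Fin (N i)) ℂ}
    (h : MS α e χ F) (h' : MS α e' χ' F') : MS α (fun i => e i + e' i) (χ * χ') (F * F') := by
  refine ⟨fun i => (h.1 i).mul (h'.1 i), fun g x => ?_⟩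
  rw [map_mul, map_mul, h.2, h'.2, MonoidHom.mul_apply, Units.val_mul]
  ring

theorem MS.sub {e : ι → ℕ} {χ : G →* ℂˣ} {F F' : MvPolynomial (Σ i, Fin (N i)) ℂ}
    (h : MS α e χ F) (h' : MS α e χ F') : MS α e χ (F - F') := by
  refine ⟨fun i => ?_, fun g x => by rw [map_sub, map_sub, h.2, h'.2, mul_sub]⟩
  have h1 := (weightedHomogeneousSubmodule ℂ
    (fun s : Σ i, Fin (N i) => if s.1 = i then (1 : ℕ) else 0) (e i)).sub_mem (h.1 i) (h'.1 i)
  exact h1

theorem MS.C_mul {e : ι → ℕ} {χ : G →* ℂˣ} {F : MvPolynomial (Σ i, Fin (N i)) ℂ}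
    (h : MS α e χ F) (c : ℂ) : MS α e χ (C c * F) := by
  refine ⟨fun i => ?_, fun g x => by rw [map_mul, map_mul, h.2, eval_C, eval_C]; ring⟩
  have h1 := (isWeightedHomogeneous_C
    (fun s : Σ i, Fin (N i) => if s.1 = i then (1 : ℕ) else 0) c).mul (h.1 i)
  rwa [zero_add] at h1

theorem MS.X (s : Σ i, Fin (N i)) :
    MS α (fun i => if s.1 = i then 1 else 0) (α s.1 s.2) (X s) := by
  refine ⟨fun i => isWeightedHomogeneous_X _ _ _, fun g x => ?_⟩
  rw [eval_X, eval_X]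

theorem MS.cast {e e' : ι → ℕ} {χ χ' : G →* ℂˣ} {F : MvPolynomial (Σ i, Fin (N i)) ℂ}
    (h : MS α e χ F) (he : ∀ i, e i = e' i) (hχ : ∀ g, (χ g : ℂ) = χ' g) : MS α e' χ' F :=
  ⟨fun i => by rw [← he i]; exact h.1 i, fun g x => by rw [← hχ g]; exact h.2 g x⟩

/-- a form in the base variables -/
theorem MS.base {b : ι} {χ : G →* ℂˣ} {t : ℕ} {P : MvPolynomial (Fin (N b)) ℂ}
    (h : Typ (α b) χ t P) : MS α (fun i => if b = i then t else 0) χ
      (rename (inb N b) P) := by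
  refine ⟨fun i m hm => ?_, fun g x => ?_⟩
  · obtain ⟨u, rfl, hu⟩ := coeff_rename_ne_zero _ _ _ hm
    have h1 := h.1 hu
    rw [Finsupp.weight_apply, Finsupp.sum_mapDomain_index (by simp)
      (fun _ _ _ => by rw [add_smul])]
    by_cases hb : b = i
    · subst hb
      rw [Finsupp.weight_apply] at h1
      simpa [inb] using h1
    · simp [inb, hb]
  · rw [eval_rename, eval_rename]
    exact h.2 g (x b)

variable [Fintype ι]

/-- a monomial in the fibre variables -/
noncomputable def fm (b : ι) (j : ∀ i, Fin (N i)) (e : ι → ℕ) :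
    MvPolynomial (Σ i, Fin (N i)) ℂ :=
  ∏ i ∈ Finset.univ.erase b, X ⟨i, j i⟩ ^ e i

/-- its character -/
noncomputable def fc (α : ∀ i, Fin (N i) → G →* ℂˣ) (b : ι) (j : ∀ i, Fin (N i)) (e : ι → ℕ) :
    G →* ℂˣ :=
  ∏ i ∈ Finset.univ.erase b, α i (j i) ^ e i

omit [Fintype ι] in
theorem eval_fm [Fintype ι] (b : ι) (j : ∀ i, Fin (N i)) (e : ι → ℕ) (x : ∀ i, Fin (N i) → ℂ) :
    eval (fun s => x s.1 s.2) (fm b j e) = ∏ i ∈ Finset.univ.erase b, x i (j i) ^ e i := by
  unfold fm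
  rw [map_prod]
  refine Finset.prod_congr rfl fun i _ => ?_
  rw [map_pow, eval_X]

theorem eval_fm_ne {b : ι} {j : ∀ i, Fin (N i)} {e : ι → ℕ} {x : ∀ i, Fin (N i) → ℂ}
    (h : ∀ i, x i (j i) ≠ 0) : eval (fun s => x s.1 s.2) (fm b j e) ≠ 0 := by
  rw [eval_fm, Finset.prod_ne_zero_iff]
  exact fun i _ => pow_ne_zero _ (h i)

theorem MS.fm (b : ι) (j : ∀ i, Fin (N i)) (e : ι → ℕ) :
    MS α (fun i => if b = i then 0 else e i) (fc α b j e) (fm b j e) := by
  refine ⟨fun i => ?_, fun g x => ?_⟩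
  · have h1 := IsWeightedHomogeneous.prod (R := ℂ) (Finset.univ.erase b)
      (fun l => (MvPolynomial.X ⟨l, j l⟩ : MvPolynomial (Σ i, Fin (N i)) ℂ) ^ e l)
      (fun l => e l • (if l = i then (1 : ℕ) else 0))
      (w := fun s : Σ i, Fin (N i) => if s.1 = i then (1 : ℕ) else 0)
      (fun l _ => (isWeightedHomogeneous_X ℂ _ _).pow (e l))
    have h2 : ∑ l ∈ Finset.univ.erase b, e l • (if l = i then (1 : ℕ) else 0) =
        if b = i then 0 else e i := by
      split_ifs with hb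
      · subst hb
        refine Finset.sum_eq_zero fun l hl => ?_
        rw [if_neg (Finset.ne_of_mem_erase hl), smul_zero]
      · rw [Finset.sum_eq_single i]
        · simp
        · intro l _ hl
          rw [if_neg hl, smul_zero]
        · intro h
          exact absurd (Finset.mem_erase.2 ⟨Ne.symm hb, Finset.mem_univ i⟩) h
    rw [h2] at h1
    exact h1
  · rw [eval_fm (x := fun i j => (α i j g : ℂ) * x i j), eval_fm, fc,
      MonoidHom.finsetProd_apply, Units.coe_prod, ← Finset.prod_mul_distrib]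
    refine Finset.prod_congr rfl fun i _ => ?_
    rw [mul_pow, MonoidHom.pow_apply, Units.val_pow_eq_pow_val]

/-- the form `P * M`, `P` a base form, `M` a fibre monomial -/
theorem MS.pm {b : ι} (e : ι → ℕ) (j : ∀ i, Fin (N i)) {χ : G →* ℂˣ}
    {P : MvPolynomial (Fin (N b)) ℂ} (h : Typ (α b) (χ * (fc α b j e)⁻¹) (e b) P) :
    MS α e χ (rename (inb N b) P * FujFib.fm b j e) := by
  refine ((MS.base h).mul (MS.fm b j e)).cast (fun i => ?_) (fun g => ?_)
  · by_cases hb : b = i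
    · subst hb; simp
    · simp [hb]
  · rw [MonoidHom.mul_apply, MonoidHom.mul_apply, MonoidHom.inv_apply, inv_mul_cancel_right]

/-- the form `P * (M * x)`, `x` a fibre variable in the group `i` -/
theorem MS.pmx {b i : ι} (hi : i ≠ b) (e : ι → ℕ) (he : 1 ≤ e i) (j : ∀ i, Fin (N i))
    (k : Fin (N i)) {χ : G →* ℂˣ} {P : MvPolynomial (Fin (N b)) ℂ}
    (h : Typ (α b) (χ * (fc α b j (Function.update e i (e i - 1)))⁻¹ * (α i k)⁻¹) (e b) P) :
    MS α e χ (rename (inb N b) P *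
      FujFib.fm b j (Function.update e i (e i - 1)) * MvPolynomial.X ⟨i, k⟩) := by
  refine (((MS.base h).mul (MS.fm b j _)).mul (MS.X ⟨i, k⟩)).cast (fun l => ?_) (fun g => ?_)
  · by_cases hb : b = l
    · subst hb
      simp [hi]
    · by_cases hl : i = l
      · subst hl
        simp [hb]
        omega
      · simp [hb, hl, Function.update_of_ne (Ne.symm hl)]
  · simp only [MonoidHom.mul_apply, MonoidHom.inv_apply]
    congr 1
    rw [mul_assoc (_ * _ * _), mul_comm (fc α b j _ g), ← mul_assoc, inv_mul_cancel_right,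
      inv_mul_cancel_right]

/-- the two term form attached to two fibre variables in the group `i`, vanishing at `y` -/
theorem two {b i : ι} (hi : i ≠ b) {e : ι → ℕ} (he : 1 ≤ e i) (j : ∀ i, Fin (N i))
    (χ : G →* ℂˣ) {y : Fin (N b) → ℂ}
    (B0 : ∀ χ : G →* ℂˣ, ∃ P, Typ (α b) χ (e b) P ∧ eval y P ≠ 0)
    (v : Fin (N i) → ℂ) (k l : Fin (N i)) :
    ∃ P Q : MvPolynomial (Fin (N b)) ℂ, P.IsHomogeneous (e b) ∧ Q.IsHomogeneous (e b) ∧
      eval y P = 1 ∧ eval y Q = 1 ∧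
      MS α e χ (C (v l) * (rename (inb N b) P *
          fm b j (Function.update e i (e i - 1)) * X ⟨i, k⟩) -
        C (v k) * (rename (inb N b) Q *
          fm b j (Function.update e i (e i - 1)) * X ⟨i, l⟩)) := by
  obtain ⟨P, hP, hP0⟩ := B0 (χ * (fc α b j (Function.update e i (e i - 1)))⁻¹ * (α i k)⁻¹)
  obtain ⟨Q, hQ, hQ0⟩ := B0 (χ * (fc α b j (Function.update e i (e i - 1)))⁻¹ * (α i l)⁻¹)
  have hP1 := hP.C_mul (eval y P)⁻¹
  have hQ1 := hQ.C_mul (eval y Q)⁻¹
  refine ⟨C (eval y P)⁻¹ * P, C (eval y Q)⁻¹ * Q, hP1.1, hQ1.1, ?_, ?_, ?_⟩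
  · rw [map_mul, eval_C, inv_mul_cancel₀ hP0]
  · rw [map_mul, eval_C, inv_mul_cancel₀ hQ0]
  · exact ((MS.pmx hi e he j k hP1).C_mul _).sub ((MS.pmx hi e he j l hQ1).C_mul _)

theorem base_free {b : ι} {e : ι → ℕ} (χ : G →* ℂˣ) {y : ∀ i, Fin (N i) → ℂ}
    (hy : ∀ i, y i ≠ 0)
    (B0 : ∀ χ : G →* ℂˣ, ∃ P, Typ (α b) χ (e b) P ∧ eval (y b) P ≠ 0) :
    ∃ F, MS α e χ F ∧ eval (fun s => y s.1 s.2) F ≠ 0 := by
  have hj : ∀ i, ∃ j, y i j ≠ 0 := by
    intro i
    by_contra hc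
    push Not at hc
    exact hy i (funext hc)
  choose j hj using hj
  obtain ⟨P, hP, hP0⟩ := B0 (χ * (fc α b j e)⁻¹)
  refine ⟨_, MS.pm e j hP, ?_⟩
  rw [map_mul, eval_rename]
  exact mul_ne_zero hP0 (eval_fm_ne hj)

omit [Fintype ι] [DecidableEq ι] in
theorem exists_pair {n : ℕ} {y z : Fin n → ℂ} (hy : y ≠ 0) (h : ¬ ∃ c : ℂ, ∀ j, z j = c * y j) :
    ∃ k l, y l * z k - y k * z l ≠ 0 := by
  obtain ⟨l, hl⟩ : ∃ l, y l ≠ 0 := by
    by_contra hc
    push Not at hc
    exact hy (funext hc)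
  by_contra hc
  push Not at hc
  refine h ⟨z l / y l, fun k => ?_⟩
  have h1 := hc k l
  field_simp
  linear_combination h1

omit [Fintype ι] [DecidableEq ι] in
theorem eval_smul_hom {n t : ℕ} {P : MvPolynomial (Fin n) ℂ} (hP : P.IsHomogeneous t) (c : ℂ)
    (y : Fin n → ℂ) : eval (fun j => c * y j) P = c ^ t * eval y P :=
  Pool.Agent.TH144.MB.eval_smul' hP c y

theorem points {b : ι} {e : ι → ℕ} (he : ∀ i, i ≠ b → 1 ≤ e i) (χ : G →* ℂˣ)
    {y z : ∀ i, Fin (N i) → ℂ} (hy : ∀ i, y i ≠ 0) (hz : ∀ i, z i ≠ 0)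
    (B0 : ∀ (g : G) (χ : G →* ℂˣ), ∃ P, Typ (α b) χ (e b) P ∧ eval (mv (α b) g (y b)) P ≠ 0)
    (B1 : (¬ ∃ (g : G) (c : ℂ), ∀ j, z b j = c * (α b j g * y b j)) → ∀ χ : G →* ℂˣ,
      ∃ P, Typ (α b) χ (e b) P ∧ eval (y b) P = 0 ∧ eval (z b) P ≠ 0)
    (hne : ¬ ∃ g : G, ∀ i, ∃ c : ℂ, ∀ j, z i j = c * (α i j g * y i j)) :
    ∃ F, MS α e χ F ∧ eval (fun s => y s.1 s.2) F = 0 ∧ eval (fun s => z s.1 s.2) F ≠ 0 := by
  have hj : ∀ i, ∃ j, z i j ≠ 0 := by
    intro i
    by_contra hc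
    push Not at hc
    exact hz i (funext hc)
  choose j hj using hj
  by_cases hc : ∃ (g : G) (c : ℂ), ∀ j, z b j = c * (α b j g * y b j)
  · obtain ⟨g, c, hgc⟩ := hc
    have hc0 : c ≠ 0 := by
      rintro rfl
      exact hz b (funext fun j => by rw [hgc j, zero_mul]; rfl)
    push Not at hne
    obtain ⟨i, hi⟩ := hne g
    have hib : i ≠ b := by
      rintro rfl
      obtain ⟨j, hj⟩ := hi c
      exact hj (hgc j)
    obtain ⟨k, l, hkl⟩ := exists_pair (y := mv (α i) g (y i)) (z := z i)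
      (by
        intro h
        apply hy i
        funext j
        exact (mv_supp (α i) g (y i) j).1 (congrFun h j))
      (by
        rintro ⟨c, hc⟩
        obtain ⟨j, hj⟩ := hi c
        exact hj (hc j))
    obtain ⟨P, Q, hP, hQ, hP1, hQ1, hF⟩ := two (α := α) hib (he i hib) j χ (B0 g)
      (mv (α i) g (y i)) k l
    refine ⟨_, hF, ?_, ?_⟩
    · -- vanishing at `y` follows from vanishing at `g y`
      have h1 := hF.2 g y
      have h2 : (χ g : ℂ) ≠ 0 := Units.ne_zero _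
      refine (mul_eq_zero.1 (h1.symm.trans ?_)).resolve_left h2
      have h3 : ∀ R : MvPolynomial (Fin (N b)) ℂ,
          eval (fun s : Σ i, Fin (N i) => (α s.1 s.2 g : ℂ) * y s.1 s.2)
            (rename (inb N b) R) = eval (mv (α b) g (y b)) R :=
        fun R => by rw [eval_rename]; rfl
      rw [map_sub, map_mul, map_mul, map_mul, map_mul, map_mul, map_mul, eval_C, eval_C, h3, h3,
        hP1, hQ1, eval_X, eval_X]
      simp only [mv]
      ring
    · have h3 : ∀ R : MvPolynomial (Fin (N b)) ℂ, R.IsHomogeneous (e b) →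
          eval (fun s : Σ i, Fin (N i) => z s.1 s.2)
            (rename (inb N b) R) =
            c ^ e b * eval (mv (α b) g (y b)) R := by
        intro R hR
        rw [eval_rename, ← eval_smul_hom hR]
        congr 1
        congr 1
        funext j
        exact hgc j
      rw [map_sub, map_mul, map_mul, map_mul, map_mul, map_mul, map_mul, eval_C, eval_C, h3 P hP,
        h3 Q hQ, hP1, hQ1, eval_X, eval_X]
      have h4 := eval_fm_ne (b := b) (e := Function.update e i (e i - 1)) hj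
      have h5 : mv (α i) g (y i) l * (c ^ e b * 1 * eval (fun s => z s.1 s.2)
            (fm b j (Function.update e i (e i - 1))) * z i k) -
          mv (α i) g (y i) k * (c ^ e b * 1 * eval (fun s => z s.1 s.2)
            (fm b j (Function.update e i (e i - 1))) * z i l) =
          (c ^ e b * eval (fun s => z s.1 s.2) (fm b j (Function.update e i (e i - 1)))) *
            (mv (α i) g (y i) l * z i k - mv (α i) g (y i) k * z i l) := by ring
      rw [h5]
      exact mul_ne_zero (mul_ne_zero (pow_ne_zero _ hc0) h4) hkl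
  · obtain ⟨P, hP, hP0, hP1⟩ := B1 hc (χ * (fc α b j e)⁻¹)
    refine ⟨_, MS.pm e j hP, ?_, ?_⟩
    · rw [map_mul, eval_rename]
      have h1 : eval ((fun s : Σ i, Fin (N i) => y s.1 s.2) ∘ inb N b) P = eval (y b) P := rfl
      rw [h1, hP0, zero_mul]
    · rw [map_mul, eval_rename]
      exact mul_ne_zero hP1 (eval_fm_ne hj)

/-- the derivative at `y` in the direction `u` -/
noncomputable def D (y u : ∀ i, Fin (N i) → ℂ) (F : MvPolynomial (Σ i, Fin (N i)) ℂ) : ℂ :=
  ∑ s, eval (fun s => y s.1 s.2) (pderiv s F) * u s.1 s.2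

omit [DecidableEq ι] in
theorem D_mul (y u : ∀ i, Fin (N i) → ℂ) (F F' : MvPolynomial (Σ i, Fin (N i)) ℂ) :
    D y u (F * F') = D y u F * eval (fun s => y s.1 s.2) F' +
      eval (fun s => y s.1 s.2) F * D y u F' := by
  unfold D
  rw [Finset.sum_mul, Finset.mul_sum, ← Finset.sum_add_distrib]
  refine Finset.sum_congr rfl fun s _ => ?_
  rw [pderiv_mul, map_add, map_mul, map_mul]
  ring

omit [DecidableEq ι] in
theorem D_sub (y u : ∀ i, Fin (N i) → ℂ) (F F' : MvPolynomial (Σ i, Fin (N i)) ℂ) :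
    D y u (F - F') = D y u F - D y u F' := by
  unfold D
  rw [← Finset.sum_sub_distrib]
  refine Finset.sum_congr rfl fun s _ => ?_
  rw [map_sub, map_sub, sub_mul]

omit [DecidableEq ι] in
theorem D_C_mul (y u : ∀ i, Fin (N i) → ℂ) (c : ℂ) (F : MvPolynomial (Σ i, Fin (N i)) ℂ) :
    D y u (C c * F) = c * D y u F := by
  unfold D
  rw [Finset.mul_sum]
  refine Finset.sum_congr rfl fun s _ => ?_
  rw [pderiv_C_mul, map_mul, eval_C]
  ring

omit [DecidableEq ι] in
theorem D_X (y u : ∀ i, Fin (N i) → ℂ) (s : Σ i, Fin (N i)) :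
    D y u (X s) = u s.1 s.2 := by
  classical
  unfold D
  rw [Finset.sum_eq_single s]
  · rw [pderiv_X_self, map_one, one_mul]
  · intro t _ ht
    rw [pderiv_X_of_ne (Ne.symm ht), map_zero, zero_mul]
  · intro h; exact absurd (Finset.mem_univ s) h

theorem D_rename (y u : ∀ i, Fin (N i) → ℂ) {b : ι} (P : MvPolynomial (Fin (N b)) ℂ) :
    D y u (rename (inb N b) P) = dv P (y b) (u b) := by
  unfold D dv
  rw [Fintype.sum_sigma, Finset.sum_eq_single b]
  · refine Finset.sum_congr rfl fun j _ => ?_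
    have h1 : (⟨b, j⟩ : Σ i, Fin (N i)) = inb N b j := rfl
    rw [h1, pderiv_rename (inb_injective N b), eval_rename]
    rfl
  · intro i _ hi
    refine Finset.sum_eq_zero fun j _ => ?_
    rw [pderiv_eq_zero_of_notMem_vars, map_zero, zero_mul]
    intro h
    classical
    have h1 := vars_rename (inb N b) P h
    rw [Finset.mem_image] at h1
    obtain ⟨l, _, hl⟩ := h1
    exact hi (congrArg Sigma.fst hl).symm
  · intro h; exact absurd (Finset.mem_univ b) h

omit [Fintype ι] [DecidableEq ι] in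
theorem dv_euler {n t : ℕ} {P : MvPolynomial (Fin n) ℂ} (hP : P.IsHomogeneous t)
    {y u : Fin n → ℂ} {c : ℂ} (hu : ∀ j, u j = c * y j) : dv P y u = c * t * eval y P := by
  have h1 := congrArg (eval y) hP.sum_X_mul_pderiv
  rw [map_sum, map_nsmul, nsmul_eq_mul] at h1
  rw [mul_assoc, ← h1, Finset.mul_sum]
  unfold dv
  refine Finset.sum_congr rfl fun j _ => ?_
  rw [hu j, map_mul, eval_X]
  ring

theorem tangents {b : ι} {e : ι → ℕ} (he : ∀ i, i ≠ b → 1 ≤ e i) (χ : G →* ℂˣ)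
    {y u : ∀ i, Fin (N i) → ℂ} (hy : ∀ i, y i ≠ 0)
    (B0 : ∀ χ : G →* ℂˣ, ∃ P, Typ (α b) χ (e b) P ∧ eval (y b) P ≠ 0)
    (B1 : (¬ ∃ c : ℂ, ∀ j, u b j = c * y b j) → ∀ χ : G →* ℂˣ,
      ∃ P, Typ (α b) χ (e b) P ∧ eval (y b) P = 0 ∧ dv P (y b) (u b) ≠ 0)
    (hne : ¬ ∀ i, ∃ c : ℂ, ∀ j, u i j = c * y i j) :
    ∃ F, MS α e χ F ∧ eval (fun s => y s.1 s.2) F = 0 ∧ D y u F ≠ 0 := by
  have hj : ∀ i, ∃ j, y i j ≠ 0 := by
    intro i
    by_contra hc
    push Not at hc
    exact hy i (funext hc)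
  choose j hj using hj
  by_cases hc : ∃ c : ℂ, ∀ j, u b j = c * y b j
  · obtain ⟨c, hc⟩ := hc
    push Not at hne
    obtain ⟨i, hi⟩ := hne
    have hib : i ≠ b := by
      rintro rfl
      obtain ⟨j, hj⟩ := hi c
      exact hj (hc j)
    obtain ⟨k, l, hkl⟩ := exists_pair (y := y i) (z := u i) (hy i) (by
      rintro ⟨c, hc⟩
      obtain ⟨j, hj⟩ := hi c
      exact hj (hc j))
    obtain ⟨P, Q, hP, hQ, hP1, hQ1, hF⟩ := two (α := α) hib (he i hib) j χ B0 (y i) k l
    have h3 : ∀ R : MvPolynomial (Fin (N b)) ℂ,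
        eval (fun s : Σ i, Fin (N i) => y s.1 s.2)
          (rename (inb N b) R) = eval (y b) R :=
      fun R => by rw [eval_rename]; rfl
    refine ⟨_, hF, ?_, ?_⟩
    · rw [map_sub, map_mul, map_mul, map_mul, map_mul, map_mul, map_mul, eval_C, eval_C, h3, h3,
        hP1, hQ1, eval_X, eval_X]
      ring
    · have h4 := eval_fm_ne (b := b) (e := Function.update e i (e i - 1)) hj
      rw [D_sub, D_C_mul, D_C_mul, D_mul, D_mul, D_mul, D_mul, D_rename, D_rename, D_X, D_X,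
        dv_euler hP hc, dv_euler hQ hc, map_mul, map_mul, h3, h3, hP1, hQ1, eval_X, eval_X]
      convert mul_ne_zero h4 hkl using 1
      ring
  · obtain ⟨P, hP, hP0, hP1⟩ := B1 hc (χ * (fc α b j e)⁻¹)
    have h3 : eval (fun s : Σ i, Fin (N i) => y s.1 s.2)
          (rename (inb N b) P) = eval (y b) P := by
      rw [eval_rename]; rfl
    refine ⟨_, MS.pm e j hP, ?_, ?_⟩
    · rw [map_mul, h3, hP0, zero_mul]
    · rw [D_mul, D_rename, h3, hP0, zero_mul, add_zero]
      exact mul_ne_zero hP1 (eval_fm_ne hj)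

end Pool.Agent.X213.FujFib
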