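import Pool.Agent.TH144.MB.Sep

/-!
# Semi-invariant monomials on products of cones

A finite group `G` acts diagonally on the cones `V i` over projective varieties `Y i`, `i ∈ ι`, and
freely on the product of the `Y i` (the actions on the single factors need not be free). If
`TopBound (I i) (ρ i)` for all `i` then for all `t i ≥ ρ i`, every character of `G` occurs among the
multihomogeneous monomials of multidegree `t` which do not vanish at a given point of the product.
-/

set_option autoImplicit false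

namespace Pool.Agent.X213.FujProd

open MvPolynomial Module Pool.Agent.TH144.MB

variable {K : Type} [Field K] {G : Type} [Group G]

/-- a homogeneous ideal, characters, and a stable cone -/
structure Fac (K : Type) [Field K] (G : Type) [Group G] (n : ℕ) where
  I : Ideal (MvPolynomial (Fin n) K)
  hom : Hom I
  α : Fin n → G →* Kˣ
  stable : ∀ v : Fin n → K, (∀ p ∈ I, eval v p = 0) → ∀ (g : G), ∀ p ∈ I, eval (mv α g v) p = 0

variable [Fintype G]

/-- descent of the degree at a point `w` of minimal support -/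
theorem Fac.descend {n : ℕ} (S : Fac K G n) [CharZero K] {ρ : ℕ} (hρ : TopBound S.I ρ)
    {w : Fin n → K} (hw : ∀ p ∈ S.I, eval w p = 0)
    (hmin : ∀ v : Fin n → K, (∀ p ∈ S.I, eval v p = 0) → (∀ i, w i = 0 → v i = 0) →
      (∃ i, w i ≠ 0 ∧ v i = 0) → v = 0)
    (χ : G →* Kˣ) {t : ℕ} (ht : ρ ≤ t) {i0 : Fin n} (hi0 : w i0 ≠ 0)
    (h : ∃ m : Fin n →₀ ℕ, m.degree = t + 1 ∧ chr S.α m = χ * S.α i0 ∧ mon m w ≠ 0) :
    ∃ m : Fin n →₀ ℕ, m.degree = t ∧ chr S.α m = χ ∧ mon m w ≠ 0 := by
  classical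
  obtain ⟨m, hm, hmc, hmw⟩ := h
  let L : Fin n → Fin n → K := fun i => if w i = 0 then Pi.single i 1 else Pi.single i0 1
  have hlin : ∀ i : Fin n, lin (Pi.single i 1) = (X i : MvPolynomial (Fin n) K) := by
    intro i
    unfold lin
    rw [Finset.sum_eq_single i]
    · simp
    · intro j _ hj
      rw [Pi.single_eq_of_ne hj, map_zero, zero_mul]
    · intro h; exact absurd (Finset.mem_univ i) h
  have hv : ∀ v : Fin n → K, (∀ p ∈ S.I, eval v p = 0) → (∀ i, eval v (lin (L i)) = 0) →
      v = 0 := by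
    intro v hv1 hv2
    refine hmin v hv1 (fun i hi => ?_) ⟨i0, hi0, ?_⟩
    · have := hv2 i
      simp only [L, if_pos hi, hlin, eval_X] at this
      exact this
    · have := hv2 i0
      simp only [L, if_neg hi0, hlin, eval_X] at this
      exact this
  have hmh : (monomial m (1 : K)).IsHomogeneous (1 + t) :=
    isHomogeneous_monomial _ (by rw [hm, add_comm])
  have h1 := hρ n L hv (1 + t) (by omega) _ hmh
  set I : Ideal (MvPolynomial (Fin n) K) := S.I ⊔ Ideal.span (X '' {i | w i = 0}) with hI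
  have hIhom : Hom I := by
    have h2 : ∀ s : Finset (Fin n), Hom (S.I ⊔ Ideal.span (X '' (s : Set (Fin n)))) := by
      intro s
      induction s using Finset.induction_on with
      | empty =>
        rw [Finset.coe_empty, Set.image_empty, Ideal.span_empty, sup_bot_eq]
        exact S.hom
      | insert i s _ ih =>
        have h3 := hom_sup ih (isHomogeneous_X K i)
        rwa [sup_assoc, ← Ideal.span_union, ← Set.image_singleton, ← Set.image_union,
          Set.union_singleton, ← Finset.coe_insert] at h3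
    have h4 := h2 (Finset.univ.filter fun i => w i = 0)
    rwa [Finset.coe_filter, show {i | i ∈ Finset.univ ∧ w i = 0} = {i | w i = 0} by simp] at h4
  have hIev : ∀ p ∈ I, ∀ g, eval (mv S.α g w) p = 0 := by
    intro p hp g
    have h2 : I ≤ RingHom.ker (eval (mv S.α g w)) := by
      rw [hI]
      refine sup_le (fun p hp => RingHom.mem_ker.2 (S.stable w hw g p hp)) ?_
      rw [Ideal.span_le]
      rintro _ ⟨i, hi, rfl⟩
      have hi' : w i = 0 := hi
      refine RingHom.mem_ker.2 ?_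
      simp [mv, hi']
    exact RingHom.mem_ker.1 (h2 hp)
  have h3 : S.I ⊔ Ideal.span (Set.range fun i => lin (L i)) ≤ I ⊔ Ideal.span {X i0} := by
    refine sup_le (le_sup_left.trans le_sup_left) ?_
    rw [Ideal.span_le]
    rintro _ ⟨i, rfl⟩
    by_cases hi : w i = 0
    · simp only [L, if_pos hi, hlin]
      exact Ideal.mem_sup_left (Ideal.mem_sup_right (Ideal.subset_span ⟨i, hi, rfl⟩))
    · simp only [L, if_neg hi, hlin]
      exact Ideal.mem_sup_right (Ideal.mem_span_singleton_self _)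
  obtain ⟨q, hq, hmq⟩ := mem_sup_hom hIhom (isHomogeneous_X K i0) hmh (h3 h1)
  have h4 : Lam S.α (χ * S.α i0) w (monomial m 1) = w i0 * Lam S.α χ w q := by
    unfold Lam
    rw [Finset.mul_sum]
    refine Finset.sum_congr rfl fun g _ => ?_
    have h5 := hIev _ hmq g
    rw [map_sub, sub_eq_zero, map_mul, eval_X] at h5
    rw [h5, MonoidHom.mul_apply, mul_inv, Units.val_mul]
    simp only [mv]
    have h6 : (((S.α i0 g)⁻¹ : Kˣ) : K) * (S.α i0 g : K) = 1 := Units.inv_mul _
    linear_combination ((((χ g)⁻¹ : Kˣ) : K) * (w i0 * eval (mv S.α g w) q)) * h6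
  have h5 : Lam S.α (χ * S.α i0) w (monomial m 1) ≠ 0 := by
    rw [Lam_eq, support_monomial, if_neg one_ne_zero, Finset.sum_singleton, if_pos hmc,
      coeff_monomial, if_pos rfl, one_mul]
    exact mul_ne_zero (Nat.cast_ne_zero.2 Fintype.card_ne_zero) hmw
  have h6 : Lam S.α χ w q ≠ 0 := by
    intro h
    rw [h4, h, mul_zero] at h5
    exact h5 rfl
  obtain ⟨m', hm', hm1, hm2⟩ := exists_mon S.α χ w q h6
  refine ⟨m', ?_, hm1, hm2⟩
  by_contra h
  exact (MvPolynomial.mem_support_iff.1 hm') (hq.coeff_eq_zero h)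

variable {ι : Type} [Fintype ι] [DecidableEq ι] {N : ι → ℕ} (S : ∀ i, Fac K G (N i))

/-- the character `χ` occurs among the monomials of multidegree `t` which do not vanish at `w` -/
def Occ (w : ∀ i, Fin (N i) → K) (t : ι → ℕ) (χ : G →* Kˣ) : Prop :=
  ∃ m : ∀ i, Fin (N i) →₀ ℕ, (∀ i, (m i).degree = t i) ∧
    ∏ i, chr (S i).α (m i) = χ ∧ ∀ i, mon (m i) (w i) ≠ 0

omit [Fintype G] [Fintype ι] [DecidableEq ι] in
theorem exists_sep {w : ∀ i, Fin (N i) → K} (hw0 : ∀ i, w i ≠ 0) {g : G}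
    (hg : ¬ ∀ i, ∃ μ : K, ∀ j, ((S i).α j g : K) * w i j = μ * w i j) :
    ∃ (L : ∀ i, MvPolynomial (Fin (N i)) K) (a : ι → ℕ),
      (∀ i, (L i).IsHomogeneous (a i) ∧ a i ≤ 1 ∧ eval (w i) (L i) ≠ 0) ∧
      ∃ i, eval (mv (S i).α g (w i)) (L i) = 0 := by
  classical
  push Not at hg
  obtain ⟨i, hi⟩ := hg
  obtain ⟨j0, hj0⟩ : ∃ j, w i j ≠ 0 := by
    by_contra hc
    push Not at hc
    exact hw0 i (funext hc)
  obtain ⟨k, hk⟩ := hi ((S i).α j0 g : K)
  have hk0 : w i k ≠ 0 := fun h => hk (by rw [h, mul_zero, mul_zero])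
  have hk1 : ((S i).α k g : K) ≠ (S i).α j0 g := fun h => hk (by rw [h])
  let L0 : MvPolynomial (Fin (N i)) K :=
    C (((S i).α j0 g : K) * w i j0) * X k - C (((S i).α k g : K) * w i k) * X j0
  have hL0 : L0.IsHomogeneous 1 := (isHomogeneous_C_mul_X _ _).sub (isHomogeneous_C_mul_X _ _)
  have hL1 : eval (w i) L0 ≠ 0 := by
    simp only [L0, map_sub, map_mul, eval_C, eval_X]
    have h1 : ((S i).α j0 g : K) * w i j0 * w i k - ((S i).α k g : K) * w i k * w i j0
        = (((S i).α j0 g : K) - (S i).α k g) * (w i j0 * w i k) := by ring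
    rw [h1]
    exact mul_ne_zero (sub_ne_zero.2 (Ne.symm hk1)) (mul_ne_zero hj0 hk0)
  have hL2 : eval (mv (S i).α g (w i)) L0 = 0 := by
    simp only [L0, map_sub, map_mul, eval_C, eval_X, mv]
    ring
  refine ⟨Function.update (fun i => 1) i L0, Function.update (fun _ => 0) i 1, fun l => ?_,
    i, ?_⟩
  · by_cases hl : l = i
    · subst hl
      rw [Function.update_self, Function.update_self]
      exact ⟨hL0, le_rfl, hL1⟩
    · rw [Function.update_of_ne hl, Function.update_of_ne hl]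
      refine ⟨isHomogeneous_one _ _, Nat.zero_le _, ?_⟩
      rw [map_one]
      exact one_ne_zero
  · rw [Function.update_self]
    exact hL2

/-- all characters occur in large multidegrees -/
theorem large [DecidableEq G] {w : ∀ i, Fin (N i) → K} (hw0 : ∀ i, w i ≠ 0)
    (hfree : ∀ g : G, (∀ i, ∃ μ : K, ∀ j, ((S i).α j g : K) * w i j = μ * w i j) → g = 1)
    (χ : G →* Kˣ) {t : ι → ℕ} (ht : ∀ i, Fintype.card G ≤ t i) : Occ S w t χ := by
  classical
  have hj : ∀ i, ∃ j, w i j ≠ 0 := by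
    intro i
    by_contra hc
    push Not at hc
    exact hw0 i (funext hc)
  choose j0 hj0 using hj
  have hsep : ∀ g : G, g ≠ 1 → ∃ (L : ∀ i, MvPolynomial (Fin (N i)) K) (a : ι → ℕ),
      (∀ i, (L i).IsHomogeneous (a i) ∧ a i ≤ 1 ∧ eval (w i) (L i) ≠ 0) ∧
      ∃ i, eval (mv (S i).α g (w i)) (L i) = 0 :=
    fun g hg => exists_sep S hw0 fun h => hg (hfree g h)
  choose! L a hL hL0 using hsep
  have hcard : (Finset.univ.erase (1 : G)).card + 1 = Fintype.card G := by
    rw [Finset.card_erase_of_mem (Finset.mem_univ _), Finset.card_univ]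
    have := Fintype.card_pos (α := G)
    omega
  have hsum : ∀ i, ∑ g ∈ Finset.univ.erase (1 : G), a g i ≤ t i := by
    intro i
    have h1 : ∑ g ∈ Finset.univ.erase (1 : G), a g i ≤ ∑ _g ∈ Finset.univ.erase (1 : G), 1 :=
      Finset.sum_le_sum fun g hg => (hL g (Finset.ne_of_mem_erase hg) i).2.1
    rw [Finset.sum_const, smul_eq_mul, mul_one] at h1
    have := ht i
    omega
  set F : ∀ i, MvPolynomial (Fin (N i)) K := fun i =>
    (∏ g ∈ Finset.univ.erase (1 : G), L g i) *
      X (j0 i) ^ (t i - ∑ g ∈ Finset.univ.erase (1 : G), a g i) with hF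
  have hFh : ∀ i, (F i).IsHomogeneous (t i) := by
    intro i
    have h1 : (∏ g ∈ Finset.univ.erase (1 : G), L g i).IsHomogeneous
        (∑ g ∈ Finset.univ.erase (1 : G), a g i) :=
      IsHomogeneous.prod _ _ _ fun g hg => (hL g (Finset.ne_of_mem_erase hg) i).1
    have h2 := h1.mul ((isHomogeneous_X K (j0 i)).pow
      (t i - ∑ g ∈ Finset.univ.erase (1 : G), a g i))
    rw [one_mul, Nat.add_sub_cancel' (hsum i)] at h2
    exact h2
  have hLam : ∑ g, (((χ g)⁻¹ : Kˣ) : K) * ∏ i, eval (mv (S i).α g (w i)) (F i) ≠ 0 := by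
    rw [Finset.sum_eq_single (1 : G)]
    · rw [map_one, inv_one, Units.val_one, one_mul, Finset.prod_ne_zero_iff]
      intro i _
      have h1 : mv (S i).α 1 (w i) = w i := by
        funext j
        simp [mv]
      rw [h1]
      simp only [hF]
      rw [map_mul, map_prod, map_pow, eval_X]
      refine mul_ne_zero ?_ (pow_ne_zero _ (hj0 i))
      rw [Finset.prod_ne_zero_iff]
      exact fun g hg => (hL g (Finset.ne_of_mem_erase hg) i).2.2
    · intro g _ hg
      obtain ⟨i, hi⟩ := hL0 g hg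
      rw [Finset.prod_eq_zero (Finset.mem_univ i), mul_zero]
      simp only [hF]
      rw [map_mul, map_prod,
        Finset.prod_eq_zero (Finset.mem_erase.2 ⟨hg, Finset.mem_univ g⟩) hi, zero_mul]
    · intro h; exact absurd (Finset.mem_univ _) h
  have hexp : ∑ g, (((χ g)⁻¹ : Kˣ) : K) * ∏ i, eval (mv (S i).α g (w i)) (F i) =
      ∑ x ∈ Fintype.piFinset (fun i => (F i).support),
        (∏ i, (coeff (x i) (F i) * mon (x i) (w i))) *
          (if ∏ i, chr (S i).α (x i) = χ then (Fintype.card G : K) else 0) := by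
    have h1 : ∀ g : G, ∏ i, eval (mv (S i).α g (w i)) (F i) =
        ∑ x ∈ Fintype.piFinset (fun i => (F i).support),
          ∏ i, (coeff (x i) (F i) * mon (x i) (mv (S i).α g (w i))) := by
      intro g
      simp only [eval_eq_mon]
      rw [Finset.prod_univ_sum]
    simp only [h1, Finset.mul_sum]
    rw [Finset.sum_comm]
    refine Finset.sum_congr rfl fun x _ => ?_
    rw [← sum_char, Finset.mul_sum]
    refine Finset.sum_congr rfl fun g _ => ?_
    rw [MonoidHom.finsetProd_apply, Units.coe_prod]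
    simp only [mon_mv]
    rw [mul_comm (∏ i, (coeff (x i) (F i) * mon (x i) (w i))), mul_assoc, ← Finset.prod_mul_distrib]
    congr 1
    refine Finset.prod_congr rfl fun i _ => ?_
    ring
  rw [hexp] at hLam
  obtain ⟨x, hx, hx2⟩ := Finset.exists_ne_zero_of_sum_ne_zero hLam
  have h1 : ∏ i, chr (S i).α (x i) = χ := by
    by_contra h
    rw [if_neg h, mul_zero] at hx2
    exact hx2 rfl
  have h2 := left_ne_zero_of_mul hx2
  rw [Finset.prod_ne_zero_iff] at h2
  refine ⟨x, fun i => ?_, h1, fun i => right_ne_zero_of_mul (h2 i (Finset.mem_univ i))⟩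
  by_contra h
  exact left_ne_zero_of_mul (h2 i (Finset.mem_univ i)) ((hFh i).coeff_eq_zero h)

/-- one step of the descent in the factor `i` -/
theorem step [CharZero K] {ρ : ι → ℕ} (hρ : ∀ i, TopBound (S i).I (ρ i))
    {w : ∀ i, Fin (N i) → K} (hw : ∀ i, ∀ p ∈ (S i).I, eval (w i) p = 0)
    (hmin : ∀ i, ∀ v : Fin (N i) → K, (∀ p ∈ (S i).I, eval v p = 0) →
      (∀ j, w i j = 0 → v j = 0) → (∃ j, w i j ≠ 0 ∧ v j = 0) → v = 0)
    (χ : G →* Kˣ) {t : ι → ℕ} {i : ι} (ht : ρ i ≤ t i) {j0 : Fin (N i)} (hj0 : w i j0 ≠ 0)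
    (h : Occ S w (Function.update t i (t i + 1)) (χ * (S i).α j0)) : Occ S w t χ := by
  obtain ⟨m, h1, h2, h3⟩ := h
  have h4 : chr (S i).α (m i) = (chr (S i).α (m i) * ((S i).α j0)⁻¹) * (S i).α j0 :=
    (inv_mul_cancel_right (chr (S i).α (m i)) ((S i).α j0)).symm
  obtain ⟨m', h5, h6, h7⟩ := (S i).descend (hρ i) (hw i) (hmin i)
    (chr (S i).α (m i) * ((S i).α j0)⁻¹) ht hj0
    ⟨m i, by rw [h1 i, Function.update_self], h4, h3 i⟩
  refine ⟨Function.update m i m', fun l => ?_, ?_, fun l => ?_⟩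
  · by_cases hl : l = i
    · subst hl
      rw [Function.update_self]
      exact h5
    · rw [Function.update_of_ne hl, h1 l, Function.update_of_ne hl]
  · have h8 : ∏ l, chr (S l).α (Function.update m i m' l) =
        (chr (S i).α m') * ∏ l ∈ Finset.univ.erase i, chr (S l).α (m l) := by
      rw [← Finset.mul_prod_erase Finset.univ _ (Finset.mem_univ i), Function.update_self]
      congr 1
      refine Finset.prod_congr rfl fun l hl => ?_
      rw [Function.update_of_ne (Finset.ne_of_mem_erase hl)]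
    have h9 : ∏ l, chr (S l).α (m l) =
        (chr (S i).α (m i)) * ∏ l ∈ Finset.univ.erase i, chr (S l).α (m l) :=
      (Finset.mul_prod_erase Finset.univ _ (Finset.mem_univ i)).symm
    rw [h8, h6]
    rw [h9] at h2
    have h10 : chr (S i).α (m i) * ((S i).α j0)⁻¹ *
        ∏ l ∈ Finset.univ.erase i, chr (S l).α (m l) =
        (chr (S i).α (m i) * ∏ l ∈ Finset.univ.erase i, chr (S l).α (m l)) *
          ((S i).α j0)⁻¹ :=
      MonoidHom.ext fun g => by
        simp only [MonoidHom.mul_apply]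
        exact mul_right_comm _ _ _
    rw [h10, h2]
    exact mul_inv_cancel_right χ ((S i).α j0)
  · by_cases hl : l = i
    · subst hl
      rw [Function.update_self]
      exact h7
    · rw [Function.update_of_ne hl]
      exact h3 l

/-- all characters occur in the multidegrees `t ≥ ρ` -/
theorem occ_of_min [CharZero K] {ρ : ι → ℕ} (hρ : ∀ i, TopBound (S i).I (ρ i))
    {w : ∀ i, Fin (N i) → K} (hw0 : ∀ i, w i ≠ 0) (hw : ∀ i, ∀ p ∈ (S i).I, eval (w i) p = 0)
    (hmin : ∀ i, ∀ v : Fin (N i) → K, (∀ p ∈ (S i).I, eval v p = 0) →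
      (∀ j, w i j = 0 → v j = 0) → (∃ j, w i j ≠ 0 ∧ v j = 0) → v = 0)
    (hfree : ∀ g : G, (∀ i, ∃ μ : K, ∀ j, ((S i).α j g : K) * w i j = μ * w i j) → g = 1)
    (k : ℕ) : ∀ (χ : G →* Kˣ) (t : ι → ℕ), (∀ i, ρ i ≤ t i) →
      ∑ i, (Fintype.card G - t i) ≤ k → Occ S w t χ := by
  classical
  induction k with
  | zero =>
    intro χ t _ h
    refine large S hw0 hfree χ fun i => ?_
    have h1 := Finset.single_le_sum (f := fun i => Fintype.card G - t i)
      (fun i _ => Nat.zero_le _) (Finset.mem_univ i)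
    omega
  | succ k ih =>
    intro χ t ht h
    by_cases hc : ∀ i, Fintype.card G ≤ t i
    · exact large S hw0 hfree χ hc
    push Not at hc
    obtain ⟨i, hi⟩ := hc
    obtain ⟨j0, hj0⟩ : ∃ j, w i j ≠ 0 := by
      by_contra hc
      push Not at hc
      exact hw0 i (funext hc)
    refine step S hρ hw hmin χ (ht i) hj0 (ih _ _ (fun l => ?_) ?_)
    · by_cases hl : l = i
      · subst hl
        rw [Function.update_self]
        have := ht l
        omega
      · rw [Function.update_of_ne hl]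
        exact ht l
    · rw [← Finset.add_sum_erase Finset.univ _ (Finset.mem_univ i), Function.update_self]
      rw [← Finset.add_sum_erase Finset.univ _ (Finset.mem_univ i)] at h
      have h1 : ∑ l ∈ Finset.univ.erase i,
          (Fintype.card G - Function.update t i (t i + 1) l) =
          ∑ l ∈ Finset.univ.erase i, (Fintype.card G - t l) :=
        Finset.sum_congr rfl fun l hl => by
          rw [Function.update_of_ne (Finset.ne_of_mem_erase hl)]
      rw [h1]
      omega

omit [Fintype G] in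
/-- points of minimal support -/
theorem exists_min {n : ℕ} (S : Fac K G n) {y : Fin n → K} (hy0 : y ≠ 0)
    (hy : ∀ p ∈ S.I, eval y p = 0) : ∃ w : Fin n → K, w ≠ 0 ∧ (∀ p ∈ S.I, eval w p = 0) ∧
      (∀ i, y i = 0 → w i = 0) ∧ (∀ v : Fin n → K, (∀ p ∈ S.I, eval v p = 0) →
        (∀ i, w i = 0 → v i = 0) → (∃ i, w i ≠ 0 ∧ v i = 0) → v = 0) := by
  classical
  let P : ℕ → Prop := fun k => ∃ w : Fin n → K, w ≠ 0 ∧ (∀ p ∈ S.I, eval w p = 0) ∧
    (∀ i, y i = 0 → w i = 0) ∧ (Finset.univ.filter fun i => w i ≠ 0).card = k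
  have hP : ∃ k, P k := ⟨_, y, hy0, hy, fun _ h => h, rfl⟩
  obtain ⟨w, hw0, hw, hwy, hwk⟩ := Nat.find_spec hP
  refine ⟨w, hw0, hw, hwy, ?_⟩
  intro v hv hvw ⟨i, hi, hi2⟩
  by_contra hv0
  have h1 : Nat.find hP ≤ (Finset.univ.filter fun i => v i ≠ 0).card :=
    Nat.find_min' hP ⟨v, hv0, hv, fun i hi => hvw i (hwy i hi), rfl⟩
  rw [← hwk] at h1
  have h2 : (Finset.univ.filter fun i => v i ≠ 0).card
      < (Finset.univ.filter fun i => w i ≠ 0).card := by
    apply Finset.card_lt_card
    rw [Finset.ssubset_iff_of_subset]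
    · exact ⟨i, by simp [hi], by simp [hi2]⟩
    · intro i hi
      rw [Finset.mem_filter] at hi ⊢
      exact ⟨hi.1, fun h => hi.2 (hvw i h)⟩
  omega

/-- For `t ≥ ρ` every character occurs among the monomials of multidegree `t` which do not
vanish at a given point of the product. -/
theorem occ [CharZero K] {ρ : ι → ℕ} (hρ : ∀ i, TopBound (S i).I (ρ i))
    (hfree : ∀ w : ∀ i, Fin (N i) → K, (∀ i, w i ≠ 0) → (∀ i, ∀ p ∈ (S i).I, eval (w i) p = 0) →
      ∀ g : G, (∀ i, ∃ μ : K, ∀ j, ((S i).α j g : K) * w i j = μ * w i j) → g = 1)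
    {y : ∀ i, Fin (N i) → K} (hy0 : ∀ i, y i ≠ 0) (hy : ∀ i, ∀ p ∈ (S i).I, eval (y i) p = 0)
    (χ : G →* Kˣ) {t : ι → ℕ} (ht : ∀ i, ρ i ≤ t i) : Occ S y t χ := by
  choose w hw0 hw hwy hmin using fun i => exists_min (S i) (hy0 i) (hy i)
  obtain ⟨m, h1, h2, h3⟩ := occ_of_min S hρ hw0 hw hmin (hfree w hw0 hw) _ χ t ht le_rfl
  refine ⟨m, h1, h2, fun i => ?_⟩
  have h4 := h3 i
  unfold mon at h4 ⊢
  rw [Finset.prod_ne_zero_iff] at h4 ⊢
  intro j _
  have h5 := h4 j (Finset.mem_univ j)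
  rcases Nat.eq_zero_or_pos (m i j) with h6 | h6
  · rw [h6, pow_zero]; exact one_ne_zero
  · refine pow_ne_zero _ fun h7 => ?_
    rw [hwy i j h7, zero_pow h6.ne'] at h5
    exact h5 rfl

end Pool.Agent.X213.FujProd
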