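import Pool.Agent.X213.FwpTan

/-!
# Very ampleness on hypersurfaces in fake weighted projective spaces
-/

set_option autoImplicit false

namespace Pool.Agent.X213.Fwp

open MvPolynomial
open Pool.Agent.H39R2.Fuj (eval_scale dd dd_sub dd_mul dd_C dd_X dd_pow dd_smul dd_euler)
open Pool.Agent.TH144.MB (Sit Typ TopBound mv act topBound_forms Hom hom_span dv)

namespace Hyp

variable {G : Type} [Group G] {N : ℕ} (S : Hyp G N)

theorem act_f (g : G) : act S.α g S.f = C (S.θ g : ℂ) * S.f := by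
  apply MvPolynomial.funext
  intro x
  rw [Pool.Agent.TH144.MB.eval_act, map_mul, eval_C]
  exact S.hθ g x

/-- the situation of `TH144/MB` when all weights are one -/
noncomputable def sit (h1 : S.a = 1) : Sit ℂ G N where
  I := Ideal.span {S.f}
  hom := by
    refine hom_span fun p hp => ⟨S.d, ?_⟩
    rw [Set.mem_singleton_iff] at hp
    rw [hp]
    have h2 := S.hf
    rw [h1] at h2
    exact h2
  α := S.α
  stable := by
    intro v hv g p hp
    rw [Ideal.mem_span_singleton] at hp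
    obtain ⟨q, rfl⟩ := hp
    have h2 := hv S.f (Ideal.mem_span_singleton_self _)
    have h3 : eval (mv S.α g v) S.f = S.θ g * eval v S.f := S.hθ g v
    rw [map_mul, h3, h2, mul_zero, zero_mul]
  free := by
    intro v hv0 hv g μ h
    have h2 := hv S.f (Ideal.mem_span_singleton_self _)
    obtain ⟨i, hi⟩ : ∃ i, v i ≠ 0 := by
      by_contra hc
      push Not at hc
      exact hv0 (funext hc)
    have h3 : (S.α i g : ℂ) = μ := mul_right_cancel₀ hi (h i)
    have hμ : μ ≠ 0 := by rw [← h3]; exact (S.α i g).ne_zero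
    refine (S.free v hv0 h2 (Units.mk0 μ hμ)⁻¹ g fun l => ?_).2
    rw [h1, Pi.one_apply, pow_one, mul_assoc, h l, ← mul_assoc]
    have h4 : (((Units.mk0 μ hμ)⁻¹ : ℂˣ) : ℂ) * μ = 1 := Units.inv_mul (Units.mk0 μ hμ)
    rw [h4, one_mul]

variable [Finite G] [Nontrivial G]

theorem all (hN : 3 ≤ N) {e : ℕ} (hE : S.d ≤ e + ∑ l, (S.a l - 1)) (χ : G →* ℂˣ) :
    (∀ v : Fin N → ℂ, v ≠ 0 → eval v S.f = 0 → ∃ F, S.Sec e χ F ∧ eval v F ≠ 0) ∧
    (∀ v w : Fin N → ℂ, v ≠ 0 → w ≠ 0 → eval v S.f = 0 → eval w S.f = 0 →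
      (¬ ∃ (t : ℂˣ) (g : G), ∀ l, w l = (t : ℂ) ^ S.a l * (S.α l g : ℂ) * v l) →
      ∃ F, S.Sec e χ F ∧ eval v F = 0 ∧ eval w F ≠ 0) ∧
    (∀ v u : Fin N → ℂ, v ≠ 0 → eval v S.f = 0 → dd v u S.f = 0 →
      (¬ ∃ κ : ℂ, ∀ l, u l = κ * (S.a l * v l)) →
      ∃ F, S.Sec e χ F ∧ eval v F = 0 ∧ dd v u F ≠ 0) := by
  classical
  have hN2 : 2 ≤ N := by omega
  refine ⟨fun v hv0 hv => S.exists_ne hN2 hE χ hv0 hv, ?_⟩
  by_cases hB : ∃ l0, 2 ≤ S.a l0
  · refine ⟨fun v w hv0 hw0 hv hw hne => ?_, fun v u hv0 hv hu hne => ?_⟩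
    · by_contra hcon
      push Not at hcon
      exact hne (S.pts hN hE hB hv0 hv hw0 hw hcon)
    · by_contra hcon
      push Not at hcon
      exact hne (S.tan hN hE hB hv0 hv hu hcon)
  · push Not at hB
    have h1 : S.a = 1 := by
      funext l
      have h2 := hB l
      have h3 := S.pos l
      show S.a l = 1
      omega
    have _ := Fintype.ofFinite G
    have hde : S.d ≤ e := by
      have h2 : ∑ l, (S.a l - 1) = 0 := Finset.sum_eq_zero fun l _ => by rw [h1]; rfl
      omega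
    have hfh : S.f.IsHomogeneous S.d := by
      have h2 := S.hf
      rw [h1] at h2
      exact h2
    have hT : TopBound (S.sit h1).I (S.d - 1) := by
      have h2 := topBound_forms (K := ℂ) (fun _ : Fin 1 => S.f) (fun _ => S.d) (fun _ => hfh)
        (fun _ => S.hd)
      rw [Set.range_const, Fin.sum_univ_one] at h2
      exact h2
    have hcard : Fintype.card G ≤ e := by
      have h2 := (S.sit h1).card_le hfh S.hd rfl (i := ⟨0, by omega⟩) (j := ⟨1, by omega⟩)
        (by simp)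
      exact h2.trans hde
    have hmem : ∀ v : Fin N → ℂ, eval v S.f = 0 → ∀ p ∈ (S.sit h1).I, eval v p = 0 := by
      intro v hv p hp
      have hp' : p ∈ Ideal.span {S.f} := hp
      rw [Ideal.mem_span_singleton] at hp'
      obtain ⟨q, rfl⟩ := hp'
      rw [map_mul, hv, zero_mul]
    have hsec : ∀ F, Typ S.α χ e F → S.Sec e χ F := by
      intro F hF
      refine ⟨?_, hF.2⟩
      rw [h1]
      exact hF.1
    have hd1 : S.d - 1 + 1 ≤ e := by
      have := S.hd
      omega
    refine ⟨fun v w hv0 hw0 hv hw hne => ?_, fun v u hv0 hv hu hne => ?_⟩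
    · obtain ⟨F, hF1, hF2, hF3⟩ := (S.sit h1).points hT hw0 (hmem w hw) hv0 (hmem v hv) (by
        intro g hg
        obtain ⟨c, hc⟩ := Submodule.mem_span_singleton.1 hg
        have hc0 : c ≠ 0 := by
          rintro rfl
          rw [zero_smul] at hc
          exact hv0 (funext fun i =>
            (Pool.Agent.TH144.MB.mv_supp S.α g v i).1 (congrFun hc i).symm)
        refine hne ⟨(Units.mk0 c hc0)⁻¹, g, fun l => ?_⟩
        have h2 : c * w l = (S.α l g : ℂ) * v l := congrFun hc l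
        rw [h1, Pi.one_apply, pow_one, mul_assoc, ← h2, ← mul_assoc]
        have h4 : (((Units.mk0 c hc0)⁻¹ : ℂˣ) : ℂ) * c = 1 := Units.inv_mul (Units.mk0 c hc0)
        rw [h4, one_mul]) χ hd1 hcard
      exact ⟨F, hsec F hF1, hF3, hF2⟩
    · obtain ⟨F, hF1, hF2, hF3⟩ := (S.sit h1).tangents (y := v) (u := u) (by
        intro g p hp
        have hp' : p ∈ Ideal.span {S.f} := hp
        rw [Ideal.mem_span_singleton] at hp'
        obtain ⟨q, rfl⟩ := hp'
        show act S.α g (S.f * q) ∈ Ideal.span {S.f}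
        rw [map_mul, S.act_f, Ideal.mem_span_singleton]
        exact ⟨C (S.θ g : ℂ) * act S.α g q, by ring⟩) hT hv0 (hmem v hv) (by
        intro p hp
        have hp' : p ∈ Ideal.span {S.f} := hp
        rw [Ideal.mem_span_singleton] at hp'
        obtain ⟨q, rfl⟩ := hp'
        have h2 : dv (S.f * q) v u = dd v u (S.f * q) := rfl
        rw [h2, dd_mul, hv, hu, zero_mul, mul_zero, add_zero]) (by
        intro hg
        obtain ⟨c, hc⟩ := Submodule.mem_span_singleton.1 hg
        refine hne ⟨c, fun l => ?_⟩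
        rw [← hc, h1]
        simp) χ hd1 hcard
      exact ⟨F, hsec F hF1, hF2, hF3⟩

end Hyp

end Pool.Agent.X213.Fwp
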