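import Pool.Agent.X213.FwpGrp
import Pool.Agent.H39R2.FujGeo

/-!
# Hypersurfaces in fake weighted projective spaces

The torus `ℂˣ` acts on `ℂ^N` with weights `a i`, the nontrivial finite group `G` by the characters
`α i`, and `ℂˣ × G` freely on the zeros `≠ 0` of a form `f` which is weighted homogeneous of degree
`d` and semi-invariant. Then `|G| a_i a_j ∣ d`, the `a_i` are pairwise coprime, and all characters
of large degree occur among the monomials in any two of the variables.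
-/

set_option autoImplicit false

namespace Pool.Agent.X213.Fwp

open MvPolynomial
open Pool.Agent.H39R2.Fuj (eval_scale sum_pred_add_one_le_prod prod_dvd)

/-- a zero of `f` supported on `{i, j}` -/
theorem line {N : ℕ} (a : Fin N → ℕ) (f : MvPolynomial (Fin N) ℂ) (d : ℕ)
    (hf : IsWeightedHomogeneous a f d) (hd : 0 < d) (ha : ∀ i, 0 < a i) (i j : Fin N)
    (hij : i ≠ j) (hfi : eval (Pi.single i (1 : ℂ)) f ≠ 0) :
    ∃ v : Fin N → ℂ, v ≠ 0 ∧ eval v f = 0 ∧ ∀ l, v l ≠ 0 → l = i ∨ l = j := by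
  classical
  let w : ℂ → Fin N → ℂ := fun t l => if l = i then t else if l = j then 1 else 0
  have hw0 : ∀ t, w t ≠ 0 := by
    intro t h0
    have := congrFun h0 j
    simp [w, hij.symm] at this
  have hwl : ∀ t l, w t l ≠ 0 → l = i ∨ l = j := by
    intro t l hl
    by_contra hcon
    push Not at hcon
    exact hl (by simp [w, hcon.1, hcon.2])
  by_contra hno
  push Not at hno
  have hnz : ∀ t, eval (w t) f ≠ 0 := by
    intro t h0
    obtain ⟨l, hl, hl2⟩ := hno (w t) (hw0 t) h0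
    rcases hwl t l hl with h | h
    · exact hl2.1 h
    · exact hl2.2 h
  let h : Polynomial ℂ := aeval (fun l => if l = i then Polynomial.X else if l = j then 1 else 0) f
  have hh : ∀ t, h.eval t = eval (w t) f := by
    intro t
    have h1 : h.eval t = (Polynomial.aeval t : Polynomial ℂ →ₐ[ℂ] ℂ) h := by
      rw [Polynomial.coe_aeval_eq_eval]
    rw [h1]
    show (Polynomial.aeval t) (aeval _ f) = _
    rw [← AlgHom.comp_apply, comp_aeval]
    rw [← aeval_eq_eval]
    have h2 : (fun l => (Polynomial.aeval t : Polynomial ℂ →ₐ[ℂ] ℂ)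
        (if l = i then Polynomial.X else if l = j then 1 else 0)) = w t := by
      funext l
      simp only [w]
      split_ifs <;> simp
    rw [h2]
  have hdeg : h.degree ≤ 0 := by
    by_contra hcon
    push Not at hcon
    obtain ⟨t, ht⟩ := IsAlgClosed.exists_root h hcon.ne'
    exact hnz t (by rw [← hh]; exact ht)
  have hconst : ∀ t, eval (w t) f = eval (w 0) f := by
    intro t
    rw [← hh, ← hh, Polynomial.eq_C_of_degree_le_zero hdeg]; simp
  set c := eval (w 0) f with hc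
  have hscale : ∀ s : ℂ, s ≠ 0 →
      eval (fun l => if l = i then 1 else if l = j then s ^ a j else 0) f = s ^ d * c := by
    intro s hs
    have h1 := eval_scale a (w (s⁻¹ ^ a i)) s hf
    rw [hconst] at h1
    rw [← h1]
    congr 2
    funext l
    simp only [w]
    split_ifs with h2 h3
    · subst h2
      rw [← mul_pow, mul_inv_cancel₀ hs, one_pow]
    · subst h3; rw [mul_one]
    · rw [mul_zero]
  have hcont : Continuous (fun s : ℂ =>
      eval (fun l => if l = i then 1 else if l = j then s ^ a j else 0) f) := by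
    apply (MvPolynomial.continuous_eval f).comp
    apply continuous_pi
    intro l
    split_ifs
    · exact continuous_const
    · exact continuous_pow _
    · exact continuous_const
  have hcont2 : Continuous (fun s : ℂ => s ^ d * c) := by fun_prop
  have heq : (fun s : ℂ => eval (fun l => if l = i then 1 else if l = j then s ^ a j else 0) f)
      = fun s : ℂ => s ^ d * c := by
    apply Continuous.ext_on (s := {0}ᶜ) (dense_compl_singleton 0) hcont hcont2
    intro s hs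
    exact hscale s hs
  have h0 := congrFun heq 0
  rw [zero_pow hd.ne', zero_mul] at h0
  apply hfi
  rw [← h0]
  congr 2
  funext l
  by_cases hl : l = i
  · subst hl; simp
  · rw [Pi.single_eq_of_ne hl, if_neg hl]
    split_ifs
    · rw [zero_pow (ha j).ne']
    · rfl

/-- the situation -/
structure Hyp (G : Type) [Group G] (N : ℕ) where
  a : Fin N → ℕ
  pos : ∀ i, 0 < a i
  α : Fin N → G →* ℂˣ
  d : ℕ
  hd : 0 < d
  f : MvPolynomial (Fin N) ℂ
  hf : IsWeightedHomogeneous a f d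
  θ : G →* ℂˣ
  hθ : ∀ (g : G) (x : Fin N → ℂ), eval (fun i => (α i g : ℂ) * x i) f = θ g * eval x f
  free : ∀ v : Fin N → ℂ, v ≠ 0 → eval v f = 0 → ∀ (t : ℂˣ) (g : G),
    (∀ i, (t : ℂ) ^ a i * (α i g : ℂ) * v i = v i) → t = 1 ∧ g = 1

namespace Hyp

variable {G : Type} [Group G] {N : ℕ} (S : Hyp G N)

theorem single_ne [Nontrivial G] (i : Fin N) : eval (Pi.single i (1 : ℂ)) S.f ≠ 0 := by
  intro h
  obtain ⟨g, hg⟩ := exists_ne (1 : G)
  obtain ⟨t, ht⟩ := exists_root (S.pos i) (S.α i g)⁻¹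
  refine hg (S.free (Pi.single i 1) ?_ h t g fun l => ?_).2
  · intro h0
    have := congrFun h0 i
    simp at this
  · by_cases hl : l = i
    · subst hl
      have h1 : t ^ S.a l * S.α l g = 1 := by rw [ht, inv_mul_cancel]
      have h2 : (t : ℂ) ^ S.a l * (S.α l g : ℂ) = 1 := by
        rw [← Units.val_pow_eq_pow_val, ← Units.val_mul, h1, Units.val_one]
      rw [h2, one_mul]
    · rw [Pi.single_eq_of_ne hl, mul_zero]

theorem pure [Nontrivial G] (i : Fin N) : ∃ m, S.d = S.a i * m ∧ S.θ = S.α i ^ m := by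
  have h0 := S.single_ne i
  have hsc : ∀ t : ℂˣ, ∀ c : ℂ, (t : ℂ) ^ S.a i = c →
      eval (fun l => c * (Pi.single i (1 : ℂ) : Fin N → ℂ) l) S.f =
        (t : ℂ) ^ S.d * eval (Pi.single i (1 : ℂ)) S.f := by
    intro t c hc
    rw [← eval_scale S.a _ _ S.hf]
    congr 2
    funext l
    by_cases hl : l = i
    · subst hl
      rw [hc]
    · rw [Pi.single_eq_of_ne hl, mul_zero, mul_zero]
  obtain ⟨m, hm⟩ : S.a i ∣ S.d := by
    obtain ⟨ζ, hζ⟩ : ∃ ζ : ℂˣ, IsPrimitiveRoot ζ (S.a i) :=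
      ⟨_, (Complex.isPrimitiveRoot_exp _ (S.pos i).ne').isUnit_unit' (S.pos i).ne'⟩
    refine hζ.dvd_of_pow_eq_one _ ?_
    have h1 := hsc ζ 1 (by rw [← Units.val_pow_eq_pow_val, hζ.pow_eq_one, Units.val_one])
    simp only [one_mul] at h1
    have h2 : ((ζ : ℂ) ^ S.d) = 1 := by
      have h3 : ((ζ : ℂ) ^ S.d - 1) * eval (Pi.single i (1 : ℂ)) S.f = 0 := by
        rw [sub_mul, one_mul, ← h1]
        exact sub_self _
      rcases mul_eq_zero.1 h3 with h4 | h4
      · exact sub_eq_zero.1 h4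
      · exact absurd h4 h0
    exact Units.ext (by rw [Units.val_pow_eq_pow_val, h2, Units.val_one])
  refine ⟨m, hm, ?_⟩
  ext g
  obtain ⟨t, ht⟩ := exists_root (S.pos i) (S.α i g)
  have h1 := hsc t (S.α i g) (by rw [← Units.val_pow_eq_pow_val, ht])
  have h2 := S.hθ g (Pi.single i 1)
  have h3 : (fun l => (S.α l g : ℂ) * (Pi.single i (1 : ℂ) : Fin N → ℂ) l) =
      fun l => (S.α i g : ℂ) * (Pi.single i (1 : ℂ) : Fin N → ℂ) l := by
    funext l
    by_cases hl : l = i
    · rw [hl]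
    · rw [Pi.single_eq_of_ne hl, mul_zero, mul_zero]
  rw [h3, h1] at h2
  have h4 := mul_right_cancel₀ h0 h2
  rw [← h4, hm, pow_mul, ← Units.val_pow_eq_pow_val, ht, MonoidHom.pow_apply,
    Units.val_pow_eq_pow_val]

theorem lineFree [Nontrivial G] {i j : Fin N} (hij : i ≠ j) (t : ℂˣ) (g : G)
    (hi : t ^ S.a i * S.α i g = 1) (hj : t ^ S.a j * S.α j g = 1) : t = 1 ∧ g = 1 := by
  obtain ⟨v, hv0, hv, hvs⟩ := line S.a S.f S.d S.hf S.hd S.pos i j hij (S.single_ne i)
  refine S.free v hv0 hv t g fun l => ?_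
  by_cases hl : v l = 0
  · rw [hl, mul_zero]
  · have h1 : t ^ S.a l * S.α l g = 1 := by
      rcases hvs l hl with h | h
      · rw [h]; exact hi
      · rw [h]; exact hj
    have h2 : (t : ℂ) ^ S.a l * (S.α l g : ℂ) = 1 := by
      rw [← Units.val_pow_eq_pow_val, ← Units.val_mul, h1, Units.val_one]
    rw [h2, one_mul]

variable [Finite G]

theorem dvd2 [Nontrivial G] {i j : Fin N} (hij : i ≠ j) :
    Nat.card G * (S.a i * S.a j) ∣ S.d := by
  obtain ⟨m, h1, h2⟩ := S.pure i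
  obtain ⟨m', h3, h4⟩ := S.pure j
  exact dvd (S.pos i) (S.lineFree hij) h1 h2 h3 h4

theorem cop [Nontrivial G] {i j : Fin N} (hij : i ≠ j) : Nat.Coprime (S.a i) (S.a j) :=
  coprime (S.pos i) (S.lineFree hij)

theorem prodDvd [Nontrivial G] (hN : 2 ≤ N) : Nat.card G * ∏ l, S.a l ∣ S.d := by
  have hG : 0 < Nat.card G := Nat.card_pos
  have hne : ∀ l : Fin N, ∃ l' : Fin N, l ≠ l' := by
    intro l
    have : Nontrivial (Fin N) := Fin.nontrivial_iff_two_le.2 hN
    obtain ⟨l', h⟩ := exists_ne l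
    exact ⟨l', h.symm⟩
  obtain ⟨i, j, hij⟩ : ∃ i j : Fin N, i ≠ j := ⟨⟨0, by omega⟩, hne _⟩
  obtain ⟨d', hd'⟩ : Nat.card G ∣ S.d := (Dvd.intro _ rfl).trans (S.dvd2 hij)
  rw [hd']
  refine Nat.mul_dvd_mul_left _ (prod_dvd _ _ _ (fun l _ l' _ h => S.cop h) fun l _ => ?_)
  obtain ⟨l', hl⟩ := hne l
  have h1 := S.dvd2 hl
  rw [hd'] at h1
  exact (Dvd.intro _ rfl).trans (Nat.dvd_of_mul_dvd_mul_left hG h1)

/-- the numerical inequality: `d ≥ |G| a_i a_j P`, `P` the product of the other weights -/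
theorem num [Nontrivial G] (hN : 2 ≤ N) {i j : Fin N} (hij : i ≠ j) :
    ∃ P Q : ℕ, P = ∏ l ∈ (Finset.univ.erase i).erase j, S.a l ∧
      Q = Nat.card G * (S.a i * S.a j) ∧ Q * P ∣ S.d ∧
      ∑ l ∈ (Finset.univ.erase i).erase j, (S.a l - 1) + 1 ≤ P ∧
      ∑ l, (S.a l - 1) = (S.a i - 1) + (S.a j - 1) +
        ∑ l ∈ (Finset.univ.erase i).erase j, (S.a l - 1) := by
  refine ⟨_, _, rfl, rfl, ?_, sum_pred_add_one_le_prod _ _ fun l _ => S.pos l, ?_⟩
  · have h1 := S.prodDvd hN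
    rw [← Finset.mul_prod_erase Finset.univ _ (Finset.mem_univ i),
      ← Finset.mul_prod_erase (Finset.univ.erase i) _
        (Finset.mem_erase.2 ⟨hij.symm, Finset.mem_univ j⟩)] at h1
    have h2 : Nat.card G * (S.a i * S.a j) * ∏ l ∈ (Finset.univ.erase i).erase j, S.a l =
        Nat.card G * (S.a i * (S.a j * ∏ l ∈ (Finset.univ.erase i).erase j, S.a l)) := by ring
    rw [h2]
    exact h1
  · rw [← Finset.add_sum_erase Finset.univ _ (Finset.mem_univ i),
      ← Finset.add_sum_erase (Finset.univ.erase i) _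
        (Finset.mem_erase.2 ⟨hij.symm, Finset.mem_univ j⟩)]
    ring

omit [Group G] in
theorem two_le_card [Nontrivial G] : 2 ≤ Nat.card G := Finite.one_lt_card

/-- a point of the cone has two nonzero coordinates -/
theorem two [Nontrivial G] {v : Fin N → ℂ} (hv0 : v ≠ 0) (hv : eval v S.f = 0) {i : Fin N}
    (hi : v i ≠ 0) : ∃ j, j ≠ i ∧ v j ≠ 0 := by
  by_contra hcon
  push Not at hcon
  obtain ⟨t, ht⟩ := exists_root (S.pos i) (Units.mk0 (v i) hi)
  have h1 : v = fun l => (t : ℂ) ^ S.a l * (Pi.single i (1 : ℂ) : Fin N → ℂ) l := by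
    funext l
    by_cases hl : l = i
    · subst hl
      rw [← Units.val_pow_eq_pow_val, ht, Pi.single_eq_same, mul_one, Units.val_mk0]
    · rw [Pi.single_eq_of_ne hl, mul_zero, hcon l hl]
  rw [h1, eval_scale S.a _ _ S.hf] at hv
  rcases mul_eq_zero.1 hv with h | h
  · exact t.ne_zero ((pow_eq_zero_iff S.hd.ne').1 h)
  · exact S.single_ne i h

/-- the characters of degree `e > |G| a_i a_j - a_i - a_j` occur in the variables `x_i, x_j` -/
theorem rep2 [Nontrivial G] {i j : Fin N} (hij : i ≠ j) (e : ℕ) (χ : G →* ℂˣ)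
    (he : Nat.card G * (S.a i * S.a j) < e + S.a i + S.a j) :
    ∃ p q : ℕ, p * S.a i + q * S.a j = e ∧ S.α i ^ p * S.α j ^ q = χ :=
  rep (S.pos i) (S.lineFree hij) e χ he

/-- the sections of `K_X + mA`, `m ≥ dim X + 1`, have no base point -/
theorem bpf [Nontrivial G] (hN : 2 ≤ N) {e : ℕ} (hE : S.d ≤ e + ∑ l, (S.a l - 1) + 1)
    (χ : G →* ℂˣ) {v : Fin N → ℂ} (hv0 : v ≠ 0) (hv : eval v S.f = 0) :
    ∃ i j : Fin N, i ≠ j ∧ v i ≠ 0 ∧ v j ≠ 0 ∧
      ∃ p q : ℕ, p * S.a i + q * S.a j = e ∧ S.α i ^ p * S.α j ^ q = χ := by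
  obtain ⟨i, hi⟩ : ∃ i, v i ≠ 0 := by
    by_contra hc
    push Not at hc
    exact hv0 (funext hc)
  obtain ⟨j, hji, hj⟩ := S.two hv0 hv hi
  refine ⟨i, j, hji.symm, hi, hj, S.rep2 hji.symm e χ ?_⟩
  obtain ⟨P, Q, -, hQ, hdvd, hP, hsum⟩ := S.num hN hji.symm
  have h1 := Nat.le_of_dvd S.hd hdvd
  have h2 := S.pos i
  have h3 := S.pos j
  have hQ1 : 1 ≤ Q := by
    rw [hQ]
    exact Nat.mul_pos Nat.card_pos (Nat.mul_pos h2 h3)
  have h4 : Q + (P - 1) ≤ Q * P := by
    obtain ⟨b, hb⟩ : ∃ b, P = b + 1 := ⟨P - 1, by omega⟩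
    subst hb
    have : 1 * b ≤ Q * b := Nat.mul_le_mul_right b hQ1
    rw [Nat.mul_add, mul_one]
    omega
  rw [← hQ]
  omega

end Hyp

end Pool.Agent.X213.Fwp
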