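import Mathlib

/-!
# Two generators of the class group of a fake weighted projective line

`G` is a finite group, `(a, α)` and `(b, β)` are characters `(t, g) ↦ t ^ a * α g`,
`(t, g) ↦ t ^ b * β g` of `ℂˣ × G` without a common kernel. Then every character `(e, χ)` with
`e > a b |G| - a - b` is a combination of them with nonnegative coefficients.
-/

set_option autoImplicit false

namespace Pool.Agent.X213.Fwp

variable {G : Type} [Group G]

/-- the character `(t, g) ↦ t ^ a * α g` of `ℂˣ × G` -/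
def phi (a : ℕ) (α : G →* ℂˣ) : ℂˣ × G →* ℂˣ where
  toFun x := x.1 ^ a * α x.2
  map_one' := by simp
  map_mul' x y := by
    rw [Prod.fst_mul, Prod.snd_mul, mul_pow, map_mul, mul_mul_mul_comm]

theorem phi_apply (a : ℕ) (α : G →* ℂˣ) (x : ℂˣ × G) : phi a α x = x.1 ^ a * α x.2 := rfl

theorem exists_root {a : ℕ} (ha : 0 < a) (c : ℂˣ) : ∃ t : ℂˣ, t ^ a = c := by
  obtain ⟨z, hz⟩ := IsAlgClosed.exists_pow_nat_eq (c : ℂ) ha
  have hz0 : z ≠ 0 := by
    rintro rfl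
    rw [zero_pow ha.ne'] at hz
    exact c.ne_zero hz.symm
  exact ⟨Units.mk0 z hz0, Units.ext (by rw [Units.val_pow_eq_pow_val, Units.val_mk0, hz])⟩

theorem card_ker {a : ℕ} (ha : 0 < a) (α : G →* ℂˣ) :
    Nat.card (phi a α).ker = Nat.card G * a := by
  have _ : NeZero a := ⟨ha.ne'⟩
  let pr : (phi a α).ker →* G := (MonoidHom.snd ℂˣ G).comp (phi a α).ker.subtype
  have hpr : ∀ x : (phi a α).ker, pr x = x.1.2 := fun _ => rfl
  have hsurj : Function.Surjective pr := by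
    intro g
    obtain ⟨t, ht⟩ := exists_root ha (α g)⁻¹
    exact ⟨⟨(t, g), by rw [MonoidHom.mem_ker, phi_apply, ht, inv_mul_cancel]⟩, rfl⟩
  have h1 := Subgroup.card_eq_card_quotient_mul_card_subgroup pr.ker
  rw [Nat.card_congr (QuotientGroup.quotientKerEquivOfSurjective pr hsurj).toEquiv] at h1
  rw [h1]
  congr 1
  have h2 : ∀ t : rootsOfUnity a ℂ, ((t : ℂˣ), (1 : G)) ∈ (phi a α).ker := by
    intro t
    rw [MonoidHom.mem_ker, phi_apply, map_one, mul_one]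
    exact (mem_rootsOfUnity a _).1 t.2
  let F : rootsOfUnity a ℂ → pr.ker := fun t =>
    ⟨⟨((t : ℂˣ), (1 : G)), h2 t⟩, by rw [MonoidHom.mem_ker, hpr]⟩
  have h3 : Function.Bijective F := by
    constructor
    · intro t s h
      have h4 : ((F t).1.1).1 = ((F s).1.1).1 := by rw [h]
      exact Subtype.ext h4
    · rintro ⟨⟨⟨t, g⟩, hx⟩, hy⟩
      rw [MonoidHom.mem_ker, hpr] at hy
      have hg : g = 1 := hy
      subst hg
      have ht : t ∈ rootsOfUnity a ℂ := by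
        rw [MonoidHom.mem_ker, phi_apply] at hx
        simp only [map_one, mul_one] at hx
        exact (mem_rootsOfUnity a _).2 hx
      exact ⟨⟨t, ht⟩, rfl⟩
  rw [← Nat.card_eq_of_bijective F h3, Complex.card_rootsOfUnity]

variable [Finite G]

theorem gen {a b : ℕ} (ha : 0 < a) {α β : G →* ℂˣ}
    (hfree : ∀ (t : ℂˣ) (g : G), t ^ a * α g = 1 → t ^ b * β g = 1 → t = 1 ∧ g = 1) :
    ∃ b0 : (phi a α).ker, (∀ x, x ∈ Subgroup.zpowers b0) ∧
      IsPrimitiveRoot (phi b β b0) (Nat.card G * a) := by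
  have h1 : 0 < Nat.card (phi a α).ker := by
    rw [card_ker ha]
    exact Nat.mul_pos Nat.card_pos ha
  have _ : Finite (phi a α).ker := (Nat.card_pos_iff.1 h1).2
  let γ : (phi a α).ker →* ℂˣ := (phi b β).comp (phi a α).ker.subtype
  have hγ : Function.Injective γ := by
    rw [injective_iff_map_eq_one]
    rintro ⟨⟨t, g⟩, hx⟩ h
    obtain ⟨rfl, rfl⟩ := hfree t g hx h
    rfl
  have _ : IsCyclic (phi a α).ker :=
    isCyclic_of_injective_ringHom ((Units.coeHom ℂ).comp γ) (Units.val_injective.comp hγ)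
  obtain ⟨b0, hb0⟩ := IsCyclic.exists_generator (α := (phi a α).ker)
  refine ⟨b0, hb0, ?_⟩
  have h2 := IsPrimitiveRoot.orderOf (γ b0)
  rw [orderOf_injective γ hγ, orderOf_eq_card_of_forall_mem_zpowers hb0, card_ker ha] at h2
  exact h2

omit [Finite G] in
/-- two characters of the kernel agree if they agree on a generator -/
theorem agree {a : ℕ} {α : G →* ℂˣ} {b0 : (phi a α).ker}
    (hb0 : ∀ x, x ∈ Subgroup.zpowers b0) {u v : ℂˣ × G →* ℂˣ} (h : u b0 = v b0)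
    (x : ℂˣ × G) (hx : x ∈ (phi a α).ker) : u x = v x := by
  obtain ⟨k, hk⟩ := Subgroup.mem_zpowers_iff.1 (hb0 ⟨x, hx⟩)
  have h1 : x = (b0 : ℂˣ × G) ^ k := by
    have := congrArg Subtype.val hk
    rw [Subgroup.coe_zpow] at this
    exact this.symm
  rw [h1, map_zpow, map_zpow, h]

theorem dvd {a b : ℕ} (ha : 0 < a) {α β : G →* ℂˣ}
    (hfree : ∀ (t : ℂˣ) (g : G), t ^ a * α g = 1 → t ^ b * β g = 1 → t = 1 ∧ g = 1)
    {d m m' : ℕ} {θ : G →* ℂˣ} (h1 : d = a * m) (h2 : θ = α ^ m) (h3 : d = b * m')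
    (h4 : θ = β ^ m') : Nat.card G * (a * b) ∣ d := by
  obtain ⟨b0, hb0, hζ⟩ := gen ha hfree
  have h5 : (phi b β b0) ^ m' = 1 := by
    have h6 : phi d θ (b0 : ℂˣ × G) = (phi b β b0) ^ m' := by
      rw [phi_apply, phi_apply, mul_pow, ← pow_mul, ← h3, h4]
      rfl
    have h7 : phi d θ (b0 : ℂˣ × G) = (phi a α b0) ^ m := by
      rw [phi_apply, phi_apply, mul_pow, ← pow_mul, ← h1, h2]
      rfl
    have h8 : phi a α (b0 : ℂˣ × G) = 1 := b0.2
    rw [← h6, h7, h8, one_pow]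
  obtain ⟨c, hc⟩ := hζ.dvd_of_pow_eq_one m' h5
  exact ⟨c, by rw [h3, hc]; ring⟩

theorem coprime {a b : ℕ} {α β : G →* ℂˣ} (ha : 0 < a)
    (hfree : ∀ (t : ℂˣ) (g : G), t ^ a * α g = 1 → t ^ b * β g = 1 → t = 1 ∧ g = 1) :
    Nat.Coprime a b := by
  have hk : 0 < Nat.gcd a b := Nat.gcd_pos_of_pos_left b ha
  have h1 := Complex.isPrimitiveRoot_exp _ hk.ne'
  obtain ⟨ζ, hζ⟩ : ∃ ζ : ℂˣ, IsPrimitiveRoot ζ (Nat.gcd a b) := by
    have _ : NeZero (Nat.gcd a b) := ⟨hk.ne'⟩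
    exact ⟨_, h1.isUnit_unit' hk.ne'⟩
  obtain ⟨h2, -⟩ := hfree ζ 1
    (by rw [map_one, mul_one]; exact (hζ.pow_eq_one_iff_dvd a).2 (Nat.gcd_dvd_left _ _))
    (by rw [map_one, mul_one]; exact (hζ.pow_eq_one_iff_dvd b).2 (Nat.gcd_dvd_right _ _))
  rw [h2] at hζ
  exact Nat.dvd_one.1 (hζ.dvd_of_pow_eq_one 1 (one_pow 1))

theorem rep {a b : ℕ} (ha : 0 < a) {α β : G →* ℂˣ}
    (hfree : ∀ (t : ℂˣ) (g : G), t ^ a * α g = 1 → t ^ b * β g = 1 → t = 1 ∧ g = 1)
    (e : ℕ) (χ : G →* ℂˣ) (he : Nat.card G * (a * b) < e + a + b) :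
    ∃ p q : ℕ, p * a + q * b = e ∧ α ^ p * β ^ q = χ := by
  obtain ⟨b0, hb0, hζ⟩ := gen ha hfree
  have hM : 0 < Nat.card G * a := Nat.mul_pos Nat.card_pos ha
  have _ : NeZero (Nat.card G * a) := ⟨hM.ne'⟩
  have h1 : (phi e χ b0) ^ (Nat.card G * a) = 1 := by
    rw [← map_pow, ← Subgroup.coe_pow, ← card_ker ha α, pow_card_eq_one', Subgroup.coe_one, map_one]
  have h2 : ((phi e χ b0 : ℂˣ) : ℂ) ^ (Nat.card G * a) = 1 := by
    rw [← Units.val_pow_eq_pow_val, h1, Units.val_one]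
  obtain ⟨q, hq, hq2⟩ :=
    (IsPrimitiveRoot.coe_units_iff.2 hζ).eq_pow_of_pow_eq_one h2
  have h3 : (phi b β b0) ^ q = phi e χ b0 := Units.ext (by rw [Units.val_pow_eq_pow_val]; exact hq2)
  have h4 : ∀ x : ℂˣ × G, x ∈ (phi a α).ker → phi e χ x = phi b β x ^ q := by
    intro x hx
    exact agree hb0 (u := phi e χ) (v := phi b β ^ q) (by rw [MonoidHom.pow_apply, h3]) x hx
  -- divisibility
  obtain ⟨ζ, hζa⟩ : ∃ ζ : ℂˣ, IsPrimitiveRoot ζ a :=
    ⟨_, (Complex.isPrimitiveRoot_exp a ha.ne').isUnit_unit' ha.ne'⟩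
  have h5 : ζ ^ e = ζ ^ (b * q) := by
    have h6 := h4 (ζ, 1) (by rw [MonoidHom.mem_ker, phi_apply, map_one, mul_one, hζa.pow_eq_one])
    rw [phi_apply, phi_apply, map_one, map_one, mul_one, mul_one, ← pow_mul] at h6
    exact h6
  have h6 : (a : ℤ) ∣ (e : ℤ) - b * q := by
    rw [← hζa.zpow_eq_one_iff_dvd, zpow_sub, zpow_natCast, h5]
    have : ζ ^ ((b : ℤ) * q) = ζ ^ (b * q) := by
      rw [← Nat.cast_mul, zpow_natCast]
    rw [this, mul_inv_cancel]
  obtain ⟨c, hc⟩ := h6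
  have hc0 : 0 ≤ c := by
    by_contra hcon
    push Not at hcon
    have h7 : (a : ℤ) * c ≤ -a := by
      have : (0 : ℤ) < a := by exact_mod_cast ha
      nlinarith
    have h8 : q + 1 ≤ Nat.card G * a := hq
    have h9 : b * (q + 1) ≤ b * (Nat.card G * a) := Nat.mul_le_mul_left b h8
    have h10 : (b : ℤ) * (q + 1) ≤ Nat.card G * (a * b) := by
      have : ((b * (q + 1) : ℕ) : ℤ) ≤ ((b * (Nat.card G * a) : ℕ) : ℤ) := by exact_mod_cast h9
      push_cast at this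
      linarith
    have h11 : ((Nat.card G : ℤ) * (a * b)) < e + a + b := by exact_mod_cast he
    linarith
  obtain ⟨p, rfl⟩ := Int.eq_ofNat_of_zero_le hc0
  have h7 : e = a * p + b * q := by
    have : (e : ℤ) = a * p + b * q := by linarith
    exact_mod_cast this
  refine ⟨p, q, by rw [h7]; ring, ?_⟩
  ext g
  obtain ⟨t, ht⟩ := exists_root ha (α g)⁻¹
  have h8 := h4 (t, g) (by rw [MonoidHom.mem_ker, phi_apply, ht, inv_mul_cancel])
  rw [phi_apply, phi_apply, mul_pow, ← pow_mul, h7, pow_add, pow_mul t a p, ht] at h8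
  simp only at h8
  have h9 : ((α g)⁻¹) ^ p * χ g = β g ^ q := by
    have h10 : t ^ (b * q) * (((α g)⁻¹) ^ p * χ g) = t ^ (b * q) * β g ^ q := by
      rw [← h8, ← mul_assoc, mul_comm (t ^ (b * q))]
    exact mul_left_cancel h10
  rw [MonoidHom.mul_apply, MonoidHom.pow_apply, MonoidHom.pow_apply, ← h9, inv_pow, ← mul_assoc,
    mul_inv_cancel, one_mul]

end Pool.Agent.X213.Fwp
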