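import Pool.Agent.X213.FwpGeo

/-!
# Separation of points on hypersurfaces in fake weighted projective spaces
-/

set_option autoImplicit false

namespace Pool.Agent.X213.Fwp

open MvPolynomial
open Pool.Agent.H39R2.Fuj (eval_scale sum_pred_add_one_le_prod prod_dvd)

namespace Hyp

variable {G : Type} [Group G] {N : ℕ} (S : Hyp G N)

/-- forms of weighted degree `e` and character `χ` -/
def Sec (e : ℕ) (χ : G →* ℂˣ) (F : MvPolynomial (Fin N) ℂ) : Prop :=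
  IsWeightedHomogeneous S.a F e ∧
    ∀ (g : G) (x : Fin N → ℂ), eval (fun i => (S.α i g : ℂ) * x i) F = χ g * eval x F

theorem Sec.sub {S : Hyp G N} {e : ℕ} {χ : G →* ℂˣ} {F F' : MvPolynomial (Fin N) ℂ}
    (h : S.Sec e χ F) (h' : S.Sec e χ F') : S.Sec e χ (F - F') := by
  refine ⟨?_, fun g x => by rw [map_sub, map_sub, h.2, h'.2, mul_sub]⟩
  rw [sub_eq_add_neg]
  refine h.1.add ?_
  have h2 : -F' = C (-1) * F' := by simp
  rw [h2]
  have h3 := (isWeightedHomogeneous_C S.a (-1 : ℂ)).mul h'.1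
  rwa [zero_add] at h3

theorem Sec.C_mul {S : Hyp G N} {e : ℕ} {χ : G →* ℂˣ} {F : MvPolynomial (Fin N) ℂ}
    (h : S.Sec e χ F) (c : ℂ) : S.Sec e χ (C c * F) := by
  refine ⟨?_, fun g x => by rw [map_mul, map_mul, h.2, eval_C, eval_C]; ring⟩
  have h3 := (isWeightedHomogeneous_C S.a c).mul h.1
  rwa [zero_add] at h3

theorem sec2 (i j : Fin N) (p q : ℕ) :
    S.Sec (p * S.a i + q * S.a j) (S.α i ^ p * S.α j ^ q) (X i ^ p * X j ^ q) := by
  constructor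
  · have h1 := ((isWeightedHomogeneous_X ℂ S.a i).pow p).mul
      ((isWeightedHomogeneous_X ℂ S.a j).pow q)
    simpa [smul_eq_mul] using h1
  · intro g x
    simp only [map_mul, map_pow, eval_X, MonoidHom.mul_apply, MonoidHom.pow_apply, Units.val_mul,
      Units.val_pow_eq_pow_val]
    ring

theorem sec3 (l i j : Fin N) (p q : ℕ) :
    S.Sec (S.a l + (p * S.a i + q * S.a j)) (S.α l * (S.α i ^ p * S.α j ^ q))
      (X l * (X i ^ p * X j ^ q)) := by
  have h := S.sec2 i j p q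
  constructor
  · exact (isWeightedHomogeneous_X ℂ S.a l).mul h.1
  · intro g x
    simp only [map_mul, map_pow, eval_X, MonoidHom.mul_apply, MonoidHom.pow_apply, Units.val_mul,
      Units.val_pow_eq_pow_val]
    ring

variable [Finite G] [Nontrivial G]

theorem ineqs (hN : 2 ≤ N) {e : ℕ} (hE : S.d ≤ e + ∑ l, (S.a l - 1)) {i j : Fin N}
    (hij : i ≠ j) : ∃ P h Q s : ℕ, P = ∏ l ∈ (Finset.univ.erase i).erase j, S.a l ∧
      Q = Nat.card G * (S.a i * S.a j) ∧ S.d = Q * (P * h) ∧ 1 ≤ P ∧ 1 ≤ h ∧ s + 1 ≤ P ∧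
      Q * (P * h) + 2 ≤ e + S.a i + S.a j + s ∧
      (∀ l, l ≠ i → l ≠ j → S.a l ≤ s + 1) ∧ 2 * S.a i ≤ Q ∧ 2 * S.a j ≤ Q ∧ 2 ≤ Q ∧
      S.a i + S.a j ≤ Q := by
  obtain ⟨P, Q, hP0, hQ, hdvd, hP, hsum⟩ := S.num hN hij
  obtain ⟨h, hh⟩ := hdvd
  have h2 := S.pos i
  have h3 := S.pos j
  have hG : 2 ≤ Nat.card G := Finite.one_lt_card
  have hd := S.hd
  have hh0 : 1 ≤ h := by
    rcases Nat.eq_zero_or_pos h with h0 | h0
    · rw [h0, mul_zero] at hh; omega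
    · exact h0
  have hQi : 2 * S.a i ≤ Q := by
    rw [hQ]
    exact Nat.mul_le_mul hG (Nat.le_mul_of_pos_right _ h3)
  have hQj : 2 * S.a j ≤ Q := by
    rw [hQ]
    exact Nat.mul_le_mul hG (Nat.le_mul_of_pos_left _ h2)
  refine ⟨P, h, Q, ∑ l ∈ (Finset.univ.erase i).erase j, (S.a l - 1), hP0, hQ,
    by rw [hh, mul_assoc], by omega, hh0, hP, ?_, ?_, hQi, hQj, by omega, by omega⟩
  · rw [hsum, hh, mul_assoc] at hE
    omega
  · intro l hli hlj
    have h4 : S.a l - 1 ≤ ∑ l ∈ (Finset.univ.erase i).erase j, (S.a l - 1) :=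
      Finset.single_le_sum (f := fun l => S.a l - 1) (fun _ _ => Nat.zero_le _)
        (Finset.mem_erase.2 ⟨hlj, Finset.mem_erase.2 ⟨hli, Finset.mem_univ l⟩⟩)
    omega

theorem mono2 (hN : 2 ≤ N) {e : ℕ} (hE : S.d ≤ e + ∑ l, (S.a l - 1)) (χ : G →* ℂˣ)
    {i j : Fin N} (hij : i ≠ j) : ∃ p q : ℕ, p * S.a i + q * S.a j = e ∧
      S.α i ^ p * S.α j ^ q = χ := by
  refine S.rep2 hij e χ ?_
  obtain ⟨P, h, Q, s, -, hQ, -, h1, h2, h3, h4, -, -, -, h5, -⟩ := S.ineqs hN hE hij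
  rw [← hQ]
  have h6 : 1 ≤ P * h := Nat.mul_pos h1 h2
  have h7 : P ≤ P * h := Nat.le_mul_of_pos_right _ h2
  obtain ⟨x, hx⟩ : ∃ x, P * h = x + 1 := ⟨P * h - 1, by omega⟩
  rw [hx] at h4 h7
  have h8 : Q * (x + 1) = Q + Q * x := by ring
  have h9 : 2 * x ≤ Q * x := Nat.mul_le_mul_right x h5
  omega

/-- a monomial with a given third variable -/
theorem mono3 (hN : 2 ≤ N) {e : ℕ} (hE : S.d ≤ e + ∑ l, (S.a l - 1)) (χ : G →* ℂˣ)
    {i j l : Fin N} (hij : i ≠ j) (hli : l ≠ i) (hlj : l ≠ j) :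
    ∃ p q : ℕ, S.a l + (p * S.a i + q * S.a j) = e ∧ S.α l * (S.α i ^ p * S.α j ^ q) = χ := by
  obtain ⟨P, h, Q, s, -, hQ, -, h1, h2, h3, h4, h10, -, -, h5, h11⟩ := S.ineqs hN hE hij
  have h12 := h10 l hli hlj
  have h6 : 1 ≤ P * h := Nat.mul_pos h1 h2
  have h7 : P ≤ P * h := Nat.le_mul_of_pos_right _ h2
  obtain ⟨x, hx⟩ : ∃ x, P * h = x + 1 := ⟨P * h - 1, by omega⟩
  rw [hx] at h4 h7
  have h8 : Q * (x + 1) = Q + Q * x := by ring
  have h9 : 2 * x ≤ Q * x := Nat.mul_le_mul_right x h5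
  obtain ⟨p, q, h13, h14⟩ := S.rep2 hij (e - S.a l) (χ * (S.α l)⁻¹) (by rw [← hQ]; omega)
  refine ⟨p, q, by omega, ?_⟩
  rw [h14]
  refine MonoidHom.ext fun g => ?_
  simp only [MonoidHom.mul_apply, MonoidHom.inv_apply]
  rw [mul_comm, inv_mul_cancel_right]

/-- a monomial in `x_i, x_j` divisible by `x_i` -/
theorem mono2' (hN : 2 ≤ N) {e : ℕ} (hE : S.d ≤ e + ∑ l, (S.a l - 1)) (χ : G →* ℂˣ)
    {i j : Fin N} (hij : i ≠ j) (hc : S.a i = 1 ∨ 2 * (Nat.card G * (S.a i * S.a j)) ≤ S.d) :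
    ∃ p q : ℕ, (p + 1) * S.a i + q * S.a j = e ∧ S.α i ^ (p + 1) * S.α j ^ q = χ := by
  obtain ⟨P, h, Q, s, -, hQ, hd, h1, h2, h3, h4, h10, h15, -, h5, h11⟩ := S.ineqs hN hE hij
  have h6 : 1 ≤ P * h := Nat.mul_pos h1 h2
  have h7 : P ≤ P * h := Nat.le_mul_of_pos_right _ h2
  obtain ⟨x, hx⟩ : ∃ x, P * h = x + 1 := ⟨P * h - 1, by omega⟩
  rw [hx] at h4 h7 hd
  have h8 : Q * (x + 1) = Q + Q * x := by ring
  have h9 : 2 * x ≤ Q * x := Nat.mul_le_mul_right x h5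
  have hpos := S.pos i
  have key : Q < e + S.a j := by
    rcases hc with hc | hc
    · rw [hc] at h4
      omega
    · rw [← hQ, hd, h8] at hc
      have hx1 : 1 ≤ x := by
        rcases Nat.eq_zero_or_pos x with h0 | h0
        · rw [h0, mul_zero] at hc; omega
        · exact h0
      have h16 : 2 * S.a i * x ≤ Q * x := Nat.mul_le_mul_right x h15
      have h17 : S.a i * 1 ≤ S.a i * x := Nat.mul_le_mul_left _ hx1
      have h18 : 1 * x ≤ S.a i * x := Nat.mul_le_mul_right _ hpos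
      have h19 : 2 * S.a i * x = S.a i * x + S.a i * x := by ring
      omega
  obtain ⟨p, q, h13, h14⟩ := S.rep2 hij (e - S.a i) (χ * (S.α i)⁻¹) (by rw [← hQ]; omega)
  refine ⟨p, q, ?_, ?_⟩
  · have : (p + 1) * S.a i = p * S.a i + S.a i := by ring
    omega
  · have h20 : S.α i ^ (p + 1) * S.α j ^ q = (S.α i ^ p * S.α j ^ q) * S.α i := by
      refine MonoidHom.ext fun g => ?_
      simp only [MonoidHom.mul_apply, MonoidHom.pow_apply, pow_succ]
      exact mul_right_comm _ _ _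
    rw [h20, h14]
    exact inv_mul_cancel_right χ (S.α i)

/-- two monomials in `x_i, x_j` -/
theorem mono22 (hN : 2 ≤ N) {e : ℕ} (hE : S.d ≤ e + ∑ l, (S.a l - 1)) (χ : G →* ℂˣ)
    {i j : Fin N} (hij : i ≠ j) (hc : 2 * (Nat.card G * (S.a i * S.a j)) ≤ S.d) :
    ∃ p q : ℕ, (p + S.a j * Nat.card G) * S.a i + q * S.a j = e ∧
      p * S.a i + (q + S.a i * Nat.card G) * S.a j = e ∧
      S.α i ^ (p + S.a j * Nat.card G) * S.α j ^ q = χ ∧
      S.α i ^ p * S.α j ^ (q + S.a i * Nat.card G) = χ := by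
  obtain ⟨P, h, Q, s, -, hQ, hd, h1, h2, h3, h4, h10, h15, -, h5, h11⟩ := S.ineqs hN hE hij
  have h6 : 1 ≤ P * h := Nat.mul_pos h1 h2
  have h7 : P ≤ P * h := Nat.le_mul_of_pos_right _ h2
  obtain ⟨x, hx⟩ : ∃ x, P * h = x + 1 := ⟨P * h - 1, by omega⟩
  rw [hx] at h4 h7 hd
  have h8 : Q * (x + 1) = Q + Q * x := by ring
  rw [← hQ, hd, h8] at hc
  obtain ⟨y, hy⟩ : ∃ y, x = y + 1 := by
    rcases Nat.eq_zero_or_pos x with h0 | h0
    · rw [h0, mul_zero] at hc; omega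
    · exact ⟨x - 1, by omega⟩
  subst hy
  have h9 : Q * (y + 1) = Q + Q * y := by ring
  have h12 : 2 * y ≤ Q * y := Nat.mul_le_mul_right y h5
  obtain ⟨p, q, h13, h14⟩ := S.rep2 hij (e - Q) χ (by rw [← hQ]; omega)
  have hQe : Q ≤ e := by omega
  have hα : ∀ (l : Fin N) (c : ℕ) (g : G), S.α l g ^ (c * Nat.card G) = 1 := by
    intro l c g
    rw [mul_comm c, pow_mul, ← map_pow, pow_card_eq_one', map_one, one_pow]
  refine ⟨p, q, ?_, ?_, ?_, ?_⟩
  · have : (p + S.a j * Nat.card G) * S.a i = p * S.a i + Nat.card G * (S.a i * S.a j) := by ring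
    omega
  · have : (q + S.a i * Nat.card G) * S.a j = q * S.a j + Nat.card G * (S.a i * S.a j) := by ring
    omega
  · rw [← h14]
    refine MonoidHom.ext fun g => ?_
    simp only [MonoidHom.mul_apply, MonoidHom.pow_apply, pow_add, hα, mul_one]
  · rw [← h14]
    refine MonoidHom.ext fun g => ?_
    simp only [MonoidHom.mul_apply, MonoidHom.pow_apply, pow_add, hα, mul_one]

/-- there is a section of the form `x_i ^ p * x_j ^ q` which does not vanish at `v` -/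
theorem exists_ne (hN : 2 ≤ N) {e : ℕ} (hE : S.d ≤ e + ∑ l, (S.a l - 1)) (χ : G →* ℂˣ)
    {v : Fin N → ℂ} (hv0 : v ≠ 0) (hv : eval v S.f = 0) :
    ∃ F, S.Sec e χ F ∧ eval v F ≠ 0 := by
  obtain ⟨i, hi⟩ : ∃ i, v i ≠ 0 := by
    by_contra hc
    push Not at hc
    exact hv0 (funext hc)
  obtain ⟨j, hji, hj⟩ := S.two hv0 hv hi
  obtain ⟨p, q, h1, h2⟩ := S.mono2 hN hE χ hji.symm
  refine ⟨X i ^ p * X j ^ q, ?_, ?_⟩
  · rw [← h1, ← h2]
    exact S.sec2 i j p q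
  · rw [map_mul, map_pow, map_pow, eval_X, eval_X]
    exact mul_ne_zero (pow_ne_zero _ hi) (pow_ne_zero _ hj)

/-- a section nonzero at `v` and zero at `w` contradicts the cross relation -/
theorem no_sep (hN : 2 ≤ N) {e : ℕ} (hE : S.d ≤ e + ∑ l, (S.a l - 1)) {χ : G →* ℂˣ}
    {v w : Fin N → ℂ} (hw0 : w ≠ 0) (hw : eval w S.f = 0)
    (hX : ∀ F F', S.Sec e χ F → S.Sec e χ F' → eval v F' * eval w F = eval v F * eval w F')
    {F : MvPolynomial (Fin N) ℂ} (hF : S.Sec e χ F) (h1 : eval v F ≠ 0) (h2 : eval w F = 0) :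
    False := by
  obtain ⟨F', hF', h3⟩ := S.exists_ne hN hE χ hw0 hw
  have h4 := hX F F' hF hF'
  rw [h2, mul_zero] at h4
  exact mul_ne_zero h1 h3 h4.symm

theorem supp_le (hN : 3 ≤ N) {e : ℕ} (hE : S.d ≤ e + ∑ l, (S.a l - 1)) {χ : G →* ℂˣ}
    {v w : Fin N → ℂ} (hv0 : v ≠ 0) (hv : eval v S.f = 0) (hw0 : w ≠ 0) (hw : eval w S.f = 0)
    (hX : ∀ F F', S.Sec e χ F → S.Sec e χ F' → eval v F' * eval w F = eval v F * eval w F')
    {i : Fin N} (hi : v i ≠ 0) : w i ≠ 0 := by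
  intro hwi
  have hN2 : 2 ≤ N := by omega
  have hX' : ∀ F F', S.Sec e χ F → S.Sec e χ F' →
      eval w F' * eval v F = eval w F * eval v F' := by
    intro F F' hF hF'
    have := hX F' F hF' hF
    linear_combination this
  obtain ⟨j, hji, hj⟩ := S.two hv0 hv hi
  have hij := hji.symm
  by_cases hgood : S.a i = 1 ∨ 2 * (Nat.card G * (S.a i * S.a j)) ≤ S.d
  · obtain ⟨p, q, h1, h2⟩ := S.mono2' hN2 hE χ hij hgood
    have h3 := S.sec2 i j (p + 1) q
    rw [h1, h2] at h3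
    refine S.no_sep hN2 hE hw0 hw hX h3 ?_ ?_
    · rw [map_mul, map_pow, map_pow, eval_X, eval_X]
      exact mul_ne_zero (pow_ne_zero _ hi) (pow_ne_zero _ hj)
    · rw [map_mul, map_pow, map_pow, eval_X, eval_X, hwi, zero_pow (by omega), zero_mul]
  · push Not at hgood
    by_cases hthird : ∃ l, l ≠ i ∧ l ≠ j ∧ v l ≠ 0
    · obtain ⟨l, hli, hlj, hl⟩ := hthird
      obtain ⟨p, q, h1, h2⟩ := S.mono3 hN2 hE χ (i := j) (j := l) (l := i) hlj.symm hij hli.symm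
      have h3 := S.sec3 i j l p q
      rw [h1, h2] at h3
      refine S.no_sep hN2 hE hw0 hw hX h3 ?_ ?_
      · rw [map_mul, map_mul, map_pow, map_pow, eval_X, eval_X, eval_X]
        exact mul_ne_zero hi (mul_ne_zero (pow_ne_zero _ hj) (pow_ne_zero _ hl))
      · rw [map_mul, eval_X, hwi, zero_mul]
    · push Not at hthird
      -- a coordinate of `w` outside `{i, j}`
      obtain ⟨l, hli, hlj, hl⟩ : ∃ l, l ≠ i ∧ l ≠ j ∧ w l ≠ 0 := by
        obtain ⟨l, hl⟩ : ∃ l, w l ≠ 0 := by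
          by_contra hc
          push Not at hc
          exact hw0 (funext hc)
        obtain ⟨l', hll', hl'⟩ := S.two hw0 hw hl
        have h1 : l ≠ i := fun h => hl (by rw [h, hwi])
        have h2 : l' ≠ i := fun h => hl' (by rw [h, hwi])
        by_cases h3 : l = j
        · exact ⟨l', h2, fun h => hll' (by rw [h, h3]), hl'⟩
        · exact ⟨l, h1, h3, hl⟩
      obtain ⟨l', hll', hl'⟩ := S.two hw0 hw hl
      have hal : S.a l = 1 := by
        obtain ⟨P, h, Q, s, -, hQ, hd, h1, h2, h3, h4, h10, h15, -, h5, h11⟩ :=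
          S.ineqs hN2 hE hij
        have h6 := hgood.2
        rw [← hQ, hd] at h6
        have h7 : P * h < 2 := by
          by_contra hcon
          push Not at hcon
          have h8 : Q * 2 ≤ Q * (P * h) := Nat.mul_le_mul_left _ hcon
          omega
        have h8 : P ≤ P * h := Nat.le_mul_of_pos_right _ h2
        have h9 := h10 l hli hlj
        have h12 := S.pos l
        omega
      obtain ⟨p, q, h1, h2⟩ := S.mono2' hN2 hE χ hll'.symm (Or.inl hal)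
      have h3 := S.sec2 l l' (p + 1) q
      rw [h1, h2] at h3
      refine S.no_sep hN2 hE hv0 hv hX' h3 ?_ ?_
      · rw [map_mul, map_pow, map_pow, eval_X, eval_X]
        exact mul_ne_zero (pow_ne_zero _ hl) (pow_ne_zero _ hl')
      · rw [map_mul, map_pow, map_pow, eval_X, eval_X, hthird l hli hlj,
          zero_pow (by omega), zero_mul]

/-- the element of `ℂˣ × G` with given values of two of the coordinate characters -/
theorem lift {i j : Fin N} (hij : i ≠ j) {x y : ℂˣ}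
    (hxy : x ^ (S.a j * Nat.card G) = y ^ (S.a i * Nat.card G)) :
    ∃ (t : ℂˣ) (g : G), t ^ S.a i * S.α i g = x ∧ t ^ S.a j * S.α j g = y := by
  obtain ⟨t0, ht0⟩ := exists_root (S.pos i) x
  obtain ⟨b0, hb0, hζ⟩ := gen (S.pos i) (S.lineFree hij)
  have hM : 0 < Nat.card G * S.a i := Nat.mul_pos Nat.card_pos (S.pos i)
  have _ : NeZero (Nat.card G * S.a i) := ⟨hM.ne'⟩
  have h1 : ((t0 ^ S.a j)⁻¹ * y) ^ (Nat.card G * S.a i) = 1 := by
    rw [mul_pow, inv_pow, ← pow_mul]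
    have h2 : t0 ^ (S.a j * (Nat.card G * S.a i)) = x ^ (S.a j * Nat.card G) := by
      rw [← ht0, ← pow_mul]
      congr 1
      ring
    rw [h2, hxy, mul_comm (Nat.card G), inv_mul_cancel]
  have h2 : ((((t0 ^ S.a j)⁻¹ * y : ℂˣ)) : ℂ) ^ (Nat.card G * S.a i) = 1 := by
    rw [← Units.val_pow_eq_pow_val, h1, Units.val_one]
  obtain ⟨q, -, hq2⟩ := (IsPrimitiveRoot.coe_units_iff.2 hζ).eq_pow_of_pow_eq_one h2
  have h3 : (phi (S.a j) (S.α j) b0) ^ q = (t0 ^ S.a j)⁻¹ * y :=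
    Units.ext (by rw [Units.val_pow_eq_pow_val]; exact hq2)
  have h4 : phi (S.a i) (S.α i) ((b0 : ℂˣ × G) ^ q) = 1 := by
    rw [map_pow]
    have : phi (S.a i) (S.α i) (b0 : ℂˣ × G) = 1 := b0.2
    rw [this, one_pow]
  have h5 : phi (S.a j) (S.α j) ((b0 : ℂˣ × G) ^ q) = (t0 ^ S.a j)⁻¹ * y := by
    rw [map_pow, h3]
  refine ⟨t0 * ((b0 : ℂˣ × G) ^ q).1, ((b0 : ℂˣ × G) ^ q).2, ?_, ?_⟩
  · rw [phi_apply] at h4
    rw [mul_pow, mul_assoc, h4, mul_one, ht0]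
  · rw [phi_apply] at h5
    rw [mul_pow, mul_assoc, h5, mul_inv_cancel_left]

/-- the conclusion from the relation for one pair of coordinates -/
theorem finish (hN : 2 ≤ N) {e : ℕ} (hE : S.d ≤ e + ∑ l, (S.a l - 1)) {χ : G →* ℂˣ}
    {v w : Fin N → ℂ}
    (hX : ∀ F F', S.Sec e χ F → S.Sec e χ F' → eval v F' * eval w F = eval v F * eval w F')
    (hsupp : ∀ l, v l = 0 ↔ w l = 0) {i j : Fin N} (hij : i ≠ j) (hi : v i ≠ 0) (hj : v j ≠ 0)
    (hrel : (w i / v i) ^ (S.a j * Nat.card G) = (w j / v j) ^ (S.a i * Nat.card G)) :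
    ∃ (t : ℂˣ) (g : G), ∀ l, w l = (t : ℂ) ^ S.a l * (S.α l g : ℂ) * v l := by
  have hwi : w i ≠ 0 := fun h => hi ((hsupp i).2 h)
  have hwj : w j ≠ 0 := fun h => hj ((hsupp j).2 h)
  obtain ⟨t, g, h1, h2⟩ := S.lift hij (x := Units.mk0 (w i / v i) (div_ne_zero hwi hi))
    (y := Units.mk0 (w j / v j) (div_ne_zero hwj hj)) (Units.ext (by
      rw [Units.val_pow_eq_pow_val, Units.val_pow_eq_pow_val, Units.val_mk0, Units.val_mk0, hrel]))
  have h3 : w i = (t : ℂ) ^ S.a i * (S.α i g : ℂ) * v i := by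
    have := congrArg (Units.val : ℂˣ → ℂ) h1
    rw [Units.val_mul, Units.val_pow_eq_pow_val, Units.val_mk0] at this
    rw [this, div_mul_cancel₀ _ hi]
  have h4 : w j = (t : ℂ) ^ S.a j * (S.α j g : ℂ) * v j := by
    have := congrArg (Units.val : ℂˣ → ℂ) h2
    rw [Units.val_mul, Units.val_pow_eq_pow_val, Units.val_mk0] at this
    rw [this, div_mul_cancel₀ _ hj]
  refine ⟨t, g, fun l => ?_⟩
  by_cases hl : v l = 0
  · rw [hl, mul_zero]
    exact (hsupp l).1 hl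
  by_cases hli : l = i
  · rw [hli]; exact h3
  by_cases hlj : l = j
  · rw [hlj]; exact h4
  obtain ⟨p, q, h5, h6⟩ := S.mono2 hN hE χ hij
  obtain ⟨p', q', h7, h8⟩ := S.mono3 hN hE χ hij hli hlj
  have h9 := S.sec2 i j p q
  rw [h5, h6] at h9
  have h10 := S.sec3 l i j p' q'
  rw [h7, h8] at h10
  have h11 := hX _ _ h10 h9
  -- values of the monomials at `w`
  have h12 : eval w (X i ^ p * X j ^ q : MvPolynomial (Fin N) ℂ) =
      (t : ℂ) ^ e * (χ g : ℂ) * eval v (X i ^ p * X j ^ q : MvPolynomial (Fin N) ℂ) := by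
    have h13 : eval (fun l => (t : ℂ) ^ S.a l * ((S.α l g : ℂ) * v l))
        (X i ^ p * X j ^ q : MvPolynomial (Fin N) ℂ) = (t : ℂ) ^ e * ((χ g : ℂ) *
          eval v (X i ^ p * X j ^ q : MvPolynomial (Fin N) ℂ)) := by
      rw [eval_scale S.a _ _ h9.1, h9.2]
    rw [mul_assoc, ← h13]
    simp only [map_mul, map_pow, eval_X]
    rw [h3, h4]
    simp only [mul_assoc]
  have h13 : eval v (X i ^ p * X j ^ q : MvPolynomial (Fin N) ℂ) ≠ 0 := by
    rw [map_mul, map_pow, map_pow, eval_X, eval_X]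
    exact mul_ne_zero (pow_ne_zero _ hi) (pow_ne_zero _ hj)
  rw [h12] at h11
  have h14 : eval w (X l * (X i ^ p' * X j ^ q') : MvPolynomial (Fin N) ℂ) =
      (t : ℂ) ^ e * (χ g : ℂ) * eval v (X l * (X i ^ p' * X j ^ q')) := by
    apply mul_left_cancel₀ h13
    rw [h11]
    ring
  have h15 : eval (fun l => (t : ℂ) ^ S.a l * ((S.α l g : ℂ) * v l))
      (X l * (X i ^ p' * X j ^ q') : MvPolynomial (Fin N) ℂ) = (t : ℂ) ^ e * ((χ g : ℂ) *
        eval v (X l * (X i ^ p' * X j ^ q') : MvPolynomial (Fin N) ℂ)) := by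
    rw [eval_scale S.a _ _ h10.1, h10.2]
  rw [mul_assoc, ← h15] at h14
  simp only [map_mul, map_pow, eval_X] at h14
  rw [h3, h4] at h14
  have h16 : (((t : ℂ) ^ S.a i * (S.α i g : ℂ) * v i) ^ p' *
      ((t : ℂ) ^ S.a j * (S.α j g : ℂ) * v j) ^ q') ≠ 0 :=
    mul_ne_zero (pow_ne_zero _ (by rw [← h3]; exact hwi)) (pow_ne_zero _ (by rw [← h4]; exact hwj))
  apply mul_right_cancel₀ h16
  rw [h14]
  simp only [mul_assoc]

end Hyp

end Pool.Agent.X213.Fwp
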