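import Pool.Agent.X213.FwpPts
import Pool.Agent.TH144.MB.Hyper

/-!
# Points and tangent vectors on hypersurfaces in fake weighted projective spaces
-/

set_option autoImplicit false

namespace Pool.Agent.X213.Fwp

open MvPolynomial
open Pool.Agent.H39R2.Fuj (eval_scale dd dd_sub dd_mul dd_C dd_X dd_pow dd_smul dd_euler)
open Pool.Agent.TH144.MB (res eval_res derivative_res)

namespace Hyp

variable {G : Type} [Group G] {N : ℕ} (S : Hyp G N)

/-- the point with coordinates `x`, `y` at `i`, `j` -/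
def pt (i j : Fin N) (x y : ℂ) : Fin N → ℂ := fun l => if l = i then x else if l = j then y else 0

omit S in
theorem pt_eq {i j : Fin N} (hij : i ≠ j) (x y : ℂ) :
    pt i j x y = fun l => (Pi.single i x : Fin N → ℂ) l + (Pi.single j y : Fin N → ℂ) l := by
  funext l
  unfold pt
  by_cases h1 : l = i
  · subst h1
    rw [if_pos rfl, Pi.single_eq_same, Pi.single_eq_of_ne hij, add_zero]
  · rw [if_neg h1, Pi.single_eq_of_ne h1, zero_add]
    by_cases h2 : l = j
    · subst h2
      rw [if_pos rfl, Pi.single_eq_same]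
    · rw [if_neg h2, Pi.single_eq_of_ne h2]

theorem natDegree_le (i j : Fin N) (hij : i ≠ j) {M : ℕ} (hM : S.d = S.a j * M) (x y : ℂ) :
    (res (Pi.single i x) (Pi.single j y) S.f).natDegree ≤ M := by
  unfold res
  rw [aeval_def, eval₂_eq']
  refine Polynomial.natDegree_sum_le_of_forall_le _ _ fun m hm => ?_
  have hw := S.hf (mem_support_iff.mp hm)
  rw [Finsupp.weight_apply, Finsupp.sum_fintype _ _ (by simp)] at hw
  have h1 : S.a j * m j ≤ S.d := by
    rw [← hw]
    have h2 := Finset.single_le_sum (f := fun l => m l • S.a l) (fun _ _ => Nat.zero_le _)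
      (Finset.mem_univ j)
    simp only [smul_eq_mul] at h2
    rw [mul_comm]
    exact h2
  have h2 : m j ≤ M := by
    rw [hM] at h1
    exact Nat.le_of_mul_le_mul_left h1 (S.pos j)
  refine le_trans ?_ h2
  have h3 : (algebraMap ℂ (Polynomial ℂ)) (coeff m S.f) = Polynomial.C (coeff m S.f) := rfl
  rw [h3]
  refine (Polynomial.natDegree_C_mul_le _ _).trans ((Polynomial.natDegree_prod_le _ _).trans ?_)
  have h4 : ∀ l, ((Polynomial.C ((Pi.single i x : Fin N → ℂ) l) +
      Polynomial.C ((Pi.single j y : Fin N → ℂ) l) * Polynomial.X) ^ m l).natDegree ≤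
      if l = j then m j else 0 := by
    intro l
    refine Polynomial.natDegree_pow_le.trans ?_
    by_cases hl : l = j
    · subst hl
      rw [if_pos rfl]
      have h5 : (Polynomial.C ((Pi.single i x : Fin N → ℂ) l) +
          Polynomial.C ((Pi.single l y : Fin N → ℂ) l) * Polynomial.X).natDegree ≤ 1 := by
        refine (Polynomial.natDegree_add_le _ _).trans ?_
        rw [Polynomial.natDegree_C]
        exact max_le (Nat.zero_le _)
          ((Polynomial.natDegree_C_mul_le _ _).trans Polynomial.natDegree_X_le)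
      calc _ ≤ m l * 1 := Nat.mul_le_mul_left _ h5
        _ = m l := mul_one _
    · rw [if_neg hl, Pi.single_eq_of_ne hl, map_zero, zero_mul, add_zero, Polynomial.natDegree_C,
        mul_zero]
  calc _ ≤ ∑ l, (if l = j then m j else 0) := Finset.sum_le_sum fun l _ => h4 l
    _ = m j := by simp

variable [Nontrivial G]

theorem single_ne' {i : Fin N} {x : ℂ} (hx : x ≠ 0) :
    eval (Pi.single i x : Fin N → ℂ) S.f ≠ 0 := by
  obtain ⟨t, ht⟩ := exists_root (S.pos i) (Units.mk0 x hx)
  have h1 : (Pi.single i x : Fin N → ℂ) =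
      fun l => (t : ℂ) ^ S.a l * (Pi.single i (1 : ℂ) : Fin N → ℂ) l := by
    funext l
    by_cases hl : l = i
    · subst hl
      rw [← Units.val_pow_eq_pow_val, ht, Pi.single_eq_same, Pi.single_eq_same, mul_one,
        Units.val_mk0]
    · rw [Pi.single_eq_of_ne hl, Pi.single_eq_of_ne hl, mul_zero]
  rw [h1, eval_scale S.a _ _ S.hf]
  exact mul_ne_zero (pow_ne_zero _ t.ne_zero) (S.single_ne i)

variable [Finite G]

/-- if `d = |G| a_i a_j`, the restriction of `f` to the coordinate line is a binomial -/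
theorem line_poly {i j : Fin N} (hij : i ≠ j)
    (hd : S.d = Nat.card G * (S.a i * S.a j)) {x y : ℂ} (hx : x ≠ 0)
    (h0 : eval (pt i j x y) S.f = 0) :
    ∃ c : ℂ, c ≠ 0 ∧ res (Pi.single i x) (Pi.single j y) S.f =
      Polynomial.C c * (Polynomial.X ^ (Nat.card G * S.a i) - 1) := by
  classical
  set M := Nat.card G * S.a i with hM
  have hM0 : 0 < M := Nat.mul_pos Nat.card_pos (S.pos i)
  have _ : NeZero M := ⟨hM0.ne'⟩
  set h := res (Pi.single i x) (Pi.single j y) S.f with hh
  have hdeg : h.natDegree ≤ M := S.natDegree_le i j hij (by rw [hd, hM]; ring) x y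
  have hev : ∀ s, h.eval s = eval (pt i j x (s * y)) S.f := by
    intro s
    rw [hh, eval_res, pt_eq hij]
    congr 2
    funext l
    by_cases hl : l = j
    · subst hl
      rw [Pi.single_eq_same, Pi.single_eq_same]
    · rw [Pi.single_eq_of_ne hl, Pi.single_eq_of_ne hl, mul_zero]
  obtain ⟨b0, hb0, hζ⟩ := gen (S.pos i) (S.lineFree hij)
  have hroot : ∀ z : ℂ, z ^ M = 1 → h.eval z = 0 := by
    intro z hz
    obtain ⟨q, -, hq⟩ := (IsPrimitiveRoot.coe_units_iff.2 hζ).eq_pow_of_pow_eq_one hz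
    have h4 : phi (S.a i) (S.α i) ((b0 : ℂˣ × G) ^ q) = 1 := by
      rw [map_pow]
      have : phi (S.a i) (S.α i) (b0 : ℂˣ × G) = 1 := b0.2
      rw [this, one_pow]
    have h5 : ((phi (S.a j) (S.α j) ((b0 : ℂˣ × G) ^ q) : ℂˣ) : ℂ) = z := by
      rw [map_pow, Units.val_pow_eq_pow_val]
      exact hq
    rw [phi_apply] at h4 h5
    set t := ((b0 : ℂˣ × G) ^ q).1
    set g := ((b0 : ℂˣ × G) ^ q).2
    have h6 : (t : ℂ) ^ S.a i * (S.α i g : ℂ) = 1 := by
      rw [← Units.val_pow_eq_pow_val, ← Units.val_mul, h4, Units.val_one]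
    rw [Units.val_mul, Units.val_pow_eq_pow_val] at h5
    have h7 : pt i j x (z * y) = fun l => (t : ℂ) ^ S.a l * ((S.α l g : ℂ) * pt i j x y l) := by
      funext l
      unfold pt
      by_cases h8 : l = i
      · subst h8
        rw [if_pos rfl, if_pos rfl, ← mul_assoc, h6, one_mul]
      · rw [if_neg h8, if_neg h8]
        by_cases h9 : l = j
        · subst h9
          rw [if_pos rfl, if_pos rfl, ← mul_assoc, h5]
        · rw [if_neg h9, if_neg h9, mul_zero, mul_zero]
    rw [hev, h7, eval_scale S.a _ _ S.hf, S.hθ, h0, mul_zero, mul_zero]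
  refine ⟨h.coeff M, ?_, ?_⟩
  swap
  · have h1 : h - Polynomial.C (h.coeff M) * (Polynomial.X ^ M - 1) = 0 := by
      refine Polynomial.eq_zero_of_degree_lt_of_eval_finset_eq_zero
        (Polynomial.nthRootsFinset M (1 : ℂ)) ?_ ?_
      · rw [IsPrimitiveRoot.card_nthRootsFinset (IsPrimitiveRoot.coe_units_iff.2 hζ),
          Polynomial.degree_lt_iff_coeff_zero]
        intro m hm
        rw [Polynomial.coeff_sub, Polynomial.coeff_C_mul, Polynomial.coeff_sub,
          Polynomial.coeff_X_pow, Polynomial.coeff_one]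
        rcases eq_or_lt_of_le hm with h2 | h2
        · rw [if_pos h2.symm, if_neg (by omega), ← h2]
          ring
        · rw [if_neg (by omega), if_neg (by omega),
            Polynomial.coeff_eq_zero_of_natDegree_lt (by omega)]
          ring
      · intro z hz
        rw [Polynomial.mem_nthRootsFinset hM0] at hz
        rw [Polynomial.eval_sub, hroot z hz, Polynomial.eval_mul, Polynomial.eval_sub,
          Polynomial.eval_pow, Polynomial.eval_X, Polynomial.eval_one, hz]
        ring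
    exact sub_eq_zero.1 h1
  · intro hc
    have h1 : h - Polynomial.C (h.coeff M) * (Polynomial.X ^ M - 1) = 0 := by
      refine Polynomial.eq_zero_of_degree_lt_of_eval_finset_eq_zero
        (Polynomial.nthRootsFinset M (1 : ℂ)) ?_ ?_
      · rw [IsPrimitiveRoot.card_nthRootsFinset (IsPrimitiveRoot.coe_units_iff.2 hζ),
          Polynomial.degree_lt_iff_coeff_zero]
        intro m hm
        rw [Polynomial.coeff_sub, Polynomial.coeff_C_mul, Polynomial.coeff_sub,
          Polynomial.coeff_X_pow, Polynomial.coeff_one]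
        rcases eq_or_lt_of_le hm with h2 | h2
        · rw [if_pos h2.symm, if_neg (by omega), ← h2]
          ring
        · rw [if_neg (by omega), if_neg (by omega),
            Polynomial.coeff_eq_zero_of_natDegree_lt (by omega)]
          ring
      · intro z hz
        rw [Polynomial.mem_nthRootsFinset hM0] at hz
        rw [Polynomial.eval_sub, hroot z hz, Polynomial.eval_mul, Polynomial.eval_sub,
          Polynomial.eval_pow, Polynomial.eval_X, Polynomial.eval_one, hz]
        ring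
    rw [hc, map_zero, zero_mul, sub_zero] at h1
    have h2 := hev 0
    rw [h1, Polynomial.eval_zero, zero_mul] at h2
    refine S.single_ne' (i := i) hx ?_
    rw [h2]
    congr 2
    funext l
    unfold pt
    by_cases hl : l = i
    · subst hl
      rw [if_pos rfl, Pi.single_eq_same]
    · rw [if_neg hl, Pi.single_eq_of_ne hl]
      split_ifs <;> rfl

omit [Nontrivial G] in
theorem eq_pt {v : Fin N → ℂ} {i j : Fin N} (hij : i ≠ j)
    (h : ∀ l, l ≠ i → l ≠ j → v l = 0) : v = pt i j (v i) (v j) := by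
  funext l
  unfold pt
  by_cases h1 : l = i
  · rw [if_pos h1, h1]
  · rw [if_neg h1]
    by_cases h2 : l = j
    · rw [if_pos h2, h2]
    · rw [if_neg h2, h l h1 h2]

theorem rel_line {v w : Fin N → ℂ} (hv : eval v S.f = 0) (hw : eval w S.f = 0) {i j : Fin N}
    (hij : i ≠ j) (hvs : ∀ l, l ≠ i → l ≠ j → v l = 0) (hws : ∀ l, l ≠ i → l ≠ j → w l = 0)
    (hi : v i ≠ 0) (hj : v j ≠ 0) (hwi : w i ≠ 0)
    (hd : S.d = Nat.card G * (S.a i * S.a j)) :
    (w i / v i) ^ (S.a j * Nat.card G) = (w j / v j) ^ (S.a i * Nat.card G) := by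
  rw [eq_pt hij hvs] at hv
  obtain ⟨c, hc, hp⟩ := S.line_poly hij hd hi hv
  obtain ⟨t, ht⟩ := exists_root (S.pos i) (Units.mk0 (w i / v i) (div_ne_zero hwi hi))
  have ht' : (t : ℂ) ^ S.a i = w i / v i := by
    rw [← Units.val_pow_eq_pow_val, ht, Units.val_mk0]
  set s : ℂ := (w j / v j) / (t : ℂ) ^ S.a j with hs
  have htj : (t : ℂ) ^ S.a j ≠ 0 := pow_ne_zero _ t.ne_zero
  have h1 : w = fun l => (t : ℂ) ^ S.a l *
      ((Pi.single i (v i) : Fin N → ℂ) l + s * (Pi.single j (v j) : Fin N → ℂ) l) := by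
    funext l
    by_cases h1 : l = i
    · subst h1
      rw [Pi.single_eq_same, Pi.single_eq_of_ne hij, mul_zero, add_zero, ht', div_mul_cancel₀ _ hi]
    · by_cases h2 : l = j
      · subst h2
        rw [Pi.single_eq_of_ne h1, zero_add, Pi.single_eq_same, hs]
        field_simp
      · rw [Pi.single_eq_of_ne h1, Pi.single_eq_of_ne h2, mul_zero, add_zero, mul_zero,
          hws l h1 h2]
  rw [h1, eval_scale S.a _ _ S.hf, ← eval_res, hp, Polynomial.eval_mul, Polynomial.eval_C,
    Polynomial.eval_sub, Polynomial.eval_pow, Polynomial.eval_X, Polynomial.eval_one] at hw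
  have h2 : s ^ (Nat.card G * S.a i) = 1 := by
    rcases mul_eq_zero.1 hw with h | h
    · exact absurd h (pow_ne_zero _ t.ne_zero)
    · rcases mul_eq_zero.1 h with h | h
      · exact absurd h hc
      · exact sub_eq_zero.1 h
  rw [hs, div_pow, div_eq_one_iff_eq (pow_ne_zero _ htj)] at h2
  rw [mul_comm (S.a i), h2, ← ht', ← pow_mul, ← pow_mul]
  congr 1
  ring

theorem rel_two (hN : 2 ≤ N) {e : ℕ} (hE : S.d ≤ e + ∑ l, (S.a l - 1)) {χ : G →* ℂˣ}
    {v w : Fin N → ℂ}
    (hX : ∀ F F', S.Sec e χ F → S.Sec e χ F' → eval v F' * eval w F = eval v F * eval w F')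
    {i j : Fin N} (hij : i ≠ j) (hi : v i ≠ 0) (hj : v j ≠ 0) (hwi : w i ≠ 0) (hwj : w j ≠ 0)
    (hc : 2 * (Nat.card G * (S.a i * S.a j)) ≤ S.d) :
    (w i / v i) ^ (S.a j * Nat.card G) = (w j / v j) ^ (S.a i * Nat.card G) := by
  obtain ⟨p, q, h1, h2, h3, h4⟩ := S.mono22 hN hE χ hij hc
  have h5 := S.sec2 i j (p + S.a j * Nat.card G) q
  have h6 := S.sec2 i j p (q + S.a i * Nat.card G)
  rw [h1, h3] at h5
  rw [h2, h4] at h6
  have h7 := hX _ _ h5 h6
  simp only [map_mul, map_pow, eval_X, pow_add] at h7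
  rw [div_pow, div_pow, div_eq_div_iff (pow_ne_zero _ hi) (pow_ne_zero _ hj)]
  have h8 : v i ^ p * v j ^ q * (w i ^ p * w j ^ q) ≠ 0 :=
    mul_ne_zero (mul_ne_zero (pow_ne_zero _ hi) (pow_ne_zero _ hj))
      (mul_ne_zero (pow_ne_zero _ hwi) (pow_ne_zero _ hwj))
  apply mul_left_cancel₀ h8
  linear_combination h7

/-- a pair of coordinates in the support of `v` with `d ≥ 2 |G| a_i a_j`, or the support has two
elements and `d = |G| a_i a_j` -/
theorem exists_pair (hN : 3 ≤ N) (hB : ∃ l0, 2 ≤ S.a l0) {v : Fin N → ℂ} (hv0 : v ≠ 0)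
    (hv : eval v S.f = 0) : ∃ i j : Fin N, i ≠ j ∧ v i ≠ 0 ∧ v j ≠ 0 ∧
      (2 * (Nat.card G * (S.a i * S.a j)) ≤ S.d ∨
        (S.d = Nat.card G * (S.a i * S.a j) ∧ ∀ l, l ≠ i → l ≠ j → v l = 0)) := by
  have hN2 : 2 ≤ N := by omega
  obtain ⟨l0, hl0⟩ := hB
  obtain ⟨i, hi⟩ : ∃ i, v i ≠ 0 := by
    by_contra hc
    push Not at hc
    exact hv0 (funext hc)
  obtain ⟨j, hji, hj⟩ := S.two hv0 hv hi
  have key : ∀ i j : Fin N, i ≠ j → l0 ≠ i → l0 ≠ j →
      2 * (Nat.card G * (S.a i * S.a j)) ≤ S.d := by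
    intro i j hij h1 h2
    obtain ⟨P, Q, hP0, hQ, hdvd, hP, hsum⟩ := S.num hN2 hij
    obtain ⟨h, hh⟩ := hdvd
    have h3 : S.a l0 ∣ P := by
      rw [hP0]
      exact Finset.dvd_prod_of_mem _
        (Finset.mem_erase.2 ⟨h2, Finset.mem_erase.2 ⟨h1, Finset.mem_univ l0⟩⟩)
    have h4 : 2 ≤ P := hl0.trans (Nat.le_of_dvd (by omega) h3)
    have h5 : 1 ≤ h := by
      rcases Nat.eq_zero_or_pos h with h0 | h0
      · rw [h0, mul_zero] at hh
        have := S.hd
        omega
      · exact h0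
    rw [← hQ, hh]
    calc 2 * Q = Q * 2 * 1 := by ring
      _ ≤ Q * P * h := Nat.mul_le_mul (Nat.mul_le_mul_left _ h4) h5
  by_cases hthird : ∃ l, l ≠ i ∧ l ≠ j ∧ v l ≠ 0
  · obtain ⟨l, hli, hlj, hl⟩ := hthird
    by_cases h1 : l0 = i
    · subst h1
      exact ⟨j, l, hlj.symm, hj, hl, Or.inl (key _ _ hlj.symm hji.symm hli.symm)⟩
    by_cases h2 : l0 = j
    · subst h2
      exact ⟨i, l, hli.symm, hi, hl, Or.inl (key _ _ hli.symm h1 hlj.symm)⟩
    · exact ⟨i, j, hji.symm, hi, hj, Or.inl (key _ _ hji.symm h1 h2)⟩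
  · push Not at hthird
    refine ⟨i, j, hji.symm, hi, hj, ?_⟩
    obtain ⟨P, Q, hP0, hQ, hdvd, hP, hsum⟩ := S.num hN2 hji.symm
    obtain ⟨h, hh⟩ := hdvd
    rw [← hQ]
    rcases Nat.lt_or_ge (P * h) 2 with h1 | h1
    · right
      refine ⟨?_, fun l h2 h3 => hthird l h2 h3⟩
      have h2 : P * h ≠ 0 := by
        intro h0
        rw [mul_assoc, h0, mul_zero] at hh
        have := S.hd
        omega
      have h3 : P * h = 1 := by omega
      rw [hh, mul_assoc, h3, mul_one]
    · left
      rw [hh, mul_assoc]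
      calc 2 * Q = Q * 2 := by ring
        _ ≤ Q * (P * h) := Nat.mul_le_mul_left _ h1

theorem pts (hN : 3 ≤ N) {e : ℕ} (hE : S.d ≤ e + ∑ l, (S.a l - 1)) {χ : G →* ℂˣ}
    (hB : ∃ l0, 2 ≤ S.a l0) {v w : Fin N → ℂ} (hv0 : v ≠ 0) (hv : eval v S.f = 0) (hw0 : w ≠ 0)
    (hw : eval w S.f = 0) (H : ∀ F, S.Sec e χ F → eval v F = 0 → eval w F = 0) :
    ∃ (t : ℂˣ) (g : G), ∀ l, w l = (t : ℂ) ^ S.a l * (S.α l g : ℂ) * v l := by
  have hN2 : 2 ≤ N := by omega
  have hX : ∀ F F', S.Sec e χ F → S.Sec e χ F' →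
      eval v F' * eval w F = eval v F * eval w F' := by
    intro F F' hF hF'
    have h1 := H _ ((hF.C_mul (eval v F')).sub (hF'.C_mul (eval v F))) (by
      simp only [map_sub, map_mul, eval_C]
      ring)
    simp only [map_sub, map_mul, eval_C] at h1
    linear_combination h1
  have hX' : ∀ F F', S.Sec e χ F → S.Sec e χ F' →
      eval w F' * eval v F = eval w F * eval v F' := by
    intro F F' hF hF'
    have := hX F' F hF' hF
    linear_combination this
  have hsupp : ∀ l, v l = 0 ↔ w l = 0 := by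
    intro l
    constructor
    · intro h
      by_contra hcon
      exact S.supp_le hN hE hw0 hw hv0 hv hX' hcon h
    · intro h
      by_contra hcon
      exact S.supp_le hN hE hv0 hv hw0 hw hX hcon h
  obtain ⟨i, j, hij, hi, hj, hor⟩ := S.exists_pair hN hB hv0 hv
  have hwi : w i ≠ 0 := fun h => hi ((hsupp i).2 h)
  have hwj : w j ≠ 0 := fun h => hj ((hsupp j).2 h)
  refine S.finish hN2 hE hX hsupp hij hi hj ?_
  rcases hor with h | ⟨hd, hvs⟩
  · exact S.rel_two hN2 hE hX hij hi hj hwi hwj h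
  · exact S.rel_line hv hw hij hvs (fun l h1 h2 => (hsupp l).1 (hvs l h1 h2)) hi hj hwi hd

omit [Nontrivial G] [Finite G] in
theorem dd_mon {v u : Fin N → ℂ} {i j : Fin N} (hi : v i ≠ 0) (hj : v j ≠ 0) (p q : ℕ) :
    dd v u (X i ^ p * X j ^ q) = eval v (X i ^ p * X j ^ q : MvPolynomial (Fin N) ℂ) *
      (p * (u i / v i) + q * (u j / v j)) := by
  have h1 : ∀ (l : Fin N) (n : ℕ), v l ≠ 0 →
      (n : ℂ) * v l ^ (n - 1) * u l = v l ^ n * (n * (u l / v l)) := by
    intro l n hl
    rcases Nat.eq_zero_or_pos n with h | h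
    · subst h; simp
    · obtain ⟨m, rfl⟩ : ∃ m, n = m + 1 := ⟨n - 1, by omega⟩
      rw [Nat.add_sub_cancel, pow_succ]
      field_simp
  rw [dd_mul, dd_pow, dd_pow, dd_X, dd_X]
  simp only [map_mul, map_pow, eval_X]
  rw [h1 i p hi, h1 j q hj]
  ring

theorem tan (hN : 3 ≤ N) {e : ℕ} (hE : S.d ≤ e + ∑ l, (S.a l - 1)) {χ : G →* ℂˣ}
    (hB : ∃ l0, 2 ≤ S.a l0) {v u : Fin N → ℂ} (hv0 : v ≠ 0) (hv : eval v S.f = 0)
    (hu : dd v u S.f = 0) (H : ∀ F, S.Sec e χ F → eval v F = 0 → dd v u F = 0) :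
    ∃ κ : ℂ, ∀ l, u l = κ * (S.a l * v l) := by
  have hN2 : 2 ≤ N := by omega
  have hX : ∀ F F', S.Sec e χ F → S.Sec e χ F' →
      eval v F' * dd v u F = eval v F * dd v u F' := by
    intro F F' hF hF'
    have h1 := H _ ((hF.C_mul (eval v F')).sub (hF'.C_mul (eval v F))) (by
      simp only [map_sub, map_mul, eval_C]
      ring)
    rw [dd_sub, dd_smul, dd_smul] at h1
    linear_combination h1
  obtain ⟨i, j, hij, hi, hj, hor⟩ := S.exists_pair hN hB hv0 hv
  obtain ⟨p, q, h5, h6⟩ := S.mono2 hN2 hE χ hij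
  have h9 := S.sec2 i j p q
  rw [h5, h6] at h9
  have hF0 : eval v (X i ^ p * X j ^ q : MvPolynomial (Fin N) ℂ) ≠ 0 := by
    rw [map_mul, map_pow, map_pow, eval_X, eval_X]
    exact mul_ne_zero (pow_ne_zero _ hi) (pow_ne_zero _ hj)
  -- coordinates outside the support
  have hu0 : ∀ l, v l = 0 → u l = 0 := by
    intro l hl
    have hli : l ≠ i := fun h => hi (by rw [← h, hl])
    have hlj : l ≠ j := fun h => hj (by rw [← h, hl])
    obtain ⟨p', q', h7, h8⟩ := S.mono3 hN2 hE χ hij hli hlj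
    have h10 := S.sec3 l i j p' q'
    rw [h7, h8] at h10
    have h11 := H _ h10 (by rw [map_mul, eval_X, hl, zero_mul])
    rw [dd_mul, eval_X, hl, zero_mul, zero_add, dd_X] at h11
    rcases mul_eq_zero.1 h11 with h | h
    · rw [map_mul, map_pow, map_pow, eval_X, eval_X] at h
      exact absurd h (mul_ne_zero (pow_ne_zero _ hi) (pow_ne_zero _ hj))
    · exact h
  -- the relation for the pair
  have hrel : (S.a j : ℂ) * (u i / v i) = S.a i * (u j / v j) := by
    rcases hor with h | ⟨hd, hvs⟩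
    · obtain ⟨p', q', h1, h2, h3, h4⟩ := S.mono22 hN2 hE χ hij h
      have h7 := S.sec2 i j (p' + S.a j * Nat.card G) q'
      have h8 := S.sec2 i j p' (q' + S.a i * Nat.card G)
      rw [h1, h3] at h7
      rw [h2, h4] at h8
      have h10 := hX _ _ h7 h8
      rw [dd_mon hi hj, dd_mon hi hj] at h10
      have h11 : eval v (X i ^ (p' + S.a j * Nat.card G) * X j ^ q' : MvPolynomial (Fin N) ℂ) *
          eval v (X i ^ p' * X j ^ (q' + S.a i * Nat.card G) : MvPolynomial (Fin N) ℂ) ≠ 0 := by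
        simp only [map_mul, map_pow, eval_X]
        exact mul_ne_zero (mul_ne_zero (pow_ne_zero _ hi) (pow_ne_zero _ hj))
          (mul_ne_zero (pow_ne_zero _ hi) (pow_ne_zero _ hj))
      have h12 : ((p' + S.a j * Nat.card G : ℕ) : ℂ) * (u i / v i) + (q' : ℂ) * (u j / v j) =
          (p' : ℂ) * (u i / v i) + ((q' + S.a i * Nat.card G : ℕ) : ℂ) * (u j / v j) := by
        apply mul_left_cancel₀ h11
        linear_combination h10
      push_cast at h12
      have hG : (Nat.card G : ℂ) ≠ 0 := Nat.cast_ne_zero.2 Nat.card_pos.ne'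
      apply mul_left_cancel₀ hG
      linear_combination h12
    · -- the support is `{i, j}`
      have hv' := hv
      rw [eq_pt hij hvs] at hv'
      obtain ⟨c, hc, hp⟩ := S.line_poly hij hd hi hv'
      have hM : 0 < Nat.card G * S.a i := Nat.mul_pos Nat.card_pos (S.pos i)
      -- derivative at `1`
      have h1 := congrArg (fun P : Polynomial ℂ => (Polynomial.derivative P).eval 1) hp
      simp only [derivative_res] at h1
      rw [Polynomial.eval_finset_sum, Finset.sum_eq_single j] at h1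
      rotate_left
      · intro l _ hl
        rw [Pi.single_eq_of_ne hl]
        simp
      · intro h; exact absurd (Finset.mem_univ _) h
      have hpt : (fun k => (Pi.single i (v i) : Fin N → ℂ) k + 1 * (Pi.single j (v j) : Fin N → ℂ) k)
          = v := by
        have h2 := eq_pt hij hvs
        rw [pt_eq hij] at h2
        conv_rhs => rw [h2]
        funext k
        rw [one_mul]
      rw [Polynomial.eval_mul, eval_res, hpt, Pi.single_eq_same, Polynomial.eval_C] at h1
      simp only [Polynomial.derivative_mul, Polynomial.derivative_C, zero_mul, zero_add,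
        Polynomial.derivative_sub, Polynomial.derivative_X_pow, Polynomial.derivative_one, sub_zero,
        Polynomial.eval_mul, Polynomial.eval_C, Polynomial.eval_pow, Polynomial.eval_X,
        one_pow, mul_one] at h1
      have hXj : eval v (pderiv j S.f) * v j ≠ 0 := by
        rw [h1]
        exact mul_ne_zero hc (Nat.cast_ne_zero.2 hM.ne')
      -- Euler's formula and the tangent condition
      have h2 := dd_euler S.a v S.hf
      rw [hv, mul_zero] at h2
      have h3 : ∀ z : Fin N → ℂ, (∀ l, v l = 0 → z l = 0) →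
          dd v z S.f = eval v (pderiv i S.f) * z i + eval v (pderiv j S.f) * z j := by
        intro z hz
        unfold dd
        rw [← Finset.add_sum_erase Finset.univ _ (Finset.mem_univ i),
          ← Finset.add_sum_erase (Finset.univ.erase i) _
            (Finset.mem_erase.2 ⟨hij.symm, Finset.mem_univ j⟩), Finset.sum_eq_zero, add_zero]
        intro l hl
        have h4 := Finset.mem_erase.1 hl
        have h5 := Finset.mem_erase.1 h4.2
        rw [hz l (hvs l h5.1 h4.1), mul_zero]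
      rw [h3 _ (fun l hl => by rw [hl, mul_zero])] at h2
      rw [h3 u hu0] at hu
      apply mul_left_cancel₀ hXj
      field_simp
      linear_combination u i * h2 - (S.a i : ℂ) * v i * hu
  obtain ⟨κ, hκ⟩ : ∃ κ : ℂ, κ = (u i / v i) / S.a i := ⟨_, rfl⟩
  have hai : (S.a i : ℂ) ≠ 0 := Nat.cast_ne_zero.2 (S.pos i).ne'
  have hσi : u i / v i = κ * S.a i := by rw [hκ, div_mul_cancel₀ _ hai]
  have hσj : u j / v j = κ * S.a j := by
    apply mul_left_cancel₀ hai
    rw [← hrel, hσi]
    ring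
  refine ⟨κ, fun l => ?_⟩
  by_cases hl : v l = 0
  · rw [hl, hu0 l hl]
    ring
  by_cases hli : l = i
  · rw [hli]
    rw [div_eq_iff hi] at hσi
    rw [hσi]; ring
  by_cases hlj : l = j
  · rw [hlj]
    rw [div_eq_iff hj] at hσj
    rw [hσj]; ring
  obtain ⟨p', q', h7, h8⟩ := S.mono3 hN2 hE χ hij hli hlj
  have h10 := S.sec3 l i j p' q'
  rw [h7, h8] at h10
  have h11 := hX _ _ h10 h9
  have hXl : eval v (X l * (X i ^ p' * X j ^ q') : MvPolynomial (Fin N) ℂ) =
      v l * eval v (X i ^ p' * X j ^ q' : MvPolynomial (Fin N) ℂ) := by rw [map_mul, eval_X]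
  rw [dd_mul, dd_mon hi hj, dd_mon hi hj, hXl, eval_X, dd_X, hσi, hσj] at h11
  have h12 : eval v (X i ^ p' * X j ^ q' : MvPolynomial (Fin N) ℂ) ≠ 0 := by
    rw [map_mul, map_pow, map_pow, eval_X, eval_X]
    exact mul_ne_zero (pow_ne_zero _ hi) (pow_ne_zero _ hj)
  have h13 : (p : ℂ) * S.a i + q * S.a j = e := by
    rw [← h5]; push_cast; ring
  have h14 : (S.a l : ℂ) + (p' * S.a i + q' * S.a j) = e := by
    rw [← h7]; push_cast; ring
  apply mul_left_cancel₀ (mul_ne_zero hF0 h12)
  linear_combination h11 + eval v (X i ^ p * X j ^ q : MvPolynomial (Fin N) ℂ) *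
    eval v (X i ^ p' * X j ^ q' : MvPolynomial (Fin N) ℂ) * v l * κ * (h13 - h14)

end Hyp

end Pool.Agent.X213.Fwp
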