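import Pool.Agent.X213.GoodRel

namespace Pool.Agent.X213

open Set Cardinal

universe u

variable {G : Type u} [Group G]

/-- one step of the recursion -/
def stepRel (lam : G → G) (P : G → G → G → Prop) (x y z : G) : Prop :=
  P x y z ∨
  (lam x⁻¹ = lam y ∧ P (((lam x⁻¹)⁻¹ * x⁻¹)⁻¹) ((lam y)⁻¹ * y) z) ∨
  (lam y⁻¹ = lam z ∧ P x (((lam y⁻¹)⁻¹ * y⁻¹)⁻¹) ((lam z)⁻¹ * z)) ∨
  (lam z⁻¹ = lam x ∧ P ((lam x)⁻¹ * x) y (((lam z⁻¹)⁻¹ * z⁻¹)⁻¹))

/-- the recursion -/
def stepIter (lam : G → G) (P : G → G → G → Prop) : ℕ → G → G → G → Prop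
  | 0 => P
  | k + 1 => stepRel lam (stepIter lam P k)

theorem stepRel_sound {lam : G → G} {P : G → G → G → Prop}
    (hP : ∀ x y z, P x y z → x * y * z = 1) (x y z : G) (h : stepRel lam P x y z) :
    x * y * z = 1 := by
  rcases h with h | ⟨h1, h2⟩ | ⟨h1, h2⟩ | ⟨h1, h2⟩
  · exact hP _ _ _ h
  · have := hP _ _ _ h2
    rw [h1] at this
    calc x * y * z = ((lam y)⁻¹ * x⁻¹)⁻¹ * ((lam y)⁻¹ * y) * z := by group
      _ = 1 := this
  · have := hP _ _ _ h2
    rw [h1] at this
    calc x * y * z = x * ((lam z)⁻¹ * y⁻¹)⁻¹ * ((lam z)⁻¹ * z) := by group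
      _ = 1 := this
  · have := hP _ _ _ h2
    rw [h1] at this
    have h3 : z * x * y = 1 := by
      have h4 : (lam x)⁻¹ * (x * y * z) * lam x = 1 := by
        calc (lam x)⁻¹ * (x * y * z) * lam x
            = (lam x)⁻¹ * x * y * ((lam x)⁻¹ * z⁻¹)⁻¹ := by group
          _ = 1 := this
      have h5 : x * y * z = 1 := by
        have : x * y * z = lam x * ((lam x)⁻¹ * (x * y * z) * lam x) * (lam x)⁻¹ := by group
        rw [this, h4]
        group
      calc z * x * y = z * (x * y * z) * z⁻¹ := by group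
        _ = 1 := by rw [h5]; group
    calc x * y * z = z⁻¹ * (z * x * y) * z := by group
      _ = 1 := by rw [h3]; group

theorem stepIter_sound {lam : G → G} {P : G → G → G → Prop}
    (hP : ∀ x y z, P x y z → x * y * z = 1) (k : ℕ) : ∀ (x y z : G),
    stepIter lam P k x y z → x * y * z = 1 := by
  induction k with
  | zero => exact hP
  | succ k ih => exact fun x y z h => stepRel_sound ih x y z h

theorem stepRel_good (hG : #G ≤ 𝔠) {lam : G → G} {P : G → G → G → Prop} (hP : Good P) :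
    Good (stepRel lam P) := by
  obtain ⟨c, hc⟩ := exists_code hG
  have h12 := (good_eq12 (fun x => c (lam x⁻¹)) (fun y => c (lam y))).and
    (hP.comp (fun x => ((lam x⁻¹)⁻¹ * x⁻¹)⁻¹) (fun y => (lam y)⁻¹ * y) (fun z => z))
  have h23 := (good_eq23 (fun x => c (lam x⁻¹)) (fun y => c (lam y))).and
    (hP.comp (fun x => x) (fun y => ((lam y⁻¹)⁻¹ * y⁻¹)⁻¹) (fun z => (lam z)⁻¹ * z))
  have h31 := (good_eq31 (fun x => c (lam x⁻¹)) (fun y => c (lam y))).and
    (hP.comp (fun x => (lam x)⁻¹ * x) (fun y => y) (fun z => ((lam z⁻¹)⁻¹ * z⁻¹)⁻¹))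
  refine (hP.or (h12.or (h23.or h31))).congr (fun x y z => ?_)
  simp only [stepRel, hc.eq_iff]

theorem stepIter_good (hG : #G ≤ 𝔠) {lam : G → G} {P : G → G → G → Prop} (hP : Good P) (k : ℕ) :
    Good (stepIter lam P k) := by
  induction k with
  | zero => exact hP
  | succ k ih => exact stepRel_good hG ih

theorem good_subgroup (hG : #G ≤ 𝔠) (κ : Cardinal.{u}) : ∀ H : Subgroup G, #H = κ →
    Good (fun x y z : G => (x ∈ H ∧ y ∈ H ∧ z ∈ H) ∧ x * y * z = 1) := by
  classical
  induction κ using Cardinal.lt_wf.induction with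
  | h κ ih =>
  intro H hH
  rcases le_or_gt κ ℵ₀ with hc | hunc
  · -- countable subgroups
    have hcount : (H : Set G).Countable := by
      rw [← Cardinal.le_aleph0_iff_set_countable]
      exact (le_of_eq hH).trans hc
    apply Good.of_countable
    refine ((hcount.prod (hcount.prod hcount))).mono ?_
    rintro ⟨x, y, z⟩ ⟨⟨h1, h2, h3⟩, _⟩
    exact ⟨h1, h2, h3⟩
  · obtain ⟨ι, _, _, ρ, hι, hmul, hinv, hsmall⟩ := exists_rank H (hunc.trans_eq hH.symm)
    rw [hH] at hsmall hι
    have hρ1 : ∀ g ∈ H, ρ 1 ≤ ρ g := by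
      intro g hg
      have := hmul g hg g⁻¹ (inv_mem hg)
      rwa [mul_inv_cancel, hinv g hg, max_self] at this
    -- the balls
    let B : ι → Subgroup G := fun m =>
      { carrier := {g | g ∈ H ∧ ρ g ≤ max m (ρ 1)}
        mul_mem' := by
          rintro a b ⟨ha, ha'⟩ ⟨hb, hb'⟩
          exact ⟨mul_mem ha hb, (hmul a ha b hb).trans (max_le ha' hb')⟩
        one_mem' := ⟨one_mem H, le_max_right _ _⟩
        inv_mem' := by
          rintro a ⟨ha, ha'⟩
          refine ⟨inv_mem ha, ?_⟩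
          rw [hinv a ha]
          exact ha' }
    have hBgood : ∀ m, Good (fun x y z : G => (x ∈ B m ∧ y ∈ B m ∧ z ∈ B m) ∧ x * y * z = 1) := by
      intro m
      exact ih (#(B m)) (hsmall (max m (ρ 1))) (B m) rfl
    choose A A' A'' hA using hBgood
    obtain ⟨c, hc⟩ := exists_code (ι := ι) (by
      rw [hι, ← hH]
      exact (Cardinal.mk_subtype_le _).trans hG)
    -- the triples of the same rank
    let P : G → G → G → Prop := fun x y z =>
      (c (ρ x) = c (ρ y) ∧ c (ρ y) = c (ρ z)) ∧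
      ∃ k, ∀ n, ∃ i, x ∈ A (ρ x) k n i ∧ y ∈ A' (ρ y) k n i ∧ z ∈ A'' (ρ z) k n i
    have hPgood : Good P := by
      refine ((good_eq12 (fun x => c (ρ x)) (fun y => c (ρ y))).and
        (good_eq23 (fun x => c (ρ x)) (fun y => c (ρ y)))).and ?_
      exact ⟨fun k n i => {x | x ∈ A (ρ x) k n i}, fun k n i => {x | x ∈ A' (ρ x) k n i},
        fun k n i => {x | x ∈ A'' (ρ x) k n i}, fun x y z => Iff.rfl⟩
    have hPsound : ∀ x y z, P x y z → x * y * z = 1 := by
      rintro x y z ⟨⟨h1, h2⟩, h3⟩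
      have h1' := hc h1
      have h2' := hc h2
      rw [← h2', ← h1'] at h3
      exact ((hA (ρ x) x y z).2 h3).2
    have hPcomp : ∀ x ∈ H, ∀ y ∈ H, ∀ z ∈ H, ρ x = ρ y → ρ y = ρ z → x * y * z = 1 →
        P x y z := by
      intro x hx y hy z hz h1 h2 h3
      refine ⟨⟨by rw [h1], by rw [h2]⟩, ?_⟩
      rw [← h2, ← h1]
      apply (hA (ρ x) x y z).1
      refine ⟨⟨⟨hx, le_max_left _ _⟩, ⟨hy, ?_⟩, ⟨hz, ?_⟩⟩, h3⟩
      · rw [← h1]
        exact le_max_left _ _
      · rw [← h2, ← h1]
        exact le_max_left _ _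
    -- the coset relation
    let r : G → G → Prop := fun x y => x = y ∨ (x ∈ H ∧ y ∈ H ∧ ρ (x⁻¹ * y) < ρ x)
    have hrρ : ∀ x y, r x y → ρ x = ρ y := by
      rintro x y (rfl | ⟨hx, hy, h⟩)
      · rfl
      · have hxy : x⁻¹ * y ∈ H := mul_mem (inv_mem hx) hy
        have h1 : ρ y ≤ max (ρ x) (ρ (x⁻¹ * y)) := by
          have := hmul x hx _ hxy
          rwa [mul_inv_cancel_left] at this
        have h2 : ρ x ≤ max (ρ y) (ρ (x⁻¹ * y)) := by
          have := hmul y hy _ (inv_mem hxy)
          rw [hinv _ hxy] at this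
          have h3 : y * (x⁻¹ * y)⁻¹ = x := by group
          rwa [h3] at this
        rw [max_eq_left h.le] at h1
        rcases le_max_iff.1 h2 with h3 | h3
        · exact le_antisymm h3 h1
        · exact absurd h (not_lt.2 h3)
    have hrsymm : ∀ x y, r x y → r y x := by
      intro x y h
      have hρ := hrρ x y h
      rcases h with rfl | ⟨hx, hy, h⟩
      · exact Or.inl rfl
      · refine Or.inr ⟨hy, hx, ?_⟩
        have h3 : y⁻¹ * x = (x⁻¹ * y)⁻¹ := by group
        rw [h3, hinv _ (mul_mem (inv_mem hx) hy), ← hρ]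
        exact h
    have hrtrans : ∀ x y z, r x y → r y z → r x z := by
      intro x y z h h'
      have hρ := hrρ x y h
      rcases h with rfl | ⟨hx, hy, h⟩
      · exact h'
      rcases h' with rfl | ⟨_, hz, h'⟩
      · exact Or.inr ⟨hx, hy, h⟩
      · refine Or.inr ⟨hx, hz, ?_⟩
        have h3 : x⁻¹ * z = (x⁻¹ * y) * (y⁻¹ * z) := by group
        rw [h3]
        refine (hmul _ (mul_mem (inv_mem hx) hy) _ (mul_mem (inv_mem hy) hz)).trans_lt ?_
        refine max_lt h ?_
        rw [hρ]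
        exact h'
    let st : Setoid G := ⟨r, ⟨fun x => Or.inl rfl, fun {x y} => hrsymm x y,
      fun {x y z} => hrtrans x y z⟩⟩
    let lam : G → G := fun x => Quotient.out (Quotient.mk st x)
    have hlam : ∀ x, r (lam x) x := fun x => Quotient.mk_out (s := st) x
    have hlameq : ∀ x y, r x y → lam x = lam y := by
      intro x y h
      have : Quotient.mk st x = Quotient.mk st y := Quotient.sound h
      simp only [lam, this]
    -- the two residues
    have hsig : ∀ x ∈ H, (lam x)⁻¹ * x ∈ H ∧ ((lam x)⁻¹ * x = 1 ∨ ρ ((lam x)⁻¹ * x) < ρ x) := by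
      intro x hx
      have h1 := hlam x
      have h2 := hrρ _ _ h1
      rcases h1 with h1 | ⟨h1, _, h3⟩
      · rw [h1]
        simp only [inv_mul_cancel, true_or, and_true]
        exact one_mem H
      · refine ⟨mul_mem (inv_mem h1) hx, Or.inr ?_⟩
        rw [← h2]
        exact h3
    have htau : ∀ x ∈ H, ((lam x⁻¹)⁻¹ * x⁻¹)⁻¹ ∈ H ∧
        (((lam x⁻¹)⁻¹ * x⁻¹)⁻¹ = 1 ∨ ρ (((lam x⁻¹)⁻¹ * x⁻¹)⁻¹) < ρ x) := by
      intro x hx
      obtain ⟨h1, h2⟩ := hsig x⁻¹ (inv_mem hx)
      refine ⟨inv_mem h1, ?_⟩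
      rw [hinv _ h1]
      rcases h2 with h2 | h2
      · rw [h2]
        exact Or.inl inv_one
      · rw [hinv x hx] at h2
        exact Or.inr h2
    have hkey : ∀ x ∈ H, ∀ y ∈ H, ρ (x * y) < ρ x → lam x⁻¹ = lam y := by
      intro x hx y hy h
      apply hlameq
      refine Or.inr ⟨inv_mem hx, hy, ?_⟩
      rw [inv_inv, hinv x hx]
      exact h
    -- completeness
    have hcomp : ∀ M : ι, ∀ x ∈ H, ∀ y ∈ H, ∀ z ∈ H, x * y * z = 1 →
        max (ρ x) (max (ρ y) (ρ z)) = M → ∃ k, stepIter lam P k x y z := by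
      intro M
      induction M using (wellFounded_lt (α := ι)).induction with
      | h M ihM =>
      intro x hx y hy z hz hxyz hM
      have hxy : x * y = z⁻¹ := eq_inv_of_mul_eq_one_left hxyz
      have hyz : y * z = x⁻¹ := by
        rw [mul_assoc] at hxyz
        exact eq_inv_of_mul_eq_one_right hxyz
      have hzx : z * x = y⁻¹ := by
        have h1 : z * x = z * (x * y * z) * z⁻¹ * y⁻¹ := by group
        rw [h1, hxyz]
        group
      have hzxy : z * x * y = 1 := by rw [hzx]; group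
      have e1 : ρ (x * y) = ρ z := by rw [hxy, hinv z hz]
      have e2 : ρ (y * z) = ρ x := by rw [hyz, hinv x hx]
      have e3 : ρ (z * x) = ρ y := by rw [hzx, hinv y hy]
      have i1 : ρ z ≤ max (ρ x) (ρ y) := e1 ▸ hmul x hx y hy
      have i2 : ρ x ≤ max (ρ y) (ρ z) := e2 ▸ hmul y hy z hz
      have i3 : ρ y ≤ max (ρ z) (ρ x) := e3 ▸ hmul z hz x hx
      rcases lt_trichotomy (ρ x) (ρ y) with h | h | h
      · -- the pair (y, z) is on top
        have hyz' : ρ y = ρ z := by
          apply le_antisymm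
          · rcases le_max_iff.1 i3 with h3 | h3
            · exact h3
            · exact absurd h (not_lt.2 h3)
          · rwa [max_eq_right h.le] at i1
        have hMy : M = ρ y := by
          rw [← hM, ← hyz', max_self]
          exact max_eq_right h.le
        have hk := hkey y hy z hz (by rw [e2]; exact h)
        obtain ⟨t1, t2⟩ := htau y hy
        obtain ⟨s1, s2⟩ := hsig z hz
        have t2' : ρ (((lam y⁻¹)⁻¹ * y⁻¹)⁻¹) < ρ y := by
          rcases t2 with t2 | t2
          · rw [t2]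
            exact (hρ1 x hx).trans_lt h
          · exact t2
        have s2' : ρ ((lam z)⁻¹ * z) < ρ y := by
          rcases s2 with s2 | s2
          · rw [s2]
            exact (hρ1 x hx).trans_lt h
          · rw [hyz']
            exact s2
        have hprod : x * ((lam y⁻¹)⁻¹ * y⁻¹)⁻¹ * ((lam z)⁻¹ * z) = 1 := by
          rw [hk]
          calc x * ((lam z)⁻¹ * y⁻¹)⁻¹ * ((lam z)⁻¹ * z) = x * y * z := by group
            _ = 1 := hxyz
        obtain ⟨k, hk'⟩ := ihM _ (by rw [hMy]; exact max_lt h (max_lt t2' s2')) x hx _ t1 _ s1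
          hprod rfl
        exact ⟨k + 1, Or.inr (Or.inr (Or.inl ⟨hk, hk'⟩))⟩
      · -- x and y have the same rank
        have hz' : ρ z ≤ ρ x := by rwa [← h, max_self] at i1
        have hMx : M = ρ x := by
          rw [← hM, ← h]
          rw [max_eq_left hz', max_self]
        rcases hz'.lt_or_eq with hz'' | hz''
        · have hk := hkey x hx y hy (by rw [e1]; exact hz'')
          obtain ⟨t1, t2⟩ := htau x hx
          obtain ⟨s1, s2⟩ := hsig y hy
          have t2' : ρ (((lam x⁻¹)⁻¹ * x⁻¹)⁻¹) < ρ x := by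
            rcases t2 with t2 | t2
            · rw [t2]
              exact (hρ1 z hz).trans_lt hz''
            · exact t2
          have s2' : ρ ((lam y)⁻¹ * y) < ρ x := by
            rcases s2 with s2 | s2
            · rw [s2]
              exact (hρ1 z hz).trans_lt hz''
            · rw [h]
              exact s2
          have hprod : ((lam x⁻¹)⁻¹ * x⁻¹)⁻¹ * ((lam y)⁻¹ * y) * z = 1 := by
            rw [hk]
            calc ((lam y)⁻¹ * x⁻¹)⁻¹ * ((lam y)⁻¹ * y) * z = x * y * z := by group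
              _ = 1 := hxyz
          obtain ⟨k, hk'⟩ := ihM _ (by rw [hMx]; exact max_lt t2' (max_lt s2' hz'')) _ t1 _ s1 z hz
            hprod rfl
          exact ⟨k + 1, Or.inr (Or.inl ⟨hk, hk'⟩)⟩
        · exact ⟨0, hPcomp x hx y hy z hz h (h.symm.trans hz''.symm) hxyz⟩
      · -- the pair (z, x) is on top
        have hxz' : ρ x = ρ z := by
          apply le_antisymm
          · rcases le_max_iff.1 i2 with h3 | h3
            · exact absurd h (not_lt.2 h3)
            · exact h3
          · rwa [max_eq_left h.le] at i1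
        have hMx : M = ρ x := by
          rw [← hM, ← hxz']
          rw [max_eq_right h.le, max_self]
        have hk := hkey z hz x hx (by rw [e3, ← hxz']; exact h)
        obtain ⟨t1, t2⟩ := htau z hz
        obtain ⟨s1, s2⟩ := hsig x hx
        have t2' : ρ (((lam z⁻¹)⁻¹ * z⁻¹)⁻¹) < ρ x := by
          rcases t2 with t2 | t2
          · rw [t2]
            exact (hρ1 y hy).trans_lt h
          · rw [hxz']
            exact t2
        have s2' : ρ ((lam x)⁻¹ * x) < ρ x := by
          rcases s2 with s2 | s2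
          · rw [s2]
            exact (hρ1 y hy).trans_lt h
          · exact s2
        have hprod : ((lam x)⁻¹ * x) * y * ((lam z⁻¹)⁻¹ * z⁻¹)⁻¹ = 1 := by
          rw [hk]
          calc ((lam x)⁻¹ * x) * y * ((lam x)⁻¹ * z⁻¹)⁻¹
              = (lam x)⁻¹ * (x * y * z) * lam x := by group
            _ = 1 := by rw [hxyz]; group
        obtain ⟨k, hk'⟩ := ihM _ (by rw [hMx]; exact max_lt s2' (max_lt h t2')) _ s1 y hy _ t1
          hprod rfl
        exact ⟨k + 1, Or.inr (Or.inr (Or.inr ⟨hk, hk'⟩))⟩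
    -- conclusion
    have hbox : Good (fun x y z : G => x ∈ H ∧ y ∈ H ∧ z ∈ H) :=
      ⟨fun _ _ _ => H, fun _ _ _ => H, fun _ _ _ => H, fun x y z =>
        ⟨fun h => ⟨0, fun _ => ⟨0, h⟩⟩, fun ⟨_, h⟩ => (h 0).choose_spec⟩⟩
    refine (hbox.and (Good.iUnion (fun k => stepIter_good (lam := lam) hG hPgood k))).congr
      (fun x y z => ?_)
    constructor
    · rintro ⟨⟨hx, hy, hz⟩, h⟩
      exact ⟨⟨hx, hy, hz⟩, hcomp _ x hx y hy z hz h rfl⟩
    · rintro ⟨h1, ⟨k, hk⟩⟩
      exact ⟨h1, stepIter_sound hPsound k x y z hk⟩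

/-- for a group of size at most the continuum the graph of the multiplication is good -/
theorem good_mul (hG : #G ≤ 𝔠) : Good (fun x y z : G => x * y = z) := by
  have h := (good_subgroup hG _ (⊤ : Subgroup G) rfl).comp (fun x => x) (fun y => y)
    (fun z => z⁻¹)
  refine h.congr (fun x y z => ?_)
  simp only [Subgroup.mem_top, and_self, true_and]
  exact mul_inv_eq_one.symm

end Pool.Agent.X213
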