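import Mathlib

namespace Pool.Agent.X213

open Set Cardinal

universe u

/-- ternary relations which are countable unions of countable intersections of countable unions
of boxes -/
def Good {X : Type u} (R : X → X → X → Prop) : Prop :=
  ∃ A B C : ℕ → ℕ → ℕ → Set X, ∀ x y z,
    R x y z ↔ ∃ k, ∀ n, ∃ i, x ∈ A k n i ∧ y ∈ B k n i ∧ z ∈ C k n i

theorem Good.mk' {X : Type u} {R : X → X → X → Prop} {K N I : Type} [Countable K] [Countable N]
    [Countable I] [Nonempty K] [Nonempty N] [Nonempty I] (A B C : K → N → I → Set X)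
    (h : ∀ x y z, R x y z ↔ ∃ k, ∀ n, ∃ i, x ∈ A k n i ∧ y ∈ B k n i ∧ z ∈ C k n i) : Good R := by
  obtain ⟨fK, hK⟩ := exists_surjective_nat K
  obtain ⟨fN, hN⟩ := exists_surjective_nat N
  obtain ⟨fI, hI⟩ := exists_surjective_nat I
  refine ⟨fun k n i => A (fK k) (fN n) (fI i), fun k n i => B (fK k) (fN n) (fI i),
    fun k n i => C (fK k) (fN n) (fI i), fun x y z => ?_⟩
  rw [h]
  constructor
  · rintro ⟨k, hk⟩
    obtain ⟨k', rfl⟩ := hK k
    refine ⟨k', fun n => ?_⟩
    obtain ⟨i, hi⟩ := hk (fN n)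
    obtain ⟨i', rfl⟩ := hI i
    exact ⟨i', hi⟩
  · rintro ⟨k, hk⟩
    refine ⟨fK k, fun n => ?_⟩
    obtain ⟨n', rfl⟩ := hN n
    obtain ⟨i, hi⟩ := hk n'
    exact ⟨fI i, hi⟩

theorem Good.congr {X : Type u} {R R' : X → X → X → Prop} (h : Good R)
    (hh : ∀ x y z, R' x y z ↔ R x y z) : Good R' := by
  obtain ⟨A, B, C, h⟩ := h
  exact ⟨A, B, C, fun x y z => (hh x y z).trans (h x y z)⟩

theorem Good.iUnion {X : Type u} {R : ℕ → X → X → X → Prop} (h : ∀ k, Good (R k)) :
    Good (fun x y z => ∃ k, R k x y z) := by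
  choose A B C h using h
  refine Good.mk' (K := ℕ × ℕ) (N := ℕ) (I := ℕ) (fun k n i => A k.1 k.2 n i)
    (fun k n i => B k.1 k.2 n i) (fun k n i => C k.1 k.2 n i) (fun x y z => ?_)
  constructor
  · rintro ⟨k, hk⟩
    obtain ⟨k', hk'⟩ := (h k x y z).1 hk
    exact ⟨(k, k'), hk'⟩
  · rintro ⟨⟨k, k'⟩, hk⟩
    exact ⟨k, (h k x y z).2 ⟨k', hk⟩⟩

theorem Good.or {X : Type u} {R S : X → X → X → Prop} (h : Good R) (h' : Good S) :
    Good (fun x y z => R x y z ∨ S x y z) := by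
  have : ∀ k : ℕ, Good (if k = 0 then R else S) := by
    intro k
    split_ifs
    · exact h
    · exact h'
  refine (Good.iUnion this).congr (fun x y z => ?_)
  constructor
  · rintro (h | h)
    · exact ⟨0, by simpa using h⟩
    · exact ⟨1, by simpa using h⟩
  · rintro ⟨k, hk⟩
    by_cases hk0 : k = 0
    · rw [if_pos hk0] at hk
      exact Or.inl hk
    · rw [if_neg hk0] at hk
      exact Or.inr hk

theorem Good.and {X : Type u} {R S : X → X → X → Prop} (h : Good R) (h' : Good S) :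
    Good (fun x y z => R x y z ∧ S x y z) := by
  obtain ⟨A, B, C, h⟩ := h
  obtain ⟨A', B', C', h'⟩ := h'
  refine Good.mk' (K := ℕ × ℕ) (N := ℕ × ℕ) (I := ℕ × ℕ)
    (fun k n i => A k.1 n.1 i.1 ∩ A' k.2 n.2 i.2) (fun k n i => B k.1 n.1 i.1 ∩ B' k.2 n.2 i.2)
    (fun k n i => C k.1 n.1 i.1 ∩ C' k.2 n.2 i.2) (fun x y z => ?_)
  rw [h, h']
  constructor
  · rintro ⟨⟨k, hk⟩, ⟨k', hk'⟩⟩
    refine ⟨(k, k'), fun n => ?_⟩
    obtain ⟨i, hi⟩ := hk n.1
    obtain ⟨i', hi'⟩ := hk' n.2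
    exact ⟨(i, i'), ⟨hi.1, hi'.1⟩, ⟨hi.2.1, hi'.2.1⟩, ⟨hi.2.2, hi'.2.2⟩⟩
  · rintro ⟨⟨k, k'⟩, hk⟩
    refine ⟨⟨k, fun n => ?_⟩, ⟨k', fun n => ?_⟩⟩
    · obtain ⟨i, hi⟩ := hk (n, 0)
      exact ⟨i.1, hi.1.1, hi.2.1.1, hi.2.2.1⟩
    · obtain ⟨i, hi⟩ := hk (0, n)
      exact ⟨i.2, hi.1.2, hi.2.1.2, hi.2.2.2⟩

theorem Good.comp {X : Type u} {R : X → X → X → Prop} (h : Good R) (f g e : X → X) :
    Good (fun x y z => R (f x) (g y) (e z)) := by
  obtain ⟨A, B, C, h⟩ := h
  exact ⟨fun k n i => f ⁻¹' A k n i, fun k n i => g ⁻¹' B k n i, fun k n i => e ⁻¹' C k n i,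
    fun x y z => h _ _ _⟩

/-- a countable relation is good -/
theorem Good.of_countable {X : Type u} {R : X → X → X → Prop}
    (h : {p : X × X × X | R p.1 p.2.1 p.2.2}.Countable) : Good R := by
  rcases Set.eq_empty_or_nonempty {p : X × X × X | R p.1 p.2.1 p.2.2} with he | hne
  · refine ⟨fun _ _ _ => ∅, fun _ _ _ => ∅, fun _ _ _ => ∅, fun x y z => ?_⟩
    have h0 : ¬ R x y z := by
      intro hR
      have : (x, y, z) ∈ {p : X × X × X | R p.1 p.2.1 p.2.2} := hR
      rw [he] at this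
      exact this
    simp [h0]
  · obtain ⟨f, hf⟩ := h.exists_eq_range hne
    refine ⟨fun k _ _ => {(f k).1}, fun k _ _ => {(f k).2.1}, fun k _ _ => {(f k).2.2},
      fun x y z => ?_⟩
    constructor
    · intro hR
      have : (x, y, z) ∈ {p : X × X × X | R p.1 p.2.1 p.2.2} := hR
      rw [hf] at this
      obtain ⟨k, hk⟩ := this
      refine ⟨k, fun n => ⟨0, ?_, ?_, ?_⟩⟩
      · change x = (f k).1
        rw [hk]
      · change y = (f k).2.1
        rw [hk]
      · change z = (f k).2.2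
        rw [hk]
    · rintro ⟨k, hk⟩
      obtain ⟨_, h1, h2, h3⟩ := hk 0
      have h1' : x = (f k).1 := h1
      have h2' : y = (f k).2.1 := h2
      have h3' : z = (f k).2.2 := h3
      have : f k ∈ {p : X × X × X | R p.1 p.2.1 p.2.2} := by
        rw [hf]
        exact ⟨k, rfl⟩
      rw [h1', h2', h3']
      exact this

theorem good_eq12 {X : Type u} (f g : X → ℕ → Bool) : Good (fun x y (_ : X) => f x = g y) := by
  refine Good.mk' (K := Unit) (N := ℕ) (I := Bool) (fun _ n i => {x | f x n = i})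
    (fun _ n i => {y | g y n = i}) (fun _ _ _ => Set.univ) (fun x y z => ?_)
  constructor
  · intro h
    refine ⟨(), fun n => ⟨f x n, rfl, ?_, Set.mem_univ _⟩⟩
    change g y n = f x n
    rw [h]
  · rintro ⟨_, h⟩
    funext n
    obtain ⟨i, h1, h2, _⟩ := h n
    have h1' : f x n = i := h1
    have h2' : g y n = i := h2
    rw [h1', h2']

theorem good_eq23 {X : Type u} (f g : X → ℕ → Bool) : Good (fun (_ : X) y z => f y = g z) := by
  refine Good.mk' (K := Unit) (N := ℕ) (I := Bool) (fun _ _ _ => Set.univ)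
    (fun _ n i => {y | f y n = i})
    (fun _ n i => {z | g z n = i}) (fun x y z => ?_)
  constructor
  · intro h
    refine ⟨(), fun n => ⟨f y n, Set.mem_univ _, rfl, ?_⟩⟩
    change g z n = f y n
    rw [h]
  · rintro ⟨_, h⟩
    funext n
    obtain ⟨i, _, h1, h2⟩ := h n
    have h1' : f y n = i := h1
    have h2' : g z n = i := h2
    rw [h1', h2']

theorem good_eq31 {X : Type u} (f g : X → ℕ → Bool) : Good (fun x (_ : X) z => f z = g x) := by
  refine Good.mk' (K := Unit) (N := ℕ) (I := Bool) (fun _ n i => {x | g x n = i})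
    (fun _ _ _ => Set.univ)
    (fun _ n i => {z | f z n = i}) (fun x y z => ?_)
  constructor
  · intro h
    refine ⟨(), fun n => ⟨f z n, ?_, Set.mem_univ _, rfl⟩⟩
    change g x n = f z n
    rw [h]
  · rintro ⟨_, h⟩
    funext n
    obtain ⟨i, h1, _, h2⟩ := h n
    have h1' : g x n = i := h1
    have h2' : f z n = i := h2
    rw [h1', h2']

/-- a set of cardinality at most the continuum embeds into Cantor space -/
theorem exists_code {ι : Type u} (h : #ι ≤ 𝔠) : ∃ c : ι → ℕ → Bool, Function.Injective c := by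
  have h1 : Cardinal.lift.{0, u} #ι ≤ Cardinal.lift.{u, 0} #(ℕ → Bool) := by
    have : #(ℕ → Bool) = 𝔠 := by simp
    rw [this]
    simpa using h
  obtain ⟨f⟩ := Cardinal.lift_mk_le'.1 h1
  exact ⟨f, f.injective⟩

section Filtration

variable {G : Type u} [Group G]

theorem mk_closure_lt {κ : Cardinal.{u}} (hκ : ℵ₀ < κ) (s : Set G) (hs : #s < κ) :
    #(Subgroup.closure s) < κ := by
  rcases s.eq_empty_or_nonempty with rfl | hne
  · rw [Subgroup.closure_empty]
    have : #((⊥ : Subgroup G)) = 1 := by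
      exact Cardinal.mk_eq_one _
    rw [this]
    exact one_lt_aleph0.trans hκ
  · have : Nonempty s := hne.to_subtype
    have h1 : #(Subgroup.closure s) ≤ #(FreeGroup s) := by
      rw [FreeGroup.closure_eq_range]
      exact Cardinal.mk_le_of_surjective (MonoidHom.rangeRestrict_surjective _)
    rw [Cardinal.mk_freeGroup] at h1
    exact h1.trans_lt (max_lt hs hκ)

/-- an ultrametric norm with small balls -/
theorem exists_rank (H : Subgroup G) (hH : ℵ₀ < #H) :
    ∃ (ι : Type u) (_ : LinearOrder ι) (_ : WellFoundedLT ι) (ρ : G → ι),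
      #ι = #H ∧ (∀ g ∈ H, ∀ h ∈ H, ρ (g * h) ≤ max (ρ g) (ρ h)) ∧ (∀ g ∈ H, ρ g⁻¹ = ρ g) ∧
      ∀ m, #{g : G | g ∈ H ∧ ρ g ≤ m} < #H := by
  classical
  have hι : #((#H).ord.ToType) = #H := Cardinal.mk_ord_toType _
  obtain ⟨e⟩ := Cardinal.eq.1 hι
  let F : (#H).ord.ToType → Subgroup G := fun m => Subgroup.closure ((fun i => (e i : G)) '' Set.Iic m)
  have hFmono : Monotone F := by
    intro a b hab
    exact Subgroup.closure_mono (Set.image_mono (Set.Iic_subset_Iic.2 hab))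
  have hcard : ∀ m, #(F m) < #H := by
    intro m
    apply mk_closure_lt hH
    refine Cardinal.mk_image_le.trans_lt ?_
    have h1 : #(Set.Iic m) < #((#H).ord.ToType) := by
      apply Cardinal.mk_Iic_lt
      · rw [hι]
        exact (Ordinal.type_toType _).symm
      · rw [hι]
        exact hH.le
    rwa [hι] at h1
  have hmem : ∀ g ∈ H, ∃ m, g ∈ F m := by
    intro g hg
    refine ⟨e.symm ⟨g, hg⟩, Subgroup.subset_closure ⟨e.symm ⟨g, hg⟩, Set.mem_Iic.2 le_rfl, ?_⟩⟩
    simp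
  have hne : Nonempty ((#H).ord.ToType) := ⟨e.symm 1⟩
  have hwf : WellFounded ((· < ·) : (#H).ord.ToType → (#H).ord.ToType → Prop) := wellFounded_lt
  let ρ : G → (#H).ord.ToType := fun g =>
    if h : ∃ m, g ∈ F m then hwf.min {m | g ∈ F m} h else Classical.arbitrary _
  have hρ : ∀ g ∈ H, g ∈ F (ρ g) := by
    intro g hg
    have h := hmem g hg
    simp only [ρ]
    rw [dif_pos h]
    exact hwf.min_mem {m | g ∈ F m} h
  have hρle : ∀ g m, g ∈ F m → ρ g ≤ m := by
    intro g m hm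
    have h : ∃ m, g ∈ F m := ⟨m, hm⟩
    simp only [ρ]
    rw [dif_pos h]
    exact not_lt.1 (hwf.not_lt_min {m | g ∈ F m} hm)
  refine ⟨(#H).ord.ToType, inferInstance, inferInstance, ρ, hι, ?_, ?_, ?_⟩
  · intro g hg h hh
    apply hρle
    exact mul_mem (hFmono (le_max_left _ _) (hρ g hg)) (hFmono (le_max_right _ _) (hρ h hh))
  · intro g hg
    apply le_antisymm
    · exact hρle _ _ (inv_mem (hρ g hg))
    · have := hρle _ _ (inv_mem (hρ g⁻¹ (inv_mem hg)))
      rwa [inv_inv] at this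
  · intro m
    refine (Cardinal.mk_le_mk_of_subset ?_).trans_lt (hcard m)
    rintro g ⟨hg, hgm⟩
    exact hFmono hgm (hρ g hg)

end Filtration

end Pool.Agent.X213
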