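import Pool.Agent.Y374.PF.Zero
import Pool.Agent.Y374.PF.Degree

/-!
# Section rings given by key varieties containing coordinate subspaces

`R = k[x₁, …, x_N]/I` with positive weights `w i`, a finite group `G` acting diagonally, and
`S = ⨁ₘ (R_{hm})^G`. The zero set of `I` contains, for every `j`, the common zeros of the forms `M a`
with `a` not in `F j`. Averaging over `j` and over the group gives sections of the generating sheaf.
-/

set_option autoImplicit false

namespace Pool.Agent.X213.Key

open MvPolynomial Finset Pool.Agent.TH144.NV Pool.Agent.Y374.PF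

/-- A polynomial ring with positive weights `w i`, an ideal `I`, and a diagonal action of `G` by the
characters `α i` on the variables. -/
structure Sys (k : Type) [Field k] (G : Type) [Group G] (N : ℕ) where
  w : Fin N → ℕ
  w_pos : ∀ i, 0 < w i
  α : Fin N → G →* kˣ
  I : Ideal (MvPolynomial (Fin N) k)

variable {k : Type} [Field k] {G : Type} [Group G] {N : ℕ}

namespace Sys

variable (D : Sys k G N)

/-- the zero set of `I`, the cone over `Proj R`, `R = k[x]/I` -/
def Cone : Set (Fin N → k) := {p | ∀ a ∈ D.I, eval p a = 0}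

/-- the automorphism `xᵢ ↦ α i g • xᵢ` of the polynomial ring -/
noncomputable def act (g : G) : MvPolynomial (Fin N) k →ₐ[k] MvPolynomial (Fin N) k :=
  Pool.Agent.TH144.NV.act fun i => (D.α i g : k)

/-- the class of `a` in `R` is a `G`-invariant form of degree `m` -/
def Inv (m : ℕ) (a : MvPolynomial (Fin N) k) : Prop :=
  IsWeightedHomogeneous D.w a m ∧
    ∀ g, Ideal.Quotient.mk D.I (D.act g a) = Ideal.Quotient.mk D.I a

/-- the space `(R_m)^G` of the classes of these forms -/
noncomputable def sections (m : ℕ) : Submodule k (MvPolynomial (Fin N) k ⧸ D.I) where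
  carrier := {q | ∃ a, D.Inv m a ∧ Ideal.Quotient.mk D.I a = q}
  add_mem' := by
    rintro _ _ ⟨a, ha, rfl⟩ ⟨b, hb, rfl⟩
    refine ⟨a + b, ⟨ha.1.add hb.1, fun g => ?_⟩, map_add _ _ _⟩
    rw [map_add, map_add, map_add, ha.2, hb.2]
  zero_mem' := ⟨0, ⟨isWeightedHomogeneous_zero _ _ _, fun g => by rw [map_zero]⟩, map_zero _⟩
  smul_mem' := by
    rintro c _ ⟨a, ha, rfl⟩
    refine ⟨c • a, ⟨?_, fun g => ?_⟩, ?_⟩
    · exact (mem_weightedHomogeneousSubmodule k D.w m _).1
        (Submodule.smul_mem _ c ((mem_weightedHomogeneousSubmodule k D.w m _).2 ha.1))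
    · rw [map_smul]
      have h1 := ha.2 g
      rw [Ideal.Quotient.eq] at h1 ⊢
      rw [← smul_sub, smul_eq_C_mul]
      exact Ideal.mul_mem_left _ _ h1
    · exact map_smul (Ideal.Quotient.mkₐ k D.I) c a

/-- At every point of `Proj R` invariant forms of some consecutive degrees `hm`, `h(m+1)` do not
vanish. This holds if `⨁ₘ (R_{hm})^G` is the section ring of an ample invertible sheaf. -/
def SectionRing (h : ℕ) : Prop :=
  ∀ p ∈ D.Cone, p ≠ 0 → ∃ (m : ℕ) (a b : MvPolynomial (Fin N) k),
    D.Inv (h * m) a ∧ D.Inv (h * (m + 1)) b ∧ eval p a ≠ 0 ∧ eval p b ≠ 0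

theorem eval_inv {p : Fin N → k} (hp : p ∈ D.Cone) {m : ℕ} {a : MvPolynomial (Fin N) k}
    (ha : D.Inv m a) (g : G) : eval (fun i => (D.α i g : k) * p i) a = eval p a := by
  rw [← eval_act]
  have h1 := ha.2 g
  rw [Ideal.Quotient.eq] at h1
  have h2 := hp _ h1
  rw [map_sub, sub_eq_zero] at h2
  exact h2

/-- eigenvalues of fixed lines are `h`-th roots of unity -/
theorem pow_eq_one {h : ℕ} (hS : D.SectionRing h) {p : Fin N → k} (hp : p ∈ D.Cone)
    (hp0 : p ≠ 0) (g : G) (μ : kˣ) (hfix : ∀ i, (D.α i g : k) * p i = (μ : k) ^ D.w i * p i) :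
    μ ^ h = 1 := by
  obtain ⟨m, a, b, ha, hb, ha0, hb0⟩ := hS p hp hp0
  have key : ∀ {m : ℕ} {a : MvPolynomial (Fin N) k}, D.Inv m a → eval p a ≠ 0 →
      (μ : k) ^ m = 1 := by
    intro m a ha ha0
    have h1 := D.eval_inv hp ha g
    rw [show (fun i => (D.α i g : k) * p i) = fun i => (μ : k) ^ D.w i * p i from funext hfix,
      eval_wscale ha.1] at h1
    exact mul_right_cancel₀ ha0 (by rw [h1, one_mul])
  have h1 := key ha ha0
  have h2 := key hb hb0
  rw [mul_add, pow_add, h1, one_mul, mul_one] at h2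
  ext
  simpa using h2

open Classical in
/-- the weights which take no part in level `h` -/
theorem not_good_le [IsAlgClosed k] [CharZero k] [Finite G] {h : ℕ} (hS : D.SectionRing h)
    {τ : Type} [Fintype τ] [DecidableEq τ] (M : τ → MvPolynomial (Fin N) k) (d : τ → ℕ)
    (hd : ∀ a, 0 < d a) (hom : ∀ a, IsWeightedHomogeneous D.w (M a) (d a)) (c : τ → G →* kˣ)
    (semi : ∀ g a, Pool.Agent.TH144.NV.act (fun i => (D.α i g : k)) (M a) = C (c a g : k) * M a)
    {m : ℕ} (hm : 0 < m) (F : Fin m → Finset τ)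
    (hF : ∀ j (p : Fin N → k), (∀ a, a ∉ F j → eval p (M a) = 0) → p ∈ D.Cone)
    {top : ℤ} (htop : ∑ j, ∑ a ∈ (F j)ᶜ, (d a : ℤ) = m * top) :
    ∑ i ∈ univ.filter (fun i => ¬ Good h (D.w i) (D.α i)), (D.w i : ℤ) ≤ top := by
  have main := main_ineq (k := k) (G := G) (fun x : Fin m × Fin N => D.w x.2)
    (fun x => D.w_pos x.2) (fun x : {x : Fin m × τ // x.2 ∉ F x.1} => d x.1.2)
    (fun x => hd _) (fun x => D.α x.2) (fun x => c x.1.2) h (by
    intro g μ hμ
    set T : Finset (Fin N) := univ.filter (fun i => D.α i g = μ ^ D.w i) with hT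
    have hTm : ∀ i, i ∈ T → D.α i g = μ ^ D.w i := fun i hi => (Finset.mem_filter.1 hi).2
    have e1 : (univ.filter fun x : Fin m × Fin N => D.α x.2 g = μ ^ D.w x.2).card
        = m * T.card := by
      have : (univ.filter fun x : Fin m × Fin N => D.α x.2 g = μ ^ D.w x.2)
          = (univ : Finset (Fin m)) ×ˢ T := by
        ext x
        simp [hT]
      rw [this, Finset.card_product, Finset.card_univ, Fintype.card_fin]
    have e2 : (univ.filter fun x : {x : Fin m × τ // x.2 ∉ F x.1} =>
        c x.1.2 g = μ ^ d x.1.2).card =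
        ∑ j : Fin m, (univ.filter fun a : τ => a ∉ F j ∧ c a g = μ ^ d a).card := by
      rw [← Finset.card_sigma]
      refine Finset.card_bij (fun x _ => (⟨x.1.1, x.1.2⟩ : Σ _ : Fin m, τ)) ?_ ?_ ?_
      · intro x hx
        simp only [Finset.mem_filter, Finset.mem_univ, true_and] at hx
        simp only [Finset.mem_sigma, Finset.mem_univ, Finset.mem_filter, true_and]
        exact ⟨x.2, hx⟩
      · intro x _ y _ hxy
        apply Subtype.ext
        simp only [Sigma.mk.injEq, heq_eq_eq] at hxy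
        exact Prod.ext hxy.1 hxy.2
      · rintro ⟨j, a⟩ hx
        simp only [Finset.mem_sigma, Finset.mem_univ, Finset.mem_filter, true_and] at hx
        exact ⟨⟨(j, a), hx.1⟩, by simpa using hx.2, rfl⟩
    rw [e1, e2]
    have h1 : ∀ j : Fin m, T.card ≤
        (univ.filter fun a : τ => a ∉ F j ∧ c a g = μ ^ d a).card := by
      intro j
      have h2 := card_le_of (k := k)
        (κ := {a // a ∈ univ.filter fun a : τ => a ∉ F j ∧ c a g = μ ^ d a}) T
        (fun a => M a.1) (by
          intro a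
          exact Pool.Agent.TH144.NV.eval_origin (hom _) (hd _)) (by
          intro p hp hz
          by_contra hp0
          refine hμ (D.pow_eq_one hS (hF j p fun a ha => ?_) hp0 g μ (fun i => ?_))
          · by_cases hab : c a g = μ ^ d a
            · exact hz ⟨a, Finset.mem_filter.2 ⟨mem_univ _, ha, hab⟩⟩
            · refine eval_eq_zero_of_ne (hom a) (fun i => (D.α i g : k)) (c a g : k)
                (semi g a) (μ : k) ?_ ?_
              · intro i
                by_cases hi : i ∈ T
                · rw [hTm i hi, Units.val_pow_eq_pow_val]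
                · rw [hp i hi, mul_zero, mul_zero]
              · intro h3
                apply hab
                ext
                rw [h3, Units.val_pow_eq_pow_val]
          · by_cases hi : i ∈ T
            · rw [hTm i hi, Units.val_pow_eq_pow_val]
            · rw [hp i hi, mul_zero, mul_zero])
      rw [Fintype.card_coe] at h2
      exact h2
    calc m * T.card = ∑ _j : Fin m, T.card := by simp
      _ ≤ _ := Finset.sum_le_sum (fun j _ => h1 j))
  have h1 : ∑ x ∈ univ.filter (fun x : Fin m × Fin N => ¬ Good h (D.w x.2) (D.α x.2)), D.w x.2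
      = m * ∑ i ∈ univ.filter (fun i => ¬ Good h (D.w i) (D.α i)), D.w i := by
    have : (univ.filter fun x : Fin m × Fin N => ¬ Good h (D.w x.2) (D.α x.2))
        = (univ : Finset (Fin m)) ×ˢ univ.filter (fun i => ¬ Good h (D.w i) (D.α i)) := by
      ext x
      simp
    rw [this, Finset.sum_product]
    simp
  have h2 : ∑ x ∈ univ.filter (fun x : {x : Fin m × τ // x.2 ∉ F x.1} =>
      ¬ Good h (d x.1.2) (c x.1.2)), d x.1.2
      ≤ ∑ x : {x : Fin m × τ // x.2 ∉ F x.1}, d x.1.2 :=
    Finset.sum_le_sum_of_subset (Finset.filter_subset _ _)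
  have h3 : ∑ x : {x : Fin m × τ // x.2 ∉ F x.1}, d x.1.2 = ∑ j, ∑ a ∈ (F j)ᶜ, d a := by
    rw [Finset.sum_sigma']
    refine Finset.sum_bij (fun x _ => (⟨x.1.1, x.1.2⟩ : Σ _ : Fin m, τ)) ?_ ?_ ?_ ?_
    · intro x _
      simp only [Finset.mem_sigma, Finset.mem_univ, Finset.mem_compl, true_and]
      exact x.2
    · intro x _ y _ hxy
      apply Subtype.ext
      simp only [Sigma.mk.injEq, heq_eq_eq] at hxy
      exact Prod.ext hxy.1 hxy.2
    · rintro ⟨j, a⟩ hx
      simp only [Finset.mem_sigma, Finset.mem_univ, Finset.mem_compl, true_and] at hx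
      exact ⟨⟨(j, a), hx⟩, mem_univ _, rfl⟩
    · intro x _
      rfl
  have h4 : m * ∑ i ∈ univ.filter (fun i => ¬ Good h (D.w i) (D.α i)), D.w i
      ≤ ∑ j, ∑ a ∈ (F j)ᶜ, d a := by
    rw [← h1, ← h3]
    exact le_trans (by convert main) h2
  have h5 : (m : ℤ) * ∑ i ∈ univ.filter (fun i => ¬ Good h (D.w i) (D.α i)), (D.w i : ℤ)
      ≤ m * top := by
    rw [← htop]
    exact_mod_cast h4
  exact le_of_mul_le_mul_left h5 (by omega)

theorem finite_sections_one : FiniteDimensional k (D.sections 1) := by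
  let π : MvPolynomial (Fin N) k →ₗ[k] (MvPolynomial (Fin N) k ⧸ D.I) :=
    (Ideal.Quotient.mkₐ k D.I).toLinearMap
  have h1 : FiniteDimensional k
      (Submodule.span k (Set.range (X : Fin N → MvPolynomial (Fin N) k))) :=
    FiniteDimensional.span_of_finite k (Set.finite_range _)
  have h3 : D.sections 1 ≤ Submodule.map π
      (Submodule.span k (Set.range (X : Fin N → MvPolynomial (Fin N) k))) := by
    rintro _ ⟨a, ha, rfl⟩
    exact ⟨a, mem_span_X D.w_pos ha.1, rfl⟩
  exact Submodule.finiteDimensional_of_le h3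

/-- variables of degree one are linearly independent in `R` -/
theorem card_le_finrank
    (hI : ∀ u : MvPolynomial (Fin N) k, IsWeightedHomogeneous D.w u 1 → u ∈ D.I → u = 0)
    (T : Finset (Fin N)) (hInv : ∀ i ∈ T, D.Inv 1 (X i)) :
    T.card ≤ Module.finrank k (D.sections 1) := by
  classical
  have hfin := D.finite_sections_one
  have hmem : ∀ c : {i // i ∈ T} → k,
      Ideal.Quotient.mk D.I (∑ i, c i • (X i.1 : MvPolynomial (Fin N) k))
        ∈ D.sections 1 := by
    intro c
    rw [map_sum]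
    refine Submodule.sum_mem _ (fun i _ => ?_)
    have h1 : Ideal.Quotient.mk D.I (c i • (X i.1 : MvPolynomial (Fin N) k))
        = c i • Ideal.Quotient.mk D.I (X i.1) := map_smul (Ideal.Quotient.mkₐ k D.I) _ _
    rw [h1]
    exact Submodule.smul_mem _ _ ⟨X i.1, hInv i.1 i.2, rfl⟩
  let F : ({i // i ∈ T} → k) →ₗ[k] D.sections 1 :=
    { toFun := fun c => ⟨Ideal.Quotient.mk D.I (∑ i, c i • (X i.1 : MvPolynomial (Fin N) k)),
        hmem c⟩
      map_add' := by
        intro c d
        apply Subtype.ext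
        simp only [Pi.add_apply, add_smul, Finset.sum_add_distrib, map_add]
        rfl
      map_smul' := by
        intro r' c
        apply Subtype.ext
        simp only [Pi.smul_apply, smul_eq_mul, mul_smul, ← Finset.smul_sum, RingHom.id_apply]
        exact map_smul (Ideal.Quotient.mkₐ k D.I) _ _ }
  have hF : Function.Injective F := by
    rw [injective_iff_map_eq_zero]
    intro c hc
    have h1 : Ideal.Quotient.mk D.I (∑ i, c i • (X i.1 : MvPolynomial (Fin N) k)) = 0 :=
      congrArg Subtype.val hc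
    rw [Ideal.Quotient.eq_zero_iff_mem] at h1
    have h2 : IsWeightedHomogeneous D.w (∑ i, c i • (X i.1 : MvPolynomial (Fin N) k)) 1 := by
      rw [← mem_weightedHomogeneousSubmodule]
      refine Submodule.sum_mem _ (fun i _ => Submodule.smul_mem _ _ ?_)
      rw [mem_weightedHomogeneousSubmodule]
      exact (hInv i.1 i.2).1
    have h3 := hI _ h2 h1
    have h4 : LinearIndependent k (fun i : {i // i ∈ T} => (X i.1 : MvPolynomial (Fin N) k)) :=
      (linearIndependent_X (Fin N) k).comp _ Subtype.val_injective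
    funext i
    exact (Fintype.linearIndependent_iff.1 h4) c h3 i
  have h5 := LinearMap.finrank_le_finrank_of_injective hF
  simpa [Module.finrank_fintype_fun_eq_card, Fintype.card_coe] using h5

/-- The conclusion drawn from the inequality. -/
theorem conclude [IsAlgClosed k] [CharZero k] [Finite G] {h : ℕ} (hh : 0 < h)
    (hfull : ∀ i, ∃ p ∈ D.Cone, p i ≠ 0)
    (hI : ∀ u : MvPolynomial (Fin N) k, IsWeightedHomogeneous D.w u 1 → u ∈ D.I → u = 0)
    {top : ℤ} (hmain : letI := Classical.decPred fun i => ¬ Good h (D.w i) (D.α i)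
      ∑ i ∈ univ.filter (fun i => ¬ Good h (D.w i) (D.α i)), (D.w i : ℤ) ≤ top) :
    (∃ T : Finset (Fin N), ∑ i, (D.w i : ℤ) ≤ top + ∑ i ∈ T, (D.w i : ℤ) ∧
      ∀ i ∈ T, D.w i ∣ h ∧ D.Inv h (X i ^ (h / D.w i)) ∧
        ¬ IsNilpotent (Ideal.Quotient.mk D.I (X i ^ (h / D.w i)))) ∧
    (top < ∑ i, (D.w i : ℤ) → ∃ s ∈ D.sections h, ¬ IsNilpotent s) ∧
    (h = 1 → ∑ i, (D.w i : ℤ) - top ≤ Module.finrank k (D.sections 1)) := by
  classical
  set T : Finset (Fin N) := univ.filter fun i => Good h (D.w i) (D.α i) with hT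
  have hsum : ∑ i, (D.w i : ℤ) ≤ top + ∑ i ∈ T, (D.w i : ℤ) := by
    have h1 := Finset.sum_filter_add_sum_filter_not (univ : Finset (Fin N))
      (fun i => Good h (D.w i) (D.α i)) (fun i => (D.w i : ℤ))
    rw [← hT] at h1
    have h2 : ∑ i ∈ univ.filter (fun i => ¬ Good h (D.w i) (D.α i)), (D.w i : ℤ) ≤ top := by
      convert hmain
    linarith
  have hprop : ∀ i ∈ T, D.w i ∣ h ∧ D.Inv h (X i ^ (h / D.w i)) ∧
        ¬ IsNilpotent (Ideal.Quotient.mk D.I (X i ^ (h / D.w i))) := by
    intro i hi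
    obtain ⟨hdvd, hα⟩ := ((Finset.mem_filter.1 hi).2).dvd (D.w_pos i)
    have hne : h / D.w i ≠ 0 := by
      intro h0
      have := Nat.div_mul_cancel hdvd
      rw [h0, zero_mul] at this
      omega
    refine ⟨hdvd, ⟨?_, ?_⟩, ?_⟩
    · have h1 := (isWeightedHomogeneous_X k D.w i).pow (h / D.w i)
      rwa [smul_eq_mul, Nat.div_mul_cancel hdvd] at h1
    · intro g
      have h1 : D.act g (X i ^ (h / D.w i)) = X i ^ (h / D.w i) := by
        rw [map_pow]
        show (Pool.Agent.TH144.NV.act (fun i => (D.α i g : k)) (X i)) ^ _ = _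
        unfold Pool.Agent.TH144.NV.act
        rw [aeval_X, mul_pow, ← C_pow, ← Units.val_pow_eq_pow_val, hα g, Units.val_one, C_1,
          one_mul]
      rw [h1]
    · rintro ⟨m, hm⟩
      obtain ⟨p, hp, hpi⟩ := hfull i
      rw [← map_pow, Ideal.Quotient.eq_zero_iff_mem] at hm
      have := hp _ hm
      rw [map_pow, map_pow, eval_X] at this
      exact hpi (eq_zero_of_pow_eq_zero (eq_zero_of_pow_eq_zero this))
  refine ⟨⟨T, hsum, hprop⟩, ?_, ?_⟩
  · intro hlt
    have hne : T.Nonempty := by
      rw [Finset.nonempty_iff_ne_empty]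
      intro h0
      rw [h0, Finset.sum_empty] at hsum
      omega
    obtain ⟨i, hi⟩ := hne
    exact ⟨_, ⟨_, (hprop i hi).2.1, rfl⟩, (hprop i hi).2.2⟩
  · rintro rfl
    have hw1 : ∀ i ∈ T, D.w i = 1 := fun i hi => Nat.dvd_one.1 (hprop i hi).1
    have h1 := D.card_le_finrank hI T (fun i hi => by
      have h2 := (hprop i hi).2.1
      rw [hw1 i hi] at h2
      simpa using h2)
    have h2 : ∑ i ∈ T, (D.w i : ℤ) = T.card := by
      rw [Finset.sum_congr rfl (fun i hi => by rw [hw1 i hi, Nat.cast_one])]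
      simp
    rw [h2] at hsum
    have h3 : (T.card : ℤ) ≤ Module.finrank k (D.sections 1) := by exact_mod_cast h1
    linarith

/-- an ideal generated by polynomials `g` with `X ^ 2 ∣ φ g` contains no form of degree one -/
theorem eq_zero_of_sq {w : Fin N → ℕ} {s : Set (MvPolynomial (Fin N) k)}
    (hs : ∀ g ∈ s, (Polynomial.X : Polynomial (MvPolynomial (Fin N) k)) ^ 2 ∣ φ w g)
    {u : MvPolynomial (Fin N) k} (hu : IsWeightedHomogeneous w u 1) (hI : u ∈ Ideal.span s) :
    u = 0 := by
  have h2 : (Polynomial.X : Polynomial (MvPolynomial (Fin N) k)) ^ 2 ∣ φ w u := by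
    have h3 : Ideal.span s ≤
        Ideal.comap (φ w).toRingHom (Ideal.span {Polynomial.X ^ 2}) := by
      rw [Ideal.span_le]
      intro g hg
      rw [SetLike.mem_coe, Ideal.mem_comap, Ideal.mem_span_singleton]
      exact hs g hg
    have h4 := h3 hI
    rw [Ideal.mem_comap, Ideal.mem_span_singleton] at h4
    exact h4
  rw [φ_hom hu, pow_one, Polynomial.X_pow_dvd_iff] at h2
  have h3 := h2 1 (by norm_num)
  simpa using h3

end Sys

end Pool.Agent.X213.Key
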