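import Pool.Agent.X324.PA.Abu
import Pool.Agent.Y191.CorCP

/-!
The Campana-Peternell inequality for varieties with canonical singularities which are generically
finite over a product of projective spaces: the bound for the number of sections of `m K_X + A`
(from the proof of `Pool.Agent.X324.PA.abundance`) applied to `Pool.Agent.Y191.cp_bound`.
-/

set_option autoImplicit false
set_option linter.overlappingInstances false
set_option linter.unusedSectionVars false

open FF IntermediateField Pool.Agent.W603.LV Pool.Agent.W602.GT Pool.Agent.W602.Cov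
open Pool.Agent.W602.Cov.G Pool.Agent.TH152.AC Pool.Agent.W619.PQ
open Pool.Agent.TH122.AB Pool.Agent.TH756.AR Pool.Agent.TH756.PR Pool.Agent.TH756.PN
open MvPolynomial Module

namespace Pool.Agent.X213.PpcCP

section

variable {r : ℕ} {n q : Fin r → ℕ} {ℓ : ∀ i, Fin (q i) → Form (n i)} {K : Type} [Field K]
  [Algebra ℂ K] {x : ∀ i, Fin (n i + 1) → K}

open Pool.Agent.Y172 Pool.Agent.Y191 Pool.Agent.X324.PA in
/-- the Campana-Peternell inequality, as a bound of the Iitaka dimension by `∑ i ∈ I, n i` -/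
theorem cp_main {M N : ℕ} (hr : 1 ≤ r) (hn : ∀ i, 1 ≤ n i) (hN : N = ∑ i, n i)
    {y : Fin (M + 1) → K} (hy : NormalModel y)
    (hcan : Canonical y N)
    (hℓ : ∀ i k, ℓ i k ≠ 0)
    (I : Finset (Fin r)) (w : ∀ i, Fin (q i) → ℚ)
    (hw0 : ∀ i, i ∉ I → ∀ k, 0 ≤ w i k) (hw1 : ∀ i, i ∉ I → ∑ k, w i k = (n i : ℚ) + 1)
    (F : Finset (MvPolynomial ((i : Fin r) × Fin (n i)) ℂ)) (hF0 : ∀ f ∈ F, f ≠ 0)
    (hF : ∀ f ∈ F, ∀ i, i ∉ I → degI i f = 0)
    (hx0 : ∀ i, x i 0 ≠ 0) (hbas : IsTranscendenceBasis ℂ (aff x))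
    (hup : ∀ P m, LiesOver x P m → ∀ (a : Fin r → ℤ) (v : ∀ i, Fin (q i) → ℕ), Nrm ℓ x P a v →
      ((∀ i, v i = 0) → (∀ f ∈ F, P.ord (aeval (aff x) f) = 0) → m = 1) ∧
        ∀ i, i ∉ I → v i ≠ 0 → (m : ℚ) ≤ 1 + ∑ k, w i k * v i k)
    {D : Place ℂ K → ℚ} (hps : PsefSub y N 0 D) {h : ℕ} (hκ : IitakaGe y D h) :
    h ≤ ∑ i ∈ I, n i := by
  classical
  have hess := hy.ess
  let e : ((i : Fin r) × Fin (n i)) ≃ Fin N := finSigmaFinEquiv.trans (finCongr hN.symm)
  have hbas' : IsTranscendenceBasis ℂ (uu e x) := basis_uu e hbas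
  have hrange : Set.range (uu e x) = Set.range (aff x) := by
    ext z
    constructor
    · rintro ⟨b, rfl⟩
      exact ⟨e.symm b, rfl⟩
    · rintro ⟨a, rfl⟩
      refine ⟨e a, ?_⟩
      change aff x (e.symm (e a)) = _
      rw [e.symm_apply_apply]
  have hfd : FiniteDimensional (IntermediateField.adjoin ℂ (Set.range (aff x))) K := by
    rw [← hrange]
    exact fd_basis hbas'
  obtain ⟨D0, hD0⟩ := exists_frameB (uu e x) hbas'
  have hnu := nu_main hr hn hN hℓ I w hw0 hw1 F hF0 hF hx0 hbas hfd Set.univ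
    (fun _ _ _ => Set.mem_univ _) (fun _ => 0) (fun _ _ => zero_le_one) (fun P m hm a v hv => by
      obtain ⟨h1, h2⟩ := hup P m hm a v hv
      refine ⟨fun h3 h4 => ⟨h1 h3 h4, le_rfl⟩, fun i hi hv0 => ?_⟩
      have h5 := h2 i hi hv0
      have h6 : (m : ℝ) ≤ 1 + ((∑ k, w i k * v i k : ℚ) : ℝ) := by exact_mod_cast h5
      linarith)
  have hupper : ∀ A, Effective y A → ∃ C : ℕ, ∀ m : ℕ, 1 ≤ m → ∀ (r' : ℕ) (f : Fin r' → K),
      LinearIndependent ℂ f → (∀ i, ∃ ω,
        Pool.Agent.Y172.IsSection y N m (m • (0 : Place ℂ K → ℚ) + A) ω ∧ ω D0 = f i) →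
      r' ≤ C * m ^ (∑ i ∈ I, n i) := by
    intro A hA
    choose s hs hs0 hb using fun j => can_bound (n := N) hy hcan hA hD0 j
    obtain ⟨C, hC⟩ := hnu (Finset.univ.image fun j => (s j)⁻¹)
    refine ⟨C, fun m hm r' f hf hsec => hC m r' hm ?_⟩
    choose ω' hω' hωf using hsec
    refine ⟨ω', ?_, fun l => ⟨(hω' l).1, fun P _ hP E' hE' => ?_⟩⟩
    · have h1 : f = fun i => ω' i D0 := funext fun i => (hωf i).symm
      rw [h1] at hf
      refine LinearIndependent.of_comp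
        (LinearMap.proj D0 : ((Fin N → Derivation ℂ K K) → K) →ₗ[ℂ] K) ?_
      exact hf
    · obtain ⟨j, hj⟩ := exists_centred hy P
      have h2 := hω' l
      rw [smul_zero, zero_add] at h2
      rcases hb j P hP hj m hm (ω' l) h2 E' hE' with h3 | h3
      · exact Or.inl h3
      · right
        refine ⟨(s j)⁻¹, Finset.mem_image_of_mem _ (Finset.mem_univ j), inv_ne_zero (hs0 j), ?_⟩
        have h4 : (-(P.ord (s j)) : ℤ) ≤ P.ord (ω' l E') := by exact_mod_cast h3
        have h5 : P.ord (s j)⁻¹ = - P.ord (s j) := P.ord_inv _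
        rw [h5, mul_zero, sub_zero]
        exact_mod_cast h4
  obtain ⟨H, hH, m1, hm1, hps'⟩ := hps
  obtain ⟨C, hC⟩ := hupper H hH
  exact cp_bound hD0 hC hm1 hps' hκ

end

end Pool.Agent.X213.PpcCP
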