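import Mathlib

open Matrix

namespace Pool.Agent.X213.Sphere

/-- The unit sphere of `ℝ³`. -/
abbrev S2 : Type := {v : Fin 3 → ℝ // v ⬝ᵥ v = 1}

/-- Real `3 × 3` matrices. -/
abbrev M3 : Type := Matrix (Fin 3) (Fin 3) ℝ

/-- The orthogonal group `O(3)`, as a set of matrices. -/
def O3 : Set M3 := {A | Aᵀ * A = 1}

/-- The rotation group `SO(3)`, as a set of matrices. -/
def SO3 : Set M3 := {A | Aᵀ * A = 1 ∧ A.det = 1}

/-- The colouring `c` is invariant under `A`: `c (A x) = c x` for all `x`. -/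
def Invariant {k : ℕ} (A : M3) (c : S2 → Fin k) : Prop :=
  ∀ x y : S2, y.1 = A *ᵥ x.1 → c y = c x

/-- `c` is distinguishing for the group `G`: only the identity preserves it. -/
def Distinguishing (G : Set M3) {k : ℕ} (c : S2 → Fin k) : Prop :=
  ∀ A ∈ G, Invariant A c → A = 1

/-- The distinguishing number of the action of `G` on the sphere. -/
noncomputable def distNum (G : Set M3) : ℕ :=
  sInf {k | ∃ c : S2 → Fin k, Distinguishing G c}

/-- The pointwise stabilizer of `W` in `G` is trivial. -/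
def TrivialStab (G : Set M3) (W : Set S2) : Prop :=
  ∀ A ∈ G, (∀ w ∈ W, A *ᵥ w.1 = w.1) → A = 1

/-- The precolouring extension property `P(W, G)`: every colouring off `W` with
`distNum G` colours extends to a distinguishing colouring of the whole sphere. -/
def PEP (G : Set M3) (W : Set S2) : Prop :=
  ∀ c : {x : S2 // x ∉ W} → Fin (distNum G),
    ∃ c' : S2 → Fin (distNum G), (∀ x : {x : S2 // x ∉ W}, c' x.1 = c x) ∧ Distinguishing G c'

theorem SO3_subset : SO3 ⊆ O3 := fun _ h => h.1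

theorem one_mem_SO3 : (1 : M3) ∈ SO3 := by simp [SO3]

theorem O3_dot {A : M3} (hA : A ∈ O3) (x y : Fin 3 → ℝ) :
    (A *ᵥ x) ⬝ᵥ (A *ᵥ y) = x ⬝ᵥ y := by
  have h : Aᵀ * A = 1 := hA
  rw [Matrix.dotProduct_mulVec, ← Matrix.mulVec_transpose, Matrix.mulVec_mulVec, h,
    Matrix.one_mulVec]

theorem O3_mul {A B : M3} (hA : A ∈ O3) (hB : B ∈ O3) : A * B ∈ O3 := by
  have h : Aᵀ * A = 1 := hA
  have h' : Bᵀ * B = 1 := hB
  show (A * B)ᵀ * (A * B) = 1
  rw [Matrix.transpose_mul, Matrix.mul_assoc, ← Matrix.mul_assoc Aᵀ, h, Matrix.one_mul, h']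

theorem O3_mul_transpose {A : M3} (hA : A ∈ O3) : A * Aᵀ = 1 := by
  have h : Aᵀ * A = 1 := hA
  exact mul_eq_one_comm.mp h

theorem O3_transpose {A : M3} (hA : A ∈ O3) : Aᵀ ∈ O3 := by
  show Aᵀᵀ * Aᵀ = 1
  rw [Matrix.transpose_transpose]
  exact O3_mul_transpose hA

theorem O3_det {A : M3} (hA : A ∈ O3) : A.det = 1 ∨ A.det = -1 := by
  have h : Aᵀ * A = 1 := hA
  have h2 : A.det * A.det = 1 := by
    have := congrArg Matrix.det h
    rwa [Matrix.det_mul, Matrix.det_transpose, Matrix.det_one] at this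
  exact mul_self_eq_one_iff.mp h2

/-- The action on the sphere. -/
def act (A : M3) (hA : A ∈ O3) (x : S2) : S2 := ⟨A *ᵥ x.1, by rw [O3_dot hA]; exact x.2⟩

theorem act_inj {A : M3} (hA : A ∈ O3) : Function.Injective (act A hA) := by
  intro x y hxy
  have h1 : A *ᵥ x.1 = A *ᵥ y.1 := congrArg Subtype.val hxy
  have h : Aᵀ * A = 1 := hA
  have h2 := congrArg (fun v => Aᵀ *ᵥ v) h1
  simp only [Matrix.mulVec_mulVec, h, Matrix.one_mulVec] at h2
  exact Subtype.ext h2

theorem inv_act {k : ℕ} {A : M3} (hA : A ∈ O3) {c : S2 → Fin k} (h : Invariant A c) (x : S2) :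
    c (act A hA x) = c x := h x _ rfl

theorem dot_sq_eq {u v : Fin 3 → ℝ} (hu : u ⬝ᵥ u = 1) (hv : v ⬝ᵥ v = 1)
    (h : (u ⬝ᵥ v) ^ 2 = 1) : v = u ∨ v = -u := by
  have h1 : (v - (u ⬝ᵥ v) • u) ⬝ᵥ (v - (u ⬝ᵥ v) • u) = 0 := by
    have e : (v - (u ⬝ᵥ v) • u) ⬝ᵥ (v - (u ⬝ᵥ v) • u) =
        v ⬝ᵥ v - 2 * (u ⬝ᵥ v) ^ 2 + (u ⬝ᵥ v) ^ 2 * (u ⬝ᵥ u) := by
      simp only [dotProduct_sub, sub_dotProduct, dotProduct_smul, smul_dotProduct, smul_eq_mul,
        dotProduct_comm v u]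
      ring
    rw [e, hu, hv, h]; norm_num
  have h2 : v - (u ⬝ᵥ v) • u = 0 := dotProduct_self_eq_zero.mp h1
  have h3 : v = (u ⬝ᵥ v) • u := sub_eq_zero.mp h2
  have h5 : (u ⬝ᵥ v) * (u ⬝ᵥ v) = 1 := by rw [← sq]; exact h
  rcases mul_self_eq_one_iff.mp h5 with h4 | h4
  · left; rw [h4, one_smul] at h3; exact h3
  · right; rw [h4, neg_one_smul] at h3; exact h3

theorem cross_mulVec (A : M3) (u v : Fin 3 → ℝ) :
    crossProduct (A *ᵥ u) (A *ᵥ v) = A.adjugateᵀ *ᵥ (crossProduct u v) := by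
  ext i
  fin_cases i <;>
  simp [crossProduct, Matrix.adjugate_fin_three, Matrix.mulVec, dotProduct, Fin.sum_univ_three] <;>
  ring

theorem O3_adjugate {A : M3} (hA : A ∈ O3) (hd : A.det = 1) : A.adjugateᵀ = A := by
  have h1 : A.adjugate = Aᵀ := by
    calc A.adjugate = A.adjugate * (A * Aᵀ) := by rw [O3_mul_transpose hA, Matrix.mul_one]
      _ = (A.adjugate * A) * Aᵀ := by rw [Matrix.mul_assoc]
      _ = Aᵀ := by rw [Matrix.adjugate_mul, hd, one_smul, Matrix.one_mul]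
  rw [h1, Matrix.transpose_transpose]

/-- A rotation fixing two independent unit vectors is the identity. -/
theorem fix_two {A : M3} (hA : A ∈ O3) (hd : A.det = 1) {u v : Fin 3 → ℝ}
    (hu : u ⬝ᵥ u = 1) (hv : v ⬝ᵥ v = 1) (huv : (u ⬝ᵥ v) ^ 2 ≠ 1)
    (h1 : A *ᵥ u = u) (h2 : A *ᵥ v = v) : A = 1 := by
  have h3 : A *ᵥ (crossProduct u v) = crossProduct u v := by
    have := cross_mulVec A u v
    rw [O3_adjugate hA hd, h1, h2] at this
    exact this.symm
  let M : M3 := Matrix.of ![u, v, crossProduct u v]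
  have hM : M.det ≠ 0 := by
    have : M.det = (u ⬝ᵥ u) * (v ⬝ᵥ v) - (u ⬝ᵥ v) ^ 2 := by
      simp [M, Matrix.det_fin_three, crossProduct, dotProduct, Fin.sum_univ_three]
      ring
    rw [this, hu, hv]
    intro h
    exact huv (by linarith)
  have hMA : M * Aᵀ = M := by
    ext i j
    have e : ∀ i, M i = (![u, v, crossProduct u v] : Fin 3 → Fin 3 → ℝ) i := fun i => rfl
    have : ∀ i, A *ᵥ (M i) = M i := by
      intro i
      rw [e]
      fin_cases i
      · exact h1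
      · exact h2
      · exact h3
    have h4 := congrFun (this i) j
    rw [← h4]
    simp [Matrix.mul_apply, Matrix.mulVec, dotProduct, mul_comm]
  have hu' : IsUnit M.det := isUnit_iff_ne_zero.mpr hM
  have h5 : Aᵀ = 1 := by
    have := congrArg (fun N => M⁻¹ * N) hMA
    simpa [← Matrix.mul_assoc, Matrix.nonsing_inv_mul M hu'] using this
  have := congrArg Matrix.transpose h5
  simpa using this

/-- An uncountable subset of the sphere contains two independent vectors. -/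
theorem exists_indep {N : Set S2} (hN : ¬ N.Countable) :
    ∃ a ∈ N, ∃ b ∈ N, (a.1 ⬝ᵥ b.1) ^ 2 ≠ 1 := by
  obtain ⟨a, ha⟩ : N.Nonempty := by
    rw [Set.nonempty_iff_ne_empty]; rintro rfl; exact hN Set.countable_empty
  refine ⟨a, ha, ?_⟩
  by_contra hno
  push Not at hno
  have hneg : (-a.1) ⬝ᵥ (-a.1) = 1 := by simp [a.2]
  have hsub : N ⊆ {a, ⟨-a.1, hneg⟩} := by
    intro b hb
    rcases dot_sq_eq a.2 b.2 (hno b hb) with h | h
    · left; exact Subtype.ext h
    · right; exact Subtype.ext h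
  exact hN ((Set.toFinite _).countable.mono hsub)

end Pool.Agent.X213.Sphere
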