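import Pool.Agent.X213.SphereDefs

open Matrix Cardinal

namespace Pool.Agent.X213.Sphere

/-- Points forced by two independent pairs of points of `A`. -/
def clo (A : Set S2) : Set S2 :=
  A ∪ {y | ∃ a ∈ A, ∃ b ∈ A, ∃ a' ∈ A, ∃ b' ∈ A, ∃ x ∈ A, ∃ γ ∈ O3, (a.1 ⬝ᵥ b.1) ^ 2 ≠ 1 ∧
    γ *ᵥ a.1 = a'.1 ∧ γ *ᵥ b.1 = b'.1 ∧ y.1 = γ *ᵥ x.1}

theorem clo_key (a b a' b' x : S2) (d : ℝ) (hd : d * d = 1) :
    {y : S2 | (a.1 ⬝ᵥ b.1) ^ 2 ≠ 1 ∧ ∃ γ ∈ O3, γ.det = d ∧ γ *ᵥ a.1 = a'.1 ∧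
      γ *ᵥ b.1 = b'.1 ∧ y.1 = γ *ᵥ x.1}.Subsingleton := by
  rintro y ⟨hab, γ, hγ, hd1, h1, h2, h3⟩ y' ⟨-, δ, hδ, hd2, h4, h5, h6⟩
  have hg : γᵀ * γ = 1 := hγ
  have e1 : (γᵀ * δ) *ᵥ a.1 = a.1 := by
    rw [← Matrix.mulVec_mulVec, h4, ← h1, Matrix.mulVec_mulVec, hg, Matrix.one_mulVec]
  have e2 : (γᵀ * δ) *ᵥ b.1 = b.1 := by
    rw [← Matrix.mulVec_mulVec, h5, ← h2, Matrix.mulVec_mulVec, hg, Matrix.one_mulVec]
  have e3 : (γᵀ * δ).det = 1 := by
    rw [Matrix.det_mul, Matrix.det_transpose, hd1, hd2, hd]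
  have e4 := fix_two (O3_mul (O3_transpose hγ) hδ) e3 a.2 b.2 hab e1 e2
  have e5 : δ = γ := by
    calc δ = (γ * γᵀ) * δ := by rw [O3_mul_transpose hγ, Matrix.one_mul]
      _ = γ := by rw [Matrix.mul_assoc, e4, Matrix.mul_one]
  apply Subtype.ext
  rw [h3, h6, e5]

theorem clo_countable {A : Set S2} (hA : A.Countable) : (clo A).Countable := by
  have hc : (⋃ a ∈ A, ⋃ b ∈ A, ⋃ a' ∈ A, ⋃ b' ∈ A, ⋃ x ∈ A, ⋃ d ∈ ({1, -1} : Set ℝ),
      {y : S2 | (a.1 ⬝ᵥ b.1) ^ 2 ≠ 1 ∧ ∃ γ ∈ O3, γ.det = d ∧ γ *ᵥ a.1 = a'.1 ∧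
      γ *ᵥ b.1 = b'.1 ∧ y.1 = γ *ᵥ x.1}).Countable := by
    refine hA.biUnion fun a _ => hA.biUnion fun b _ => hA.biUnion fun a' _ =>
      hA.biUnion fun b' _ => hA.biUnion fun x _ =>
      (Set.toFinite _).countable.biUnion fun d hd => ?_
    refine (clo_key a b a' b' x d ?_).countable
    rcases hd with rfl | hd
    · norm_num
    · rw [Set.mem_singleton_iff] at hd
      rw [hd]; norm_num
  refine (hA.union hc).mono ?_
  rintro y (hy | ⟨a, ha, b, hb, a', ha', b', hb', x, hx, γ, hγ, hab, h1, h2, h3⟩)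
  · exact Or.inl hy
  · right
    simp only [Set.mem_iUnion]
    refine ⟨a, ha, b, hb, a', ha', b', hb', x, hx, γ.det, ?_, hab, γ, hγ, rfl, h1, h2, h3⟩
    rcases O3_det hγ with h | h
    · left; exact h
    · right; exact h

/-- An index set of size `ℵ₁` all of whose initial segments are countable. -/
abbrev I1 : Type := (ℵ₁ : Cardinal.{0}).ord.ToType

theorem mk_I1 : #I1 = ℵ₁ := Cardinal.mk_ord_toType _

theorem Iio_countable (i : I1) : (Set.Iio i).Countable := by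
  have h0 : #(Set.Iio i) < #I1 := Cardinal.mk_Iio_lt i (by rw [mk_I1]; simp)
  have h : #(Set.Iio i) < ℵ₁ := h0.trans_eq mk_I1
  exact Cardinal.le_aleph0_iff_set_countable.mp
    (Order.lt_succ_iff.mp (h.trans_eq Cardinal.succ_aleph0.symm))

theorem Iic_countable (i : I1) : (Set.Iic i).Countable := by
  have : Set.Iic i ⊆ Set.Iio i ∪ {i} := by
    intro j hj
    rcases lt_or_eq_of_le (Set.mem_Iic.mp hj) with h | h
    · exact Or.inl h
    · exact Or.inr h
  exact ((Iio_countable i).union (Set.countable_singleton i)).mono this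

noncomputable def sq (pick : Set S2 → S2) : I1 → S2 :=
  WellFounded.fix (wellFounded_lt : WellFounded (α := I1) (· < ·))
    (fun α ih => pick {x | ∃ β, ∃ h : β < α, x = ih β h})

theorem sq_eq (pick : Set S2 → S2) (α : I1) :
    sq pick α = pick {x | ∃ β, ∃ _ : β < α, x = sq pick β} :=
  WellFounded.fix_eq _ _ _

theorem exists_rigid {W : Set S2} (hW : ¬ W.Countable) :
    ∃ w : I1 → S2, Function.Injective w ∧ (∀ i, w i ∈ W) ∧
      ∀ γ ∈ O3, {i : I1 | ∃ j, j ≠ i ∧ (w j).1 = γ *ᵥ (w i).1}.Countable := by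
  classical
  have hex : ∀ A : Set S2, A.Countable → ∃ x ∈ W, x ∉ clo A := by
    intro A hA
    by_contra hno
    push Not at hno
    exact hW ((clo_countable hA).mono hno)
  obtain ⟨x0, hx0, -⟩ := hex ∅ Set.countable_empty
  let pick : Set S2 → S2 := fun A => if h : A.Countable then (hex A h).choose else x0
  let w := sq pick
  have hprev : ∀ α : I1, {x | ∃ β, ∃ _ : β < α, x = w β}.Countable := by
    intro α
    refine ((Iio_countable α).image w).mono ?_
    rintro x ⟨β, hβ, rfl⟩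
    exact ⟨β, hβ, rfl⟩
  have hw : ∀ α : I1, w α ∈ W ∧ w α ∉ clo {x | ∃ β, ∃ _ : β < α, x = w β} := by
    intro α
    have h1 : w α = (hex _ (hprev α)).choose := by
      have := sq_eq pick α
      simp only [w]
      rw [this]
      simp only [pick]
      rw [dif_pos (hprev α)]
    rw [h1]
    exact (hex _ (hprev α)).choose_spec
  have hinj : Function.Injective w := by
    have hlt : ∀ α β : I1, β < α → w α ≠ w β := by
      intro α β hβ he
      exact (hw α).2 (Or.inl ⟨β, hβ, he⟩)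
    intro α β he
    rcases lt_trichotomy α β with h | h | h
    · exact absurd he.symm (hlt β α h)
    · exact h
    · exact absurd he (hlt α β h)
  refine ⟨w, hinj, fun i => (hw i).1, ?_⟩
  intro γ hγ
  by_contra hN
  set N : Set I1 := {i : I1 | ∃ j, j ≠ i ∧ (w j).1 = γ *ᵥ (w i).1} with hNdef
  have hN' : ¬ (w '' N).Countable := fun h =>
    hN (Set.MapsTo.countable_of_injOn (f := w) (t := w '' N)
      (fun i hi => Set.mem_image_of_mem w hi) hinj.injOn h)
  obtain ⟨_, ⟨i₁, ⟨j₁, -, hj₁⟩, rfl⟩, _, ⟨i₂, ⟨j₂, -, hj₂⟩, rfl⟩, hind⟩ := exists_indep hN'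
  obtain ⟨m, hm1, hm2, hm3, hm4⟩ : ∃ m : I1, i₁ ≤ m ∧ i₂ ≤ m ∧ j₁ ≤ m ∧ j₂ ≤ m :=
    ⟨max (max i₁ i₂) (max j₁ j₂), by simp, by simp, by simp, by simp⟩
  have hg : γᵀ * γ = 1 := hγ
  have hbad : {i : I1 | ∃ j ≤ m, (w j).1 = γ *ᵥ (w i).1}.Countable := by
    have hsub : ∀ i ∈ {i : I1 | ∃ j ≤ m, (w j).1 = γ *ᵥ (w i).1},
        ∃ j ∈ Set.Iic m, (w j).1 = γ *ᵥ (w i).1 := fun i hi => hi
    have : Nonempty I1 := ⟨m⟩
    choose! f hf1 hf2 using hsub
    refine Set.MapsTo.countable_of_injOn (f := f) (t := Set.Iic m) hf1 ?_ (Iic_countable m)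
    intro i hi i' hi' he
    have e1 := hf2 i hi
    have e2 := hf2 i' hi'
    rw [he, e2] at e1
    have e3 : act γ hγ (w i') = act γ hγ (w i) := Subtype.ext e1
    exact (hinj (act_inj hγ e3)).symm
  obtain ⟨i, hiN, hi⟩ : ∃ i ∈ N, i ∉ Set.Iic m ∪ {i : I1 | ∃ j ≤ m, (w j).1 = γ *ᵥ (w i).1} := by
    by_contra hno
    push Not at hno
    exact hN (((Iic_countable m).union hbad).mono hno)
  obtain ⟨j, hji, hj⟩ := hiN
  have him : m < i := by
    by_contra h
    exact hi (Or.inl (not_lt.mp h))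
  have hjm : m < j := by
    by_contra h
    exact hi (Or.inr ⟨j, not_lt.mp h, hj⟩)
  rcases lt_or_gt_of_ne hji with h | h
  · apply (hw i).2
    refine Or.inr ⟨w j₁, ⟨j₁, hm3.trans_lt him, rfl⟩, w j₂, ⟨j₂, hm4.trans_lt him, rfl⟩,
      w i₁, ⟨i₁, hm1.trans_lt him, rfl⟩, w i₂, ⟨i₂, hm2.trans_lt him, rfl⟩, w j, ⟨j, h, rfl⟩,
      γᵀ, O3_transpose hγ, ?_, ?_, ?_, ?_⟩
    · rw [hj₁, hj₂, O3_dot hγ]; exact hind
    · rw [hj₁, Matrix.mulVec_mulVec, hg, Matrix.one_mulVec]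
    · rw [hj₂, Matrix.mulVec_mulVec, hg, Matrix.one_mulVec]
    · rw [hj, Matrix.mulVec_mulVec, hg, Matrix.one_mulVec]
  · apply (hw j).2
    refine Or.inr ⟨w i₁, ⟨i₁, hm1.trans_lt hjm, rfl⟩, w i₂, ⟨i₂, hm2.trans_lt hjm, rfl⟩,
      w j₁, ⟨j₁, hm3.trans_lt hjm, rfl⟩, w j₂, ⟨j₂, hm4.trans_lt hjm, rfl⟩, w i, ⟨i, h, rfl⟩,
      γ, hγ, hind, hj₁.symm, hj₂.symm, hj⟩

theorem core {G : Set M3} (hG : G ⊆ O3) {W : Set S2} (hW : ¬ W.Countable)
    (hcard : Cardinal.continuum < 2 ^ (ℵ₁ : Cardinal.{0})) (c : S2 → Fin 2)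
    (hbr : ∀ A ∈ G, A ≠ 1 → {w : S2 | w ∈ W ∧ A *ᵥ w.1 = w.1}.Countable ∨
      ∃ x ∉ W, ∃ y ∉ W, y.1 = A *ᵥ x.1 ∧ c y ≠ c x) :
    ∃ c' : S2 → Fin 2, (∀ x ∉ W, c' x = c x) ∧ Distinguishing G c' := by
  classical
  obtain ⟨w, hinj, hwW, hrig⟩ := exists_rigid hW
  by_contra hno
  push Not at hno
  let C : (I1 → Fin 2) → S2 → Fin 2 := fun D => Function.extend w D c
  have hCoff : ∀ D x, x ∉ Set.range w → C D x = c x := by
    intro D x hx
    exact Function.extend_apply' _ _ _ hx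
  have hCon : ∀ D i, C D (w i) = D i := fun D i => hinj.extend_apply _ _ _
  have hCW : ∀ D x, x ∉ W → C D x = c x := by
    intro D x hx
    apply hCoff
    rintro ⟨i, rfl⟩
    exact hx (hwW i)
  have h1 : ∀ D, ∃ A ∈ G, Invariant A (C D) ∧ A ≠ 1 := by
    intro D
    have := hno (C D) (hCW D)
    unfold Distinguishing at this
    push Not at this
    exact this
  choose A hAG hAinv hA1 using h1
  have hcount : ∀ D, {i : I1 | ∃ j, (w j).1 = A D *ᵥ (w i).1}.Countable := by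
    intro D
    have h2 : {w : S2 | w ∈ W ∧ A D *ᵥ w.1 = w.1}.Countable := by
      rcases hbr (A D) (hAG D) (hA1 D) with h | ⟨x, hx, y, hy, hxy, hc⟩
      · exact h
      · exfalso
        apply hc
        have := hAinv D x y hxy
        rwa [hCW D x hx, hCW D y hy] at this
    have h3 : {i : I1 | A D *ᵥ (w i).1 = (w i).1}.Countable := by
      refine Set.MapsTo.countable_of_injOn (f := w) ?_ hinj.injOn h2
      intro i hi
      exact ⟨hwW i, hi⟩
    refine ((hrig (A D) (hG (hAG D))).union h3).mono ?_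
    rintro i ⟨j, hj⟩
    by_cases hji : j = i
    · subst hji; right; exact hj.symm
    · left; exact ⟨j, hji, hj⟩
  let E : (I1 → Fin 2) → {t : Set I1 // #t ≤ ℵ₀} := fun D =>
    ⟨{i : I1 | (∃ j, (w j).1 = A D *ᵥ (w i).1) ∧ D i = 1},
      Cardinal.le_aleph0_iff_set_countable.mpr ((hcount D).mono fun i hi => hi.1)⟩
  have hFinj : Function.Injective (fun D => (A D, E D)) := by
    intro D D' hDD
    simp only [Prod.mk.injEq] at hDD
    obtain ⟨hAA, hEE⟩ := hDD
    funext i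
    by_cases hi : ∃ j, (w j).1 = A D *ᵥ (w i).1
    · have hi' : ∃ j, (w j).1 = A D' *ᵥ (w i).1 := by rw [← hAA]; exact hi
      have h5 : (E D).1 = (E D').1 := congrArg Subtype.val hEE
      have h6 : D i = 1 ↔ D' i = 1 := by
        have h7 : i ∈ (E D).1 ↔ i ∈ (E D').1 := by rw [h5]
        simp only [E, Set.mem_ofPred_eq, hi, hi', true_and] at h7
        exact h7
      have h8 : ∀ a b : Fin 2, (a = 1 ↔ b = 1) → a = b := by decide
      exact h8 _ _ h6
    · have hO := hG (hAG D)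
      have hO' := hG (hAG D')
      have hnr : act (A D) hO (w i) ∉ Set.range w := by
        rintro ⟨j, hj⟩
        exact hi ⟨j, congrArg Subtype.val hj⟩
      have e0 : act (A D') hO' (w i) = act (A D) hO (w i) := Subtype.ext (by
        simp only [act, hAA])
      have e1 := inv_act hO (hAinv D) (w i)
      have e2 := inv_act hO' (hAinv D') (w i)
      rw [hCon, hCoff D _ hnr] at e1
      rw [e0, hCon, hCoff D' _ hnr] at e2
      rw [← e1, e2]
  have h10 := Cardinal.mk_le_of_injective hFinj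
  have h11 : #(I1 → Fin 2) = 2 ^ (ℵ₁ : Cardinal.{0}) := by
    rw [← Cardinal.power_def, mk_I1]
    simp
  have h12 : #(M3 × {t : Set I1 // #t ≤ ℵ₀}) ≤ Cardinal.continuum := by
    rw [Cardinal.mk_prod, Cardinal.lift_id, Cardinal.lift_id]
    have a1 : #M3 = Cardinal.continuum := by
      have b1 : Cardinal.continuum.{0} ^ (3 : Cardinal.{0}) = Cardinal.continuum := by
        have := Cardinal.power_nat_eq (n := 3) Cardinal.aleph0_le_continuum.{0} (by norm_num)
        rw [← Cardinal.power_natCast] at this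
        exact this
      have b2 : #M3 = (Cardinal.continuum.{0} ^ (3 : Cardinal.{0})) ^ (3 : Cardinal.{0}) := by
        simp [M3, Matrix, Cardinal.mk_real]
      rw [b2, b1, b1]
    have a2 : #{t : Set I1 // #t ≤ ℵ₀} ≤ Cardinal.continuum := by
      refine (Cardinal.mk_bounded_set_le I1 ℵ₀).trans ?_
      rw [mk_I1]
      calc (max (ℵ₁ : Cardinal.{0}) ℵ₀) ^ (ℵ₀ : Cardinal.{0})
          ≤ Cardinal.continuum ^ (ℵ₀ : Cardinal.{0}) := by
            apply Cardinal.power_le_power_right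
            exact max_le Cardinal.aleph_one_le_continuum Cardinal.aleph0_le_continuum
        _ = Cardinal.continuum := Cardinal.continuum_power_aleph0
    rw [a1]
    calc Cardinal.continuum * #{t : Set I1 // #t ≤ ℵ₀}
        ≤ Cardinal.continuum * Cardinal.continuum := mul_le_mul' le_rfl a2
      _ = Cardinal.continuum := Cardinal.continuum_mul_self
  rw [h11] at h10
  exact absurd (h10.trans h12) (not_le.mpr hcard)

/-- Part I: if `2^ℵ₁` exceeds the continuum then every uncountable set with trivial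
stabilizer has the two-colour extension property. -/
theorem pep_of_lt {G : Set M3} (hG : G ⊆ O3) {W : Set S2} (hW : ¬ W.Countable)
    (hst : TrivialStab G W)
    (hcard : Cardinal.continuum < 2 ^ (ℵ₁ : Cardinal.{0})) (c : S2 → Fin 2) :
    ∃ c' : S2 → Fin 2, (∀ x ∉ W, c' x = c x) ∧ Distinguishing G c' := by
  classical
  by_cases hcase : ∃ A ∈ G, A ≠ 1 ∧ ¬ {w : S2 | w ∈ W ∧ A *ᵥ w.1 = w.1}.Countable
  · obtain ⟨A, hA, hA1, hAun⟩ := hcase
    obtain ⟨p, hpW, hp⟩ : ∃ p ∈ W, A *ᵥ p.1 ≠ p.1 := by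
      by_contra hno
      push Not at hno
      exact hA1 (hst A hA hno)
    have hAO := hG hA
    let q : S2 := act A hAO p
    have hqp : q ≠ p := fun h => hp (congrArg Subtype.val h)
    let c₁ : S2 → Fin 2 := Function.update c p (1 - c q)
    have hc1q : c₁ q = c q := Function.update_of_ne hqp _ _
    have hc1p : c₁ p = 1 - c q := Function.update_self _ _ _
    have hne : c₁ q ≠ c₁ p := by
      rw [hc1q, hc1p]
      have : ∀ a : Fin 2, a ≠ 1 - a := by decide
      exact this _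
    obtain ⟨c', hc', hd⟩ := core hG hAun hcard c₁ (by
      intro B hB hB1
      by_cases hBc : {w : S2 | w ∈ {w : S2 | w ∈ W ∧ A *ᵥ w.1 = w.1} ∧ B *ᵥ w.1 = w.1}.Countable
      · exact Or.inl hBc
      · right
        obtain ⟨u, ⟨⟨-, hu1⟩, hu2⟩, v, ⟨⟨-, hv1⟩, hv2⟩, huv⟩ := exists_indep hBc
        have hBO := hG hB
        have hdA : A.det = -1 := by
          rcases O3_det hAO with h | h
          · exact absurd (fix_two hAO h u.2 v.2 huv hu1 hv1) hA1
          · exact h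
        have hdB : B.det = -1 := by
          rcases O3_det hBO with h | h
          · exact absurd (fix_two hBO h u.2 v.2 huv hu2 hv2) hB1
          · exact h
        have hgA : Aᵀ * A = 1 := hAO
        have e1 : (Aᵀ * B) *ᵥ u.1 = u.1 := by
          rw [← Matrix.mulVec_mulVec, hu2]
          conv_lhs => rw [← hu1]
          rw [Matrix.mulVec_mulVec, hgA, Matrix.one_mulVec]
        have e2 : (Aᵀ * B) *ᵥ v.1 = v.1 := by
          rw [← Matrix.mulVec_mulVec, hv2]
          conv_lhs => rw [← hv1]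
          rw [Matrix.mulVec_mulVec, hgA, Matrix.one_mulVec]
        have e3 : (Aᵀ * B).det = 1 := by
          rw [Matrix.det_mul, Matrix.det_transpose, hdA, hdB]; norm_num
        have e4 := fix_two (O3_mul (O3_transpose hAO) hBO) e3 u.2 v.2 huv e1 e2
        have e5 : B = A := by
          calc B = (A * Aᵀ) * B := by rw [O3_mul_transpose hAO, Matrix.one_mul]
            _ = A := by rw [Matrix.mul_assoc, e4, Matrix.mul_one]
        subst e5
        refine ⟨p, fun h => hp h.2, q, ?_, rfl, hne⟩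
        rintro ⟨-, hq⟩
        apply hqp
        exact act_inj hAO (Subtype.ext hq))
    refine ⟨c', ?_, hd⟩
    intro x hx
    rw [hc' x (fun h => hx h.1)]
    exact Function.update_of_ne (fun h : x = p => hx (by rw [h]; exact hpW)) _ _
  · push Not at hcase
    exact core hG hW hcard c (fun A hA hA1 => Or.inl (hcase A hA hA1))

end Pool.Agent.X213.Sphere
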