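import Pool.Agent.X213.SphereWords
import Pool.Agent.X213.SphereI

open Matrix Cardinal

namespace Pool.Agent.X213.Sphere

/-- The half turn about the line through `a`. -/
noncomputable def Ht (a : Fin 3 → ℝ) : M3 := (a ⬝ᵥ a)⁻¹ • Qm a

theorem Qm_transpose (a : Fin 3 → ℝ) : (Qm a)ᵀ = Qm a := by
  ext i j
  simp only [Matrix.transpose_apply, Qm, Matrix.of_apply]
  rcases eq_or_ne i j with h | h
  · subst h; rfl
  · rw [Matrix.one_apply_ne h, Matrix.one_apply_ne h.symm]; ring

theorem Qm_sq (a : Fin 3 → ℝ) : Qm a * Qm a = ((a ⬝ᵥ a) * (a ⬝ᵥ a)) • (1 : M3) := by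
  ext i j
  fin_cases i <;> fin_cases j <;>
  simp [Matrix.mul_apply, Qm, dotProduct, Fin.sum_univ_three] <;> ring

theorem Qm_det (a : Fin 3 → ℝ) : (Qm a).det = (a ⬝ᵥ a) ^ 3 := by
  simp [Matrix.det_fin_three, Qm, dotProduct, Fin.sum_univ_three]; ring

theorem Ht_sq {a : Fin 3 → ℝ} (ha : a ⬝ᵥ a ≠ 0) : Ht a * Ht a = 1 := by
  rw [Ht, Matrix.smul_mul, Matrix.mul_smul, Qm_sq, smul_smul, smul_smul]
  have : (a ⬝ᵥ a)⁻¹ * (a ⬝ᵥ a)⁻¹ * ((a ⬝ᵥ a) * (a ⬝ᵥ a)) = 1 := by field_simp
  rw [this, one_smul]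

theorem Ht_mem {a : Fin 3 → ℝ} (ha : a ⬝ᵥ a ≠ 0) : Ht a ∈ SO3 := by
  constructor
  · have : (Ht a)ᵀ = Ht a := by rw [Ht, Matrix.transpose_smul, Qm_transpose]
    rw [this, Ht_sq ha]
  · rw [Ht, Matrix.det_smul, Qm_det]
    simp only [Fintype.card_fin]
    field_simp

/-- The point of the sphere with parameter `b`. -/
noncomputable def pt (b : ℝ) : Fin 3 → ℝ :=
  ![(4 / 5) * (1 - b ^ 2) / (1 + b ^ 2), (8 / 5) * b / (1 + b ^ 2), 3 / 5]

theorem one_add_sq_ne (b : ℝ) : 1 + b ^ 2 ≠ 0 := by positivity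

theorem pt_mem (b : ℝ) : pt b ⬝ᵥ pt b = 1 := by
  have := one_add_sq_ne b
  simp [pt, dotProduct, Fin.sum_univ_three]
  field_simp
  ring

theorem pt_row {c0 c1 c2 b : ℝ} (h : c0 * pt b 0 + c1 * pt b 1 + c2 * pt b 2 = 0) :
    (4 * c0 + 3 * c2) + 8 * c1 * b + (3 * c2 - 4 * c0) * b ^ 2 = 0 := by
  have h1 := one_add_sq_ne b
  simp [pt] at h
  field_simp at h
  linarith

theorem pt_inj {b b' : ℝ} (h : pt b = pt b') : b = b' := by
  have h1 := one_add_sq_ne b
  have h1' := one_add_sq_ne b'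
  have e0 := congrFun h 0
  have e1 := congrFun h 1
  simp [pt] at e0 e1
  field_simp at e0 e1
  have e2 : b ^ 2 = b' ^ 2 := by linarith
  rw [e2] at e1
  exact mul_right_cancel₀ h1' (e1.trans (mul_comm _ _))

/-- Quadratic relation lemma. -/
theorem quad (K : Subalgebra ℚ ℝ) {b : ℝ} (hb : Transcendental K b) {p q r : ℝ}
    (hp : p ∈ K) (hq : q ∈ K) (hr : r ∈ K) (h : p + q * b + r * b ^ 2 = 0) :
    p = 0 ∧ q = 0 ∧ r = 0 := by
  let P : Polynomial K := Polynomial.C ⟨p, hp⟩ + Polynomial.C ⟨q, hq⟩ * Polynomial.X +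
    Polynomial.C ⟨r, hr⟩ * Polynomial.X ^ 2
  have hP : Polynomial.aeval b P = 0 := by
    simp only [P, map_add, map_mul, Polynomial.aeval_C, Polynomial.aeval_X, map_pow]
    exact h
  have hP0 : P = 0 := by
    by_contra hne
    exact hb ⟨P, hne, hP⟩
  have c0 : P.coeff 0 = ⟨p, hp⟩ := by simp [P]
  have c1 : P.coeff 1 = ⟨q, hq⟩ := by
    simp [P, Polynomial.coeff_X_pow]
  have c2 : P.coeff 2 = ⟨r, hr⟩ := by
    simp [P, Polynomial.coeff_C]
  rw [hP0, Polynomial.coeff_zero] at c0 c1 c2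
  exact ⟨(congrArg Subtype.val c0).symm, (congrArg Subtype.val c1).symm,
    (congrArg Subtype.val c2).symm⟩

section
variable {F I : Type} (x : (F × Fin 3) ⊕ I → ℝ)

/-- the axes -/
def ax (f : F) (k : Fin 3) : ℝ := x (Sum.inl (f, k))

/-- the parameters -/
def pr (i : I) : ℝ := x (Sum.inr i)

theorem Qm_mem (K : Subalgebra ℚ ℝ) (a : Fin 3 → ℝ) (ha : ∀ k, a k ∈ K) (i j : Fin 3) :
    Qm a i j ∈ K := by
  have h2 : (2 : ℝ) ∈ K := by
    have := K.algebraMap_mem (2 : ℚ)
    simpa using this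
  have h1 : (1 : M3) i j ∈ K := by
    rw [Matrix.one_apply]
    split_ifs
    · exact K.one_mem
    · exact K.zero_mem
  simp only [Qm, Matrix.of_apply]
  refine K.sub_mem (K.mul_mem (K.mul_mem h2 (ha i)) (ha j)) (K.mul_mem ?_ h1)
  exact Subalgebra.sum_mem _ fun k _ => K.mul_mem (ha k) (ha k)

theorem Bm_mem (K : Subalgebra ℚ ℝ) (a : F → Fin 3 → ℝ) (ha : ∀ f k, a f k ∈ K) (u : List F)
    (i j : Fin 3) : Bm a u i j ∈ K := by
  induction u generalizing i j with
  | nil =>
    simp only [Bm, List.map_nil, List.prod_nil, Matrix.one_apply]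
    split_ifs
    · exact K.one_mem
    · exact K.zero_mem
  | cons f u ih =>
    rw [Bm_cons, Matrix.mul_apply]
    exact Subalgebra.sum_mem _ fun k _ => K.mul_mem (Qm_mem K _ (ha f) _ _) (ih _ _)

theorem Nm_mem (K : Subalgebra ℚ ℝ) (a : F → Fin 3 → ℝ) (ha : ∀ f k, a f k ∈ K) (u : List F) :
    Nm a u ∈ K := by
  induction u with
  | nil => simp [Nm, K.one_mem]
  | cons f u ih =>
    rw [Nm_cons]
    exact K.mul_mem (Subalgebra.sum_mem _ fun k _ => K.mul_mem (ha f k) (ha f k)) ih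

variable {x} (hx : AlgebraicIndependent ℚ x)
include hx

theorem ax_ne (f : F) : ax x f ⬝ᵥ ax x f ≠ 0 := by
  intro h
  have h0 : ax x f = 0 := dotProduct_self_eq_zero.mp h
  have h1 : x (Sum.inl (f, 0)) = 0 := congrFun h0 0
  exact (hx.ne_zero _) h1

theorem Nm_ne (u : List F) : Nm (ax x) u ≠ 0 := by
  induction u with
  | nil => simp [Nm]
  | cons f u ih => rw [Nm_cons]; exact mul_ne_zero (ax_ne hx f) ih

theorem word_ne (u : List F) (hu0 : u ≠ []) (hu : u.IsChain (· ≠ ·)) (i j : I) :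
    Bm (ax x) u *ᵥ pt (pr x i) ≠ Nm (ax x) u • pt (pr x j) := by
  intro h
  let K : Subalgebra ℚ ℝ := Algebra.adjoin ℚ (x '' {Sum.inr j}ᶜ)
  have htr : Transcendental K (pr x j) :=
    hx.transcendental_adjoin (s := {Sum.inr j}ᶜ) (i := Sum.inr j) (by simp)
  have hmem : ∀ t, t ≠ Sum.inr j → x t ∈ K := fun t ht =>
    Algebra.subset_adjoin ⟨t, ht, rfl⟩
  have hax : ∀ f k, ax x f k ∈ K := fun f k => hmem _ (by simp)
  have hB := Bm_mem K (ax x) hax u
  have hN := Nm_mem K (ax x) hax u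
  have hnat : ∀ n : ℕ, (n : ℝ) ∈ K := fun n => by
    have := K.algebraMap_mem (n : ℚ)
    simpa using this
  have h3 : (3 : ℝ) ∈ K := hnat 3
  have h4 : (4 : ℝ) ∈ K := hnat 4
  have h8 : (8 : ℝ) ∈ K := hnat 8
  by_cases hij : i = j
  · subst hij
    have hrow : ∀ m l, Bm (ax x) u m l = (Nm (ax x) u • (1 : M3)) m l := by
      intro m
      have e := congrFun h m
      have hc : ∀ l, (Bm (ax x) u - Nm (ax x) u • (1 : M3)) m l ∈ K := by
        intro l
        rw [Matrix.sub_apply, Matrix.smul_apply]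
        refine K.sub_mem (hB m l) ?_
        rw [Matrix.one_apply]
        split_ifs
        · simpa using hN
        · simp
      set c := fun l => (Bm (ax x) u - Nm (ax x) u • (1 : M3)) m l with hcdef
      have e1 : c 0 * pt (pr x i) 0 + c 1 * pt (pr x i) 1 + c 2 * pt (pr x i) 2 = 0 := by
        have e2 : ((Bm (ax x) u - Nm (ax x) u • (1 : M3)) *ᵥ pt (pr x i)) m = 0 := by
          rw [Matrix.sub_mulVec, Matrix.smul_mulVec, Matrix.one_mulVec, h]
          simp
        simpa [hcdef, Matrix.mulVec, dotProduct, Fin.sum_univ_three] using e2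
      have e3 := pt_row e1
      obtain ⟨q0, q1, q2⟩ := quad K htr
        (K.add_mem (K.mul_mem h4 (hc 0)) (K.mul_mem h3 (hc 2)))
        (K.mul_mem h8 (hc 1))
        (K.sub_mem (K.mul_mem h3 (hc 2)) (K.mul_mem h4 (hc 0))) e3
      have c0 : c 0 = 0 := by simp only [hcdef]; linarith
      have c1 : c 1 = 0 := by simp only [hcdef]; linarith
      have c2 : c 2 = 0 := by simp only [hcdef]; linarith
      intro l
      have : c l = 0 := by fin_cases l <;> assumption
      simp only [hcdef, Matrix.sub_apply] at this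
      linarith
    have hgen := Bm_generic (fun p : F × Fin 3 => x (Sum.inl p))
      (hx.comp Sum.inl Sum.inl_injective) u hu0 hu
    apply hgen
    ext m l
    exact hrow m l
  · have hbi : pr x i ∈ K := hmem _ (by simpa using hij)
    have e := congrFun h 1
    set B := Bm (ax x) u with hBdef
    set N := Nm (ax x) u with hNdef
    have hN0 : N ≠ 0 := Nm_ne hx u
    have g1 := one_add_sq_ne (pr x i)
    have g2 := one_add_sq_ne (pr x j)
    have h1K : (1 : ℝ) ∈ K := K.one_mem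
    set r : ℝ := B 1 0 * (4 * (1 - pr x i ^ 2)) + B 1 1 * (8 * pr x i) +
      B 1 2 * (3 * (1 + pr x i ^ 2)) with hr
    have hrK : r ∈ K := by
      refine K.add_mem (K.add_mem (K.mul_mem (hB 1 0) (K.mul_mem h4
        (K.sub_mem h1K (K.pow_mem hbi 2)))) (K.mul_mem (hB 1 1) (K.mul_mem h8 hbi)))
        (K.mul_mem (hB 1 2) (K.mul_mem h3 (K.add_mem h1K (K.pow_mem hbi 2))))
    have e1 : r * (1 + pr x j ^ 2) = 8 * N * (1 + pr x i ^ 2) * pr x j := by
      simp only [Matrix.mulVec, dotProduct, Fin.sum_univ_three, Pi.smul_apply, smul_eq_mul,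
        pt, Matrix.cons_val_zero, Matrix.cons_val_one, Matrix.cons_val] at e
      field_simp at e
      rw [hr]
      linarith
    obtain ⟨-, q1, -⟩ := quad K htr (p := r) (q := -(8 * N * (1 + pr x i ^ 2))) (r := r) hrK
      (K.neg_mem (K.mul_mem (K.mul_mem h8 hN) (K.add_mem h1K (K.pow_mem hbi 2)))) hrK
      (by linarith)
    have : 8 * N * (1 + pr x i ^ 2) ≠ 0 := mul_ne_zero (mul_ne_zero (by norm_num) hN0) g1
    exact this (by linarith)

omit hx in
/-- The word rotation. -/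
noncomputable def Hw (x : (F × Fin 3) ⊕ I → ℝ) (u : List F) : M3 := (u.map fun f => Ht (ax x f)).prod

omit hx in
theorem Hw_cons (f : F) (u : List F) : Hw x (f :: u) = Ht (ax x f) * Hw x u := by simp [Hw]

omit hx in
theorem Hw_append (u v : List F) : Hw x (u ++ v) = Hw x u * Hw x v := by simp [Hw]

omit hx in
theorem Hw_eq (u : List F) : Hw x u = (Nm (ax x) u)⁻¹ • Bm (ax x) u := by
  induction u with
  | nil => simp [Hw, Nm, Bm]
  | cons f u ih =>
    rw [Hw_cons, ih, Nm_cons, Bm_cons, Ht, Matrix.smul_mul, Matrix.mul_smul, smul_smul, mul_inv]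

theorem Hw_ne (u : List F) (hu0 : u ≠ []) (hu : u.IsChain (· ≠ ·)) (i j : I) :
    Hw x u *ᵥ pt (pr x i) ≠ pt (pr x j) := by
  intro h
  apply word_ne hx u hu0 hu i j
  rw [← h, Hw_eq, Matrix.smul_mulVec, smul_smul, mul_inv_cancel₀ (Nm_ne hx u), one_smul]

theorem Hw_reverse (u : List F) : Hw x u.reverse * Hw x u = 1 := by
  induction u with
  | nil => simp [Hw]
  | cons f u ih =>
    rw [List.reverse_cons, Hw_append, Hw_cons f u]
    have h1 : Hw x [f] = Ht (ax x f) := by simp [Hw]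
    rw [h1, Matrix.mul_assoc, ← Matrix.mul_assoc (Ht (ax x f)), Ht_sq (ax_ne hx f),
      Matrix.one_mul, ih]

theorem pr_inj {i j : I} (h : pt (pr x i) = pt (pr x j)) : i = j := by
  have := hx.injective (pt_inj h)
  exact Sum.inr_injective this

theorem unique_rep (u v : List F) (hu : u.IsChain (· ≠ ·)) (hv : v.IsChain (· ≠ ·)) (i j : I)
    (h : Hw x u *ᵥ pt (pr x i) = Hw x v *ᵥ pt (pr x j)) : u = v ∧ i = j := by
  induction u generalizing v with
  | nil =>
    rcases v with _ | ⟨g, v⟩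
    · refine ⟨rfl, pr_inj hx ?_⟩
      simpa [Hw] using h
    · exfalso
      refine Hw_ne hx (g :: v) (by simp) hv j i ?_
      rw [← h]; simp [Hw]
  | cons f u ih =>
    rcases v with _ | ⟨g, v⟩
    · exfalso
      refine Hw_ne hx (f :: u) (by simp) hu i j ?_
      rw [h]; simp [Hw]
    · by_cases hfg : f = g
      · subst hfg
        have h2 : Hw x u *ᵥ pt (pr x i) = Hw x v *ᵥ pt (pr x j) := by
          have := congrArg (fun z => Ht (ax x f) *ᵥ z) h
          simpa only [Hw_cons, Matrix.mulVec_mulVec, ← Matrix.mul_assoc, Ht_sq (ax_ne hx f),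
            Matrix.one_mul] using this
        obtain ⟨e1, e2⟩ := ih v hu.tail hv.tail h2
        exact ⟨by rw [e1], e2⟩
      · exfalso
        refine Hw_ne hx ((g :: v).reverse ++ (f :: u)) (by simp) ?_ i j ?_
        · rw [List.isChain_append]
          refine ⟨?_, hu, ?_⟩
          · rw [List.isChain_reverse]
            exact hv.imp fun a b hab => hab.symm
          · intro a ha b hb
            simp at ha hb
            rw [← ha, ← hb]
            exact fun h => hfg h.symm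
        · rw [Hw_append, ← Matrix.mulVec_mulVec, h, Matrix.mulVec_mulVec, Hw_reverse hx,
            Matrix.one_mulVec]

end

end Pool.Agent.X213.Sphere
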