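import Pool.Agent.X213.SphereII

open Matrix Cardinal

namespace Pool.Agent.X213.Sphere

section coloring

variable {I : Type} (x : ((I → Fin 2) × Fin 3) ⊕ I → ℝ)

/-- The point `w i`. -/
noncomputable def wpt (i : I) : S2 := ⟨pt (pr x i), pt_mem _⟩

/-- the partial colouring -/
noncomputable def pcol (y : S2) : Fin 2 :=
  open Classical in
  if h : ∃ p : List (I → Fin 2) × I, p.1.IsChain (· ≠ ·) ∧ p.1 ≠ [] ∧
      y.1 = Hw x p.1 *ᵥ pt (pr x p.2)
  then h.choose.1.getLastD (fun _ => 0) h.choose.2 else 0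

variable {x} (hx : AlgebraicIndependent ℚ x)
include hx

omit hx in
theorem getLastD_ne {α : Type*} (l : List α) (h : l ≠ []) (a b : α) :
    l.getLastD a = l.getLastD b := by
  cases l with
  | nil => exact absurd rfl h
  | cons c l => rw [List.getLastD_cons, List.getLastD_cons]

theorem pcol_val (u : List (I → Fin 2)) (hu : u.IsChain (· ≠ ·)) (hu0 : u ≠ []) (i : I) (y : S2)
    (hy : y.1 = Hw x u *ᵥ pt (pr x i)) (f : I → Fin 2) : pcol x y = u.getLastD f i := by
  have h : ∃ p : List (I → Fin 2) × I, p.1.IsChain (· ≠ ·) ∧ p.1 ≠ [] ∧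
      y.1 = Hw x p.1 *ᵥ pt (pr x p.2) := ⟨(u, i), hu, hu0, hy⟩
  have e : pcol x y = h.choose.1.getLastD (fun _ => 0) h.choose.2 := by
    unfold pcol; exact dif_pos h
  obtain ⟨h1, h2, h3⟩ := h.choose_spec
  obtain ⟨e1, e2⟩ := unique_rep hx _ _ h1 hu _ _ (h3.symm.trans hy)
  rw [e, e1, e2]
  exact congrFun (getLastD_ne u hu0 _ _) i

theorem ext_invariant (c' : S2 → Fin 2) (hc' : ∀ y, y ∉ Set.range (wpt x) → c' y = pcol x y) :
    Invariant (Ht (ax x (fun i => c' (wpt x i)))) c' := by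
  set f : I → Fin 2 := fun i => c' (wpt x i) with hf
  have hval : ∀ (u : List (I → Fin 2)) (_ : u.IsChain (· ≠ ·)) (i : I) (y : S2)
      (_ : y.1 = Hw x u *ᵥ pt (pr x i)), c' y = u.getLastD f i := by
    intro u hu i y hy
    by_cases hu0 : u = []
    · subst hu0
      have : y = wpt x i := Subtype.ext (by rw [hy]; simp [Hw, wpt])
      rw [this]; rfl
    · rw [hc' y, pcol_val hx u hu hu0 i y hy f]
      rintro ⟨j, rfl⟩
      exact Hw_ne hx u hu0 hu i j hy.symm
  have hsq := Ht_sq (ax_ne hx f)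
  have step : ∀ (u : List (I → Fin 2)) (_ : u.IsChain (· ≠ ·)) (i : I) (y z : S2)
      (_ : y.1 = Hw x u *ᵥ pt (pr x i)) (_ : z.1 = Ht (ax x f) *ᵥ y.1),
      c' z = c' y ∧ ∃ v : List (I → Fin 2), v.IsChain (· ≠ ·) ∧ z.1 = Hw x v *ᵥ pt (pr x i) := by
    intro u hu i y z hy hz
    rw [hval u hu i y hy]
    by_cases hcase : ∃ u', u = f :: u'
    · obtain ⟨u', rfl⟩ := hcase
      have hz' : z.1 = Hw x u' *ᵥ pt (pr x i) := by
        rw [hz, hy, Hw_cons, Matrix.mulVec_mulVec, ← Matrix.mul_assoc, hsq, Matrix.one_mul]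
      rw [hval u' hu.tail i z hz', List.getLastD_cons]
      exact ⟨rfl, u', hu.tail, hz'⟩
    · have hz' : z.1 = Hw x (f :: u) *ᵥ pt (pr x i) := by
        rw [hz, hy, Hw_cons, Matrix.mulVec_mulVec]
      have hch : (f :: u).IsChain (· ≠ ·) := by
        cases u with
        | nil => exact List.IsChain.singleton _
        | cons g u =>
          rw [List.isChain_cons_cons]
          refine ⟨?_, hu⟩
          rintro rfl
          exact hcase ⟨u, rfl⟩
      rw [hval (f :: u) hch i z hz', List.getLastD_cons]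
      exact ⟨rfl, f :: u, hch, hz'⟩
  intro y z hz
  by_cases hy : ∃ (u : List (I → Fin 2)) (i : I), u.IsChain (· ≠ ·) ∧
      y.1 = Hw x u *ᵥ pt (pr x i)
  · obtain ⟨u, i, hu, hyu⟩ := hy
    exact (step u hu i y z hyu hz).1
  · have hz2 : ¬ ∃ (u : List (I → Fin 2)) (i : I), u.IsChain (· ≠ ·) ∧
        z.1 = Hw x u *ᵥ pt (pr x i) := by
      rintro ⟨u, i, hu, hzu⟩
      have hyz : y.1 = Ht (ax x f) *ᵥ z.1 := by
        rw [hz, Matrix.mulVec_mulVec, hsq, Matrix.one_mulVec]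
      obtain ⟨-, v, hv, hyv⟩ := step u hu i z y hzu hyz
      exact hy ⟨v, i, hv, hyv⟩
    have hnone : ∀ t : S2, (¬ ∃ (u : List (I → Fin 2)) (i : I), u.IsChain (· ≠ ·) ∧
        t.1 = Hw x u *ᵥ pt (pr x i)) → c' t = 0 := by
      intro t ht
      rw [hc' t]
      · unfold pcol
        apply dif_neg
        rintro ⟨p, hp1, -, hp3⟩
        exact ht ⟨p.1, p.2, hp1, hp3⟩
      · rintro ⟨j, rfl⟩
        exact ht ⟨[], j, List.IsChain.nil, by simp [Hw, wpt]⟩
    rw [hnone y hy, hnone z hz2]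

theorem wpt_inj : Function.Injective (wpt x) := by
  intro i j h
  exact pr_inj hx (congrArg Subtype.val h)

theorem wpt_stab (i₁ i₂ i₃ : I) (h12 : i₁ ≠ i₂) (h13 : i₁ ≠ i₃) (h23 : i₂ ≠ i₃) (A : M3)
    (hA : ∀ i, A *ᵥ (wpt x i).1 = (wpt x i).1) : A = 1 := by
  have hpr : ∀ {i j : I}, i ≠ j → pr x i - pr x j ≠ 0 := by
    intro i j hij
    rw [sub_ne_zero]
    intro h
    exact hij (Sum.inr_injective (hx.injective h))
  ext m l
  set c : Fin 3 → ℝ := fun l => (A - 1) m l with hc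
  have hrow : ∀ i, (4 * c 0 + 3 * c 2) + 8 * c 1 * pr x i + (3 * c 2 - 4 * c 0) * pr x i ^ 2 = 0 := by
    intro i
    apply pt_row
    have e : ((A - 1) *ᵥ pt (pr x i)) m = 0 := by
      rw [Matrix.sub_mulVec, Matrix.one_mulVec]
      have := hA i
      simp only [wpt] at this
      rw [this]; simp
    simpa [hc, Matrix.mulVec, dotProduct, Fin.sum_univ_three] using e
  have quad3 : ∀ p q r b1 b2 b3 : ℝ, b1 - b2 ≠ 0 → b1 - b3 ≠ 0 → b2 - b3 ≠ 0 →
      p + q * b1 + r * b1 ^ 2 = 0 → p + q * b2 + r * b2 ^ 2 = 0 → p + q * b3 + r * b3 ^ 2 = 0 →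
      p = 0 ∧ q = 0 ∧ r = 0 := by
    intro p q r b1 b2 b3 h1 h2 h3 e1 e2 e3
    have f1 : q + r * (b1 + b2) = 0 := by
      apply mul_left_cancel₀ h1; linear_combination e1 - e2
    have f2 : q + r * (b1 + b3) = 0 := by
      apply mul_left_cancel₀ h2; linear_combination e1 - e3
    have f3 : r = 0 := by
      apply mul_left_cancel₀ h3; linear_combination f1 - f2
    rw [f3] at f1 e1
    have f4 : q = 0 := by linarith
    rw [f4] at e1
    exact ⟨by linarith, f4, f3⟩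
  obtain ⟨q0, q1, q2⟩ := quad3 _ _ _ _ _ _ (hpr h12) (hpr h13) (hpr h23) (hrow i₁) (hrow i₂)
    (hrow i₃)
  have c0 : c 0 = 0 := by linarith
  have c1 : c 1 = 0 := by linarith
  have c2 : c 2 = 0 := by linarith
  have : c l = 0 := by fin_cases l <;> assumption
  simp only [hc, Matrix.sub_apply] at this
  linarith

end coloring

theorem exists_family (h : (2 : Cardinal.{0}) ^ (ℵ₁ : Cardinal.{0}) = Cardinal.continuum) :
    ∃ x : ((I1 → Fin 2) × Fin 3) ⊕ I1 → ℝ, AlgebraicIndependent ℚ x := by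
  obtain ⟨s, hs⟩ := exists_isTranscendenceBasis ℚ ℝ
  have halg := hs.isAlgebraic
  rw [Subtype.range_coe] at halg
  have h1 : #ℝ ≤ max #(Algebra.adjoin ℚ s) ℵ₀ := Algebra.IsAlgebraic.cardinalMk_le_max _ _
  have h2 : #(Algebra.adjoin ℚ s) ≤ max (max #ℚ #s) ℵ₀ := Algebra.cardinalMk_adjoin_le ℚ s
  have h3 : Cardinal.continuum ≤ #s := by
    by_contra hlt
    rw [not_le] at hlt
    have h4 : #ℝ < Cardinal.continuum := by
      refine h1.trans_lt (max_lt (h2.trans_lt (max_lt (max_lt ?_ hlt) ?_)) ?_)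
      · rw [Cardinal.mk_eq_aleph0 ℚ]; exact Cardinal.aleph0_lt_continuum
      · exact Cardinal.aleph0_lt_continuum
      · exact Cardinal.aleph0_lt_continuum
    rw [Cardinal.mk_real] at h4
    exact lt_irrefl _ h4
  have h5 : #(((I1 → Fin 2) × Fin 3) ⊕ I1) ≤ #s := by
    refine le_trans ?_ h3
    have h6 : #(I1 → Fin 2) = Cardinal.continuum := by
      rw [← Cardinal.power_def, mk_I1, ← h]
      simp
    rw [Cardinal.mk_sum, Cardinal.mk_prod, h6, mk_I1]
    simp only [Cardinal.lift_id, Cardinal.mk_fin]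
    rw [Cardinal.continuum_mul_nat (by norm_num)]
    calc Cardinal.continuum + ℵ₁ ≤ Cardinal.continuum + Cardinal.continuum :=
          add_le_add le_rfl Cardinal.aleph_one_le_continuum
      _ = Cardinal.continuum := Cardinal.continuum_add_self
  obtain ⟨e⟩ := h5
  exact ⟨fun t => (e t : ℝ), hs.1.comp e e.injective⟩

theorem I1_uncountable : ¬ Countable I1 := by
  rw [← Cardinal.mk_le_aleph0_iff, mk_I1, not_le]
  exact Cardinal.aleph0_lt_aleph_one

theorem exists_three : ∃ i₁ i₂ i₃ : I1, i₁ ≠ i₂ ∧ i₁ ≠ i₃ ∧ i₂ ≠ i₃ := by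
  have : Infinite I1 := by
    by_contra h
    rw [not_infinite_iff_finite] at h
    exact I1_uncountable (Finite.to_countable)
  let e := Infinite.natEmbedding I1
  exact ⟨e 0, e 1, e 2, e.injective.ne (by decide), e.injective.ne (by decide),
    e.injective.ne (by decide)⟩

/-- Part II. -/
theorem exists_bad (h : (2 : Cardinal.{0}) ^ (ℵ₁ : Cardinal.{0}) = Cardinal.continuum) :
    ∃ W : Set S2, ¬ W.Countable ∧ TrivialStab O3 W ∧
      ∃ c : S2 → Fin 2, ∀ c' : S2 → Fin 2, (∀ y ∉ W, c' y = c y) →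
        ∃ A ∈ SO3, A ≠ 1 ∧ Invariant A c' := by
  obtain ⟨x, hx⟩ := exists_family h
  obtain ⟨i₁, i₂, i₃, h12, h13, h23⟩ := exists_three
  refine ⟨Set.range (wpt x), ?_, ?_, pcol x, ?_⟩
  · intro hc
    have h1 : (Set.univ : Set I1).Countable :=
      Set.MapsTo.countable_of_injOn (f := wpt x) (t := Set.range (wpt x))
        (fun i _ => Set.mem_range_self i) (wpt_inj hx).injOn hc
    exact I1_uncountable (Set.countable_univ_iff.mp h1)
  · intro A _ hA
    exact wpt_stab hx i₁ i₂ i₃ h12 h13 h23 A (fun i => hA _ ⟨i, rfl⟩)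
  · intro c' hc'
    refine ⟨_, Ht_mem (ax_ne hx _), ?_, ext_invariant hx c' hc'⟩
    intro h1
    refine Hw_ne hx [fun i => c' (wpt x i)] (by simp) (List.IsChain.singleton _) i₁ i₁ ?_
    have : Hw x [fun i => c' (wpt x i)] = Ht (ax x (fun i => c' (wpt x i))) := by simp [Hw]
    rw [this, h1, Matrix.one_mulVec]

end Pool.Agent.X213.Sphere
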