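import Pool.Agent.X213.SphereDefs

open Matrix

namespace Pool.Agent.X213.Sphere

section poly

variable {R : Type*} [CommRing R] {F : Type*}

/-- The matrix `2 a aᵀ - (a·a)`. -/
def Qm (a : Fin 3 → R) : Matrix (Fin 3) (Fin 3) R :=
  Matrix.of fun i j => 2 * a i * a j - (a ⬝ᵥ a) * (1 : Matrix (Fin 3) (Fin 3) R) i j

/-- Product of the matrices `Qm` along a word. -/
def Bm (x : F → Fin 3 → R) (u : List F) : Matrix (Fin 3) (Fin 3) R :=
  (u.map fun f => Qm (x f)).prod

/-- Product of the norms along a word. -/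
def Nm (x : F → Fin 3 → R) (u : List F) : R := (u.map fun f => x f ⬝ᵥ x f).prod

theorem Bm_cons (x : F → Fin 3 → R) (f : F) (u : List F) :
    Bm x (f :: u) = Qm (x f) * Bm x u := by simp [Bm]

theorem Nm_cons (x : F → Fin 3 → R) (f : F) (u : List F) :
    Nm x (f :: u) = (x f ⬝ᵥ x f) * Nm x u := by simp [Nm]

theorem Qm_map {S : Type*} [CommRing S] (φ : R →+* S) (a : Fin 3 → R) :
    (Qm a).map φ = Qm (fun k => φ (a k)) := by
  ext i j
  have h2 : φ 2 = 2 := map_ofNat φ 2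
  by_cases h : i = j
  · subst h; simp [Qm, dotProduct, h2]
  · simp [Qm, dotProduct, h, h2]

theorem Bm_map {S : Type*} [CommRing S] (φ : R →+* S) (x : F → Fin 3 → R) (u : List F) :
    (Bm x u).map φ = Bm (fun f k => φ (x f k)) u := by
  induction u with
  | nil => simp [Bm]
  | cons f u ih => rw [Bm_cons, Bm_cons, Matrix.map_mul, ih, Qm_map]

theorem Nm_map {S : Type*} [CommRing S] (φ : R →+* S) (x : F → Fin 3 → R) (u : List F) :
    φ (Nm x u) = Nm (fun f k => φ (x f k)) u := by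
  induction u with
  | nil => simp [Nm]
  | cons f u ih =>
    rw [Nm_cons, Nm_cons, map_mul, ih]
    congr 1
    simp [dotProduct]

theorem Qm_isotropic (a : Fin 3 → R) (h : a ⬝ᵥ a = 0) (i j : Fin 3) :
    Qm a i j = 2 * a i * a j := by
  simp [Qm, h]

theorem Bm_isotropic [IsDomain R] (h2 : (2 : R) ≠ 0) (x : F → Fin 3 → R)
    (h0 : ∀ f, x f ⬝ᵥ x f = 0) (hne : ∀ f, x f ≠ 0)
    (hfg : ∀ f g, f ≠ g → x f ⬝ᵥ x g ≠ 0) (u : List F) (f : F)
    (hu : (f :: u).IsChain (· ≠ ·)) :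
    ∃ y : Fin 3 → R, y ≠ 0 ∧ Bm x (f :: u) = vecMulVec (x f) y := by
  induction u generalizing f with
  | nil =>
    refine ⟨(2 : R) • x f, smul_ne_zero h2 (hne f), ?_⟩
    ext i j
    simp [Bm, Qm, h0, vecMulVec_apply]
    ring
  | cons g u ih =>
    rw [List.isChain_cons_cons] at hu
    obtain ⟨y, hy, he⟩ := ih g hu.2
    refine ⟨(2 * (x f ⬝ᵥ x g)) • y, smul_ne_zero (mul_ne_zero h2 (hfg f g hu.1)) hy, ?_⟩
    rw [Bm_cons, he]
    ext i j
    simp only [Matrix.mul_apply, Qm_isotropic _ (h0 f), vecMulVec_apply, dotProduct,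
      Fin.sum_univ_three, Pi.smul_apply, smul_eq_mul]
    ring

theorem Bm_isotropic_ne [IsDomain R] (h2 : (2 : R) ≠ 0) (x : F → Fin 3 → R)
    (h0 : ∀ f, x f ⬝ᵥ x f = 0) (hne : ∀ f, x f ≠ 0)
    (hfg : ∀ f g, f ≠ g → x f ⬝ᵥ x g ≠ 0) (u : List F) (hu0 : u ≠ [])
    (hu : u.IsChain (· ≠ ·)) : Bm x u ≠ Nm x u • (1 : Matrix (Fin 3) (Fin 3) R) := by
  obtain ⟨f, u, rfl⟩ := List.exists_cons_of_ne_nil hu0
  obtain ⟨y, hy, he⟩ := Bm_isotropic h2 x h0 hne hfg u f hu
  rw [he, Nm_cons, h0, zero_mul, zero_smul]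
  intro h
  obtain ⟨i, hi⟩ := Function.ne_iff.mp (hne f)
  obtain ⟨j, hj⟩ := Function.ne_iff.mp hy
  have := congrFun (congrFun h i) j
  rw [vecMulVec_apply] at this
  exact mul_ne_zero hi hj this

end poly

open Complex in
/-- isotropic vector -/
noncomputable def iso (t : ℝ) : Fin 3 → ℂ := ![I * t, (1 + t ^ 2) / 2, -I * (1 - t ^ 2) / 2]

theorem iso_dot (s t : ℝ) : iso s ⬝ᵥ iso t = ((s : ℂ) - t) ^ 2 / 2 := by
  simp [iso, dotProduct, Fin.sum_univ_three]
  ring_nf
  simp [Complex.I_sq]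
  ring

theorem Bm_generic {F : Type} (x : F × Fin 3 → ℝ) (hx : AlgebraicIndependent ℚ x)
    (u : List F) (hu0 : u ≠ []) (hu : u.IsChain (· ≠ ·)) :
    Bm (fun f k => x (f, k)) u ≠ Nm (fun f k => x (f, k)) u • (1 : M3) := by
  intro h
  let X' : F → Fin 3 → MvPolynomial (F × Fin 3) ℚ := fun f k => MvPolynomial.X (f, k)
  have hinj : Function.Injective (MvPolynomial.aeval (R := ℚ) x) := hx
  have h1 : Bm X' u = Nm X' u • (1 : Matrix (Fin 3) (Fin 3) (MvPolynomial (F × Fin 3) ℚ)) := by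
    have e1 := Bm_map (MvPolynomial.aeval (R := ℚ) x).toRingHom X' u
    have e2 := Nm_map (MvPolynomial.aeval (R := ℚ) x).toRingHom X' u
    ext i j
    apply congrArg
    apply hinj
    have e3 := congrFun (congrFun e1 i) j
    simp only [X', AlgHom.toRingHom_eq_coe, RingHom.coe_coe, Matrix.map_apply,
      MvPolynomial.aeval_X] at e2 e3
    rw [e3, h, Matrix.smul_apply, Matrix.smul_apply, ← e2]
    by_cases hij : i = j
    · subst hij; simp; rfl
    · simp [hij]
  let τ : F → ℝ := fun f => x (f, 0)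
  have hτ : ∀ f g, f ≠ g → τ f ≠ τ g := by
    intro f g hfg he
    have := hx.injective he
    exact hfg (congrArg Prod.fst this)
  let y : F × Fin 3 → ℂ := fun p => iso (τ p.1) p.2
  let φ := (MvPolynomial.aeval (R := ℚ) y).toRingHom
  have e1 := Bm_map φ X' u
  have e2 := Nm_map φ X' u
  have e4 : (fun f k => φ (X' f k)) = fun f => iso (τ f) := by
    funext f k
    simp [φ, X', y]
  rw [e4] at e1 e2
  refine Bm_isotropic_ne (two_ne_zero) (fun f => iso (τ f)) ?_ ?_ ?_ u hu0 hu ?_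
  · intro f
    rw [iso_dot]; simp
  · intro f hf
    have h0 := congrFun hf 1
    have h1 : ((1 : ℝ) + τ f ^ 2 : ℝ) = 0 := by
      have h2 : ((1 : ℂ) + (τ f : ℂ) ^ 2) = 0 := by
        simp [iso] at h0
        exact h0
      exact_mod_cast h2
    nlinarith [sq_nonneg (τ f)]
  · intro f g hfg
    rw [iso_dot]
    have : (τ f : ℂ) - τ g ≠ 0 := by
      rw [sub_ne_zero]
      intro h
      exact hτ f g hfg (by exact_mod_cast h)
    exact div_ne_zero (pow_ne_zero _ this) two_ne_zero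
  · rw [← e1, h1, ← e2]
    ext i j
    by_cases hij : i = j
    · subst hij; simp
    · simp [hij]

end Pool.Agent.X213.Sphere
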