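import Pool.Agent.H964R2.Core.Main

/-! The inequality between traces and degrees in level two. -/

set_option autoImplicit false

namespace Pool.Agent.X213.Two

open Finset Pool.Agent.H964R2.Core

/-- the contribution of a pair (eigenvalue, degree) -/
noncomputable def con (c : ℂ) (m : ℕ) : ℂ := if m = 1 then c ^ 2 else if m = 2 then 2 * c else 0

/-- The roots of `c * r ^ m = 1`. -/
theorem rootset2 (c : ℂ) (hc : c ≠ 0) (m : ℕ) (hm : 0 < m) :
    ∃ R : Finset ℂ, (∀ r, r ∈ R ↔ c * r ^ m = 1) ∧ R.card = m ∧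
      ∑ r ∈ R, (r⁻¹) ^ 2 = con c m := by
  classical
  obtain ⟨R, h1, h2, _⟩ := rootset c hc m hm
  refine ⟨R, h1, h2, ?_⟩
  unfold con
  split_ifs with hm1 hm2
  · subst hm1
    obtain ⟨r, hr⟩ := Finset.card_eq_one.1 h2
    have h3 := (h1 r).1 (by rw [hr]; exact Finset.mem_singleton_self r)
    rw [pow_one] at h3
    rw [hr, Finset.sum_singleton]
    rw [inv_eq_of_mul_eq_one_left h3]
  · subst hm2
    have h3 : ∀ r ∈ R, (r⁻¹) ^ 2 = c := by
      intro r hr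
      rw [inv_pow]
      exact inv_eq_of_mul_eq_one_left ((h1 r).1 hr)
    rw [Finset.sum_congr rfl h3, Finset.sum_const, h2, nsmul_eq_mul]
    push_cast
    ring
  · set ζ : ℂ := Complex.exp (2 * Real.pi * Complex.I / m) with hζdef
    have hζ : IsPrimitiveRoot ζ m := Complex.isPrimitiveRoot_exp m hm.ne'
    have hζ0 : ζ ≠ 0 := Complex.exp_ne_zero _
    have h3 : ∑ r ∈ R, (r⁻¹) ^ 2 = (ζ⁻¹) ^ 2 * ∑ r ∈ R, (r⁻¹) ^ 2 := by
      rw [Finset.mul_sum]
      refine Finset.sum_bij (fun r _ => ζ⁻¹ * r) ?_ ?_ ?_ ?_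
      · intro r hr
        rw [h1] at hr ⊢
        rw [mul_pow, inv_pow, hζ.pow_eq_one, inv_one, one_mul]
        exact hr
      · intro a _ b _ hab
        exact mul_left_cancel₀ (inv_ne_zero hζ0) hab
      · intro r hr
        refine ⟨ζ * r, ?_, ?_⟩
        · rw [h1] at hr ⊢
          rw [mul_pow, hζ.pow_eq_one, one_mul]
          exact hr
        · rw [← mul_assoc, inv_mul_cancel₀ hζ0, one_mul]
      · intro r _
        rw [mul_inv, inv_inv, mul_pow, ← mul_assoc, ← mul_pow, inv_mul_cancel₀ hζ0, one_pow,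
          one_mul]
    have h4 : (1 - (ζ⁻¹) ^ 2) * ∑ r ∈ R, (r⁻¹) ^ 2 = 0 := by
      rw [sub_mul, one_mul, ← h3, sub_self]
    rcases mul_eq_zero.1 h4 with h5 | h5
    · exfalso
      have h6 : ζ ^ 2 = 1 := by
        have h7 : (ζ⁻¹) ^ 2 = 1 := (sub_eq_zero.1 h5).symm
        rw [inv_pow, inv_eq_one] at h7
        exact h7
      have h7 := Nat.le_of_dvd (by norm_num) (hζ.dvd_of_pow_eq_one 2 h6)
      omega
    · exact h5

/-- The main numerical inequality. -/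
theorem count_ineq2 {K L : Type*} [Fintype K] [Fintype L] (lam : K → ℂ) (m : K → ℕ)
    (mu : L → ℂ) (d : L → ℕ) (hlam : ∀ k, ‖lam k‖ = 1) (hm : ∀ k, 0 < m k)
    (hmu : ∀ l, ‖mu l‖ = 1) (hd : ∀ l, 0 < d l)
    (h : ∀ t : ℂ, t ^ 2 ≠ 1 → (univ.filter (fun k => lam k * t ^ m k = 1)).card ≤
      (univ.filter (fun l => mu l * t ^ d l = 1)).card) :
    (∑ k, (m k : ℝ)) - ∑ l, (d l : ℝ) ≤ (∑ k, con (lam k) (m k) - ∑ l, con (mu l) (d l)).re := by
  classical
  have hlam0 : ∀ k, lam k ≠ 0 := fun k h0 => by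
    have := hlam k; rw [h0, norm_zero] at this; exact zero_ne_one this
  have hmu0 : ∀ k, mu k ≠ 0 := fun k h0 => by
    have := hmu k; rw [h0, norm_zero] at this; exact zero_ne_one this
  choose R hR1 hR2 hR3 using fun k => rootset2 (lam k) (hlam0 k) (m k) (hm k)
  choose S hS1 hS2 hS3 using fun l => rootset2 (mu l) (hmu0 l) (d l) (hd l)
  set F : Finset ℂ := (univ.biUnion R) ∪ (univ.biUnion S) with hF
  have hRF : ∀ k, R k ⊆ F := fun k r hr => by
    rw [hF, mem_union, mem_biUnion]; exact Or.inl ⟨k, mem_univ _, hr⟩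
  have hSF : ∀ k, S k ⊆ F := fun k r hr => by
    rw [hF, mem_union, mem_biUnion, mem_biUnion]; exact Or.inr ⟨k, mem_univ _, hr⟩
  have hnorm : ∀ (c r : ℂ) (j : ℕ), 0 < j → ‖c‖ = 1 → c * r ^ j = 1 → ‖r‖ = 1 := by
    intro c r j hj hc hcr
    have h1 := congrArg norm hcr
    rw [norm_mul, hc, one_mul, norm_pow, norm_one] at h1
    exact (pow_eq_one_iff_of_nonneg (norm_nonneg _) hj.ne').mp h1
  have hFn : ∀ r ∈ F, ‖r‖ = 1 := by
    intro r hr
    rw [hF, mem_union, mem_biUnion, mem_biUnion] at hr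
    rcases hr with ⟨k, _, hk⟩ | ⟨k, _, hk⟩
    · exact hnorm _ _ _ (hm k) (hlam k) ((hR1 k r).mp hk)
    · exact hnorm _ _ _ (hd k) (hmu k) ((hS1 k r).mp hk)
  set α : ℂ → ℕ := fun r => (univ.filter (fun k => lam k * r ^ m k = 1)).card with hα
  set β : ℂ → ℕ := fun r => (univ.filter (fun l => mu l * r ^ d l = 1)).card with hβ
  have e1 : ∑ k, con (lam k) (m k) = ∑ r ∈ F, (α r : ℂ) * (r⁻¹) ^ 2 := by
    rw [← dsum F R (fun k r => lam k * r ^ m k = 1) hR1 hRF (fun r => (r⁻¹) ^ 2)]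
    exact Finset.sum_congr rfl (fun k _ => (hR3 k).symm)
  have e2 : ∑ l, con (mu l) (d l) = ∑ r ∈ F, (β r : ℂ) * (r⁻¹) ^ 2 := by
    rw [← dsum F S (fun k r => mu k * r ^ d k = 1) hS1 hSF (fun r => (r⁻¹) ^ 2)]
    exact Finset.sum_congr rfl (fun k _ => (hS3 k).symm)
  have e3 : (∑ k, (m k : ℂ)) = ∑ r ∈ F, (α r : ℂ) := by
    have := dsum F R (fun k r => lam k * r ^ m k = 1) hR1 hRF (fun _ => 1)
    simp only [mul_one] at this
    rw [← this]
    refine Finset.sum_congr rfl (fun k _ => ?_)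
    rw [Finset.sum_const, hR2 k]; simp
  have e4 : (∑ k, (d k : ℂ)) = ∑ r ∈ F, (β r : ℂ) := by
    have := dsum F S (fun k r => mu k * r ^ d k = 1) hS1 hSF (fun _ => 1)
    simp only [mul_one] at this
    rw [← this]
    refine Finset.sum_congr rfl (fun k _ => ?_)
    rw [Finset.sum_const, hS2 k]; simp
  have e3' : (∑ k, (m k : ℝ)) = ∑ r ∈ F, (α r : ℝ) := by exact_mod_cast e3
  have e4' : (∑ k, (d k : ℝ)) = ∑ r ∈ F, (β r : ℝ) := by exact_mod_cast e4
  have e5 : (∑ k, con (lam k) (m k) - ∑ l, con (mu l) (d l)).re =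
      ∑ r ∈ F, ((α r : ℝ) - β r) * ((r⁻¹) ^ 2).re := by
    rw [e1, e2, ← Finset.sum_sub_distrib, Complex.re_sum]
    refine Finset.sum_congr rfl (fun r _ => ?_)
    rw [← sub_mul]
    have h1 : ((α r : ℂ) - (β r : ℂ)) = (((α r : ℝ) - (β r : ℝ) : ℝ) : ℂ) := by push_cast; rfl
    rw [h1, Complex.re_ofReal_mul]
  rw [e3', e4', e5, ← Finset.sum_sub_distrib]
  refine Finset.sum_le_sum (fun r hr => ?_)
  by_cases h1 : r ^ 2 = 1
  · rw [inv_pow, h1, inv_one, Complex.one_re, mul_one]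
  · have h2 : (α r : ℝ) ≤ β r := by exact_mod_cast h r h1
    have h3 : ((r⁻¹) ^ 2).re ≤ 1 := by
      refine (Complex.re_le_norm _).trans ?_
      rw [norm_pow, norm_inv, hFn r hr, inv_one, one_pow]
    nlinarith

end Pool.Agent.X213.Two
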