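import Pool.Agent.X213.TwoMain

/-! Invariants of degree two in quotients of weighted complete intersections: conclusion. -/

set_option autoImplicit false

namespace Pool.Agent.X213.Two

open MvPolynomial Pool.Agent.H964R2.Core

variable {n : ℕ}

/-- the basis of the linear forms of weight one -/
theorem exists_basis (w : Fin n → ℕ) (d : ℕ) :
    ∃ B : Module.Basis {i : Fin n // w i = d} ℂ
      (sp (X : Fin n → MvPolynomial (Fin n) ℂ) w d),
      ∀ i, ((B i : sp (X : Fin n → MvPolynomial (Fin n) ℂ) w d) : MvPolynomial (Fin n) ℂ)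
        = X i.1 := by
  classical
  set U := sp (X : Fin n → MvPolynomial (Fin n) ℂ) w d with hU
  have hbU : ∀ k : {k : Fin n // w k = d}, (X k.1 : MvPolynomial (Fin n) ℂ) ∈ U := by
    intro k
    exact Submodule.subset_span ⟨k, k.2, rfl⟩
  have hli : LinearIndependent ℂ (fun k : {k : Fin n // w k = d} => (⟨X k.1, hbU k⟩ : U)) := by
    apply LinearIndependent.of_comp U.subtype
    exact (linearIndependent_X (Fin n) ℂ).comp _ Subtype.val_injective
  have htop : ⊤ ≤ Submodule.span ℂ (Set.range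
      (fun k : {k : Fin n // w k = d} => (⟨X k.1, hbU k⟩ : U))) := by
    rintro ⟨u, hu⟩ _
    have hu' : u ∈ Submodule.span ℂ ((X : Fin n → MvPolynomial (Fin n) ℂ) '' {i | w i = d}) := hu
    have h1 : (X : Fin n → MvPolynomial (Fin n) ℂ) '' {k | w k = d} = U.subtype '' (Set.range
        (fun k : {k : Fin n // w k = d} => (⟨X k.1, hbU k⟩ : U))) := by
      ext q
      constructor
      · rintro ⟨k, hk, rfl⟩
        exact ⟨⟨X k, hbU ⟨k, hk⟩⟩, ⟨⟨k, hk⟩, rfl⟩, rfl⟩
      · rintro ⟨_, ⟨k, rfl⟩, rfl⟩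
        exact ⟨k, k.2, rfl⟩
    rw [h1, Submodule.span_image] at hu'
    obtain ⟨u', hu1, hu2⟩ := hu'
    have : u' = ⟨u, hu⟩ := Subtype.ext hu2
    rw [← this]; exact hu1
  refine ⟨Module.Basis.mk hli htop, fun i => ?_⟩
  rw [Module.Basis.mk_apply]

/-- the quadratic form of a matrix -/
noncomputable def Q (w : Fin n → ℕ) :
    Matrix {i : Fin n // w i = 1} {i : Fin n // w i = 1} ℂ →ₗ[ℂ] MvPolynomial (Fin n) ℂ where
  toFun t := ∑ i, ∑ j, t i j • (X i.1 * X j.1 : MvPolynomial (Fin n) ℂ)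
  map_add' s t := by
    simp only [Matrix.add_apply, add_smul, Finset.sum_add_distrib]
  map_smul' c t := by
    simp only [Matrix.smul_apply, smul_eq_mul, mul_smul, Finset.smul_sum, RingHom.id_apply]

theorem Q_apply (w : Fin n → ℕ) (t : Matrix {i : Fin n // w i = 1} {i : Fin n // w i = 1} ℂ) :
    Q w t = ∑ i, ∑ j, t i j • (X i.1 * X j.1 : MvPolynomial (Fin n) ℂ) := rfl

theorem Q_hom (w : Fin n → ℕ) (t : Matrix {i : Fin n // w i = 1} {i : Fin n // w i = 1} ℂ) :
    IsWeightedHomogeneous w (Q w t) 2 := by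
  rw [Q_apply, ← mem_weightedHomogeneousSubmodule]
  refine Submodule.sum_mem _ fun i _ => Submodule.sum_mem _ fun j _ =>
    Submodule.smul_mem _ _ ?_
  rw [mem_weightedHomogeneousSubmodule]
  have h1 := (isWeightedHomogeneous_X ℂ w i.1).mul (isWeightedHomogeneous_X ℂ w j.1)
  rw [i.2, j.2] at h1
  exact h1

theorem eval_Q (w : Fin n → ℕ) (t : Matrix {i : Fin n // w i = 1} {i : Fin n // w i = 1} ℂ)
    (v : Fin n → ℂ) : eval v (Q w t) = ∑ i, ∑ j, t i j * (v i.1 * v j.1) := by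
  rw [Q_apply, map_sum]
  refine Finset.sum_congr rfl fun i _ => ?_
  rw [map_sum]
  refine Finset.sum_congr rfl fun j _ => ?_
  rw [smul_eval, map_mul, eval_X, eval_X]

theorem Q_inj (w : Fin n → ℕ) {t : Matrix {i : Fin n // w i = 1} {i : Fin n // w i = 1} ℂ}
    (ht : t.transpose = t) (h : ∀ v, eval v (Q w t) = 0) : t = 0 := by
  classical
  have hsym : ∀ i j, t j i = t i j := fun i j => congrFun (congrFun ht i) j
  -- polarization
  set β : (Fin n → ℂ) → (Fin n → ℂ) → ℂ := fun v v' => ∑ i, ∑ j, t i j * (v i.1 * v' j.1) with hβ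
  have h1 : ∀ v, β v v = 0 := fun v => by rw [← h v, eval_Q]
  have h2 : ∀ v v', β (v + v') (v + v') = β v v + β v v' + β v' v + β v' v' := by
    intro v v'
    simp only [hβ, Pi.add_apply, ← Finset.sum_add_distrib]
    refine Finset.sum_congr rfl fun i _ => Finset.sum_congr rfl fun j _ => ?_
    ring
  have h3 : ∀ v v', β v' v = β v v' := by
    intro v v'
    simp only [hβ]
    rw [Finset.sum_comm]
    refine Finset.sum_congr rfl fun i _ => Finset.sum_congr rfl fun j _ => ?_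
    rw [hsym i j]
    ring
  have h4 : ∀ v v', β v v' = 0 := by
    intro v v'
    have h5 := h2 v v'
    rw [h1, h1, h1, h3 v v'] at h5
    linear_combination (-(1 / 2 : ℂ)) * h5
  ext i j
  have h5 := h4 (Pi.single i.1 1) (Pi.single j.1 1)
  simp only [hβ] at h5
  rw [Finset.sum_eq_single i, Finset.sum_eq_single j] at h5
  · simpa using h5
  · intro l _ hl
    rw [Pi.single_eq_of_ne (M := fun _ => ℂ) (fun h => hl (Subtype.ext h)), mul_zero, mul_zero]
  · intro h; exact absurd (Finset.mem_univ j) h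
  · intro l _ hl
    refine Finset.sum_eq_zero fun l' _ => ?_
    rw [Pi.single_eq_of_ne (M := fun _ => ℂ) (fun h => hl (Subtype.ext h)), zero_mul, mul_zero]
  · intro h; exact absurd (Finset.mem_univ i) h

/-- linear forms scale linearly -/
theorem eval_sp {w : Fin n → ℕ} {d : ℕ} {u : MvPolynomial (Fin n) ℂ}
    (hu : u ∈ sp (X : Fin n → MvPolynomial (Fin n) ℂ) w d) (c : ℂ) (v : Fin n → ℂ) :
    eval (fun i => c * v i) u = c * eval v u := by
  refine Submodule.span_induction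
    (p := fun u _ => eval (fun i => c * v i) u = c * eval v u) ?_ ?_ ?_ ?_ hu
  · rintro _ ⟨i, _, rfl⟩
    rw [eval_X, eval_X]
  · simp
  · intro x y _ _ hx hy
    rw [map_add, map_add, hx, hy, mul_add]
  · intro r x _ hx
    rw [smul_eval, smul_eval, hx]
    ring

theorem hom_sp {w : Fin n → ℕ} {d : ℕ} {u : MvPolynomial (Fin n) ℂ}
    (hu : u ∈ sp (X : Fin n → MvPolynomial (Fin n) ℂ) w d) : IsWeightedHomogeneous w u d := by
  have h1 : sp (X : Fin n → MvPolynomial (Fin n) ℂ) w d ≤ weightedHomogeneousSubmodule ℂ w d := by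
    apply Submodule.span_le.mpr
    rintro _ ⟨i, hi, rfl⟩
    rw [SetLike.mem_coe, mem_weightedHomogeneousSubmodule]
    have := isWeightedHomogeneous_X ℂ w i
    rw [show w i = d from hi] at this
    exact this
  exact (mem_weightedHomogeneousSubmodule _ _ _ _).mp (h1 hu)

theorem rank_aux {V₁ V₂ P E : Type} [AddCommGroup V₁] [Module ℂ V₁] [FiniteDimensional ℂ V₁]
    [AddCommGroup V₂] [Module ℂ V₂] [FiniteDimensional ℂ V₂] [AddCommGroup P] [Module ℂ P]
    [FiniteDimensional ℂ P] [AddCommGroup E] [Module ℂ E] [FiniteDimensional ℂ E]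
    (Ψ : V₁ × V₂ →ₗ[ℂ] P) (Θ : LinearMap.ker Ψ →ₗ[ℂ] E) (hΘ : Function.Injective Θ) :
    Module.finrank ℂ V₁ + Module.finrank ℂ V₂ ≤ Module.finrank ℂ P + Module.finrank ℂ E := by
  have h1 := LinearMap.finrank_range_add_finrank_ker Ψ
  rw [Module.finrank_prod] at h1
  have h2 := Submodule.finrank_le (LinearMap.range Ψ)
  have h3 := LinearMap.finrank_le_finrank_of_injective hΘ
  omega

/-- a space of invariant forms of degree two, and its image in the invariants of the quotient -/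
theorem dims {c : ℕ} (w : Fin n → ℕ) (hw : ∀ i, 0 < w i)
    (f : Fin c → MvPolynomial (Fin n) ℂ) (δ : Fin c → ℕ) (hδ : ∀ j, 2 ≤ δ j)
    (hf : ∀ j, IsWeightedHomogeneous w (f j) (δ j)) {G : Type} [Group G]
    (φ : G →* (MvPolynomial (Fin n) ℂ ≃ₐ[ℂ] MvPolynomial (Fin n) ℂ))
    (ρE : Representation ℂ G (sp f δ 2))
    (hρE : ∀ g u, ((ρE g u : sp f δ 2) : MvPolynomial (Fin n) ℂ) = φ g u)
    {V₁ V₂ : Type} [AddCommGroup V₁] [Module ℂ V₁] [FiniteDimensional ℂ V₁]
    [AddCommGroup V₂] [Module ℂ V₂] [FiniteDimensional ℂ V₂]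
    (Λ : (V₁ × V₂) →ₗ[ℂ] MvPolynomial (Fin n) ℂ) (hΛφ : ∀ g z, φ g (Λ z) = Λ z)
    (hΛhom : ∀ z, IsWeightedHomogeneous w (Λ z) 2) (hΛinj : Function.Injective Λ) :
    Module.finrank ℂ V₁ + Module.finrank ℂ V₂ ≤
      Module.finrank ℂ (invPart w f φ 2) + Module.finrank ℂ ρE.invariants := by
  have hfinP := finite_invPart hw f φ
  have hfinE := sp_finite f δ 2
  have hfinE' : FiniteDimensional ℂ ρE.invariants := inferInstance
  let π : MvPolynomial (Fin n) ℂ →ₗ[ℂ] (MvPolynomial (Fin n) ℂ ⧸ Ideal.span (Set.range f)) :=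
    (Ideal.Quotient.mkₐ ℂ (Ideal.span (Set.range f))).toLinearMap
  have hmem : ∀ z, (π.comp Λ) z ∈ invPart w f φ 2 := fun z =>
    ⟨Λ z, hΛhom z, rfl, fun g => by rw [hΛφ g z]; rfl⟩
  obtain ⟨Ψ, hΨ⟩ : ∃ Ψ : (V₁ × V₂) →ₗ[ℂ] invPart w f φ 2, ∀ z,
      (Ψ z : MvPolynomial (Fin n) ℂ ⧸ Ideal.span (Set.range f)) = π (Λ z) :=
    ⟨LinearMap.codRestrict _ (π.comp Λ) hmem, fun z => rfl⟩
  have hker : ∀ z : LinearMap.ker Ψ, Λ z.1 ∈ sp f δ 2 := by
    intro z
    have h1 : Ψ z.1 = 0 := LinearMap.mem_ker.1 z.2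
    have h2 : π (Λ z.1) = 0 := by
      rw [← hΨ, h1]
      rfl
    exact mem_sp_of_mem hw f δ hδ hf (hΛhom z.1) (Ideal.Quotient.eq_zero_iff_mem.mp h2)
  obtain ⟨Θ, hΘ⟩ : ∃ Θ : LinearMap.ker Ψ →ₗ[ℂ] ρE.invariants, ∀ z,
      ((Θ z).1 : MvPolynomial (Fin n) ℂ) = Λ z.1 :=
    ⟨LinearMap.codRestrict ρE.invariants
      (LinearMap.codRestrict (sp f δ 2) (Λ.comp (LinearMap.ker Ψ).subtype) hker)
      (fun z g => Subtype.ext (by rw [hρE]; exact hΛφ g z.1)), fun z => rfl⟩
  refine rank_aux (V₁ := V₁) (V₂ := V₂) (P := invPart w f φ 2) (E := ρE.invariants) Ψ Θ ?_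
  intro z z' h
  have h1 : Λ z.1 = Λ z'.1 := by rw [← hΘ, ← hΘ, h]
  exact Subtype.ext (hΛinj h1)

theorem main {c : ℕ} (w : Fin n → ℕ) (hw : ∀ i, 0 < w i)
    (f : Fin c → MvPolynomial (Fin n) ℂ) (δ : Fin c → ℕ) (hδ : ∀ j, 2 ≤ δ j)
    (hf : ∀ j, IsWeightedHomogeneous w (f j) (δ j))
    (G : Type) [Group G] [Finite G]
    (φ : G →* (MvPolynomial (Fin n) ℂ ≃ₐ[ℂ] MvPolynomial (Fin n) ℂ))
    (hφX : ∀ g i, φ g (X i) ∈
      Submodule.span ℂ ((X : Fin n → MvPolynomial (Fin n) ℂ) '' {k | w k = w i}))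
    (hφf : ∀ g j, φ g (f j) ∈ Submodule.span ℂ (f '' {l | δ l = δ j}))
    (hL : ∀ v : Fin n → ℂ, v ≠ 0 → (∀ j, eval v (f j) = 0) → ∃ (d : ℕ)
      (a b : MvPolynomial (Fin n) ℂ), IsWeightedHomogeneous w a (2 * d) ∧
      IsWeightedHomogeneous w b (2 * (d + 1)) ∧
      (∀ g, φ g a - a ∈ Ideal.span (Set.range f)) ∧
      (∀ g, φ g b - b ∈ Ideal.span (Set.range f)) ∧ eval v a ≠ 0 ∧ eval v b ≠ 0) :
    (∑ i, (w i : ℤ)) - ∑ j, (δ j : ℤ) ≤ 2 * (Module.finrank ℂ (invPart w f φ 2) : ℤ) := by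
  classical
  have _ := Fintype.ofFinite G
  obtain ⟨B, hB⟩ := exists_basis w 1
  have hfin2 := sp_finite (X : Fin n → MvPolynomial (Fin n) ℂ) w 2
  have hfinE := sp_finite f δ 2
  set ρ1 := rep X w φ hφX 1 with hρ1
  set ρ2 := rep X w φ hφX 2 with hρ2
  set ρE := rep f δ φ hφf 2 with hρE
  set A : G → Matrix {i : Fin n // w i = 1} {i : Fin n // w i = 1} ℂ :=
    fun g => LinearMap.toMatrix B B (ρ1 g) with hA
  have hA1 : A 1 = 1 := by
    show LinearMap.toMatrix B B (ρ1 1) = 1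
    rw [map_one]
    exact LinearMap.toMatrix_id B
  have hAm : ∀ g h, A (g * h) = A g * A h := by
    intro g h
    show LinearMap.toMatrix B B (ρ1 (g * h)) = _
    rw [map_mul]
    exact LinearMap.toMatrix_comp B B B (ρ1 g) (ρ1 h)
  have htrA : ∀ g, Matrix.trace (A g * A g) = LinearMap.trace ℂ _ (ρ1 g ∘ₗ ρ1 g) := by
    intro g
    rw [LinearMap.trace_eq_matrix_trace ℂ B, LinearMap.toMatrix_comp B B B]
  have hAX : ∀ g (j : {i : Fin n // w i = 1}), φ g (X j.1) = ∑ i, A g i j • (X i.1 :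
      MvPolynomial (Fin n) ℂ) := by
    intro g j
    have h1 := B.sum_repr (ρ1 g (B j))
    have h2 := congrArg Subtype.val h1
    rw [rep_apply, hB] at h2
    rw [← h2, AddSubmonoidClass.coe_finsetSum]
    refine Finset.sum_congr rfl fun i _ => ?_
    have h3 : A g i j = (B.repr (ρ1 g (B j))) i := LinearMap.toMatrix_apply B B _ i j
    rw [h3, Submodule.coe_smul, hB]
  have hQφ : ∀ g t, φ g (Q w t) = Q w (A g * t * (A g).transpose) := by
    intro g t
    rw [Q_apply, Q_apply, map_sum]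
    have h1 : ∀ i, φ g (∑ j, t i j • (X i.1 * X j.1 : MvPolynomial (Fin n) ℂ)) =
        ∑ j, ∑ k, ∑ l, (A g k i * t i j * A g l j) • (X k.1 * X l.1 : MvPolynomial (Fin n) ℂ) := by
      intro i
      rw [map_sum]
      refine Finset.sum_congr rfl fun j _ => ?_
      rw [map_smul, map_mul, hAX, hAX, Finset.sum_mul_sum, Finset.smul_sum]
      refine Finset.sum_congr rfl fun k _ => ?_
      rw [Finset.smul_sum]
      refine Finset.sum_congr rfl fun l _ => ?_
      rw [smul_mul_smul_comm, smul_smul]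
      congr 1
      ring
    rw [Finset.sum_congr rfl fun i _ => h1 i]
    -- reorder the sums
    have h2 : ∀ k l, (A g * t * (A g).transpose) k l = ∑ i, ∑ j, A g k i * t i j * A g l j := by
      intro k l
      rw [Matrix.mul_apply]
      simp only [Matrix.mul_apply, Matrix.transpose_apply, Finset.sum_mul]
      rw [Finset.sum_comm]
    simp only [h2, Finset.sum_smul]
    calc ∑ i, ∑ j, ∑ k, ∑ l, (A g k i * t i j * A g l j) •
          (X k.1 * X l.1 : MvPolynomial (Fin n) ℂ)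
        = ∑ i, ∑ k, ∑ j, ∑ l, (A g k i * t i j * A g l j) •
          (X k.1 * X l.1 : MvPolynomial (Fin n) ℂ) :=
          Finset.sum_congr rfl fun i _ => Finset.sum_comm
      _ = ∑ k, ∑ i, ∑ j, ∑ l, (A g k i * t i j * A g l j) •
          (X k.1 * X l.1 : MvPolynomial (Fin n) ℂ) := Finset.sum_comm
      _ = ∑ k, ∑ i, ∑ l, ∑ j, (A g k i * t i j * A g l j) •
          (X k.1 * X l.1 : MvPolynomial (Fin n) ℂ) :=
          Finset.sum_congr rfl fun k _ => Finset.sum_congr rfl fun i _ => Finset.sum_comm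
      _ = ∑ k, ∑ l, ∑ i, ∑ j, (A g k i * t i j * A g l j) •
          (X k.1 * X l.1 : MvPolynomial (Fin n) ℂ) :=
          Finset.sum_congr rfl fun k _ => Finset.sum_comm
  set Λ : (symInv A × ρ2.invariants) →ₗ[ℂ] MvPolynomial (Fin n) ℂ :=
    ((Q w).comp (symInv A).subtype).coprod
      ((sp (X : Fin n → MvPolynomial (Fin n) ℂ) w 2).subtype.comp ρ2.invariants.subtype) with hΛ
  have hΛa : ∀ z, Λ z = Q w z.1.1 + (z.2.1 : MvPolynomial (Fin n) ℂ) := fun z => rfl
  have hΛφ : ∀ g z, φ g (Λ z) = Λ z := by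
    intro g z
    rw [hΛa, map_add, hQφ, z.1.2.2 g]
    congr 1
    have h1 := congrArg Subtype.val (z.2.2 g)
    rw [rep_apply] at h1
    exact h1
  have hΛhom : ∀ z, IsWeightedHomogeneous w (Λ z) 2 := by
    intro z
    rw [hΛa]
    exact (Q_hom w _).add (hom_sp z.2.1.2)
  have hΛinj : Function.Injective Λ := by
    rw [injective_iff_map_eq_zero]
    intro z hz
    rw [hΛa] at hz
    have h1 : ∀ v : Fin n → ℂ, eval v (Q w z.1.1) + eval v (z.2.1 : MvPolynomial (Fin n) ℂ) = 0 := by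
      intro v
      rw [← map_add, hz, map_zero]
    have h2 : ∀ v : Fin n → ℂ, eval v (Q w z.1.1) = 0 := by
      intro v
      have h3 := h1 v
      have h4 := h1 (fun i => 2 * v i)
      rw [eval_sp z.2.1.2, eval_Q] at h4
      rw [eval_Q] at h3 ⊢
      have h5 : ∑ i, ∑ j, z.1.1 i j * ((2 * v i.1) * (2 * v j.1)) =
          4 * ∑ i, ∑ j, z.1.1 i j * (v i.1 * v j.1) := by
        rw [Finset.mul_sum]
        refine Finset.sum_congr rfl fun i _ => ?_
        rw [Finset.mul_sum]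
        refine Finset.sum_congr rfl fun j _ => ?_
        ring
      rw [h5] at h4
      linear_combination (1 / 2 : ℂ) * h4 - h3
    have h3 : z.1.1 = 0 := Q_inj w z.1.2.1 h2
    have h4 : (z.2.1 : MvPolynomial (Fin n) ℂ) = 0 := by
      rw [h3, map_zero, zero_add] at hz
      exact hz
    exact Prod.ext (Subtype.ext h3) (Subtype.ext (Subtype.ext h4))
  -- the map to the invariants of the quotient
  have hd1 : Module.finrank ℂ (symInv A) + Module.finrank ℂ ρ2.invariants ≤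
      Module.finrank ℂ (invPart w f φ 2) + Module.finrank ℂ ρE.invariants := by
    clear_value Λ A
    exact dims (V₁ := symInv A) (V₂ := ρ2.invariants) w hw f δ hδ hf φ ρE
      (fun g u => rep_apply f δ φ hφf 2 g u) Λ hΛφ hΛhom hΛinj
  -- the averages
  have hs1 := sym_count A hA1 hAm
  have hs2 := sum_trace ρ2
  have hs3 := sum_trace ρE
  have hpt := fun g => pointwise w hw f δ hδ hf φ hφX hφf hL g
  have hsum := Finset.sum_le_sum (s := (Finset.univ : Finset G)) fun g _ => hpt g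
  rw [Finset.sum_sub_distrib, Finset.sum_add_distrib, ← Finset.mul_sum, ← Finset.mul_sum,
    Finset.sum_const, Finset.card_univ, nsmul_eq_mul] at hsum
  simp only [← hρ1, ← hρ2, ← hρE] at hsum
  rw [hs2, hs3] at hsum
  simp only [htrA] at hs1
  have hG : (0 : ℝ) < Fintype.card G := by exact_mod_cast Fintype.card_pos
  have hd2 : ((Module.finrank ℂ (symInv A) : ℝ) + Module.finrank ℂ ρ2.invariants) ≤
      Module.finrank ℂ (invPart w f φ 2) + Module.finrank ℂ ρE.invariants := by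
    exact_mod_cast hd1
  have h1 : (Fintype.card G : ℝ) * (((∑ i, (w i : ℤ)) - ∑ j, (δ j : ℤ) : ℤ) : ℝ) ≤
      Fintype.card G * (2 * (Module.finrank ℂ (invPart w f φ 2) : ℝ)) := by
    have h2 : (Fintype.card G : ℝ) * (2 * (Module.finrank ℂ (symInv A) : ℝ)) +
        2 * (Fintype.card G * (Module.finrank ℂ ρ2.invariants : ℝ)) -
        2 * (Fintype.card G * (Module.finrank ℂ ρE.invariants : ℝ)) ≤
        Fintype.card G * (2 * (Module.finrank ℂ (invPart w f φ 2) : ℝ)) := by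
      nlinarith
    linarith
  have h2 := le_of_mul_le_mul_left h1 hG
  exact_mod_cast h2

end Pool.Agent.X213.Two
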