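import Pool.Agent.X213.TwoSym

/-! Invariants of degree two in quotients of weighted complete intersections. -/

set_option autoImplicit false

namespace Pool.Agent.X213.Two

open MvPolynomial Pool.Agent.H964R2.Core

variable {n : ℕ}

/-- the span of the `x i` of degree `d` -/
noncomputable def sp {ι : Type} (x : ι → MvPolynomial (Fin n) ℂ) (e : ι → ℕ) (d : ℕ) :
    Submodule ℂ (MvPolynomial (Fin n) ℂ) := Submodule.span ℂ (x '' {i | e i = d})

theorem sp_stable {ι : Type} {x : ι → MvPolynomial (Fin n) ℂ} {e : ι → ℕ}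
    (T : MvPolynomial (Fin n) ℂ ≃ₐ[ℂ] MvPolynomial (Fin n) ℂ)
    (hT : ∀ i, T (x i) ∈ Submodule.span ℂ (x '' {k | e k = e i})) (d : ℕ) :
    ∀ u ∈ sp x e d, T.toLinearMap u ∈ sp x e d := by
  intro u hu
  refine Submodule.span_induction (p := fun u _ => T.toLinearMap u ∈ sp x e d) ?_ ?_ ?_ ?_ hu
  · rintro _ ⟨i, hi, rfl⟩
    have := hT i
    rw [show e i = d from hi] at this
    exact this
  · rw [map_zero]; exact Submodule.zero_mem _
  · intro a b _ _ ha hb
    rw [map_add]; exact Submodule.add_mem _ ha hb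
  · intro c a _ ha
    rw [map_smul]; exact Submodule.smul_mem _ _ ha

/-- the representation on the span of the `x i` of degree `d` -/
noncomputable def rep {G : Type} [Group G] {ι : Type} (x : ι → MvPolynomial (Fin n) ℂ) (e : ι → ℕ)
    (φ : G →* (MvPolynomial (Fin n) ℂ ≃ₐ[ℂ] MvPolynomial (Fin n) ℂ))
    (hφ : ∀ g i, φ g (x i) ∈ Submodule.span ℂ (x '' {k | e k = e i})) (d : ℕ) :
    Representation ℂ G (sp x e d) where
  toFun := fun g => (φ g).toLinearMap.restrict (sp_stable (φ g) (hφ g) d)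
  map_one' := by
    ext u
    simp
  map_mul' := by
    intro g h
    ext u
    simp

theorem rep_apply {G : Type} [Group G] {ι : Type} (x : ι → MvPolynomial (Fin n) ℂ) (e : ι → ℕ)
    (φ : G →* (MvPolynomial (Fin n) ℂ ≃ₐ[ℂ] MvPolynomial (Fin n) ℂ))
    (hφ : ∀ g i, φ g (x i) ∈ Submodule.span ℂ (x '' {k | e k = e i})) (d : ℕ) (g : G)
    (u : sp x e d) : ((rep x e φ hφ d g u : sp x e d) : MvPolynomial (Fin n) ℂ) = φ g u := rfl

/-- the trace on a span with an adapted eigenbasis -/
theorem trace_sp {K : Type} [Fintype K] {U : Submodule ℂ (MvPolynomial (Fin n) ℂ)}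
    (b : K → MvPolynomial (Fin n) ℂ) (m : K → ℕ) (hb : LinearIndependent ℂ b) (d : ℕ)
    (hspan : Submodule.span ℂ (b '' {k | m k = d}) = U) (F : U →ₗ[ℂ] U) (lam : K → ℂ)
    (hF : ∀ (k : K) (hk : b k ∈ U), m k = d →
      ((F ⟨b k, hk⟩ : U) : MvPolynomial (Fin n) ℂ) = lam k • b k) :
    LinearMap.trace ℂ U F = ∑ k ∈ Finset.univ.filter (fun k => m k = d), lam k := by
  classical
  have hbU : ∀ k : {k // m k = d}, b k ∈ U := by
    intro k
    rw [← hspan]
    exact Submodule.subset_span ⟨k, k.2, rfl⟩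
  have hli : LinearIndependent ℂ (fun k : {k // m k = d} => (⟨b k, hbU k⟩ : U)) := by
    apply LinearIndependent.of_comp U.subtype
    exact hb.comp _ Subtype.val_injective
  have htop : ⊤ ≤ Submodule.span ℂ (Set.range
      (fun k : {k // m k = d} => (⟨b k, hbU k⟩ : U))) := by
    rintro ⟨u, hu⟩ _
    have hu' := hu
    rw [← hspan] at hu'
    have h1 : b '' {k | m k = d} = U.subtype '' (Set.range
        (fun k : {k // m k = d} => (⟨b k, hbU k⟩ : U))) := by
      ext q
      constructor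
      · rintro ⟨k, hk, rfl⟩
        exact ⟨⟨b k, hbU ⟨k, hk⟩⟩, ⟨⟨k, hk⟩, rfl⟩, rfl⟩
      · rintro ⟨_, ⟨k, rfl⟩, rfl⟩
        exact ⟨k, k.2, rfl⟩
    rw [h1, Submodule.span_image] at hu'
    obtain ⟨u', hu1, hu2⟩ := hu'
    have : u' = ⟨u, hu⟩ := Subtype.ext hu2
    rw [← this]; exact hu1
  have h2 := trace_of_eigenbasis (Module.Basis.mk hli htop) F (fun k => lam k) (by
    intro k
    rw [Module.Basis.mk_apply]
    apply Subtype.ext
    exact hF k (hbU k) k.2)
  rw [h2]
  rw [← Finset.sum_subtype_eq_sum_filter]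
  refine (Finset.sum_congr ?_ (fun _ _ => rfl))
  ext k; simp

/-- the finite dimension of the spans -/
theorem sp_finite {ι : Type} [Finite ι] (x : ι → MvPolynomial (Fin n) ℂ) (e : ι → ℕ) (d : ℕ) :
    FiniteDimensional ℂ (sp x e d) :=
  FiniteDimensional.span_of_finite ℂ (Set.toFinite _)

/-- the sum of the traces of a representation -/
theorem sum_trace {V G : Type} [AddCommGroup V] [Module ℂ V] [FiniteDimensional ℂ V] [Group G]
    [Fintype G] (ρ : Representation ℂ G V) :
    ∑ g, (LinearMap.trace ℂ V (ρ g)).re =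
      (Fintype.card G : ℝ) * Module.finrank ℂ ρ.invariants := by
  classical
  have hG : (Fintype.card G : ℂ) ≠ 0 := by exact_mod_cast Fintype.card_ne_zero
  let _inst : Invertible (Fintype.card G : ℂ) := invertibleOfNonzero hG
  have h1 := (Representation.isProj_averageMap ρ).trace
  have h2 : LinearMap.trace ℂ V ρ.averageMap =
      (Fintype.card G : ℂ)⁻¹ * ∑ g, LinearMap.trace ℂ V (ρ g) := by
    rw [Representation.averageMap, GroupAlgebra.average]
    simp [map_sum]
  rw [h2] at h1
  have h3 : (Fintype.card G : ℝ)⁻¹ * ∑ g, (LinearMap.trace ℂ V (ρ g)).re =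
      Module.finrank ℂ ρ.invariants := by
    have h4 := congrArg Complex.re h1
    rw [Complex.natCast_re] at h4
    rw [← h4, ← Complex.re_sum]
    rw [show (Fintype.card G : ℂ)⁻¹ = (((Fintype.card G : ℝ)⁻¹ : ℝ) : ℂ) by push_cast; rfl,
      Complex.re_ofReal_mul]
  rw [← h3, mul_inv_cancel_left₀]
  exact_mod_cast Fintype.card_ne_zero

/-- an element of degree two of the ideal is a linear combination of the equations of degree two -/
theorem mem_sp_of_mem {c : ℕ} {w : Fin n → ℕ} (hw : ∀ i, 0 < w i)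
    (f : Fin c → MvPolynomial (Fin n) ℂ)
    (δ : Fin c → ℕ) (hδ : ∀ j, 2 ≤ δ j) (hf : ∀ j, IsWeightedHomogeneous w (f j) (δ j))
    {p : MvPolynomial (Fin n) ℂ} (hp : IsWeightedHomogeneous w p 2)
    (hpI : p ∈ Ideal.span (Set.range f)) : p ∈ sp f δ 2 := by
  have h1 : ∀ x ∈ Ideal.span (Set.range f), ∀ a,
      weightedHomogeneousComponent w 2 (a * x) ∈ sp f δ 2 := by
    intro x hx
    refine Submodule.span_induction
      (p := fun x _ => ∀ a, weightedHomogeneousComponent w 2 (a * x) ∈ sp f δ 2) ?_ ?_ ?_ ?_ hx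
    · rintro _ ⟨j, rfl⟩ a
      have hC : ∀ a : ℂ, weightedHomogeneousComponent w 2 (C a * f j) ∈ sp f δ 2 := by
        intro a
        have h2 : IsWeightedHomogeneous w (C a * f j) (0 + δ j) :=
          (isWeightedHomogeneous_C w a).mul (hf j)
        by_cases h3 : δ j = 2
        · rw [h3, zero_add] at h2
          rw [h2.weightedHomogeneousComponent_same, ← smul_eq_C_mul]
          exact Submodule.smul_mem _ _ (Submodule.subset_span ⟨j, h3, rfl⟩)
        · rw [h2.weightedHomogeneousComponent_ne 2 (by omega)]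
          exact Submodule.zero_mem _
      induction a using MvPolynomial.monomial_add_induction_on with
      | C a => exact hC a
      | monomial_add s b q _ _ ih =>
        rw [add_mul, map_add]
        refine Submodule.add_mem _ ?_ ih
        by_cases hs : s = 0
        · subst hs
          exact hC b
        · have h2 : IsWeightedHomogeneous w (monomial s b * f j) (Finsupp.weight w s + δ j) :=
            (isWeightedHomogeneous_monomial w s b rfl).mul (hf j)
          have h3 : 0 < Finsupp.weight w s := by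
            obtain ⟨i, hi⟩ := Finsupp.ne_iff.1 hs
            rw [Finsupp.weight_apply, Finsupp.sum_fintype _ _ (by intro i; simp)]
            have h5 : s i • w i ≤ ∑ i, s i • w i :=
              Finset.single_le_sum (f := fun i => s i • w i) (fun _ _ => Nat.zero_le _)
                (Finset.mem_univ i)
            have h6 : 0 < s i • w i := Nat.mul_pos (Nat.pos_of_ne_zero hi) (hw i)
            omega
          rw [h2.weightedHomogeneousComponent_ne 2 (by have := hδ j; omega)]
          exact Submodule.zero_mem _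
    · intro a; simp
    · intro x y _ _ hx hy a
      rw [mul_add, map_add]
      exact Submodule.add_mem _ (hx a) (hy a)
    · intro r x _ hx a
      rw [smul_eq_mul, ← mul_assoc]
      exact hx _
  have h2 := h1 p hpI 1
  rw [one_mul, hp.weightedHomogeneousComponent_same] at h2
  exact h2

/-- forms of degree two are a finite dimensional space -/
theorem finite_hom {w : Fin n → ℕ} (hw : ∀ i, 0 < w i) :
    ∃ W : Submodule ℂ (MvPolynomial (Fin n) ℂ), FiniteDimensional ℂ W ∧
      ∀ p, IsWeightedHomogeneous w p 2 → p ∈ W := by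
  classical
  have hfin := Finsupp.finite_of_nat_weight_le w (fun i => (hw i).ne') 2
  refine ⟨Submodule.span ℂ ((fun s : Fin n →₀ ℕ => (monomial s (1 : ℂ) : MvPolynomial (Fin n) ℂ)) ''
    {d | Finsupp.weight w d ≤ 2}), FiniteDimensional.span_of_finite ℂ (hfin.image _), ?_⟩
  intro p hp
  rw [p.as_sum]
  refine Submodule.sum_mem _ fun s hs => ?_
  have h1 : (monomial s (coeff s p) : MvPolynomial (Fin n) ℂ) = coeff s p • monomial s 1 := by
    rw [smul_monomial, smul_eq_mul, mul_one]
  rw [h1]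
  refine Submodule.smul_mem _ _ (Submodule.subset_span ⟨s, ?_, rfl⟩)
  exact (hp (MvPolynomial.mem_support_iff.1 hs)).le

theorem finite_invPart {c : ℕ} {w : Fin n → ℕ} (hw : ∀ i, 0 < w i)
    (f : Fin c → MvPolynomial (Fin n) ℂ) {G : Type} [Group G]
    (φ : G →* (MvPolynomial (Fin n) ℂ ≃ₐ[ℂ] MvPolynomial (Fin n) ℂ)) :
    FiniteDimensional ℂ (invPart w f φ 2) := by
  obtain ⟨W, hW, hW2⟩ := finite_hom hw
  let π : MvPolynomial (Fin n) ℂ →ₗ[ℂ] (MvPolynomial (Fin n) ℂ ⧸ Ideal.span (Set.range f)) :=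
    (Ideal.Quotient.mkₐ ℂ (Ideal.span (Set.range f))).toLinearMap
  have h3 : invPart w f φ 2 ≤ Submodule.map π W := by
    rintro _ ⟨p, hp, rfl, _⟩
    exact ⟨p, hW2 p hp, rfl⟩
  exact Submodule.finiteDimensional_of_le h3

/-- the inequality for one element of the group -/
theorem pointwise {c : ℕ} (w : Fin n → ℕ) (hw : ∀ i, 0 < w i)
    (f : Fin c → MvPolynomial (Fin n) ℂ) (δ : Fin c → ℕ) (hδ : ∀ j, 2 ≤ δ j)
    (hf : ∀ j, IsWeightedHomogeneous w (f j) (δ j))
    {G : Type} [Group G] [Finite G]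
    (φ : G →* (MvPolynomial (Fin n) ℂ ≃ₐ[ℂ] MvPolynomial (Fin n) ℂ))
    (hφX : ∀ g i, φ g (X i) ∈
      Submodule.span ℂ ((X : Fin n → MvPolynomial (Fin n) ℂ) '' {k | w k = w i}))
    (hφf : ∀ g j, φ g (f j) ∈ Submodule.span ℂ (f '' {l | δ l = δ j}))
    (hL : ∀ v : Fin n → ℂ, v ≠ 0 → (∀ j, eval v (f j) = 0) → ∃ (d : ℕ)
      (a b : MvPolynomial (Fin n) ℂ), IsWeightedHomogeneous w a (2 * d) ∧
      IsWeightedHomogeneous w b (2 * (d + 1)) ∧
      (∀ g, φ g a - a ∈ Ideal.span (Set.range f)) ∧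
      (∀ g, φ g b - b ∈ Ideal.span (Set.range f)) ∧ eval v a ≠ 0 ∧ eval v b ≠ 0) (g : G) :
    (((∑ i, (w i : ℤ)) - ∑ j, (δ j : ℤ) : ℤ) : ℝ) ≤
      (LinearMap.trace ℂ _ (rep X w φ hφX 1 g ∘ₗ rep X w φ hφX 1 g)).re +
      2 * (LinearMap.trace ℂ _ (rep X w φ hφX 2 g)).re -
      2 * (LinearMap.trace ℂ _ (rep f δ φ hφf 2 g)).re := by
  classical
  have hN : 0 < Nat.card G := Nat.card_pos
  have hgN : (φ g) ^ Nat.card G = 1 := by rw [← map_pow, pow_card_eq_one', map_one]
  obtain ⟨K, _, b, m, lam, hb, hTb, hlam, hm, hspan⟩ := exists_adapted (w := w) (φ g) hN hgN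
    (X : Fin n → MvPolynomial (Fin n) ℂ) w (fun i => isWeightedHomogeneous_X ℂ w i) (hφX g)
  obtain ⟨L, _, h, d, mu, hh, hTh, hmu, hd, hspan'⟩ := exists_adapted (w := w) (φ g) hN hgN
    f δ hf (hφf g)
  have hm0 : ∀ k, 0 < m k := fun k => by
    obtain ⟨i, hi⟩ := hm k
    rw [← hi]; exact hw i
  have hd2 : ∀ k, 2 ≤ d k := fun k => by
    obtain ⟨i, hi⟩ := hd k
    rw [← hi]; exact hδ i
  have hhom : ∀ l, IsWeightedHomogeneous w (h l) (d l) := by
    intro l
    have h1 : h l ∈ Submodule.span ℂ (f '' {j | δ j = d l}) := by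
      rw [← hspan']; exact Submodule.subset_span ⟨l, rfl, rfl⟩
    have h2 : Submodule.span ℂ (f '' {j | δ j = d l}) ≤ weightedHomogeneousSubmodule ℂ w (d l) := by
      apply Submodule.span_le.mpr
      rintro _ ⟨i, hi, rfl⟩
      rw [SetLike.mem_coe, mem_weightedHomogeneousSubmodule]
      have := hf i
      rw [show δ i = d l from hi] at this
      exact this
    exact (mem_weightedHomogeneousSubmodule _ _ _ _).mp (h2 h1)
  have hfh : ∀ v : Fin n → ℂ, (∀ l, eval v (h l) = 0) → ∀ j, eval v (f j) = 0 := by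
    intro v hv j
    have h1 : f j ∈ Submodule.span ℂ (h '' {l | d l = δ j}) := by
      rw [hspan']; exact Submodule.subset_span ⟨j, rfl, rfl⟩
    refine Submodule.span_induction (p := fun q _ => eval v q = 0) ?_ ?_ ?_ ?_ h1
    · rintro _ ⟨l, _, rfl⟩; exact hv l
    · simp
    · intro x y _ _ hx hy; rw [map_add, hx, hy, add_zero]
    · intro r x _ hx; rw [smul_eval, hx, mul_zero]
  have hI : ∀ v : Fin n → ℂ, (∀ j, eval v (f j) = 0) →
      ∀ p ∈ Ideal.span (Set.range f), eval v p = 0 := by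
    intro v hv p hp
    refine Submodule.span_induction (p := fun q _ => eval v q = 0) ?_ ?_ ?_ ?_ hp
    · rintro _ ⟨l, rfl⟩; exact hv l
    · simp
    · intro x y _ _ hx hy; rw [map_add, hx, hy, add_zero]
    · intro r x _ hx; rw [smul_eq_mul, map_mul, hx, mul_zero]
  have hcount := count_ineq2 lam m mu d hlam hm0 hmu (fun l => by have := hd2 l; omega) (by
    intro t ht
    refine geo (w := w) (φ g) b m lam hb hTb hm0 hspan h d mu
      (fun l => by have := hd2 l; omega) hhom hTh t ?_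
    intro v hv hhv hTv
    have hfv := hfh v hhv
    obtain ⟨e, p, q, hp, hq, hp2, hq2, hpv, hqv⟩ := hL v hv hfv
    have key : ∀ (e : ℕ) (p : MvPolynomial (Fin n) ℂ), IsWeightedHomogeneous w p e →
        (∀ g, φ g p - p ∈ Ideal.span (Set.range f)) → eval v p ≠ 0 → (t⁻¹) ^ e = 1 := by
      intro e p hp hp2 hpv
      have h1 : eval v (φ g p) = eval v p := by
        have := hI v hfv _ (hp2 g)
        rw [map_sub] at this
        exact sub_eq_zero.mp this
      have h2 : eval v (φ g p) = (t⁻¹) ^ e * eval v p := by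
        rw [eval_equiv]
        simp only [hTv]
        exact eval_scale hp _ _
      rw [h1] at h2
      exact (mul_right_cancel₀ hpv (by rw [one_mul]; exact h2)).symm
    have h1 := key (2 * e) p hp hp2 hpv
    have h2 := key (2 * (e + 1)) q hq hq2 hqv
    rw [mul_add, pow_add, h1, one_mul, mul_one, inv_pow, inv_eq_one] at h2
    exact ht h2)
  -- degrees
  have hw2 : ∑ i, w i ≤ ∑ k, m k := sum_deg_le m w (fun d =>
    card_le b m (X : Fin n → MvPolynomial (Fin n) ℂ) w (linearIndependent_X _ _) d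
      (hspan d).symm.le)
  have hd3 : ∑ l, d l ≤ ∑ j, δ j := sum_deg_le δ d (fun e =>
    card_le f δ h d hh e (hspan' e).le)
  -- the traces
  have ht1 : LinearMap.trace ℂ _ (rep X w φ hφX 1 g ∘ₗ rep X w φ hφX 1 g) =
      ∑ k ∈ Finset.univ.filter (fun k => m k = 1), lam k ^ 2 := by
    refine trace_sp (U := sp X w 1) b m hb 1 (hspan 1) _ (fun k => lam k ^ 2) ?_
    intro k hk _
    rw [LinearMap.comp_apply, rep_apply, rep_apply]
    show φ g (φ g (b k)) = _
    rw [hTb, map_smul, hTb, smul_smul, sq]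
  have ht2 : LinearMap.trace ℂ _ (rep X w φ hφX 2 g) =
      ∑ k ∈ Finset.univ.filter (fun k => m k = 2), lam k := by
    refine trace_sp (U := sp X w 2) b m hb 2 (hspan 2) _ lam ?_
    intro k hk _
    rw [rep_apply]
    exact hTb k
  have ht3 : LinearMap.trace ℂ _ (rep f δ φ hφf 2 g) =
      ∑ k ∈ Finset.univ.filter (fun k => d k = 2), mu k := by
    refine trace_sp (U := sp f δ 2) h d hh 2 (hspan' 2) _ mu ?_
    intro k hk _
    rw [rep_apply]
    exact hTh k
  have hc1 : ∑ k, con (lam k) (m k) = ∑ k ∈ Finset.univ.filter (fun k => m k = 1), lam k ^ 2 +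
      2 * ∑ k ∈ Finset.univ.filter (fun k => m k = 2), lam k := by
    rw [Finset.sum_filter, Finset.sum_filter, Finset.mul_sum, ← Finset.sum_add_distrib]
    refine Finset.sum_congr rfl fun k _ => ?_
    unfold con
    by_cases h1 : m k = 1
    · rw [if_pos h1, if_pos h1, if_neg (by omega), mul_zero, add_zero]
    · rw [if_neg h1, if_neg h1, zero_add]
      split_ifs <;> simp
  have hc2 : ∑ k, con (mu k) (d k) =
      2 * ∑ k ∈ Finset.univ.filter (fun k => d k = 2), mu k := by
    rw [Finset.sum_filter, Finset.mul_sum]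
    refine Finset.sum_congr rfl fun k _ => ?_
    unfold con
    rw [if_neg (by have := hd2 k; omega)]
    split_ifs <;> simp
  have h5 : (∑ i, (w i : ℝ)) ≤ ∑ k, (m k : ℝ) := by exact_mod_cast hw2
  have h6 : (∑ l, (d l : ℝ)) ≤ ∑ j, (δ j : ℝ) := by exact_mod_cast hd3
  rw [hc1, hc2, ← ht1, ← ht2, ← ht3] at hcount
  simp only [Complex.add_re, Complex.sub_re, Complex.mul_re, Complex.re_ofNat, Complex.im_ofNat,
    zero_mul, sub_zero] at hcount
  push_cast
  linarith

end Pool.Agent.X213.Two
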