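import Pool.Agent.X213.TwoCount

/-! Symmetric invariant matrices: the Frobenius-Schur count. -/

set_option autoImplicit false

namespace Pool.Agent.X213.Two

open Matrix

variable {G : Type} [Group G] {ι : Type} [Fintype ι] [DecidableEq ι]

/-- symmetric matrices `t` with `A g * t * (A g)ᵀ = t` for all `g` -/
def symInv (A : G → Matrix ι ι ℂ) : Submodule ℂ (Matrix ι ι ℂ) where
  carrier := {t | tᵀ = t ∧ ∀ g, A g * t * (A g)ᵀ = t}
  zero_mem' := ⟨by simp, fun g => by simp⟩
  add_mem' := by
    rintro s t ⟨h1, h2⟩ ⟨h3, h4⟩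
    exact ⟨by rw [transpose_add, h1, h3], fun g => by
      rw [Matrix.mul_add, Matrix.add_mul, h2, h4]⟩
  smul_mem' := by
    rintro c t ⟨h1, h2⟩
    exact ⟨by rw [transpose_smul, h1], fun g => by
      rw [Matrix.mul_smul, Matrix.smul_mul, h2]⟩

/-- the action on matrices -/
noncomputable def conj (A : G → Matrix ι ι ℂ) (h1 : A 1 = 1) (hm : ∀ g h, A (g * h) = A g * A h) :
    Representation ℂ G (Matrix ι ι ℂ) where
  toFun g :=
    { toFun := fun t => A g * t * (A g)ᵀ
      map_add' := fun s t => by rw [Matrix.mul_add, Matrix.add_mul]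
      map_smul' := fun c t => by rw [Matrix.mul_smul, Matrix.smul_mul, RingHom.id_apply] }
  map_one' := by
    ext1 t
    rw [h1]
    simp
  map_mul' g h := by
    refine LinearMap.ext fun t => ?_
    show A (g * h) * t * (A (g * h))ᵀ = A g * (A h * t * (A h)ᵀ) * (A g)ᵀ
    rw [hm, transpose_mul]
    simp only [Matrix.mul_assoc]

theorem conj_apply (A : G → Matrix ι ι ℂ) (h1 : A 1 = 1) (hm : ∀ g h, A (g * h) = A g * A h)
    (g : G) (t : Matrix ι ι ℂ) : conj A h1 hm g t = A g * t * (A g)ᵀ := rfl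

/-- transposition -/
noncomputable def tr : Matrix ι ι ℂ →ₗ[ℂ] Matrix ι ι ℂ where
  toFun t := tᵀ
  map_add' s t := transpose_add s t
  map_smul' c t := transpose_smul c t

omit [DecidableEq ι] in
theorem trace_tr_conj (A : Matrix ι ι ℂ) (f : Matrix ι ι ℂ →ₗ[ℂ] Matrix ι ι ℂ)
    (hf : ∀ t, f t = (A * t * Aᵀ)ᵀ) :
    LinearMap.trace ℂ _ f = Matrix.trace (A * A) := by
  classical
  rw [LinearMap.trace_eq_matrix_trace ℂ (Matrix.stdBasis ℂ ι ι), Matrix.trace,
    Fintype.sum_prod_type, Matrix.trace]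
  refine Finset.sum_congr rfl fun i _ => ?_
  rw [Matrix.diag_apply, Matrix.mul_apply]
  refine Finset.sum_congr rfl fun j _ => ?_
  rw [Matrix.diag_apply, LinearMap.toMatrix_apply, hf, Matrix.stdBasis_eq_single]
  have h1 : ∀ M : Matrix ι ι ℂ, ((Matrix.stdBasis ℂ ι ι).repr M) (i, j) = M i j := by
    intro M
    conv_lhs => rw [Matrix.matrix_eq_sum_single M]
    simp only [map_sum, Finsupp.coe_finset_sum, Finset.sum_apply]
    rw [Finset.sum_eq_single i, Finset.sum_eq_single j]
    · have h2 : Matrix.single i j (M i j) = M i j • (Matrix.stdBasis ℂ ι ι) (i, j) := by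
        rw [Matrix.stdBasis_eq_single, Matrix.smul_single, smul_eq_mul, mul_one]
      rw [h2, map_smul, Module.Basis.repr_self, Finsupp.smul_apply, Finsupp.single_eq_same,
        smul_eq_mul, mul_one]
    · intro l _ hl
      have h2 : Matrix.single i l (M i l) = M i l • (Matrix.stdBasis ℂ ι ι) (i, l) := by
        rw [Matrix.stdBasis_eq_single, Matrix.smul_single, smul_eq_mul, mul_one]
      rw [h2, map_smul, Module.Basis.repr_self, Finsupp.smul_apply,
        Finsupp.single_eq_of_ne (by simp [Ne.symm hl]), smul_zero]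
    · intro h; exact absurd (Finset.mem_univ j) h
    · intro l _ hl
      refine Finset.sum_eq_zero fun l' _ => ?_
      have h2 : Matrix.single l l' (M l l') = M l l' • (Matrix.stdBasis ℂ ι ι) (l, l') := by
        rw [Matrix.stdBasis_eq_single, Matrix.smul_single, smul_eq_mul, mul_one]
      rw [h2, map_smul, Module.Basis.repr_self, Finsupp.smul_apply,
        Finsupp.single_eq_of_ne (by simp [Ne.symm hl]), smul_zero]
    · intro h; exact absurd (Finset.mem_univ i) h
  rw [h1, Matrix.transpose_apply, Matrix.mul_apply, Finset.sum_eq_single j]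
  · rw [Matrix.mul_single_apply_same, Matrix.transpose_apply]
    ring
  · intro l _ hl
    rw [Matrix.mul_single_apply_of_ne _ _ _ _ _ hl, zero_mul]
  · intro h; exact absurd (Finset.mem_univ j) h

/-- The Frobenius-Schur count of symmetric invariants. -/
theorem sym_count [Fintype G] (A : G → Matrix ι ι ℂ) (h1 : A 1 = 1)
    (hm : ∀ g h, A (g * h) = A g * A h) :
    ∑ g, (Matrix.trace (A g * A g)).re ≤
      Fintype.card G * (2 * (Module.finrank ℂ (symInv A) : ℝ)) := by
  classical
  have hG : (Fintype.card G : ℂ) ≠ 0 := by exact_mod_cast Fintype.card_ne_zero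
  let _inst : Invertible (Fintype.card G : ℂ) := invertibleOfNonzero hG
  set ρ := conj A h1 hm with hρ
  set P := ρ.averageMap with hP
  have hproj := Representation.isProj_averageMap ρ
  -- the projection to the symmetric invariants
  set e : Matrix ι ι ℂ →ₗ[ℂ] Matrix ι ι ℂ := (1 / 2 : ℂ) • (P + tr ∘ₗ P) with he
  have hinv : ∀ t g, A g * P t * (A g)ᵀ = P t := by
    intro t g
    exact (hproj.map_mem t) g
  have heproj : LinearMap.IsProj (symInv A) e := by
    constructor
    · intro t
      constructor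
      · show ((1 / 2 : ℂ) • (P t + (P t)ᵀ))ᵀ = (1 / 2 : ℂ) • (P t + (P t)ᵀ)
        rw [transpose_smul, transpose_add, transpose_transpose, add_comm]
      · intro g
        show A g * ((1 / 2 : ℂ) • (P t + (P t)ᵀ)) * (A g)ᵀ = (1 / 2 : ℂ) • (P t + (P t)ᵀ)
        rw [Matrix.mul_smul, Matrix.smul_mul, Matrix.mul_add, Matrix.add_mul, hinv]
        congr 2
        have h2 := congrArg Matrix.transpose (hinv t g)
        rw [transpose_mul, transpose_mul, transpose_transpose, ← Matrix.mul_assoc] at h2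
        exact h2
    · rintro t ⟨ht1, ht2⟩
      have h2 : P t = t := hproj.map_id t (fun g => ht2 g)
      show (1 / 2 : ℂ) • (P t + (P t)ᵀ) = t
      rw [h2, ht1, ← two_smul ℂ t, smul_smul]
      norm_num
  have h3 := heproj.trace
  have h4 := hproj.trace
  have h5 : LinearMap.trace ℂ _ (tr ∘ₗ P) =
      (Fintype.card G : ℂ)⁻¹ * ∑ g, Matrix.trace (A g * A g) := by
    have h6 : tr ∘ₗ P = (Fintype.card G : ℂ)⁻¹ • ∑ g, tr ∘ₗ ρ g := by
      rw [hP, Representation.averageMap, GroupAlgebra.average]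
      refine LinearMap.ext fun t => ?_
      simp [map_sum]
    rw [h6, map_smul, map_sum, smul_eq_mul]
    congr 1
    refine Finset.sum_congr rfl fun g _ => ?_
    exact trace_tr_conj (A g) _ fun t => rfl
  rw [he, map_smul, map_add, h4, h5] at h3
  have h6 := congrArg Complex.re h3
  rw [smul_eq_mul, show (1 / 2 : ℂ) = (((1 / 2 : ℝ)) : ℂ) by push_cast; rfl,
    Complex.re_ofReal_mul, Complex.add_re, Complex.natCast_re, Complex.natCast_re,
    show (Fintype.card G : ℂ)⁻¹ = (((Fintype.card G : ℝ)⁻¹ : ℝ) : ℂ) by push_cast; rfl,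
    Complex.re_ofReal_mul, Complex.re_sum] at h6
  have h7 : (0 : ℝ) < Fintype.card G := by exact_mod_cast Fintype.card_pos
  have h8 : (0 : ℝ) ≤ Module.finrank ℂ ρ.invariants := Nat.cast_nonneg _
  have h9 : (Fintype.card G : ℝ)⁻¹ * ∑ g, (Matrix.trace (A g * A g)).re ≤
      2 * (Module.finrank ℂ (symInv A) : ℝ) := by
    rw [← h6]
    linarith
  rw [inv_mul_le_iff₀ h7] at h9
  exact h9

end Pool.Agent.X213.Two
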